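import Pool.Agent.H637R3.DF.Stm

namespace H637F

private lemma ARC_cyc (X Y Z : V3) : det3 X Y Z = det3 Z X Y := by
  unfold det3
  ring

private lemma ARC_OO : Hyp OO := by
  unfold Hyp mink OO
  norm_num

theorem ARC (hNIN : S_NIN) (hMONO : S_MONO) (hMGR : S_MGR) : S_ARC := by
  intro M b X h
  obtain ⟨_, _, hM⟩ := hMGR M h.good
  have h1 : ∀ n, 1 ≤ n → SReg M X n OO := by
    intro n hn
    induction n, hn using Nat.le_induction with
    | base =>
      have := hNIN M b X h 0
      rwa [h.x0] at this
    | succ n hn ih => exact (hMONO M b X h n hn OO ARC_OO).2 ih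
  refine ⟨h1, ?_, ?_⟩
  · intro k hk
    have hkM : k < M k := by have := hM k hk; omega
    have := h1 k hk k le_rfl hkM.le
    unfold nx at this
    rw [if_pos hkM, ARC_cyc] at this
    exact this
  · intro n hn
    have hnM : n < M n := by have := hM n hn; omega
    have := h1 n hn (M n) hnM.le le_rfl
    unfold nx at this
    rw [if_neg (lt_irrefl _), ARC_cyc] at this
    exact this

end H637F
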