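import Pool.Agent.H637R3.DF.Stm

namespace H637F

theorem BND_pp (t : ℕ) : ‖pp t‖ ≤ 1 := by
  unfold pp
  split_ifs <;> simp

theorem BND (hPAR : S_PAR) (hMMG : S_MMG) : S_BND := by
  intro ty G r c hT hR hE h2 hG
  have key : ∀ k, ‖c k‖ + 2 * r k ≤ 4 := by
    intro k
    induction k using Nat.strong_induction_on with
    | _ k ih =>
    have near : ‖c k - pp (ty k)‖ ≤ 1 / 10 → ‖c k‖ + 2 * r k ≤ 4 := by
      intro h
      have h1 : ‖c k‖ ≤ ‖c k - pp (ty k)‖ + ‖pp (ty k)‖ := by
        calc ‖c k‖ = ‖(c k - pp (ty k)) + pp (ty k)‖ := by rw [sub_add_cancel]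
          _ ≤ _ := norm_add_le _ _
      have h3 := BND_pp (ty k)
      have h4 := hR.le1 k
      linarith
    rcases Nat.lt_or_ge k 3 with hk | hk
    · exact near (h2 k (by omega))
    obtain ⟨j, rfl⟩ : ∃ j, k = j + 1 := ⟨k - 1, by omega⟩
    obtain ⟨p1, p2, p3, -⟩ := hPAR MM hMMG j (by omega)
    set n := par MM j with hn
    by_cases hgc : GC G n (j + 1)
    · apply near
      rcases hgc with ⟨-, h⟩ | ⟨a1, a2, a3, a4⟩ | ⟨a1, a2, a3, a4⟩
      · omega
      · have h := (hT.left1 n a1 a2 (j - MM n) (by omega)).1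
        have e : MM n + (j - MM n) = j := by omega
        rw [e] at h
        exact (hG j h).2
      · rcases Nat.lt_or_ge (j + 1) (MM (n + 1)) with hlt | hge
        · have h := (hT.right1 n a1 a2 (MM (n + 1) - (j + 1)) (by omega) (by omega)).1
          have e : MM (n + 1) - (MM (n + 1) - (j + 1)) = j + 1 := by omega
          rw [e] at h
          exact (hG _ h).1
        · have hJ : 1 < JJ n := by
            unfold JJ
            rw [if_neg (by omega)]
            have : 0 < 2 ^ n := by positivity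
            nlinarith
          have h := (hT.right1 n a1 a2 1 (le_refl _) hJ).1
          have e : MM (n + 1) - 1 = j := by omega
          rw [e] at h
          exact (hG _ h).2
    · have hr := hR.ngc n (j + 1) (by omega) (by omega) hgc
      have hF : (n, j, j + 1) ∈ FF MM := ⟨n, j, j + 1, ⟨n, Or.inl ⟨j, p1, p2, rfl⟩⟩, Or.inl rfl⟩
      have hd := (hE n j (j + 1) hF).2.2.1
      have h1 : ‖c (j + 1)‖ ≤ ‖c n - c (j + 1)‖ + ‖c n‖ := by
        calc ‖c (j + 1)‖ = ‖c n - (c n - c (j + 1))‖ := by rw [sub_sub_cancel]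
          _ ≤ ‖c n‖ + ‖c n - c (j + 1)‖ := norm_sub_le _ _
          _ = _ := add_comm _ _
      have h3 := ih n (by omega)
      have h4 := hR.pos n
      rw [hd] at h1
      linarith
  refine ⟨4, fun n => ?_⟩
  have h1 := key n
  have h2 := hR.pos n
  linarith

end H637F
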