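import Pool.Agent.H637R3.DF.Stm

namespace H637F

open Real

theorem BR_cramer (A B X Y Z P : V3) : det3 X Y Z * det3 A B P =
    det3 Y Z P * det3 A B X + det3 Z X P * det3 A B Y + det3 X Y P * det3 A B Z := by
  obtain ⟨a1, a2, a3⟩ := A
  obtain ⟨b1, b2, b3⟩ := B
  obtain ⟨x1, x2, x3⟩ := X
  obtain ⟨y1, y2, y3⟩ := Y
  obtain ⟨z1, z2, z3⟩ := Z
  obtain ⟨p1, p2, p3⟩ := P
  simp only [det3]
  ring

theorem BR_self1 (A B : V3) : det3 A B A = 0 := by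
  obtain ⟨a1, a2, a3⟩ := A
  obtain ⟨b1, b2, b3⟩ := B
  simp only [det3]
  ring

theorem BR_self2 (A B : V3) : det3 A B B = 0 := by
  obtain ⟨a1, a2, a3⟩ := A
  obtain ⟨b1, b2, b3⟩ := B
  simp only [det3]
  ring

/-- the other two vertices of a face of block `n` lie on the polygon `n + 1`. -/
theorem BR_range (M : ℕ → ℕ) (hM : StrictMono M) (h1 : ∀ n, n + 1 ≤ M n) (n y z : ℕ)
    (h : (n, y, z) ∈ BF M) : (n + 1 ≤ y ∧ y ≤ M (n + 1)) ∧ (n + 1 ≤ z ∧ z ≤ M (n + 1)) := by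
  obtain ⟨m, h | h⟩ := h
  · obtain ⟨j, hj1, hj2, hj3⟩ := h
    simp only [Prod.mk.injEq] at hj3
    obtain ⟨rfl, rfl, rfl⟩ := hj3
    have := h1 n
    omega
  · simp only [Prod.mk.injEq] at h
    obtain ⟨rfl, rfl, rfl⟩ := h
    have h2 := h1 n
    have h3 := hM (Nat.lt_succ_self n)
    have h4 : M n < M (n + 1) := h3
    omega

theorem BR (hNIN : S_NIN) (hCVX : S_CVX) (hMGR : S_MGR) : S_BR := by
  intro M b X hX n y z hf P hP
  obtain ⟨hM, h1, -⟩ := hMGR M hX.good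
  obtain ⟨⟨hy1, hy2⟩, hz1, hz2⟩ := BR_range M hM h1 n y z hf
  have hff : (n, y, z) ∈ FF M := ⟨n, y, z, hf, Or.inl rfl⟩
  have hD : 0 < det3 (X n) (X y) (X z) := (hX.tri n y z hff).2.2.2
  have hcv := hCVX M b X hX (n + 1) (by omega)
  have hnin := hNIN M b X hX n
  have hpos : ∀ k, n + 1 ≤ k → k ≤ M (n + 1) → ∀ l, n + 1 ≤ l → l ≤ M (n + 1) →
      0 ≤ det3 (X k) (X (nx M (n + 1) k)) (X l) := by
    intro k hk1 hk2 l hl1 hl2
    by_cases e1 : l = k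
    · rw [e1, BR_self1]
    · by_cases e2 : l = nx M (n + 1) k
      · rw [e2, BR_self2]
      · exact (hcv k hk1 hk2 l hl1 hl2 e1 e2).le
  constructor
  · rintro ⟨i1, i2, i3⟩ k hk1 hk2
    have hc := BR_cramer (X k) (X (nx M (n + 1) k)) (X n) (X y) (X z) P
    have a1 := mul_nonneg i2 (hnin k hk1 hk2).le
    have a2 := mul_nonneg i3 (hpos k hk1 hk2 y hy1 hy2)
    have a3 := mul_nonneg i1 (hpos k hk1 hk2 z hz1 hz2)
    have a4 : 0 ≤ det3 (X n) (X y) (X z) * det3 (X k) (X (nx M (n + 1) k)) P := by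
      rw [hc]; linarith
    exact nonneg_of_mul_nonneg_right a4 hD
  · rintro ⟨i1, i2, i3⟩ k hk1 hk2
    have hc := BR_cramer (X k) (X (nx M (n + 1) k)) (X n) (X y) (X z) P
    have a1 := mul_pos i2 (hnin k hk1 hk2)
    have a2 := mul_nonneg i3.le (hpos k hk1 hk2 y hy1 hy2)
    have a3 := mul_nonneg i1.le (hpos k hk1 hk2 z hz1 hz2)
    have a4 : 0 < det3 (X n) (X y) (X z) * det3 (X k) (X (nx M (n + 1) k)) P := by
      rw [hc]; linarith
    exact pos_of_mul_pos_right a4 hD.le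

end H637F
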