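import Pool.Agent.H637R3.DF.Stm

set_option autoImplicit false

namespace H637F

theorem CEL_anti (Y Z : V3) : det3 OO Z Y = - det3 OO Y Z := by
  unfold det3
  ring

theorem CEL_JJ (n : ℕ) (hn : 1 ≤ n) : 1 ≤ JJ n := by
  unfold JJ
  rw [if_neg (by omega)]
  have : 0 < 10 ^ 6 * 2 ^ n := by positivity
  omega

theorem CEL (hLOSS : S_LOSS) (hMGR : S_MGR) : S_CEL := by
  intro b X r c ty G φ hL hP hφ n hn hCE
  obtain ⟨hm1, hm2, hm3⟩ := hMGR MM hL.good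
  have hMn := hm2 n
  obtain ⟨hG, hB1, hB2⟩ : G (n - 1) ∧ Btw φ (X (MM n)) (X n) := by
    rcases hCE with ⟨_, h1, _⟩ | ⟨_, _, _, h1, h2⟩
    · omega
    · exact ⟨h1, h2⟩
  have hMM : MM (n + 1) = MM n + (8 * JJ n + 50) := rfl
  have hJ := CEL_JJ n (by omega)
  have h1 := ((hLOSS MM b X hL n (JJ n) (by omega) hJ (by omega)).2.2 φ
    (hφ.2.2.2 n (by omega))).2 hB2
  have e0 : MM n + JJ n = MM n + (JJ n - 1) + 1 := by omega
  rw [e0] at h1
  have hex : ∃ i, 0 ≤ det3 OO (DD φ) (X (MM n + i + 1)) := ⟨JJ n - 1, h1⟩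
  classical
  obtain ⟨i, hi, hmin⟩ : ∃ i, 0 ≤ det3 OO (DD φ) (X (MM n + i + 1)) ∧
      ∀ m, m < i → ¬ 0 ≤ det3 OO (DD φ) (X (MM n + m + 1)) :=
    ⟨Nat.find hex, Nat.find_spec hex, fun m hm => Nat.find_min hex hm⟩
  have hiJ : i < JJ n := by
    by_contra hc
    exact hmin (JJ n - 1) (by omega) h1
  have hpos : ∀ m, m < i → 0 ≤ det3 OO (X (MM n + m + 1)) (DD φ) := by
    intro m hm
    have h2 := hmin m hm
    rw [CEL_anti]
    linarith
  have h3 : 0 ≤ det3 OO (X (MM n + i)) (DD φ) := by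
    by_cases h0 : i = 0
    · subst h0
      exact hB1
    · have h4 := hpos (i - 1) (by omega)
      have e1 : MM n + (i - 1) + 1 = MM n + i := by omega
      rw [e1] at h4
      exact h4
  exact ⟨i, hiJ, Or.inl ⟨by omega, by omega, rfl, (hP.left1 n hn hG i hiJ).1, h3, hi⟩,
    ⟨h3, hi⟩, fun h5 => ⟨hpos 0 (by omega), hB2⟩⟩

end H637F
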