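import Pool.Agent.H637R3.DF.Stm

set_option autoImplicit false

namespace H637F

theorem CER_anti (Y Z : V3) : det3 OO Z Y = - det3 OO Y Z := by
  unfold det3
  ring

theorem CER_JJ (n : ℕ) (hn : 1 ≤ n) : 1 ≤ JJ n := by
  unfold JJ
  rw [if_neg (by omega)]
  have : 0 < 10 ^ 6 * 2 ^ n := by positivity
  omega

theorem CER (hLOSS : S_LOSS) (hMGR : S_MGR) : S_CER := by
  intro b X r c ty G φ hL hP hφ n hn hCE
  obtain ⟨hm1, hm2, hm3⟩ := hMGR MM hL.good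
  have hMn := hm2 n
  obtain ⟨hG, hB1, hB2⟩ : G n ∧ Btw φ (X n) (X (n + 1)) := by
    rcases hCE with ⟨_, _, _, h1, h2⟩ | ⟨_, h1, _⟩
    · exact ⟨h1, h2⟩
    · omega
  have hMM : MM (n + 1) = MM n + (8 * JJ n + 50) := rfl
  have hJ := CER_JJ n hn
  have h1 := ((hLOSS MM b X hL n (JJ n) hn hJ (by omega)).2.2 φ (hφ.2.2.2 n hn)).1 hB1
  have hex : ∃ i, 1 ≤ i ∧ 0 ≤ det3 OO (X (MM (n + 1) + 1 - i)) (DD φ) := ⟨JJ n, hJ, h1⟩
  classical
  obtain ⟨i, ⟨hi1, hi2⟩, hmin⟩ : ∃ i, (1 ≤ i ∧ 0 ≤ det3 OO (X (MM (n + 1) + 1 - i)) (DD φ)) ∧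
      ∀ m, m < i → ¬ (1 ≤ m ∧ 0 ≤ det3 OO (X (MM (n + 1) + 1 - m)) (DD φ)) :=
    ⟨Nat.find hex, Nat.find_spec hex, fun m hm => Nat.find_min hex hm⟩
  have hiJ : i ≤ JJ n := by
    by_contra hc
    exact hmin (JJ n) (by omega) ⟨hJ, h1⟩
  have hneg : ∀ m, m < i → 1 ≤ m → 0 ≤ det3 OO (DD φ) (X (MM (n + 1) + 1 - m)) := by
    intro m hm hm1
    have h2 := hmin m hm
    rw [CER_anti]
    by_contra hc
    exact h2 ⟨hm1, by linarith⟩
  by_cases hi : i = 1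
  · subst hi
    left
    have e : MM (n + 1) + 1 - 1 = MM (n + 1) := by omega
    rw [e] at hi2
    exact ⟨Or.inr ⟨by omega, rfl, rfl, hG, hi2, hB2⟩, hi2, hB2⟩
  · right
    have e1 : MM (n + 1) + 1 - i = MM (n + 1) - (i - 1) := by omega
    have e2 : MM (n + 1) + 1 - (i - 1) = MM (n + 1) - (i - 1) + 1 := by omega
    have h3 := hneg (i - 1) (by omega) (by omega)
    have h4 := hneg 1 (by omega) le_rfl
    rw [e1] at hi2
    rw [e2] at h3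
    have e3 : MM (n + 1) + 1 - 1 = MM (n + 1) := by omega
    rw [e3] at h4
    refine ⟨i - 1, by omega, by omega, Or.inl ⟨by omega, by omega, rfl, ?_, hi2, h3⟩,
      ⟨hi2, h3⟩, hB1, h4⟩
    exact (hP.right1 n hn hG (i - 1) (by omega) (by omega)).1

end H637F
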