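import Pool.Agent.H637R3.DF.Stm

/-! DF project, task CLOSEE: closing up a euclidean flower. -/

set_option autoImplicit false

namespace H637F

open Real

theorem CLOSEE_polar (x z : ℂ) (ρ : ℝ) (h : ‖x - z‖ = ρ) :
    z = x + ((ρ : ℝ) : ℂ) * Complex.exp (((Complex.arg (z - x) : ℝ) : ℂ) * Complex.I) := by
  have h1 := Complex.norm_mul_exp_arg_mul_I (z - x)
  rw [norm_sub_rev] at h
  rw [h] at h1
  rw [h1]
  ring

theorem CLOSEE (hLAWE1 : S_LAWE1) (hLAWE2 : S_LAWE2) : S_CLOSEE := by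
  intro x u β r s hr hβ hs hET ⟨k, hk⟩
  set θ : ℝ := Complex.arg (u 0 - x) with hθ
  have h0 : u 0 = x + ((r + β 0 : ℝ) : ℂ) * Complex.exp ((θ : ℂ) * Complex.I) :=
    CLOSEE_polar x (u 0) (r + β 0) (hET 0 (by omega)).1
  have key : ∀ i, i ≤ s → u i = x + ((r + β i : ℝ) : ℂ) *
      Complex.exp (((θ + ∑ j ∈ Finset.range i, ea r (β j) (β (j + 1)) : ℝ) : ℂ) * Complex.I) := by
    intro i
    induction i with
    | zero =>
      intro _
      rw [Finset.sum_range_zero, add_zero]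
      exact h0
    | succ i ih =>
      intro hi
      have h1 := ih (by omega)
      have h2 := hET i (by omega)
      rw [h1] at h2
      have h3 := hLAWE2 x (u (i + 1)) r (β i) (β (i + 1)) _ hr (hβ i (by omega)) (hβ (i + 1) hi) h2
      rw [h3, Finset.sum_range_succ, add_assoc]
  have h1 := key s le_rfl
  have h2 := (hLAWE1 x r (β s) (β 0) (θ + ∑ j ∈ Finset.range s, ea r (β j) (β (j + 1))) hr
    (hβ s le_rfl) (hβ 0 (by omega))).2.2
  rw [← h1] at h2
  have h3 : x + ((r + β 0 : ℝ) : ℂ) *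
      Complex.exp (((θ + ∑ j ∈ Finset.range s, ea r (β j) (β (j + 1)) + ea r (β s) (β 0) : ℝ) : ℂ) *
        Complex.I) = u 0 := by
    rw [add_assoc, hk]
    conv_rhs => rw [h0]
    congr 2
    rw [show (((θ + 2 * π * (k : ℝ) : ℝ) : ℂ)) * Complex.I =
      (θ : ℂ) * Complex.I + (k : ℂ) * (2 * π * Complex.I) by push_cast; ring]
    exact Complex.exp_periodic.int_mul k _
  rw [h3] at h2
  exact h2

end H637F
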