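import Pool.Agent.H637R3.DF.Stm

namespace H637F

open Real

theorem CLOSEH_pol (X E F : V3) (C S : ℝ) (k : ℤ) :
    pol X E F C S (2 * π * k) = pol X E F C S 0 := by
  unfold pol
  have h1 : Real.cos (2 * π * k) = Real.cos 0 := by
    rw [Real.cos_zero, mul_comm]
    exact Real.cos_int_mul_two_pi k
  have h2 : Real.sin (2 * π * k) = Real.sin 0 := by
    rw [Real.sin_zero]
    have : 2 * π * k = ((2 * k : ℤ) : ℝ) * π := by push_cast; ring
    rw [this]
    exact Real.sin_int_mul_pi _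
  rw [h1, h2]

theorem CLOSEH (hLAWH1 : S_LAWH1) (hLAWH2 : S_LAWH2) (hFRAME : S_FRAME) : S_CLOSEH := by
  intro X u β r s hX hr0 hr1 hu hs hHT hsum
  obtain ⟨k, hk⟩ := hsum
  obtain ⟨hu0, hb0, hb1⟩ := hu 0 (Nat.zero_le _)
  obtain ⟨E, F, hF, h0⟩ := hFRAME X (u 0) r (β 0) hX hu0 hr0 hr1 hb0 hb1 (hHT 0 (by omega)).1
  have key : ∀ i, i ≤ s → u i = pol X E F (Ch r (β i)) (Sh r (β i))
      (∑ j ∈ Finset.range i, ha r (β j) (β (j + 1))) := by
    intro i
    induction i with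
    | zero =>
      intro _
      rw [Finset.range_zero, Finset.sum_empty]
      exact h0
    | succ i ih =>
      intro hi
      have h1 := ih (by omega)
      obtain ⟨_, hi0, hi1⟩ := hu i (by omega)
      obtain ⟨hZ, hj0, hj1⟩ := hu (i + 1) hi
      have h2 := hHT i (by omega)
      rw [h1] at h2
      rw [Finset.sum_range_succ]
      exact hLAWH2 X E F (u (i + 1)) r (β i) (β (i + 1)) _ hF hX.2 hZ hr0 hr1 hi0 hi1 hj0 hj1 h2
  obtain ⟨_, hs0, hs1⟩ := hu s le_rfl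
  have h3 := (hLAWH1 X E F r (β s) (β 0) (∑ j ∈ Finset.range s, ha r (β j) (β (j + 1)))
    hF hX.2 hr0 hr1 hs0 hs1 hb0 hb1).2.2.2
  rw [← key s le_rfl, hk, CLOSEH_pol, ← h0] at h3
  exact h3

end H637F
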