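import Pool.Agent.H637R3.DF.Stm

/-!
Task COV: the faces cover the hyperbolic plane.
-/

namespace H637F

open Real

/-- `cosh(R+S)^2 - cosh(R)^2 = sinh(S) (sinh(S) + 2 cosh(R+S) sinh(R))`. -/
theorem COV_id (a b : ℝ) (ha : 0 < a) (hb : 0 < b) :
    Ch a b ^ 2 - cR a ^ 2 = sR b * (sR b + 2 * Ch a b * sR a) := by
  unfold Ch cR sR
  field_simp
  ring

theorem COV_cs (a : ℝ) (ha : 0 < a) : cR a ^ 2 = 1 + sR a ^ 2 := by
  unfold cR sR
  field_simp
  ring

/-- the inequality for the point of the segment. -/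
theorem COV_ineq (a b al be : ℝ) (ha : 0 < a) (ha1 : a < 1) (hb : 0 < b) (hb1 : b < 1)
    (hal : 0 ≤ al) (hbe : 0 ≤ be) (h : be * sR b ≤ al * sR a) :
    (al + be * Ch a b) ^ 2 ≤ cR a ^ 2 * (al ^ 2 + be ^ 2 + 2 * al * be * Ch a b) := by
  have hid := COV_id a b ha hb
  have hcs := COV_cs a ha
  have hsa : 0 < sR a := by
    unfold sR
    have : a ^ 2 < 1 := by nlinarith
    apply div_pos <;> linarith
  have hsb : 0 < sR b := by
    unfold sR
    have : b ^ 2 < 1 := by nlinarith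
    apply div_pos <;> linarith
  have hC : 0 < Ch a b := by unfold Ch; positivity
  have h1 : be ^ 2 * sR b ^ 2 ≤ al ^ 2 * sR a ^ 2 := by
    have := mul_self_le_mul_self (by positivity) h
    nlinarith
  have h2 : be * (2 * Ch a b * sR a) * (be * sR b) ≤ be * (2 * Ch a b * sR a) * (al * sR a) :=
    mul_le_mul_of_nonneg_left h (by positivity)
  have h3 : cR a ^ 2 * (al ^ 2 + be ^ 2 + 2 * al * be * Ch a b) - (al + be * Ch a b) ^ 2 =
      al ^ 2 * sR a ^ 2 + be * (2 * Ch a b * sR a) * (al * sR a) -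
        be ^ 2 * (Ch a b ^ 2 - cR a ^ 2) := by
    rw [hcs]; ring
  rw [hid] at h3
  nlinarith

/-- lower bound for the hyperbolic cosine of the distance. -/
theorem COV_low (V P : V3) (hV : Hyp V) (hP : Hyp P) : V.2.2 ≤ 2 * P.2.2 * (-mink V P) := by
  obtain ⟨hV1, hV2⟩ := hV
  obtain ⟨hP1, hP2⟩ := hP
  obtain ⟨x1, y1, t1⟩ := V
  obtain ⟨x2, y2, t2⟩ := P
  unfold mink at *
  simp only at *
  by_contra hcon
  push Not at hcon
  -- w = x1 x2 + y1 y2
  have hw : t1 * (2 * t2 ^ 2 - 1) < 2 * t2 * (x1 * x2 + y1 * y2) := by nlinarith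
  have ht2 : 1 ≤ t2 ^ 2 := by nlinarith [sq_nonneg x2, sq_nonneg y2]
  have h0 : 0 ≤ t1 * (2 * t2 ^ 2 - 1) := by
    apply mul_nonneg hV2.le; linarith
  have hsq : (t1 * (2 * t2 ^ 2 - 1)) ^ 2 < (2 * t2 * (x1 * x2 + y1 * y2)) ^ 2 :=
    pow_lt_pow_left₀ hw h0 (by norm_num)
  have hcs : (x1 * x2 + y1 * y2) ^ 2 ≤ (x1 ^ 2 + y1 ^ 2) * (x2 ^ 2 + y2 ^ 2) := by
    nlinarith [sq_nonneg (x1 * y2 - x2 * y1)]
  have e1 : x1 ^ 2 + y1 ^ 2 = t1 ^ 2 - 1 := by nlinarith
  have e2 : x2 ^ 2 + y2 ^ 2 = t2 ^ 2 - 1 := by nlinarith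
  rw [e1, e2] at hcs
  have h3 : (2 * t2 * (x1 * x2 + y1 * y2)) ^ 2 ≤ 4 * t2 ^ 2 * ((t1 ^ 2 - 1) * (t2 ^ 2 - 1)) := by
    have : (2 * t2 * (x1 * x2 + y1 * y2)) ^ 2 = 4 * t2 ^ 2 * (x1 * x2 + y1 * y2) ^ 2 := by ring
    rw [this]
    exact mul_le_mul_of_nonneg_left hcs (by positivity)
  have h4 : 4 * t2 ^ 2 * ((t1 ^ 2 - 1) * (t2 ^ 2 - 1)) ≤ (t1 * (2 * t2 ^ 2 - 1)) ^ 2 := by
    have : (t1 * (2 * t2 ^ 2 - 1)) ^ 2 - 4 * t2 ^ 2 * ((t1 ^ 2 - 1) * (t2 ^ 2 - 1)) =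
      t1 ^ 2 + 4 * t2 ^ 2 * (t2 ^ 2 - 1) := by ring
    have h5 : 0 ≤ t2 ^ 2 * (t2 ^ 2 - 1) := mul_nonneg (by positivity) (by linarith)
    nlinarith [sq_nonneg t1]
  linarith

/-- bound for the vertex. -/
theorem COV_vert (V P : V3) (ga β : ℝ) (hV : Hyp V) (hP : Hyp P) (hga : 0 < ga) (hβ : 0 < β)
    (h : (-mink V (P + ga • OO)) ^ 2 ≤ cR β ^ 2 * (-mink (P + ga • OO) (P + ga • OO))) :
    V.2.2 ≤ 2 * P.2.2 ^ 2 * cR β := by
  have h1 := COV_low V P hV hP
  have hc : 0 < cR β := by unfold cR; positivity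
  have ht : 1 ≤ P.2.2 := by
    have := hP.1
    have h2 := hP.2
    unfold mink at this
    nlinarith [sq_nonneg P.1, sq_nonneg P.2.1]
  have e1 : -mink V (P + ga • OO) = -mink V P + ga * V.2.2 := by
    unfold mink OO
    simp only [Prod.fst_add, Prod.snd_add, Prod.smul_fst, Prod.smul_snd, smul_eq_mul]
    ring
  have e2 : -mink (P + ga • OO) (P + ga • OO) = 1 + 2 * ga * P.2.2 + ga ^ 2 := by
    have h3 := hP.1
    unfold mink at h3
    unfold mink OO
    simp only [Prod.fst_add, Prod.snd_add, Prod.smul_fst, Prod.smul_snd, smul_eq_mul]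
    linear_combination (-1) * h3
  rw [e1, e2] at h
  have h4 : 1 + 2 * ga * P.2.2 + ga ^ 2 ≤ ((1 + ga) * P.2.2) ^ 2 := by
    have h41 : P.2.2 ≤ P.2.2 ^ 2 := by nlinarith
    have h42 : 1 ≤ P.2.2 ^ 2 := by nlinarith
    have h43 : 2 * ga * P.2.2 ≤ 2 * ga * P.2.2 ^ 2 := by nlinarith
    have h44 : ga ^ 2 * 1 ≤ ga ^ 2 * P.2.2 ^ 2 := mul_le_mul_of_nonneg_left h42 (sq_nonneg _)
    nlinarith
  have h5 : (-mink V P + ga * V.2.2) ^ 2 ≤ (cR β * ((1 + ga) * P.2.2)) ^ 2 := by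
    rw [mul_pow]
    exact le_trans h (mul_le_mul_of_nonneg_left h4 (by positivity))
  have hVt := hV.2
  have h6 : -mink V P + ga * V.2.2 ≤ cR β * ((1 + ga) * P.2.2) :=
    le_trans (le_abs_self _) (abs_le_of_sq_le_sq h5 (by positivity))
  -- multiply by 2 P.t
  have h7 : V.2.2 * (1 + 2 * P.2.2 * ga) ≤ 2 * P.2.2 ^ 2 * cR β * (1 + ga) := by
    nlinarith
  have h8 : V.2.2 * (1 + ga) ≤ 2 * P.2.2 ^ 2 * cR β * (1 + ga) := by
    refine le_trans (mul_le_mul_of_nonneg_left ?_ hVt.le) h7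
    nlinarith
  exact le_of_mul_le_mul_right h8 (by linarith)

theorem COV_lin (X Y P Q : V3) (g : ℝ) :
    det3 X Y (P + g • Q) = det3 X Y P + g * det3 X Y Q := by
  unfold det3
  simp only [Prod.fst_add, Prod.snd_add, Prod.smul_fst, Prod.smul_snd, smul_eq_mul]
  ring

theorem COV_cramer (A B C Q : V3) (hD : det3 A B C ≠ 0) (h0 : det3 A B Q = 0) :
    Q = (det3 B C Q / det3 A B C) • A + (-det3 A C Q / det3 A B C) • B := by
  have key : det3 A B C • Q = det3 B C Q • A + (-det3 A C Q) • B + det3 A B Q • C := by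
    obtain ⟨a1, a2, a3⟩ := A
    obtain ⟨b1, b2, b3⟩ := B
    obtain ⟨c1, c2, c3⟩ := C
    obtain ⟨q1, q2, q3⟩ := Q
    unfold det3
    simp only [Prod.smul_mk, Prod.mk_add_mk, smul_eq_mul, Prod.mk.injEq]
    refine ⟨?_, ?_, ?_⟩ <;> ring
  rw [h0, zero_smul, add_zero] at key
  have h1 : Q = (det3 A B C)⁻¹ • (det3 A B C • Q) := by
    rw [smul_smul, inv_mul_cancel₀ hD, one_smul]
  rw [key, smul_add, smul_smul, smul_smul] at h1
  rw [div_eq_inv_mul, div_eq_inv_mul]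
  exact h1

/-- a point on the segment line with non-negative coefficients. -/
theorem COV_coef (A B C D Q : V3) (hD : 0 < det3 A B C) (h0 : det3 A B Q = 0)
    (h1 : 0 ≤ det3 B C Q) (hD' : 0 < det3 D A B) (h2 : 0 ≤ det3 D A Q) :
    ∃ al be : ℝ, 0 ≤ al ∧ 0 ≤ be ∧ Q = al • A + be • B := by
  have h := COV_cramer A B C Q hD.ne' h0
  refine ⟨_, _, div_nonneg h1 hD.le, ?_, h⟩
  set be := -det3 A C Q / det3 A B C with hbe
  have h3 : det3 D A Q = be * det3 D A B := by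
    rw [h]
    unfold det3
    simp only [Prod.fst_add, Prod.snd_add, Prod.smul_fst, Prod.smul_snd, smul_eq_mul]
    ring
  rw [h3] at h2
  by_contra hneg
  push Not at hneg
  nlinarith

theorem COV_min (A B : V3) (al be C : ℝ) (hA : Hyp A) (hB : Hyp B) (h : mink A B = -C) :
    -mink A (al • A + be • B) = al + be * C ∧
    -mink (al • A + be • B) (al • A + be • B) = al ^ 2 + be ^ 2 + 2 * al * be * C := by
  have h1 := hA.1
  have h2 := hB.1
  unfold mink at *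
  simp only [Prod.fst_add, Prod.snd_add, Prod.smul_fst, Prod.smul_snd, smul_eq_mul]
  constructor
  · linear_combination (-al) * h1 - be * h
  · linear_combination (-al ^ 2) * h1 - be ^ 2 * h2 - 2 * al * be * h

/-- one of the endpoints is close. -/
theorem COV_seg (A B P : V3) (ga a b al be : ℝ) (hA : Hyp A) (hB : Hyp B) (hP : Hyp P)
    (hga : 0 < ga) (ha : 0 < a) (ha1 : a < 1) (hb : 0 < b) (hb1 : b < 1)
    (h : mink A B = -Ch a b) (hal : 0 ≤ al) (hbe : 0 ≤ be)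
    (hQ : P + ga • OO = al • A + be • B) :
    A.2.2 ≤ 2 * P.2.2 ^ 2 * cR a ∨ B.2.2 ≤ 2 * P.2.2 ^ 2 * cR b := by
  rcases le_total (be * sR b) (al * sR a) with hc | hc
  · left
    apply COV_vert A P ga a hA hP hga ha
    have h1 := COV_min A B al be _ hA hB h
    rw [hQ, h1.1, h1.2]
    exact COV_ineq a b al be ha ha1 hb hb1 hal hbe hc
  · right
    apply COV_vert B P ga b hB hP hga hb
    have h' : mink B A = -Ch b a := by
      have e1 : mink B A = mink A B := by unfold mink; ring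
      have e2 : Ch b a = Ch a b := by unfold Ch; ring
      rw [e1, e2, h]
    have h1 := COV_min B A be al _ hB hA h'
    rw [hQ, add_comm (al • A), h1.1, h1.2]
    exact COV_ineq b a be al hb hb1 ha ha1 hbe hal hc

theorem COV (hR1 : S_R1) (hRS : S_RS) (hPACKF : S_PACKF) (hARC : S_ARC) (hCVX : S_CVX)
    (hMGR : S_MGR) : S_COV := by
  intro M b X hH P hP
  by_contra hcon
  have hnf : ∀ n y z, (n, y, z) ∈ BF M → ¬ InT (X n) (X y) (X z) P := fun n y z h hi =>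
    hcon ⟨n, y, z, ⟨n, y, z, h, Or.inl rfl⟩, hi⟩
  have hnr : ∀ n, 1 ≤ n → ¬ Reg M X n P := by
    intro n hn
    induction n, hn using Nat.le_induction with
    | base =>
      intro h
      obtain ⟨y, z, h1, h2⟩ := hR1 M b X hH P hP h
      exact hnf _ _ _ h1 h2
    | succ n hn ih =>
      intro h
      rcases hRS M b X hH n hn P hP h with h1 | ⟨y, z, h1, h2⟩
      · exact ih h1
      · exact hnf _ _ _ h1 h2
  have hb8 : ∀ m, b m < 1 := fun m => lt_of_le_of_lt (hH.ble m) (by norm_num)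
  have hM := (hMGR M hH.good).2.2
  have hmain : ∀ n, 1 ≤ n → ∃ v, n ≤ v ∧ (X v).2.2 ≤ 2 * P.2.2 ^ 2 * cR (b v) := by
    intro n hn
    have hMn := hM n hn
    have hnx : ∀ k, n ≤ k → k ≤ M n → n ≤ nx M n k ∧ nx M n k ≤ M n := by
      intro k h1 h2
      unfold nx
      split_ifs <;> omega
    have hO : ∀ k, n ≤ k → k ≤ M n → 0 < det3 (X k) (X (nx M n k)) OO := (hARC M b X hH).1 n hn
    have hreg := hnr n hn
    unfold Reg at hreg
    push Not at hreg
    obtain ⟨k0, hk0a, hk0b, hk0⟩ := hreg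
    obtain ⟨k, hk, hmax⟩ := Finset.exists_max_image (Finset.Icc n (M n))
      (fun k => -det3 (X k) (X (nx M n k)) P / det3 (X k) (X (nx M n k)) OO)
      ⟨k0, Finset.mem_Icc.mpr ⟨hk0a, hk0b⟩⟩
    rw [Finset.mem_Icc] at hk
    obtain ⟨hk1, hk2⟩ := hk
    set ga := -det3 (X k) (X (nx M n k)) P / det3 (X k) (X (nx M n k)) OO with hga
    have hgapos : 0 < ga := by
      refine lt_of_lt_of_le ?_ (hmax k0 (Finset.mem_Icc.mpr ⟨hk0a, hk0b⟩))
      exact div_pos (by linarith) (hO k0 hk0a hk0b)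
    set Q := P + ga • OO with hQ
    have hQ0 : det3 (X k) (X (nx M n k)) Q = 0 := by
      rw [hQ, COV_lin, hga, div_mul_cancel₀ _ (hO k hk1 hk2).ne']
      ring
    have hQ1 : ∀ j, n ≤ j → j ≤ M n → 0 ≤ det3 (X j) (X (nx M n j)) Q := by
      intro j hj1 hj2
      rw [hQ, COV_lin]
      have h1 := hmax j (Finset.mem_Icc.mpr ⟨hj1, hj2⟩)
      rw [div_le_iff₀ (hO j hj1 hj2)] at h1
      linarith
    -- neighbours
    obtain ⟨hk2a, hk2b⟩ := hnx k hk1 hk2
    obtain ⟨hk3a, hk3b⟩ := hnx (nx M n k) hk2a hk2b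
    obtain ⟨k', hk'a, hk'b, hk'⟩ : ∃ k', n ≤ k' ∧ k' ≤ M n ∧ nx M n k' = k := by
      by_cases h : k = n
      · refine ⟨M n, by omega, le_rfl, ?_⟩
        unfold nx
        rw [if_neg (lt_irrefl _)]
        exact h.symm
      · refine ⟨k - 1, by omega, by omega, ?_⟩
        unfold nx
        rw [if_pos (by omega)]
        omega
    have hcv := hCVX M b X hH n hn
    have hD : 0 < det3 (X k) (X (nx M n k)) (X (nx M n (nx M n k))) := by
      apply hcv k hk1 hk2 _ hk3a hk3b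
      · unfold nx
        split_ifs <;> omega
      · unfold nx
        split_ifs <;> omega
    have hD' : 0 < det3 (X k') (X k) (X (nx M n k)) := by
      have := hcv k' hk'a hk'b (nx M n k) hk2a hk2b
      rw [hk'] at this
      apply this
      · have h3 := hk'
        unfold nx at h3 ⊢
        split_ifs at h3 ⊢ <;> omega
      · unfold nx
        split_ifs <;> omega
    have h3 := hQ1 k' hk'a hk'b
    rw [hk'] at h3
    obtain ⟨al, be, hal, hbe, hQe⟩ := COV_coef (X k) (X (nx M n k)) (X (nx M n (nx M n k))) (X k') Q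
      hD hQ0 (hQ1 _ hk2a hk2b) hD' h3
    -- tangency
    have htan : mink (X k) (X (nx M n k)) = -Ch (b k) (b (nx M n k)) := by
      by_cases h : k < M n
      · have e : nx M n k = k + 1 := by unfold nx; rw [if_pos h]
        rw [e]
        exact (hH.tri k (M (k + 1)) (k + 1)
          ⟨k, M (k + 1), k + 1, ⟨k, Or.inr rfl⟩, Or.inl rfl⟩).2.2.1
      · have e : nx M n k = n := by unfold nx; rw [if_neg h]
        have e2 : k = M n := by omega
        obtain ⟨m, rfl⟩ : ∃ m, n = m + 1 := ⟨n - 1, by omega⟩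
        rw [e, e2]
        exact (hH.tri m (M (m + 1)) (m + 1)
          ⟨m, M (m + 1), m + 1, ⟨m, Or.inr rfl⟩, Or.inl rfl⟩).2.1
    rcases COV_seg (X k) (X (nx M n k)) P ga (b k) (b (nx M n k)) al be (hH.hyp _) (hH.hyp _) hP
      hgapos (hH.bpos _) (hb8 _) (hH.bpos _) (hb8 _) htan hal hbe hQe with h | h
    · exact ⟨k, hk1, h⟩
    · exact ⟨nx M n k, hk2a, h⟩
  -- conclusion
  have hfin := hPACKF M b X hH (2 * P.2.2 ^ 2)
  obtain ⟨B, hB⟩ := hfin.bddAbove
  obtain ⟨v, hv1, hv2⟩ := hmain (B + 1) (by omega)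
  have := hB (show v ∈ {v : ℕ | (X v).2.2 ≤ 2 * P.2.2 ^ 2 * cR (b v)} from hv2)
  omega

end H637F
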