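import Pool.Agent.H637R3.DF.Stm

namespace H637F

theorem CVX_iot {M : ℕ → ℕ} {n : ℕ} (hn : 1 ≤ n) : 2 ≤ iot M n := by
  unfold iot
  split_ifs <;> omega

theorem CVX_w0 {M : ℕ → ℕ} {n : ℕ} (hn : 1 ≤ n) : w M n 0 = n + 1 := by
  have h := CVX_iot (M := M) hn
  unfold w
  rw [if_pos (by omega)]
  unfold inn
  by_cases h1 : n = 1
  · simp [h1]
  · simp [h1]

theorem CVX_wj (M : ℕ → ℕ) (n j : ℕ) : w M n (iot M n + j) = M n + j := by
  unfold w
  rw [if_neg (by omega)]
  congr 1
  omega

theorem CVX_det_a (X Y : V3) : det3 X Y Y = 0 := by unfold det3; ring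

theorem CVX_det_b (X Y : V3) : det3 X Y X = 0 := by unfold det3; ring

/-- two new vertices and an outer edge of the flower of `n` -/
theorem CVX_new (hFLOWC : S_FLOWC) {M : ℕ → ℕ} {b : ℕ → ℝ} {X : ℕ → V3} (h : HL M b X) {n : ℕ}
    (k l : ℕ) (hk : M n ≤ k) (hk2 : k < M (n + 1)) (hl : M n ≤ l) (hl2 : l ≤ M (n + 1))
    (h1 : l ≠ k) (h2 : l ≠ k + 1) : 0 < det3 (X k) (X (k + 1)) (X l) := by
  have hd : deg M n = iot M n + (M (n + 1) - M n + 1) := rfl
  have hmod : (iot M n + (k - M n) + 1) % deg M n = iot M n + (k + 1 - M n) := by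
    rw [Nat.mod_eq_of_lt (by omega)]
    omega
  have h3 := hFLOWC M b X h n (iot M n + (k - M n)) (iot M n + (l - M n)) (by omega) (by omega)
    (by omega) (by rw [hmod]; omega)
  rw [hmod, CVX_wj, CVX_wj, CVX_wj] at h3
  rw [show M n + (k - M n) = k by omega, show M n + (k + 1 - M n) = k + 1 by omega,
    show M n + (l - M n) = l by omega] at h3
  exact h3

/-- a new vertex and the closing edge -/
theorem CVX_last (hFLOWC : S_FLOWC) {M : ℕ → ℕ} {b : ℕ → ℝ} {X : ℕ → V3} (h : HL M b X) {n : ℕ}
    (hn : 1 ≤ n) (l : ℕ) (hl : M n ≤ l) (hl2 : l < M (n + 1)) :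
    0 < det3 (X (M (n + 1))) (X (n + 1)) (X l) := by
  have hd : deg M n = iot M n + (M (n + 1) - M n + 1) := rfl
  have hi := CVX_iot (M := M) hn
  have hmod : (iot M n + (M (n + 1) - M n) + 1) % deg M n = 0 := by
    rw [show iot M n + (M (n + 1) - M n) + 1 = deg M n by omega, Nat.mod_self]
  have h3 := hFLOWC M b X h n (iot M n + (M (n + 1) - M n)) (iot M n + (l - M n)) (by omega)
    (by omega) (by omega) (by rw [hmod]; omega)
  rw [hmod, CVX_wj, CVX_wj, CVX_w0 hn] at h3
  rw [show M n + (M (n + 1) - M n) = M (n + 1) by omega,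
    show M n + (l - M n) = l by omega] at h3
  exact h3

theorem CVX (hCVX1 : S_CVX1) (hCVXA : S_CVXA) (hCVXB : S_CVXB) (hCVXC : S_CVXC)
    (hFLOWC : S_FLOWC) (hMGR : S_MGR) : S_CVX := by
  intro M b X h n hn
  obtain ⟨-, -, hM2⟩ := hMGR M h.good
  induction n, hn using Nat.le_induction with
  | base => exact hCVX1 M b X h
  | succ n hn ih =>
    have hMn := hM2 n hn
    have hstep := h.good.step n
    intro k hk1 hk2 l hl1 hl2 hlk hln
    have hB := hCVXB M b X h n hn ih
    by_cases hkM : k < M (n + 1)
    · have hnx : nx M (n + 1) k = k + 1 := by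
        unfold nx
        rw [if_pos hkM]
      rw [hnx] at hln ⊢
      rcases lt_trichotomy k (M n) with hk | hk | hk
      · have hnx' : nx M n k = k + 1 := by
          unfold nx
          rw [if_pos hk]
        by_cases hl : l ≤ M n
        · have := ih k (by omega) hk.le l (by omega) hl hlk (by rw [hnx']; exact hln)
          rw [hnx'] at this
          exact this
        · exact hCVXC M b X h n hn ih k (by omega) hk l (by omega) hl2
      · by_cases hl : l < M n
        · rw [hk]
          exact hB.1 l (by omega) hl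
        · exact CVX_new hFLOWC h k l (by omega) hkM (by omega) hl2 hlk hln
      · by_cases hl : l ≤ M n
        · refine hCVXA M b X h n hn (X l) (h.hyp l) ?_ ?_ k hk hkM
          · by_cases hl3 : l = n + 1
            · rw [hl3, CVX_det_a]
            · have hnx' : nx M n n = n + 1 := by
                unfold nx
                rw [if_pos (by omega)]
              have := ih n le_rfl (by omega) l (by omega) hl (by omega) (by rw [hnx']; exact hl3)
              rw [hnx'] at this
              exact this.le
          · by_cases hl3 : l = M n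
            · rw [hl3, CVX_det_b]
            · have hnx' : nx M n (M n) = n := by
                unfold nx
                rw [if_neg (by omega)]
              have := ih (M n) (by omega) le_rfl l (by omega) hl hl3 (by rw [hnx']; omega)
              rw [hnx'] at this
              exact this.le
        · exact CVX_new hFLOWC h k l (by omega) hkM (by omega) hl2 hlk hln
    · have hkeq : k = M (n + 1) := by omega
      have hnx : nx M (n + 1) k = n + 1 := by
        unfold nx
        rw [if_neg hkM]
      rw [hnx] at hln ⊢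
      rw [hkeq] at hlk ⊢
      by_cases hl : l ≤ M n
      · exact hB.2 l (by omega) hl hln
      · exact CVX_last hFLOWC h hn l (by omega) (by omega)

end H637F
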