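import Pool.Agent.H637R3.DF.Stm

namespace H637F

theorem CVX1 (hFLOWC : S_FLOWC) (hMGR : S_MGR) : S_CVX1 := by
  intro M b X hL k hk1 hk2 l hl1 hl2 hlk hln
  have hM0 := hL.good.zero
  have hM1 : 50 ≤ M 1 := by
    have := hL.good.step 0
    rw [zero_add] at this
    omega
  have hiot : iot M 0 = 0 := by simp [iot]
  have hdeg : deg M 0 = M 1 := by
    unfold deg
    rw [hiot, hM0, show (0 : ℕ) + 1 = 1 from rfl]
    omega
  have hw : ∀ i, w M 0 i = 1 + i := by
    intro i
    unfold w
    rw [hiot, hM0]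
    simp
  have hnx : w M 0 ((k - 1 + 1) % deg M 0) = nx M 1 k := by
    rw [hw, hdeg, Nat.sub_add_cancel hk1]
    unfold nx
    by_cases h : k < M 1
    · rw [if_pos h, Nat.mod_eq_of_lt h]
      omega
    · have : k = M 1 := by omega
      rw [if_neg h, this, Nat.mod_self]
  have h1 := hFLOWC M b X hL 0 (k - 1) (l - 1) (by rw [hdeg]; omega) (by rw [hdeg]; omega)
    (by omega) (by
      intro h
      apply hln
      rw [← hnx, ← h, hw]
      omega)
  rw [hnx, hw, hw, show 1 + (k - 1) = k by omega, show 1 + (l - 1) = l by omega] at h1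
  exact h1

end H637F
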