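import Pool.Agent.H637R3.DF.Stm

namespace H637F

open Real

theorem CVXA_det (X E F : V3) (C S C' S' a c : ℝ) (h : det3 X E F = 1) :
    det3 X (pol X E F C S a) (pol X E F C' S' c) = S * S' * Real.sin (c - a) := by
  have h1 : det3 X (pol X E F C S a) (pol X E F C' S' c)
      = S * S' * (Real.cos a * Real.sin c - Real.sin a * Real.cos c) * det3 X E F := by
    simp only [det3, pol, Prod.fst_add, Prod.snd_add, Prod.smul_fst, Prod.smul_snd, smul_eq_mul]
    ring
  rw [h1, h, Real.sin_sub]; ring

theorem CVXA_cyc (X Y Z : V3) : det3 X Y Z = det3 Y Z X := by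
  simp only [det3]; ring

theorem CVXA (hPOLN : S_POLN) (hPOLANY : S_POLANY) (hDETG : S_DETG) (hHAB : S_HAB)
    (hMGR : S_MGR) : S_CVXA := by
  intro M b X H n hn P hP hd1 hd2 j hj1 hj2
  obtain ⟨hMs, hMl, hMl2⟩ := hMGR M H.good
  obtain ⟨E, F, θ, hF, h0, h2π, hst, hpos⟩ := hPOLN M b X H n
  have hgap : M n + 50 ≤ M (n + 1) := H.good.step n
  have hdeg : deg M n = iot M n + (M (n + 1) - M n + 1) := rfl
  have hiot : 2 ≤ iot M n ∧ iot M n ≤ 4 := by
    unfold iot
    split_ifs <;> omega
  have hbn := H.bpos n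
  have hbl := H.ble n
  have hha : ∀ s t : ℕ, 1.96 * b n ≤ ha (b n) (b s) (b t) ∧ ha (b n) (b s) (b t) ≤ 2.02 * b n :=
    fun s t => hHAB _ _ _ hbn hbl (H.bpos s) (H.ble s) (H.bpos t) (H.ble t)
  have hup : ∀ i, i < deg M n → θ i < θ (i + 1) ∧ θ (i + 1) ≤ θ i + 2.02 * b n := by
    intro i hi
    have h1 := hst i hi
    have h2 := hha (w M n i) (w M n ((i + 1) % deg M n))
    constructor
    · rw [h1]; nlinarith [h2.1]
    · rw [h1]; linarith [h2.2]
  have hmono : ∀ k i, i ≤ k → k ≤ deg M n → θ i ≤ θ k := by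
    intro k
    induction k with
    | zero => intro i hi _; have : i = 0 := by omega
              rw [this]
    | succ k ih =>
      intro i hi hk
      rcases Nat.lt_or_ge i (k + 1) with h | h
      · have h1 := ih i (by omega) (by omega)
        have h2 := (hup k (by omega)).1
        linarith
      · have : i = k + 1 := by omega
        rw [this]
  have hub : ∀ k, k ≤ deg M n → θ k ≤ k * (2.02 * b n) := by
    intro k
    induction k with
    | zero => intro _; rw [h0]; simp
    | succ k ih =>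
      intro hk
      have h1 := ih (by omega)
      have h2 := (hup k (by omega)).2
      push_cast
      linarith
  have hpi := Real.pi_gt_three
  -- angle of M n
  have hPh0 : 0 < θ (iot M n) := by
    have h1 := (hup 0 (by omega)).1
    have h2 := hmono (iot M n) 1 (by omega) (by omega)
    rw [h0] at h1
    simp only [zero_add] at h1
    linarith
  have hPh1 : θ (iot M n) ≤ 1.01 := by
    have h1 := hub (iot M n) (by omega)
    have h2 : ((iot M n : ℕ) : ℝ) ≤ 4 := by exact_mod_cast hiot.2
    have h3 : (0 : ℝ) ≤ ((iot M n : ℕ) : ℝ) := by positivity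
    nlinarith
  have hw0 : w M n 0 = n + 1 := by
    unfold w inn
    rw [if_pos (by omega)]
    split_ifs <;> omega
  have hwo : ∀ i, w M n (iot M n + i) = M n + i := by
    intro i
    unfold w
    rw [if_neg (by omega)]
    omega
  have hX1 := hpos 0 (by omega)
  rw [hw0, h0] at hX1
  have hXM := hpos (iot M n) (by omega)
  have hwi : w M n (iot M n) = M n := by
    have := hwo 0
    simpa using this
  rw [hwi] at hXM
  have hdet1 : det3 (X n) E F = 1 := hF.2.2.2.2.2.2
  have hSh : ∀ k, 0 < Sh (b n) (b k) := by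
    intro k
    have h1 := H.bpos k
    have h2 := H.ble k
    unfold Sh
    apply div_pos
    · have h3 : b n ^ 2 ≤ 1 / 64 := by nlinarith
      have h4 : b k ^ 2 ≤ 1 / 64 := by nlinarith
      have h5 : 0 ≤ b n ^ 2 := by positivity
      have h6 : 0 ≤ b k ^ 2 := by positivity
      nlinarith
    · positivity
  -- polar coordinates of P
  have hpolar : ∃ S ph : ℝ, 0 ≤ S ∧ 0 ≤ ph ∧ ph ≤ θ (iot M n) ∧
      P = pol (X n) E F (√(1 + S ^ 2)) S ph := by
    obtain ⟨S, ph, hS, hph0, hph1, hPe⟩ := hPOLANY (X n) E F P hF (H.hyp n).2 hP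
    rcases hS.eq_or_lt with hS0 | hSp
    · refine ⟨S, 0, hS, le_refl _, hPh0.le, ?_⟩
      rw [hPe, ← hS0]
      simp [pol]
    · refine ⟨S, ph, hS, hph0, ?_, hPe⟩
      rw [hX1, hPe, CVXA_det _ _ _ _ _ _ _ _ _ hdet1, sub_zero] at hd1
      rw [CVXA_cyc, hXM, hPe, CVXA_det _ _ _ _ _ _ _ _ _ hdet1] at hd2
      have h1 := hSh (n + 1)
      have h2 := hSh (M n)
      have hs1 : 0 ≤ Real.sin ph := by
        by_contra hneg
        push Not at hneg
        have := mul_pos h1 hSp
        nlinarith
      have hs2 : 0 ≤ Real.sin (θ (iot M n) - ph) := by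
        by_contra hneg
        push Not at hneg
        have := mul_pos hSp h2
        nlinarith
      have hphpi : ph ≤ π := by
        by_contra hneg
        push Not at hneg
        have h3 : Real.sin (ph - 2 * π) < 0 :=
          Real.sin_neg_of_neg_of_neg_pi_lt (by linarith) (by linarith)
        rw [Real.sin_sub_two_pi] at h3
        linarith
      by_contra hneg
      push Not at hneg
      have h3 : Real.sin (θ (iot M n) - ph) < 0 :=
        Real.sin_neg_of_neg_of_neg_pi_lt (by linarith) (by linarith)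
      linarith
  obtain ⟨S, ph, hS, hph0, hph1, hPe⟩ := hpolar
  obtain ⟨i, rfl⟩ : ∃ i, j = M n + i := ⟨j - M n, by omega⟩
  have hi1 : 1 ≤ i := by omega
  have hidx : iot M n + i + 2 ≤ deg M n := by omega
  have hXj := hpos (iot M n + i) (by omega)
  have hXj1 := hpos (iot M n + (i + 1)) (by omega)
  rw [hwo] at hXj hXj1
  have e0 := hst (iot M n + i) (by omega)
  have e1 := hst (iot M n + (i + 1)) (by omega)
  have e2 := hst (iot M n + (i - 1)) (by omega)
  have m0 : (iot M n + i + 1) % deg M n = iot M n + (i + 1) := by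
    rw [Nat.mod_eq_of_lt (by omega)]; omega
  have m2 : (iot M n + (i - 1) + 1) % deg M n = iot M n + i := by
    rw [Nat.mod_eq_of_lt (by omega)]; omega
  rw [m0, hwo, hwo] at e0
  rw [hwo] at e1
  rw [m2, hwo, hwo] at e2
  have r0 : iot M n + i + 1 = iot M n + (i + 1) := by omega
  have r2 : iot M n + (i - 1) + 1 = iot M n + i := by omega
  rw [r0] at e0
  rw [r2] at e2
  have hm1 : θ (iot M n + (i + 1) + 1) ≤ θ (deg M n) := hmono _ _ (by omega) le_rfl
  have hm2 : θ (iot M n) ≤ θ (iot M n + (i - 1)) := hmono _ _ (by omega) (by omega)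
  rw [h2π] at hm1
  have hC : S < √(1 + S ^ 2) := by
    apply Real.lt_sqrt_of_sq_lt
    linarith
  have key := hDETG (X n) E F (b n) (b (M n + i)) (b (M n + (i + 1)))
    (b (w M n ((iot M n + (i + 1) + 1) % deg M n))) (b (M n + (i - 1)))
    (√(1 + S ^ 2)) S (θ (iot M n + i)) (ph + 2 * π) hF hbn hbl (H.bpos _) (H.ble _)
    (H.bpos _) (H.ble _) (H.bpos _) (H.ble _) (H.bpos _) (H.ble _) hS hC
    (by linarith) (by linarith)
  have hper : pol (X n) E F (√(1 + S ^ 2)) S (ph + 2 * π) = P := by
    rw [hPe]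
    simp [pol, Real.cos_add_two_pi, Real.sin_add_two_pi]
  rw [hper, ← e0, ← hXj, ← hXj1] at key
  exact key

end H637F
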