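import Pool.Agent.H637R3.DF.Stm

namespace H637F

theorem CVXB_cyc (X Y Z : V3) : det3 X Y Z = det3 Y Z X := by
  unfold det3; ring

theorem CVXB_self (X Y : V3) : det3 X Y Y = 0 := by
  unfold det3; ring

theorem CVXB_id (V Y Z P W : V3) : det3 V Y Z * det3 V P W =
    det3 V P Z * det3 V Y W + det3 V Y P * det3 V Z W := by
  unfold det3; ring

theorem CVXB (hLOC : S_LOC) (hSEC : S_SEC) (hMGR : S_MGR) : S_CVXB := by
  intro M b X h n hn hc
  obtain ⟨-, -, hM3⟩ := hMGR M h.good
  have hMn := hM3 n hn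
  have hst := h.good.step n
  obtain ⟨hL1, hL2, -⟩ := hLOC M b X h
  have hk1 : nx M n (M n) = n := by unfold nx; rw [if_neg (by omega)]
  have hk2 : nx M n (M n - 1) = M n := by unfold nx; rw [if_pos (by omega)]; omega
  have hk3 : nx M n (n + 1) = n + 2 := by unfold nx; rw [if_pos (by omega)]
  have hk4 : nx M n n = n + 1 := by unfold nx; rw [if_pos (by omega)]
  -- the faces
  have hf1 : 0 < det3 (X n) (X (M n)) (X (M n + 1)) :=
    (h.tri n (M n) (M n + 1) ⟨n, M n, M n + 1, ⟨n, Or.inl ⟨M n, le_refl _, by omega, rfl⟩⟩,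
      Or.inl rfl⟩).2.2.2
  have hf2 : 0 < det3 (X n) (X (M (n + 1))) (X (n + 1)) :=
    (h.tri n (M (n + 1)) (n + 1) ⟨n, M (n + 1), n + 1, ⟨n, Or.inr rfl⟩, Or.inl rfl⟩).2.2.2
  constructor
  · intro l hl1 hl2
    have c1 : ∀ l, n ≤ l → l ≤ M n → l ≠ M n → l ≠ n → 0 < det3 (X (M n)) (X n) (X l) := by
      intro l h1 h2 h3 h4
      have := hc (M n) (by omega) (le_refl _) l h1 h2 h3 (by rw [hk1]; exact h4)
      rwa [hk1] at this
    have c2 : ∀ l, n ≤ l → l ≤ M n → l ≠ M n - 1 → l ≠ M n →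
        0 < det3 (X (M n)) (X l) (X (M n - 1)) := by
      intro l h1 h2 h3 h4
      have := hc (M n - 1) (by omega) (by omega) l h1 h2 h3 (by rw [hk2]; exact h4)
      rwa [hk2, CVXB_cyc] at this
    apply hSEC (X (M n)) (X n) (X (M n - 1)) (X (M n + 1)) (X l)
    · exact c1 (M n - 1) (by omega) (by omega) (by omega) (by omega)
    · by_cases hln : l = n
      · rw [hln, CVXB_self]
      · exact (c1 l hl1 (by omega) (by omega) hln).le
    · by_cases hlm : l = M n - 1
      · rw [hlm, CVXB_self]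
      · exact (c2 l hl1 (by omega) hlm (by omega)).le
    · rwa [CVXB_cyc] at hf1
    · have := hL1 (M n) (by omega)
      rwa [CVXB_cyc] at this
    · by_cases hln : l = n
      · exact Or.inr (c2 l hl1 (by omega) (by omega) (by omega))
      · exact Or.inl (c1 l hl1 (by omega) (by omega) hln)
  · intro l hl1 hl2 hl3
    have c1 : ∀ l, n ≤ l → l ≤ M n → l ≠ n + 1 → l ≠ n + 2 →
        0 < det3 (X (n + 1)) (X (n + 2)) (X l) := by
      intro l h1 h2 h3 h4
      have := hc (n + 1) (by omega) (by omega) l h1 h2 h3 (by rw [hk3]; exact h4)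
      rwa [hk3] at this
    have c2 : ∀ l, n ≤ l → l ≤ M n → l ≠ n → l ≠ n + 1 →
        0 < det3 (X (n + 1)) (X l) (X n) := by
      intro l h1 h2 h3 h4
      have := hc n (by omega) (by omega) l h1 h2 h3 (by rw [hk4]; exact h4)
      rwa [hk4, CVXB_cyc] at this
    have e1 := c1 n (le_refl _) (by omega) (by omega) (by omega)
    have e2 : 0 < det3 (X (n + 1)) (X (n + 2)) (X (M (n + 1))) := by
      have := hL2 n hn
      rwa [CVXB_cyc] at this
    have e3 : 0 < det3 (X (n + 1)) (X n) (X (M (n + 1))) := by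
      rw [CVXB_cyc] 
      exact hf2
    have e4 : 0 ≤ det3 (X (n + 1)) (X (n + 2)) (X l) := by
      by_cases hln : l = n + 2
      · rw [hln, CVXB_self]
      · exact (c1 l hl1 hl2 hl3 hln).le
    have e5 : 0 ≤ det3 (X (n + 1)) (X l) (X n) := by
      by_cases hln : l = n
      · rw [hln, CVXB_self]
      · exact (c2 l hl1 hl2 hln hl3).le
    have hid := CVXB_id (X (n + 1)) (X (n + 2)) (X n) (X l) (X (M (n + 1)))
    have hpos : 0 < det3 (X (n + 1)) (X l) (X n) * det3 (X (n + 1)) (X (n + 2)) (X (M (n + 1))) +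
        det3 (X (n + 1)) (X (n + 2)) (X l) * det3 (X (n + 1)) (X n) (X (M (n + 1))) := by
      by_cases hln : l = n
      · have := c1 l hl1 hl2 hl3 (by omega)
        have := mul_pos this e3
        have := mul_nonneg e5 e2.le
        linarith
      · have := c2 l hl1 hl2 hln hl3
        have := mul_pos this e2
        have := mul_nonneg e4 e3.le
        linarith
    rw [← hid] at hpos
    rw [CVXB_cyc]
    exact (mul_pos_iff_of_pos_left e1).mp hpos

end H637F
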