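import Pool.Agent.H637R3.DF.Stm

/-!
CVXC: old edges see the new vertices on the left.
-/

namespace H637F

open Real

theorem CVXC_lin (X Y P Q : V3) (α β : ℝ) :
    det3 X Y (α • P + β • Q) = α * det3 X Y P + β * det3 X Y Q := by
  simp only [det3, Prod.fst_add, Prod.snd_add, Prod.smul_fst, Prod.smul_snd, smul_eq_mul]
  ring

theorem CVXC_cyc (X Y Z : V3) : det3 X Y Z = det3 Y Z X := by
  simp only [det3]
  ring

theorem CVXC_alt1 (X Y : V3) : det3 X Y X = 0 := by
  simp only [det3]
  ring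

theorem CVXC_alt2 (X Y : V3) : det3 X Y Y = 0 := by
  simp only [det3]
  ring

theorem CVXC_cramer (a b c z : V3) :
    det3 a b c • z = det3 z b c • a + det3 a z c • b + det3 a b z • c := by
  refine Prod.ext ?_ (Prod.ext ?_ ?_)
  · simp only [det3, Prod.fst_add, Prod.snd_add, Prod.smul_fst, Prod.smul_snd, smul_eq_mul]
    ring
  · simp only [det3, Prod.fst_add, Prod.snd_add, Prod.smul_fst, Prod.smul_snd, smul_eq_mul]
    ring
  · simp only [det3, Prod.fst_add, Prod.snd_add, Prod.smul_fst, Prod.smul_snd, smul_eq_mul]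
    ring

theorem CVXC_pol {X E F : V3} (C S θ C' S' θ' : ℝ) (hF : Frame X E F) :
    det3 X (pol X E F C S θ) (pol X E F C' S' θ') = S * S' * Real.sin (θ' - θ) := by
  have h := hF.2.2.2.2.2.2
  have h1 : det3 X (pol X E F C S θ) (pol X E F C' S' θ') =
      S * S' * (Real.cos θ * Real.sin θ' - Real.sin θ * Real.cos θ') * det3 X E F := by
    simp only [det3, pol, Prod.fst_add, Prod.snd_add, Prod.smul_fst, Prod.smul_snd, smul_eq_mul]
    ring
  rw [h1, h, Real.sin_sub]
  ring

theorem CVXC_Sh {r s : ℝ} (hr : 0 < r) (hr' : r ≤ 1 / 8) (hs : 0 < s) (hs' : s ≤ 1 / 8) :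
    0 < Sh r s := by
  unfold Sh
  refine div_pos ?_ (by positivity)
  have h1 : r * s ≤ 1 / 8 := by nlinarith
  have h2 : 0 < r * s := by positivity
  nlinarith

theorem CVXC_iot (M : ℕ → ℕ) {n : ℕ} (hn : 1 ≤ n) : 2 ≤ iot M n ∧ iot M n ≤ 4 := by
  unfold iot
  split_ifs <;> omega

theorem CVXC_w0 (M : ℕ → ℕ) {n : ℕ} (hn : 1 ≤ n) : w M n 0 = n + 1 := by
  have h := (CVXC_iot M hn).1
  unfold w
  rw [if_pos (by omega)]
  unfold inn
  by_cases h1 : n = 1
  · rw [if_pos h1, if_pos rfl, h1]
  · rw [if_neg h1]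
    by_cases h2 : M (par M n) = n
    · rw [if_pos h2, if_pos rfl]
    · rw [if_neg h2, if_pos rfl]

theorem CVXC_wj (M : ℕ → ℕ) (n j : ℕ) : w M n (iot M n + j) = M n + j := by
  unfold w
  rw [if_neg (by omega)]
  congr 1
  omega

theorem CVXC_div {D : ℝ} (hD : D ≠ 0) {z p q : V3} {x y : ℝ} (h : D • z = x • p + y • q) :
    z = (x / D) • p + (y / D) • q := by
  calc z = D⁻¹ • (D • z) := by rw [smul_smul, inv_mul_cancel₀ hD, one_smul]
    _ = D⁻¹ • (x • p + y • q) := by rw [h]
    _ = (x / D) • p + (y / D) • q := by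
      rw [smul_add, smul_smul, smul_smul, inv_mul_eq_div, inv_mul_eq_div]

/-- the contradiction in the two cases -/
theorem CVXC_core {f L : V3 → ℝ} {B A : ℝ} {x y z p q : V3} {al be : ℝ}
    (hz : z = B • x + (-A) • y) (hz' : z = al • p + be • q)
    (hf : ∀ (α β : ℝ) (P Q : V3), f (α • P + β • Q) = α * f P + β * f Q)
    (hL : ∀ (α β : ℝ) (P Q : V3), L (α • P + β • Q) = α * L P + β * L Q)
    (hB : 0 < B) (hA : A < 0) (hfx : f x ≤ 0) (hfy : f y = 0) (hLx : 0 ≤ L x) (hLy : 0 < L y)
    (hp : 0 ≤ f p) (hq : 0 < f q) (hLp : L p = 0) (hLq : 0 < L q) (hal : 0 ≤ al) : False := by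
  have h1 : L z = B * L x + (-A) * L y := by rw [hz, hL]
  have h2 : L z = al * L p + be * L q := by rw [hz', hL]
  have h3 : f z = B * f x + (-A) * f y := by rw [hz, hf]
  have h4 : f z = al * f p + be * f q := by rw [hz', hf]
  have h5 : 0 < L z := by
    rw [h1]
    have e1 : 0 ≤ B * L x := mul_nonneg hB.le hLx
    have e2 : 0 < (-A) * L y := mul_pos (by linarith) hLy
    linarith
  have hbe : 0 < be := by
    rw [h2, hLp, mul_zero, zero_add] at h5
    by_contra hcon
    push Not at hcon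
    have := mul_nonneg (neg_nonneg.2 hcon) hLq.le
    linarith
  have h6 : 0 < f z := by
    rw [h4]
    have e1 : 0 ≤ al * f p := mul_nonneg hal hp
    have e2 : 0 < be * f q := mul_pos hbe hq
    linarith
  rw [h3, hfy, mul_zero, add_zero] at h6
  have := mul_nonneg hB.le (neg_nonneg.2 hfx)
  linarith

theorem CVXC (hCVXB : S_CVXB) (hFLOWC : S_FLOWC) (hPOLN : S_POLN) (hHAB : S_HAB)
    (hMGR : S_MGR) (hLOC : S_LOC) : S_CVXC := by
  intro M b X hHL n hn hC k hk1 hk2 u hu1 hu2
  have hG := hHL.good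
  have hM50 : n + 50 ≤ M n := (hMGR M hG).2.2 n hn
  have hstep := hG.step n
  by_contra hcon
  push Not at hcon
  obtain ⟨hio1, hio2⟩ := CVXC_iot M hn
  obtain ⟨l, hl1, hl2, hfl⟩ : ∃ l, n + 1 < l ∧ l < M n ∧
      det3 (X k) (X (k + 1)) (X l) = 0 := by
    by_cases hkn : k = n + 1
    · exact ⟨k + 1, by omega, by omega, CVXC_alt2 _ _⟩
    · exact ⟨k, by omega, hk2, CVXC_alt1 _ _⟩
  have nxM : nx M n (M n) = n := by
    unfold nx
    rw [if_neg (lt_irrefl _)]
  have nxk : ∀ i, i < M n → nx M n i = i + 1 := by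
    intro i hi
    unfold nx
    rw [if_pos hi]
  have hB1 : 0 < det3 (X (M n)) (X n) (X l) := by
    have := hC (M n) (by omega) le_rfl l (by omega) (by omega) (by omega) (by rw [nxM]; omega)
    rwa [nxM] at this
  have hB2 : 0 < det3 (X n) (X (n + 1)) (X l) := by
    have := hC n le_rfl (by omega) l (by omega) (by omega) (by omega)
      (by rw [nxk n (by omega)]; omega)
    rwa [nxk n (by omega)] at this
  have hfn : 0 < det3 (X k) (X (k + 1)) (X n) := by
    have := hC k (by omega) (by omega) n le_rfl (by omega) (by omega)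
      (by rw [nxk k hk2]; omega)
    rwa [nxk k hk2] at this
  have hfM : 0 ≤ det3 (X k) (X (k + 1)) (X (M n)) := by
    by_cases h : M n = k + 1
    · rw [h, CVXC_alt2]
    · have := hC k (by omega) (by omega) (M n) (by omega) le_rfl (by omega)
        (by rw [nxk k hk2]; exact h)
      rw [nxk k hk2] at this
      exact this.le
  have hfn1 : 0 ≤ det3 (X k) (X (k + 1)) (X (n + 1)) := by
    by_cases h : k = n + 1
    · rw [h, CVXC_alt1]
    · have := hC k (by omega) (by omega) (n + 1) (by omega) (by omega) (by omega)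
        (by rw [nxk k hk2]; omega)
      rw [nxk k hk2] at this
      exact this.le
  have hD : 0 < det3 (X (M n)) (X n) (X (n + 1)) := by
    rw [CVXC_cyc]
    exact (hLOC M b X hHL).2.2 n hn
  have hdeg : deg M n = iot M n + (M (n + 1) - M n + 1) := rfl
  obtain ⟨j, hj⟩ : ∃ j, u = M n + j := ⟨u - M n, by omega⟩
  have hj0 : 0 < j := by omega
  have hj1 : j ≤ M (n + 1) - M n := by omega
  have hwu : w M n (iot M n + j) = u := by rw [CVXC_wj, hj]
  have hwM : w M n (iot M n) = M n := by
    have := CVXC_wj M n 0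
    simpa using this
  -- the sides of the flower
  have hLu : 0 ≤ det3 (X (M n)) (X (M n + 1)) (X u) := by
    by_cases h : j = 1
    · rw [hj, h, CVXC_alt2]
    · have e1 : (iot M n + 1) % deg M n = iot M n + 1 := Nat.mod_eq_of_lt (by omega)
      have := hFLOWC M b X hHL n (iot M n) (iot M n + j) (by omega) (by omega) (by omega)
        (by rw [e1]; omega)
      rw [e1, hwM, CVXC_wj, hwu] at this
      exact this.le
  have hL2u : 0 ≤ det3 (X (M (n + 1))) (X (n + 1)) (X u) := by
    by_cases h : u = M (n + 1)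
    · rw [h, CVXC_alt1]
    · have e0 : iot M n + (M (n + 1) - M n) + 1 = deg M n := by omega
      have e1 : (iot M n + (M (n + 1) - M n) + 1) % deg M n = 0 := by rw [e0, Nat.mod_self]
      have e2 : w M n (iot M n + (M (n + 1) - M n)) = M (n + 1) := by
        rw [CVXC_wj]; omega
      have := hFLOWC M b X hHL n (iot M n + (M (n + 1) - M n)) (iot M n + j) (by omega) (by omega)
        (by omega) (by rw [e1]; omega)
      rw [e1, e2, CVXC_w0 M hn, hwu] at this
      exact this.le
  obtain ⟨hV1, hV2⟩ := hCVXB M b X hHL n hn hC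
  -- signs
  have hsign : det3 (X (M n)) (X n) (X u) < 0 ∨ det3 (X n) (X (n + 1)) (X u) < 0 := by
    obtain ⟨E, F, θ, hFr, hθ0, hθd, hθs, hθX⟩ := hPOLN M b X hHL n
    have hha : ∀ i, i < deg M n →
        0 < ha (b n) (b (w M n i)) (b (w M n ((i + 1) % deg M n))) ∧
        ha (b n) (b (w M n i)) (b (w M n ((i + 1) % deg M n))) ≤ 2.02 * (1 / 8) := by
      intro i _
      have h1 := hHAB (b n) (b (w M n i)) (b (w M n ((i + 1) % deg M n))) (hHL.bpos _) (hHL.ble _)
        (hHL.bpos _) (hHL.ble _) (hHL.bpos _) (hHL.ble _)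
      have h2 := hHL.bpos n
      have h3 := hHL.ble n
      constructor <;> linarith [h1.1, h1.2]
    have hmono : ∀ i d, 0 < d → i + d ≤ deg M n → θ i < θ (i + d) := by
      intro i d hd
      induction d with
      | zero => omega
      | succ d ih =>
        intro hle
        have h1 := hθs (i + d) (by omega)
        have h2 := (hha (i + d) (by omega)).1
        rw [← add_assoc, h1]
        rcases Nat.eq_zero_or_pos d with h3 | h3
        · subst h3
          simp only [add_zero] at h2 ⊢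
          linarith
        · have h4 := ih h3 (by omega)
          linarith
    have hup : ∀ i, i ≤ deg M n → θ i ≤ i * (2.02 * (1 / 8)) := by
      intro i
      induction i with
      | zero =>
        intro _
        rw [hθ0]
        simp
      | succ i ih =>
        intro hle
        rw [hθs i (by omega)]
        have h1 := ih (by omega)
        have h2 := (hha i (by omega)).2
        push_cast
        linarith
    have hΦ0 : 0 < θ (iot M n) := by
      have := hmono 0 (iot M n) (by omega) (by omega)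
      rwa [zero_add, hθ0] at this
    have hΦ1 : θ (iot M n) < π := by
      have h1 := hup (iot M n) (by omega)
      have h2 : (iot M n : ℝ) ≤ 4 := by exact_mod_cast hio2
      have h3 := Real.pi_gt_three
      nlinarith
    have hu0 : θ (iot M n) < θ (iot M n + j) := hmono _ j hj0 (by omega)
    have hu1' : θ (iot M n + j) < 2 * π := by
      have h1 := hmono (iot M n + j) (deg M n - (iot M n + j)) (by omega) (by omega)
      have h2 : iot M n + j + (deg M n - (iot M n + j)) = deg M n := by omega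
      rwa [h2, hθd] at h1
    have e0 := hθX 0 (by omega)
    have eM := hθX (iot M n) (by omega)
    have eu := hθX (iot M n + j) (by omega)
    rw [hwM] at eM
    rw [hwu] at eu
    rw [CVXC_w0 M hn] at e0
    have s0 := CVXC_Sh (hHL.bpos n) (hHL.ble n) (hHL.bpos (n + 1)) (hHL.ble (n + 1))
    have sM := CVXC_Sh (hHL.bpos n) (hHL.ble n) (hHL.bpos (M n)) (hHL.ble (M n))
    have su := CVXC_Sh (hHL.bpos n) (hHL.ble n) (hHL.bpos u) (hHL.ble u)
    by_cases hπ : θ (iot M n + j) ≤ π
    · left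
      have h1 : det3 (X (M n)) (X n) (X u) = - det3 (X n) (X (M n)) (X u) := by
        simp only [det3]
        ring
      rw [h1, eM, eu, CVXC_pol _ _ _ _ _ _ hFr]
      have h2 : 0 < Real.sin (θ (iot M n + j) - θ (iot M n)) :=
        Real.sin_pos_of_pos_of_lt_pi (by linarith) (by linarith)
      have := mul_pos (mul_pos sM su) h2
      linarith
    · right
      push Not at hπ
      rw [e0, eu, CVXC_pol _ _ _ _ _ _ hFr, hθ0, sub_zero]
      have h2 : 0 < Real.sin (θ (iot M n + j) - π) :=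
        Real.sin_pos_of_pos_of_lt_pi (by linarith) (by linarith)
      rw [Real.sin_sub_pi] at h2
      have := mul_pos (mul_pos s0 su) h2
      linarith
  -- the two cases
  obtain ⟨A1, hA1⟩ : ∃ A1, A1 = det3 (X (M n)) (X n) (X u) := ⟨_, rfl⟩
  obtain ⟨A2, hA2⟩ : ∃ A2, A2 = det3 (X n) (X (n + 1)) (X u) := ⟨_, rfl⟩
  obtain ⟨B1, hB1'⟩ : ∃ B1, B1 = det3 (X (M n)) (X n) (X l) := ⟨_, rfl⟩
  obtain ⟨B2, hB2'⟩ : ∃ B2, B2 = det3 (X n) (X (n + 1)) (X l) := ⟨_, rfl⟩
  obtain ⟨D, hD'⟩ : ∃ D, D = det3 (X (M n)) (X n) (X (n + 1)) := ⟨_, rfl⟩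
  rw [← hB1'] at hB1
  rw [← hB2'] at hB2
  rw [← hA1, ← hA2] at hsign
  rw [← hD'] at hD
  by_cases hcase : A1 < 0 ∧ A1 * B2 ≤ A2 * B1
  · obtain ⟨hA1n, hle⟩ := hcase
    obtain ⟨z, hz⟩ : ∃ z : V3, z = B1 • X u + (-A1) • X l := ⟨_, rfl⟩
    have g1z : det3 (X (M n)) (X n) z = 0 := by
      rw [hz, CVXC_lin, ← hA1, ← hB1']; ring
    have g2z : det3 z (X n) (X (n + 1)) = B1 * A2 + (-A1) * B2 := by
      rw [CVXC_cyc, hz, CVXC_lin, ← hA2, ← hB2']
    have hcr := CVXC_cramer (X (M n)) (X n) (X (n + 1)) z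
    rw [← hD', g1z, zero_smul, add_zero, g2z] at hcr
    have hz' : z = ((B1 * A2 + (-A1) * B2) / D) • X (M n) +
        (det3 (X (M n)) z (X (n + 1)) / D) • X n := CVXC_div hD.ne' hcr
    refine CVXC_core (f := fun P => det3 (X k) (X (k + 1)) P)
      (L := fun P => det3 (X (M n)) (X (M n + 1)) P) hz hz'
      (fun α β P Q => CVXC_lin _ _ _ _ _ _) (fun α β P Q => CVXC_lin _ _ _ _ _ _) hB1 hA1n hcon
      hfl hLu (hV1 l (by omega) hl2) hfM hfn (CVXC_alt1 _ _) (hV1 n le_rfl (by omega)) ?_
    refine div_nonneg ?_ hD.le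
    linarith
  · have hA2n : A2 < 0 ∧ A2 * B1 ≤ A1 * B2 := by
      rw [not_and_or] at hcase
      rcases hcase with h | h
      · push Not at h
        have h2 : A2 < 0 := by
          rcases hsign with h3 | h3
          · linarith
          · exact h3
        refine ⟨h2, ?_⟩
        have := mul_nonneg h hB2.le
        have := mul_pos (neg_pos.2 h2) hB1
        linarith
      · push Not at h
        refine ⟨?_, h.le⟩
        rcases hsign with h3 | h3
        · by_contra h4
          push Not at h4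
          have := mul_nonneg h4 hB1.le
          have := mul_pos (neg_pos.2 h3) hB2
          linarith
        · exact h3
    obtain ⟨hA2n, hle⟩ := hA2n
    obtain ⟨z, hz⟩ : ∃ z : V3, z = B2 • X u + (-A2) • X l := ⟨_, rfl⟩
    have g1z : det3 (X (M n)) (X n) z = B2 * A1 + (-A2) * B1 := by
      rw [hz, CVXC_lin, ← hA1, ← hB1']
    have g2z : det3 z (X n) (X (n + 1)) = 0 := by
      rw [CVXC_cyc, hz, CVXC_lin, ← hA2, ← hB2']; ring
    have hcr := CVXC_cramer (X (M n)) (X n) (X (n + 1)) z
    rw [← hD', g1z, g2z, zero_smul, zero_add] at hcr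
    have hz' : z = ((B2 * A1 + (-A2) * B1) / D) • X (n + 1) +
        (det3 (X (M n)) z (X (n + 1)) / D) • X n := CVXC_div hD.ne' (by rw [hcr, add_comm])
    refine CVXC_core (f := fun P => det3 (X k) (X (k + 1)) P)
      (L := fun P => det3 (X (M (n + 1))) (X (n + 1)) P) hz hz'
      (fun α β P Q => CVXC_lin _ _ _ _ _ _) (fun α β P Q => CVXC_lin _ _ _ _ _ _) hB2 hA2n hcon
      hfl hL2u (hV2 l (by omega) (by omega) (by omega)) hfn1 hfn (CVXC_alt2 _ _)
      (hV2 n le_rfl (by omega) (by omega)) ?_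
    refine div_nonneg ?_ hD.le
    linarith

end H637F
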