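import Pool.Agent.H637R3.DF.Stm

namespace H637F

open Real

theorem DETG_det (X E F : V3) (h : det3 X E F = 1) (c1 a1 b1 c2 a2 b2 c3 a3 b3 : ℝ) :
    det3 (c1 • X + (a1 • E + b1 • F)) (c2 • X + (a2 • E + b2 • F)) (c3 • X + (a3 • E + b3 • F))
      = c1 * (a2 * b3 - b2 * a3) - a1 * (c2 * b3 - b2 * c3) + b1 * (c2 * a3 - a2 * c3) := by
  obtain ⟨x1, x2, x3⟩ := X
  obtain ⟨e1, e2, e3⟩ := E
  obtain ⟨f1, f2, f3⟩ := F
  simp only [det3, Prod.smul_mk, Prod.mk_add_mk, smul_eq_mul] at h ⊢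
  linear_combination (c1 * (a2 * b3 - b2 * a3) - a1 * (c2 * b3 - b2 * c3) + b1 * (c2 * a3 - a2 * c3)) * h

theorem DETG_pol (X E F : V3) (h : det3 X E F = 1) (C1 S1 C2 S2 C S θ1 θ2 θ3 : ℝ) :
    det3 (pol X E F C1 S1 θ1) (pol X E F C2 S2 θ2) (pol X E F C S θ3)
      = C1 * S2 * S * sin (θ3 - θ2) - C2 * S1 * S * sin (θ3 - θ1) + C * S1 * S2 * sin (θ2 - θ1) := by
  have e : ∀ C S θ : ℝ, pol X E F C S θ = C • X + ((S * cos θ) • E + (S * sin θ) • F) := by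
    intro C S θ
    unfold pol
    rw [smul_add, smul_smul, smul_smul]
  rw [e, e, e, DETG_det X E F h, sin_sub, sin_sub, sin_sub]
  ring

theorem DETG_Sh (r s : ℝ) (hr : 0 < r) (hr1 : r ≤ 1 / 8) (hs : 0 < s) (hs1 : s ≤ 1 / 8) :
    0 < Sh r s := by
  unfold Sh
  apply div_pos _ (by positivity)
  have h1 : r * s ≤ 1 / 8 * (1 / 8) := mul_le_mul hr1 hs1 hs.le (by norm_num)
  have h2 : 0 < r * s := mul_pos hr hs
  nlinarith

theorem DETG (hGINE : S_GINE) (hHAB : S_HAB) : S_DETG := by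
  intro X E F r s t u v C S θ θ' hF hr hr1 hs hs1 ht ht1 hu hu1 hv hv1 hS hSC h1 h2
  have hdet : det3 X E F = 1 := hF.2.2.2.2.2.2
  have g := hGINE r s t u v (θ' - θ) hr hr1 hs hs1 ht ht1 hu hu1 hv hv1 h1 h2
  have hb := hHAB r s t hr hr1 hs hs1 ht ht1
  have hS1 := DETG_Sh r s hr hr1 hs hs1
  have hS2 := DETG_Sh r t hr hr1 ht ht1
  have hsin : 0 < sin (ha r s t) := by
    apply sin_pos_of_pos_of_lt_pi
    · linarith [hb.1]
    · have := pi_gt_three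
      linarith [hb.2]
  rw [DETG_pol X E F hdet]
  have e1 : θ' - (θ + ha r s t) = θ' - θ - ha r s t := by ring
  have e2 : θ + ha r s t - θ = ha r s t := by ring
  rw [e1, e2]
  set A := sin (θ' - θ - ha r s t)
  set B := sin (θ' - θ)
  set D := sin (ha r s t)
  have key : Ch r s * Sh r t * S * A - Ch r t * Sh r s * S * B + C * Sh r s * Sh r t * D
      = Sh r s * Sh r t * ((C - S) * D + S * (D - Ch r t / Sh r t * B + Ch r s / Sh r s * A)) := by
    field_simp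
    ring
  rw [key]
  apply mul_pos (mul_pos hS1 hS2)
  have : 0 < (C - S) * D := mul_pos (by linarith) hsin
  have : 0 ≤ S * (D - Ch r t / Sh r t * B + Ch r s / Sh r s * A) := mul_nonneg hS g.le
  linarith

end H637F
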