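import Pool.Agent.H637R3.DF.Stm

namespace H637F

open MeasureTheory

private lemma DISJ_null (A B C : V3) (h : det3 A B C ≠ 0) :
    volume {V : V3 | det3 A B V = 0} = 0 := by
  let L : V3 →ₗ[ℝ] ℝ :=
    { toFun := fun V => det3 A B V
      map_add' := by
        intro U V
        simp only [det3, Prod.fst_add, Prod.snd_add]
        ring
      map_smul' := by
        intro c V
        simp only [det3, Prod.smul_fst, Prod.smul_snd, smul_eq_mul, RingHom.id_apply]
        ring }
  have h1 : {V : V3 | det3 A B V = 0} = (LinearMap.ker L : Set V3) := by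
    ext V
    simp [L]
  rw [h1]
  have i1 : (volume : Measure (ℝ × ℝ)).IsAddHaarMeasure := by
    rw [Measure.volume_eq_prod]; infer_instance
  have i2 : (volume : Measure V3).IsAddHaarMeasure := by
    rw [Measure.volume_eq_prod]; infer_instance
  apply Measure.addHaar_submodule
  intro htop
  have : C ∈ LinearMap.ker L := by rw [htop]; trivial
  rw [LinearMap.mem_ker] at this
  exact h this

private lemma DISJ_minks (c : ℝ) (X V : V3) : mink X (c • V) = c * mink X V := by
  simp only [mink, Prod.smul_fst, Prod.smul_snd, smul_eq_mul]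
  ring

private lemma DISJ_minkss (c : ℝ) (V : V3) : mink (c • V) (c • V) = c ^ 2 * mink V V := by
  simp only [mink, Prod.smul_fst, Prod.smul_snd, smul_eq_mul]
  ring

private lemma DISJ_dets (c : ℝ) (A B V : V3) : det3 A B (c • V) = c * det3 A B V := by
  simp only [det3, Prod.smul_fst, Prod.smul_snd, smul_eq_mul]
  ring

private lemma DISJ_cpos (X Y : V3) (hX : Hyp X) (hY : Hyp Y) : 0 < -mink X Y := by
  obtain ⟨h1, h2⟩ := hX
  obtain ⟨h3, h4⟩ := hY
  unfold mink at *
  have h5 : (X.1 * Y.1 + X.2.1 * Y.2.1) ^ 2 < (X.2.2 * Y.2.2) ^ 2 := by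
    have e1 : X.2.2 ^ 2 = 1 + X.1 ^ 2 + X.2.1 ^ 2 := by nlinarith
    have e2 : Y.2.2 ^ 2 = 1 + Y.1 ^ 2 + Y.2.1 ^ 2 := by nlinarith
    rw [mul_pow X.2.2, e1, e2]
    nlinarith [sq_nonneg (X.1 * Y.2.1 - X.2.1 * Y.1), sq_nonneg X.1, sq_nonneg X.2.1,
      sq_nonneg Y.1, sq_nonneg Y.2.1]
  have h6 : X.1 * Y.1 + X.2.1 * Y.2.1 < X.2.2 * Y.2.2 := by
    have := abs_lt_of_sq_lt_sq h5 (by positivity)
    exact (abs_lt.mp this).2
  linarith

private lemma DISJ_alg (ci cj si sj C : ℝ) (hci : 0 < ci) (_ : 0 < cj) (hsi : 0 < si)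
    (hsj : 0 < sj) (e1 : ci ^ 2 = 1 + si ^ 2) (e2 : cj ^ 2 = 1 + sj ^ 2) (hcc : 0 < ci * cj - si * sj)
    (hC : 0 < C) (hC2 : C < ci * cj + si * sj) :
    sj + si * C < ci * √(sj ^ 2 + si ^ 2 + 2 * si * sj * C) := by
  have hQ : 0 ≤ sj ^ 2 + si ^ 2 + 2 * si * sj * C := by positivity
  apply lt_of_pow_lt_pow_left₀ 2 (by positivity)
  rw [mul_pow, Real.sq_sqrt hQ]
  have key : ci ^ 2 * (sj ^ 2 + si ^ 2 + 2 * si * sj * C) - (sj + si * C) ^ 2 =
      si ^ 2 * ((ci * cj + si * sj - C) * (C + (ci * cj - si * sj))) := by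
    have h1 : (ci * cj + si * sj - C) * (C + (ci * cj - si * sj)) =
        ci ^ 2 * cj ^ 2 - si ^ 2 * sj ^ 2 + 2 * si * sj * C - C ^ 2 := by ring
    rw [h1, e1, e2]
    ring
  have h2 : 0 < si ^ 2 * ((ci * cj + si * sj - C) * (C + (ci * cj - si * sj))) := by
    have h3 : 0 < ci * cj + si * sj - C := by linarith
    have h4 : 0 < C + (ci * cj - si * sj) := by linarith
    positivity
  linarith

theorem DISJ (hFLC : S_FLC) (hTU : S_TU) (hFLOA : S_FLOA) : S_DISJ := by
  intro M b X hL i j hij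
  by_contra hcon
  push Not at hcon
  have hi := hL.bpos i
  have hj := hL.bpos j
  have hi8 := hL.ble i
  have hj8 := hL.ble j
  set ci := cR (b i) with hci
  set cj := cR (b j) with hcj
  set si := sR (b i) with hsi
  set sj := sR (b j) with hsj
  have ci0 : 0 < ci := by rw [hci]; unfold cR; positivity
  have cj0 : 0 < cj := by rw [hcj]; unfold cR; positivity
  have si0 : 0 < si := by
    rw [hsi]; unfold sR
    apply div_pos _ (by positivity)
    nlinarith
  have sj0 : 0 < sj := by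
    rw [hsj]; unfold sR
    apply div_pos _ (by positivity)
    nlinarith
  have e1 : ci ^ 2 = 1 + si ^ 2 := by
    rw [hci, hsi]; unfold cR sR; field_simp; ring
  have e2 : cj ^ 2 = 1 + sj ^ 2 := by
    rw [hcj, hsj]; unfold cR sR; field_simp; ring
  have hcc : 0 < ci * cj - si * sj := by
    have h1 : si < ci := by nlinarith
    have h2 : sj < cj := by nlinarith
    nlinarith
  have hCh : Ch (b i) (b j) = ci * cj + si * sj := by
    rw [hci, hsi, hcj, hsj]; unfold Ch cR sR; field_simp; ring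
  set C := -mink (X i) (X j) with hC
  have hC0 : 0 < C := DISJ_cpos _ _ (hL.hyp i) (hL.hyp j)
  have hC1 : C < ci * cj + si * sj := by rw [← hCh]; linarith
  -- the open set
  set U : Set V3 := {V | 0 < V.2.2} ∩ {V | mink V V < 0} ∩
    {V | -mink (X i) V < ci * √(-mink V V)} ∩ {V | -mink (X j) V < cj * √(-mink V V)} with hU
  have hUo : IsOpen U := by
    have cm : Continuous fun V : V3 => mink V V := by unfold mink; fun_prop
    have cmi : ∀ Y : V3, Continuous fun V : V3 => mink Y V := by intro Y; unfold mink; fun_prop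
    refine ((IsOpen.inter ?_ ?_).inter ?_).inter ?_
    · exact isOpen_lt continuous_const (by fun_prop)
    · exact isOpen_lt cm continuous_const
    · exact isOpen_lt (cmi _).neg (continuous_const.mul (Real.continuous_sqrt.comp cm.neg))
    · exact isOpen_lt (cmi _).neg (continuous_const.mul (Real.continuous_sqrt.comp cm.neg))
  have hUne : U.Nonempty := by
    refine ⟨sj • X i + si • X j, ?_⟩
    have hii := (hL.hyp i).1
    have hjj := (hL.hyp j).1
    have hti := (hL.hyp i).2
    have htj := (hL.hyp j).2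
    have hsym : mink (X j) (X i) = mink (X i) (X j) := by unfold mink; ring
    have m1 : mink (X i) (sj • X i + si • X j) = sj * mink (X i) (X i) + si * mink (X i) (X j) := by
      simp only [mink, Prod.smul_fst, Prod.smul_snd, smul_eq_mul, Prod.fst_add, Prod.snd_add]
      ring
    have m2 : mink (X j) (sj • X i + si • X j) = sj * mink (X j) (X i) + si * mink (X j) (X j) := by
      simp only [mink, Prod.smul_fst, Prod.smul_snd, smul_eq_mul, Prod.fst_add, Prod.snd_add]
      ring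
    have m3 : mink (sj • X i + si • X j) (sj • X i + si • X j) =
        sj ^ 2 * mink (X i) (X i) + si ^ 2 * mink (X j) (X j) + 2 * si * sj * mink (X i) (X j) := by
      simp only [mink, Prod.smul_fst, Prod.smul_snd, smul_eq_mul, Prod.fst_add, Prod.snd_add]
      ring
    have hCm : mink (X i) (X j) = -C := by rw [hC]; ring
    rw [hii, hCm] at m1
    rw [hsym, hCm, hjj] at m2
    rw [hii, hjj, hCm] at m3
    have m3' : -mink (sj • X i + si • X j) (sj • X i + si • X j) =
        sj ^ 2 + si ^ 2 + 2 * si * sj * C := by rw [m3]; ring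
    refine ⟨⟨⟨?_, ?_⟩, ?_⟩, ?_⟩
    · simp only [Set.mem_ofPred_eq, Prod.snd_add, Prod.smul_snd, smul_eq_mul]
      positivity
    · rw [Set.mem_ofPred_eq]
      have : 0 < sj ^ 2 + si ^ 2 + 2 * si * sj * C := by positivity
      linarith
    · rw [Set.mem_ofPred_eq, m3', m1]
      have := DISJ_alg ci cj si sj C ci0 cj0 si0 sj0 e1 e2 hcc hC0 hC1
      linarith
    · rw [Set.mem_ofPred_eq, m3', m2]
      have h1 := DISJ_alg cj ci sj si C cj0 ci0 sj0 si0 e2 e1 (by linarith [mul_comm ci cj, mul_comm si sj])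
        hC0 (by linarith [mul_comm ci cj, mul_comm si sj])
      have h2 : si ^ 2 + sj ^ 2 + 2 * sj * si * C = sj ^ 2 + si ^ 2 + 2 * si * sj * C := by ring
      rw [h2] at h1
      linarith
  -- the bad set
  have hflo := fun k (hk : k < deg M i) => (hFLOA M hL.good i).2 k hk
  set Bad : Set V3 := ⋃ k ∈ Finset.range (deg M i),
    ({V | det3 (X i) (X (w M i k)) V = 0} ∪
      {V | det3 (X (w M i k)) (X (w M i ((k + 1) % deg M i))) V = 0} ∪
      {V | det3 (X (w M i ((k + 1) % deg M i))) (X i) V = 0}) with hBad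
  have hBad0 : volume Bad = 0 := by
    rw [hBad]
    refine le_antisymm ((measure_biUnion_finset_le _ _).trans ?_) zero_le
    rw [Finset.sum_eq_zero]
    intro k hk
    have hk' : k < deg M i := Finset.mem_range.mp hk
    have hd := (hL.tri _ _ _ (hflo k hk')).2.2.2
    have c1 : det3 (X (w M i k)) (X (w M i ((k + 1) % deg M i))) (X i) =
        det3 (X i) (X (w M i k)) (X (w M i ((k + 1) % deg M i))) := by unfold det3; ring
    have c2 : det3 (X (w M i ((k + 1) % deg M i))) (X i) (X (w M i k)) =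
        det3 (X i) (X (w M i k)) (X (w M i ((k + 1) % deg M i))) := by unfold det3; ring
    rw [measure_union_null_iff, measure_union_null_iff]
    exact ⟨⟨DISJ_null _ _ _ hd.ne', DISJ_null _ _ (X i) (by rw [c1]; exact hd.ne')⟩,
      DISJ_null _ _ (X (w M i k)) (by rw [c2]; exact hd.ne')⟩
  have hex : ∃ V ∈ U, V ∉ Bad := by
    by_contra hno
    push Not at hno
    have : U ⊆ Bad := fun V hV => hno V hV
    have h1 : volume U ≤ volume Bad := measure_mono this
    rw [hBad0] at h1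
    have h2 := hUo.measure_pos volume hUne
    exact absurd (lt_of_lt_of_le h2 h1) (lt_irrefl _)
  obtain ⟨V, ⟨⟨⟨hV1, hV2⟩, hV3⟩, hV4⟩, hVb⟩ := hex
  rw [Set.mem_ofPred_eq] at hV1 hV2 hV3 hV4
  set N := √(-mink V V) with hN
  have hN0 : 0 < N := Real.sqrt_pos.mpr (by linarith)
  have hN2 : N ^ 2 = -mink V V := Real.sq_sqrt (by linarith)
  set P : V3 := (1 / N) • V with hP
  have hPH : Hyp P := by
    constructor
    · rw [hP, DISJ_minkss]
      have : mink V V = -N ^ 2 := by linarith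
      rw [this]
      field_simp
    · rw [hP]
      simp only [Prod.smul_snd, smul_eq_mul]
      positivity
  have hPi : -mink (X i) P ≤ cR (b i) := by
    rw [hP, DISJ_minks]
    have : -(1 / N * mink (X i) V) = (-mink (X i) V) / N := by ring
    rw [this, div_le_iff₀ hN0]
    exact hV3.le
  have hPj : -mink (X j) P ≤ cR (b j) := by
    rw [hP, DISJ_minks]
    have : -(1 / N * mink (X j) V) = (-mink (X j) V) / N := by ring
    rw [this, div_le_iff₀ hN0]
    exact hV4.le
  obtain ⟨k, hk, hk1, hk2, hk3⟩ := hFLC M b X hL i P hPH hPi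
  obtain ⟨l, hl, hl1, hl2, hl3⟩ := hFLC M b X hL j P hPH hPj
  -- strictness
  have hnb : V ∉ ({V | det3 (X i) (X (w M i k)) V = 0} ∪
      {V | det3 (X (w M i k)) (X (w M i ((k + 1) % deg M i))) V = 0} ∪
      {V | det3 (X (w M i ((k + 1) % deg M i))) (X i) V = 0} : Set V3) := by
    intro hh
    apply hVb
    rw [hBad]
    exact Set.mem_biUnion (Finset.mem_range.mpr hk) hh
  rw [Set.mem_union, Set.mem_union, Set.mem_ofPred_eq, Set.mem_ofPred_eq, Set.mem_ofPred_eq] at hnb
  push Not at hnb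
  obtain ⟨⟨n1, n2⟩, n3⟩ := hnb
  have hn : ∀ A B : V3, det3 A B V ≠ 0 → det3 A B P ≠ 0 := by
    intro A B h
    rw [hP, DISJ_dets]
    exact mul_ne_zero (by positivity) h
  have s1 := lt_of_le_of_ne hk1 (hn _ _ n1).symm
  have s2 := lt_of_le_of_ne hk2 (hn _ _ n2).symm
  have s3 := lt_of_le_of_ne hk3 (hn _ _ n3).symm
  -- common face
  obtain ⟨x, y, z, hBF, hxyz⟩ := hflo k hk
  obtain ⟨x', y', z', hBF', hxyz'⟩ := (hFLOA M hL.good j).2 l hl
  have hSt : StT (X x) (X y) (X z) P ∧ (i = x ∨ i = y ∨ i = z) := by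
    rcases hxyz with h | h | h
    · rw [Prod.mk.injEq, Prod.mk.injEq] at h
      obtain ⟨a1, a2, a3⟩ := h
      rw [← a1, ← a2, ← a3]
      exact ⟨⟨s1, s2, s3⟩, Or.inl rfl⟩
    · rw [Prod.mk.injEq, Prod.mk.injEq] at h
      obtain ⟨a1, a2, a3⟩ := h
      rw [← a1, ← a2, ← a3]
      exact ⟨⟨s3, s1, s2⟩, Or.inr (Or.inl rfl)⟩
    · rw [Prod.mk.injEq, Prod.mk.injEq] at h
      obtain ⟨a1, a2, a3⟩ := h
      rw [← a1, ← a2, ← a3]
      exact ⟨⟨s2, s3, s1⟩, Or.inr (Or.inr rfl)⟩
  have hIn : InT (X x') (X y') (X z') P ∧ (j = x' ∨ j = y' ∨ j = z') := by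
    rcases hxyz' with h | h | h
    · rw [Prod.mk.injEq, Prod.mk.injEq] at h
      obtain ⟨a1, a2, a3⟩ := h
      rw [← a1, ← a2, ← a3]
      exact ⟨⟨hl1, hl2, hl3⟩, Or.inl rfl⟩
    · rw [Prod.mk.injEq, Prod.mk.injEq] at h
      obtain ⟨a1, a2, a3⟩ := h
      rw [← a1, ← a2, ← a3]
      exact ⟨⟨hl3, hl1, hl2⟩, Or.inr (Or.inl rfl)⟩
    · rw [Prod.mk.injEq, Prod.mk.injEq] at h
      obtain ⟨a1, a2, a3⟩ := h
      rw [← a1, ← a2, ← a3]
      exact ⟨⟨hl2, hl3, hl1⟩, Or.inr (Or.inr rfl)⟩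
  obtain ⟨t1, t2, t3⟩ := hTU M b X hL x y z x' y' z' hBF hBF' P hPH hSt.1 hIn.1
  subst t1 t2 t3
  have hT := hL.tri x y z ⟨x, y, z, hBF, Or.inl rfl⟩
  obtain ⟨T1, T2, T3, -⟩ := hT
  have hms : ∀ A B : V3, mink A B = mink B A := by intro A B; unfold mink; ring
  have hChs : ∀ a b : ℝ, Ch a b = Ch b a := by
    intro a b; unfold Ch
    rw [mul_comm (a ^ 2), mul_assoc 2 a b, mul_comm a b, ← mul_assoc]
  have hfin : mink (X i) (X j) = -Ch (b i) (b j) := by
    rcases hSt.2 with h | h | h <;> rcases hIn.2 with h' | h' | h'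
    · exact absurd (h.trans h'.symm) hij
    · rw [h, h']; exact T1
    · rw [h, h']; exact T3
    · rw [h, h', hms, hChs]; exact T1
    · exact absurd (h.trans h'.symm) hij
    · rw [h, h']; exact T2
    · rw [h, h', hms, hChs]; exact T3
    · rw [h, h', hms, hChs]; exact T2
    · exact absurd (h.trans h'.symm) hij
  linarith

end H637F
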