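import Pool.Agent.H637R3.DF.Stm

namespace H637F

theorem EUC1_cs (b : ℝ) (h0 : 0 < b) (h1 : b < 1) : 0 < sR b ∧ sR b < cR b ∧ 0 < cR b ∧
    cR b ^ 2 = 1 + sR b ^ 2 := by
  unfold sR cR
  have h2 : (0:ℝ) < 2 * b := by linarith
  refine ⟨?_, ?_, ?_, ?_⟩
  · apply div_pos _ h2
    nlinarith
  · apply div_lt_div_of_pos_right _ h2
    nlinarith [pow_pos h0 2]
  · apply div_pos _ h2
    nlinarith [pow_pos h0 2]
  · field_simp
    ring

theorem EUC1_norm (X : V3) (b : ℝ) :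
    ‖ez X b‖ ^ 2 = (X.1 ^ 2 + X.2.1 ^ 2) / (X.2.2 + cR b) ^ 2 := by
  unfold ez
  rw [← Complex.normSq_eq_norm_sq, Complex.normSq_add_mul_I, div_pow, div_pow, ← add_div]

theorem EUC1 : S_EUC1 := by
  intro X b hX h0 h1
  obtain ⟨hs, hsc, hc, hcs⟩ := EUC1_cs b h0 h1
  obtain ⟨hm, ht⟩ := hX
  unfold mink at hm
  have hd : 0 < X.2.2 + cR b := by linarith
  have her : er X b = sR b / (X.2.2 + cR b) := rfl
  refine ⟨by rw [her]; exact div_pos hs hd, ?_⟩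
  have h2 : ‖ez X b‖ ^ 2 < (X.2.2 / (X.2.2 + cR b)) ^ 2 := by
    rw [EUC1_norm, div_pow]
    apply div_lt_div_of_pos_right _ (pow_pos hd 2)
    nlinarith
  have h3 : ‖ez X b‖ < X.2.2 / (X.2.2 + cR b) := by
    apply lt_of_pow_lt_pow_left₀ 2 (div_pos ht hd).le h2
  have h4 : er X b < cR b / (X.2.2 + cR b) := by
    rw [her]; exact div_lt_div_of_pos_right hsc hd
  have h5 : X.2.2 / (X.2.2 + cR b) + cR b / (X.2.2 + cR b) = 1 := by
    rw [← add_div]; exact div_self hd.ne'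
  linarith

end H637F
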