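import Pool.Agent.H637R3.DF.Stm

namespace H637F

theorem EUC2_cs (b : ℝ) (h0 : 0 < b) (h1 : b < 1) : 0 < cR b ∧
    cR b ^ 2 = 1 + sR b ^ 2 := by
  unfold sR cR
  have h2 : (0:ℝ) < 2 * b := by linarith
  refine ⟨?_, ?_⟩
  · apply div_pos _ h2
    nlinarith [pow_pos h0 2]
  · field_simp
    ring

theorem EUC2_Ch (a b : ℝ) (ha : 0 < a) (hb : 0 < b) : Ch a b = cR a * cR b + sR a * sR b := by
  unfold Ch cR sR
  field_simp
  ring

theorem EUC2_alg (x y t x' y' t' c s c' s' : ℝ) (h1 : x * x + y * y - t * t = -1)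
    (h2 : x' * x' + y' * y' - t' * t' = -1) (h3 : c ^ 2 = 1 + s ^ 2) (h4 : c' ^ 2 = 1 + s' ^ 2)
    (hd : 0 < t + c) (hd' : 0 < t' + c') :
    (x / (t + c) - x' / (t' + c')) ^ 2 + (y / (t + c) - y' / (t' + c')) ^ 2
      = (s / (t + c) + s' / (t' + c')) ^ 2
        + 2 * (-(x * x' + y * y' - t * t') - (c * c' + s * s')) / ((t + c) * (t' + c')) := by
  have e1 : (x / (t + c) - x' / (t' + c')) ^ 2 + (y / (t + c) - y' / (t' + c')) ^ 2
      = (x ^ 2 + y ^ 2) / (t + c) ^ 2 + (x' ^ 2 + y' ^ 2) / (t' + c') ^ 2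
        - 2 * (x * x' + y * y') / ((t + c) * (t' + c')) := by
    field_simp
    ring
  have e2 : (x ^ 2 + y ^ 2) / (t + c) ^ 2 = s ^ 2 / (t + c) ^ 2 + (t - c) / (t + c) := by
    field_simp
    linear_combination h1 + h3
  have e3 : (x' ^ 2 + y' ^ 2) / (t' + c') ^ 2 = s' ^ 2 / (t' + c') ^ 2 + (t' - c') / (t' + c') := by
    field_simp
    linear_combination h2 + h4
  rw [e1, e2, e3]
  field_simp
  ring

theorem EUC2 : S_EUC2 := by
  intro X Y a b hX hY ha _ hb _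
  obtain ⟨hc, hcs⟩ := EUC2_cs a ha ‹_›
  obtain ⟨hc', hcs'⟩ := EUC2_cs b hb ‹_›
  obtain ⟨hm, ht⟩ := hX
  obtain ⟨hm', ht'⟩ := hY
  rw [EUC2_Ch a b ha hb]
  unfold mink at *
  have hn : ‖ez X a - ez Y b‖ ^ 2 = (X.1 / (X.2.2 + cR a) - Y.1 / (Y.2.2 + cR b)) ^ 2
      + (X.2.1 / (X.2.2 + cR a) - Y.2.1 / (Y.2.2 + cR b)) ^ 2 := by
    unfold ez
    have e : ∀ p q p' q' : ℝ, ‖((p : ℂ) + (q : ℂ) * Complex.I) - ((p' : ℂ) + (q' : ℂ) * Complex.I)‖ ^ 2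
        = (p - p') ^ 2 + (q - q') ^ 2 := by
      intro p q p' q'
      rw [← Complex.normSq_add_mul_I, Complex.normSq_eq_norm_sq]
      congr 2
      push_cast
      ring
    exact e _ _ _ _
  rw [hn]
  exact EUC2_alg _ _ _ _ _ _ _ _ _ _ hm hm' hcs hcs' (by linarith) (by linarith)

end H637F
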