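import Pool.Agent.H637R3.DF.Stm

namespace H637F

open Real

theorem EUC4_trig {a b c : ℝ} (ha : 0 < a) (hb : 0 < b) (hc : 0 < c)
    (h : 1 - a ^ 2 * b ^ 2 * c ^ 2 ≠ 0) :
    (Sh b c + Sh a c * Ch a b + Sh a b * Ch a c) /
      (2 * ((1 - a ^ 2 * b ^ 2 * c ^ 2) / (2 * a * b * c))) = cR a := by
  have h2 : 2 * ((1 - a ^ 2 * b ^ 2 * c ^ 2) / (2 * a * b * c)) ≠ 0 :=
    mul_ne_zero two_ne_zero (div_ne_zero h (by positivity))
  rw [div_eq_iff h2]
  unfold Sh Ch cR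
  field_simp
  ring

theorem EUC4 : S_EUC4 := by
  intro X Y Z a b c hX hY hZ ha0 ha1 hb0 hb1 hc0 hc1 hT
  obtain ⟨x1, y1, t1⟩ := X
  obtain ⟨x2, y2, t2⟩ := Y
  obtain ⟨x3, y3, t3⟩ := Z
  obtain ⟨hX1, hX2⟩ := hX
  obtain ⟨hY1, hY2⟩ := hY
  obtain ⟨hZ1, hZ2⟩ := hZ
  obtain ⟨h1, h2, h3, hd⟩ := hT
  unfold mink at hX1 hY1 hZ1 h1 h2 h3
  unfold det3 at hd
  simp only at hX1 hX2 hY1 hY2 hZ1 hZ2 h1 h2 h3 hd
  have hab : a ^ 2 * b ^ 2 < 1 := by
    have e1 : a ^ 2 < 1 := by nlinarith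
    have e2 : b ^ 2 < 1 := by nlinarith
    nlinarith [sq_nonneg a, sq_nonneg b, mul_pos ha0 ha0, mul_pos hb0 hb0]
  have hbc : b ^ 2 * c ^ 2 < 1 := by
    have e1 : b ^ 2 < 1 := by nlinarith
    have e2 : c ^ 2 < 1 := by nlinarith
    nlinarith [sq_nonneg b, sq_nonneg c, mul_pos hb0 hb0, mul_pos hc0 hc0]
  have hac : a ^ 2 * c ^ 2 < 1 := by
    have e1 : a ^ 2 < 1 := by nlinarith
    have e2 : c ^ 2 < 1 := by nlinarith
    nlinarith [sq_nonneg a, sq_nonneg c, mul_pos ha0 ha0, mul_pos hc0 hc0]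
  have habc : 0 < 1 - a ^ 2 * b ^ 2 * c ^ 2 := by
    have e2 : c ^ 2 < 1 := by nlinarith
    have e3 : 0 < a ^ 2 * b ^ 2 := by positivity
    nlinarith
  have hSab : 0 < Sh a b := by
    unfold Sh
    apply div_pos <;> [linarith; positivity]
  have hSbc : 0 < Sh b c := by
    unfold Sh
    apply div_pos <;> [linarith; positivity]
  have hSac : 0 < Sh a c := by
    unfold Sh
    apply div_pos <;> [linarith; positivity]
  obtain ⟨g, hg⟩ : ∃ g, g = 2 * ((1 - a ^ 2 * b ^ 2 * c ^ 2) / (2 * a * b * c)) := ⟨_, rfl⟩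
  have hg0 : 0 < g := by
    rw [hg]
    positivity
  have hk1 : (Sh b c + Sh a c * Ch a b + Sh a b * Ch a c) / g = cR a := by
    rw [hg]
    exact EUC4_trig ha0 hb0 hc0 habc.ne'
  have hk2 : (Sh b c * Ch a b + Sh a c + Sh a b * Ch b c) / g = cR b := by
    have e := EUC4_trig (a := b) (b := c) (c := a) hb0 hc0 ha0 (by
      have : 1 - b ^ 2 * c ^ 2 * a ^ 2 = 1 - a ^ 2 * b ^ 2 * c ^ 2 := by ring
      rw [this]
      exact habc.ne')
    rw [← e, hg]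
    unfold Sh Ch
    have : 1 - b ^ 2 * c ^ 2 * a ^ 2 = 1 - a ^ 2 * b ^ 2 * c ^ 2 := by ring
    rw [this]
    field_simp
    ring
  have hk3 : (Sh b c * Ch a c + Sh a c * Ch b c + Sh a b) / g = cR c := by
    have e := EUC4_trig (a := c) (b := a) (c := b) hc0 ha0 hb0 (by
      have : 1 - c ^ 2 * a ^ 2 * b ^ 2 = 1 - a ^ 2 * b ^ 2 * c ^ 2 := by ring
      rw [this]
      exact habc.ne')
    rw [← e, hg]
    unfold Sh Ch
    have : 1 - c ^ 2 * a ^ 2 * b ^ 2 = 1 - a ^ 2 * b ^ 2 * c ^ 2 := by ring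
    rw [this]
    field_simp
    ring
  obtain ⟨u, hu⟩ : ∃ u, u = (Sh b c * x1 + Sh a c * x2 + Sh a b * x3) / g := ⟨_, rfl⟩
  obtain ⟨v, hv⟩ : ∃ v, v = (Sh b c * y1 + Sh a c * y2 + Sh a b * y3) / g := ⟨_, rfl⟩
  obtain ⟨s, hs⟩ : ∃ s, s = (Sh b c * t1 + Sh a c * t2 + Sh a b * t3) / g := ⟨_, rfl⟩
  have hs0 : 0 < s := by
    rw [hs]
    positivity
  have hc1' : cR a = t1 * s - x1 * u - y1 * v := by
    rw [← hk1, hu, hv, hs]
    field_simp
    linear_combination (Sh b c) * hX1 + (Sh a c) * h1 + (Sh a b) * h3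
  have hc2' : cR b = t2 * s - x2 * u - y2 * v := by
    rw [← hk2, hu, hv, hs]
    field_simp
    linear_combination (Sh b c) * h1 + (Sh a c) * hY1 + (Sh a b) * h2
  have hc3' : cR c = t3 * s - x3 * u - y3 * v := by
    rw [← hk3, hu, hv, hs]
    field_simp
    linear_combination (Sh b c) * h3 + (Sh a c) * h2 + (Sh a b) * hZ1
  have hca : 0 < cR a := by unfold cR; positivity
  have hcb : 0 < cR b := by unfold cR; positivity
  have hcc : 0 < cR c := by unfold cR; positivity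
  have hD1 : 0 < t1 + cR a := by linarith
  have hD2 : 0 < t2 + cR b := by linarith
  have hD3 : 0 < t3 + cR c := by linarith
  have key : ((starRingEnd ℂ) (ez (x2, y2, t2) b - ez (x1, y1, t1) a) *
      (ez (x3, y3, t3) c - ez (x1, y1, t1) a)).im =
      (x2 / (t2 + cR b) - x1 / (t1 + cR a)) * (y3 / (t3 + cR c) - y1 / (t1 + cR a)) -
      (y2 / (t2 + cR b) - y1 / (t1 + cR a)) * (x3 / (t3 + cR c) - x1 / (t1 + cR a)) := by
    unfold ez
    simp only [Complex.mul_im, Complex.conj_re, Complex.conj_im, Complex.sub_re, Complex.sub_im,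
      Complex.add_re, Complex.add_im, Complex.ofReal_re, Complex.ofReal_im, Complex.mul_re,
      Complex.I_re, Complex.I_im]
    ring
  rw [key]
  have key2 : (x2 / (t2 + cR b) - x1 / (t1 + cR a)) * (y3 / (t3 + cR c) - y1 / (t1 + cR a)) -
      (y2 / (t2 + cR b) - y1 / (t1 + cR a)) * (x3 / (t3 + cR c) - x1 / (t1 + cR a)) =
      ((x1 * (y2 * t3 - t2 * y3) - y1 * (x2 * t3 - t2 * x3) + t1 * (x2 * y3 - y2 * x3)) *
        (1 + s)) / ((t1 + cR a) * (t2 + cR b) * (t3 + cR c)) := by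
    rw [eq_div_iff (by positivity)]
    have e1 : ((x2 / (t2 + cR b) - x1 / (t1 + cR a)) * (y3 / (t3 + cR c) - y1 / (t1 + cR a)) -
      (y2 / (t2 + cR b) - y1 / (t1 + cR a)) * (x3 / (t3 + cR c) - x1 / (t1 + cR a))) *
      ((t1 + cR a) * (t2 + cR b) * (t3 + cR c)) =
      x1 * (y2 * (t3 + cR c) - (t2 + cR b) * y3) - y1 * (x2 * (t3 + cR c) - (t2 + cR b) * x3) +
        (t1 + cR a) * (x2 * y3 - y2 * x3) := by
      field_simp
      ring
    rw [e1, hc1', hc2', hc3']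
    ring
  rw [key2]
  positivity

end H637F
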