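import Pool.Agent.H637R3.DF.Stm

set_option autoImplicit false

namespace H637F

theorem EUC5_ma (X Y Z : V3) : mink X (Y + Z) = mink X Y + mink X Z := by
  simp only [mink, Prod.fst_add, Prod.snd_add]
  ring

theorem EUC5_ms (X Y : V3) (c : ℝ) : mink X (c • Y) = c * mink X Y := by
  simp only [mink, Prod.smul_fst, Prod.smul_snd, smul_eq_mul]
  ring

theorem EUC5_mc (X Y : V3) : mink X Y = mink Y X := by
  simp only [mink]
  ring

/-- reversed Cauchy inequality -/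
theorem EUC5_rcs {X Y : V3} (hX : Hyp X) (hY : Hyp Y) : 1 ≤ -mink X Y := by
  obtain ⟨x1, x2, xt⟩ := X
  obtain ⟨y1, y2, yt⟩ := Y
  obtain ⟨h1, h2⟩ := hX
  obtain ⟨h3, h4⟩ := hY
  simp only [mink] at h1 h2 h3 h4 ⊢
  have e1 : xt ^ 2 = 1 + x1 ^ 2 + x2 ^ 2 := by linarith
  have e2 : yt ^ 2 = 1 + y1 ^ 2 + y2 ^ 2 := by linarith
  have h5 : (1 + (x1 * y1 + x2 * y2)) ^ 2 ≤ (xt * yt) ^ 2 := by
    rw [mul_pow, e1, e2]
    nlinarith [sq_nonneg (x1 - y1), sq_nonneg (x2 - y2), sq_nonneg (x1 * y2 - x2 * y1)]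
  have h6 : 0 < xt * yt := mul_pos h2 h4
  have h7 := abs_le_of_sq_le_sq' h5 h6.le
  linarith [h7.2]

/-- coefficients of a convex combination -/
theorem EUC5_sum {P V1 V2 V3' : V3} (hP : Hyp P) (h1 : Hyp V1) (h2 : Hyp V2) (h3 : Hyp V3')
    {l m k : ℝ} (hl : 0 ≤ l) (hm : 0 ≤ m) (hk : 0 ≤ k)
    (h : P = l • V1 + m • V2 + k • V3') : l + m + k ≤ 1 := by
  have e : mink P P = l * mink P V1 + m * mink P V2 + k * mink P V3' := by
    conv_lhs => rw [h, ← h, EUC5_mc, h]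
    rw [← h]
    conv_lhs =>
      arg 2
      rw [h]
    rw [EUC5_ma, EUC5_ma, EUC5_ms, EUC5_ms, EUC5_ms]
  rw [hP.1] at e
  have a1 := mul_le_mul_of_nonneg_left (EUC5_rcs hP h1) hl
  have a2 := mul_le_mul_of_nonneg_left (EUC5_rcs hP h2) hm
  have a3 := mul_le_mul_of_nonneg_left (EUC5_rcs hP h3) hk
  linarith

/-- the tangency point -/
noncomputable def EUC5_T (sa sb S : ℝ) (X Y : V3) : V3 := (1 / S) • (sb • X + sa • Y)

theorem EUC5_TH {X Y : V3} (hX : Hyp X) (hY : Hyp Y) {sa ca sb cb : ℝ} (ha : 0 < sa) (hb : 0 < sb)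
    (hca : 0 < ca) (hcb : 0 < cb) (ha2 : ca ^ 2 = 1 + sa ^ 2) (hb2 : cb ^ 2 = 1 + sb ^ 2)
    (h : mink X Y = -(ca * cb + sa * sb)) : Hyp (EUC5_T sa sb (sa * cb + ca * sb) X Y) := by
  have hS : 0 < sa * cb + ca * sb := by positivity
  have hS2 : (sa * cb + ca * sb) ^ 2 = sb ^ 2 + sa ^ 2 + 2 * sa * sb * (ca * cb + sa * sb) := by
    linear_combination (sa ^ 2) * hb2 + (sb ^ 2) * ha2
  constructor
  · have e : mink (EUC5_T sa sb (sa * cb + ca * sb) X Y) (EUC5_T sa sb (sa * cb + ca * sb) X Y) =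
        (sb ^ 2 * mink X X + sa ^ 2 * mink Y Y + 2 * sa * sb * mink X Y) /
          (sa * cb + ca * sb) ^ 2 := by
      simp only [EUC5_T, mink, Prod.smul_fst, Prod.smul_snd, Prod.fst_add, Prod.snd_add,
        smul_eq_mul]
      field_simp
      ring
    rw [e, hX.1, hY.1, h, div_eq_iff (by positivity), hS2]
    ring
  · simp only [EUC5_T, Prod.smul_snd, Prod.snd_add, smul_eq_mul]
    have := hX.2
    have := hY.2
    positivity

theorem EUC5_mT (U X Y : V3) (sa sb S : ℝ) : mink U (EUC5_T sa sb S X Y) =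
    (sb * mink U X + sa * mink U Y) / S := by
  unfold EUC5_T
  rw [EUC5_ms, EUC5_ma, EUC5_ms, EUC5_ms]
  ring

theorem EUC5_corner {X Y Z P : V3} (hX : Hyp X) (hY : Hyp Y) (hZ : Hyp Z) (hP : Hyp P)
    {sa ca sb cb sc cc : ℝ} (ha : 0 < sa) (hb : 0 < sb) (hc : 0 < sc) (hca : 0 < ca) (hcb : 0 < cb)
    (hcc : 0 < cc) (ha2 : ca ^ 2 = 1 + sa ^ 2) (hb2 : cb ^ 2 = 1 + sb ^ 2)
    (hc2 : cc ^ 2 = 1 + sc ^ 2) (hXY : mink X Y = -(ca * cb + sa * sb))
    (hXZ : mink X Z = -(ca * cc + sa * sc)) {α β γ : ℝ} (hβ : 0 ≤ β) (hγ : 0 ≤ γ)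
    (h : P = α • X + β • Y + γ • Z) (hcase : β * sb + γ * sc ≤ α * sa) : -mink X P ≤ ca := by
  have hS1 : 0 < sa * cb + ca * sb := by positivity
  have hS3 : 0 < sa * cc + ca * sc := by positivity
  have hT1 := EUC5_TH hX hY ha hb hca hcb ha2 hb2 hXY
  have hT3 := EUC5_TH hX hZ ha hc hca hcc ha2 hc2 hXZ
  set S1 := sa * cb + ca * sb with hS1d
  set S3 := sa * cc + ca * sc with hS3d
  set l : ℝ := (α * sa - β * sb - γ * sc) / sa with hl
  set m : ℝ := β * S1 / sa with hm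
  set k : ℝ := γ * S3 / sa with hk
  have hl0 : 0 ≤ l := div_nonneg (by linarith) ha.le
  have hm0 : 0 ≤ m := by positivity
  have hk0 : 0 ≤ k := by positivity
  have e : P = l • X + m • EUC5_T sa sb S1 X Y + k • EUC5_T sa sc S3 X Z := by
    rw [h]
    unfold EUC5_T
    have c1 : α = l + m * (1 / S1 * sb) + k * (1 / S3 * sc) := by
      rw [hl, hm, hk]
      field_simp
      ring
    have c2 : β = m * (1 / S1 * sa) := by
      rw [hm]
      field_simp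
    have c3 : γ = k * (1 / S3 * sa) := by
      rw [hk]
      field_simp
    conv_lhs => rw [c1, c2, c3]
    module
  have hsum := EUC5_sum hP hX hT1 hT3 hl0 hm0 hk0 e
  have m1 : mink X (EUC5_T sa sb S1 X Y) = -ca := by
    rw [EUC5_mT, hX.1, hXY, div_eq_iff hS1.ne', hS1d]
    linear_combination sb * ha2
  have m3 : mink X (EUC5_T sa sc S3 X Z) = -ca := by
    rw [EUC5_mT, hX.1, hXZ, div_eq_iff hS3.ne', hS3d]
    linear_combination sc * ha2
  have hca1 : 1 ≤ ca := by nlinarith [sq_nonneg sa]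
  rw [e, EUC5_ma, EUC5_ma, EUC5_ms, EUC5_ms, EUC5_ms, hX.1, m1, m3]
  nlinarith [mul_nonneg hl0 (sub_nonneg.2 hca1), mul_le_mul_of_nonneg_left hsum hca.le]

theorem EUC5_middle {X Y Z P U : V3} (hX : Hyp X) (hY : Hyp Y) (hZ : Hyp Z) (hP : Hyp P)
    {sa ca sb cb sc cc : ℝ} (ha : 0 < sa) (hb : 0 < sb) (hc : 0 < sc) (hca : 0 < ca) (hcb : 0 < cb)
    (hcc : 0 < cc) (ha2 : ca ^ 2 = 1 + sa ^ 2) (hb2 : cb ^ 2 = 1 + sb ^ 2)
    (hc2 : cc ^ 2 = 1 + sc ^ 2) (hXY : mink X Y = -(ca * cb + sa * sb))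
    (hYZ : mink Y Z = -(cb * cc + sb * sc)) (hXZ : mink X Z = -(ca * cc + sa * sc))
    (hUX : mink U X = -ca) (hUY : mink U Y = -cb) (hUZ : mink U Z = -cc)
    {α β γ : ℝ} (h : P = α • X + β • Y + γ • Z) (h1 : α * sa ≤ β * sb + γ * sc)
    (h2 : β * sb ≤ γ * sc + α * sa) (h3 : γ * sc ≤ α * sa + β * sb) : -mink U P ≤ 1 := by
  have hS1 : 0 < sa * cb + ca * sb := by positivity
  have hS2 : 0 < sb * cc + cb * sc := by positivity
  have hS3 : 0 < sa * cc + ca * sc := by positivity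
  have hT1 := EUC5_TH hX hY ha hb hca hcb ha2 hb2 hXY
  have hT2 := EUC5_TH hY hZ hb hc hcb hcc hb2 hc2 hYZ
  have hT3 := EUC5_TH hX hZ ha hc hca hcc ha2 hc2 hXZ
  set S1 := sa * cb + ca * sb with hS1d
  set S2 := sb * cc + cb * sc with hS2d
  set S3 := sa * cc + ca * sc with hS3d
  set l : ℝ := (α * sa + β * sb - γ * sc) / 2 * S1 / (sa * sb) with hl
  set m : ℝ := (β * sb + γ * sc - α * sa) / 2 * S2 / (sb * sc) with hm
  set k : ℝ := (γ * sc + α * sa - β * sb) / 2 * S3 / (sa * sc) with hk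
  have hl0 : 0 ≤ l := div_nonneg (mul_nonneg (by linarith) hS1.le) (by positivity)
  have hm0 : 0 ≤ m := div_nonneg (mul_nonneg (by linarith) hS2.le) (by positivity)
  have hk0 : 0 ≤ k := div_nonneg (mul_nonneg (by linarith) hS3.le) (by positivity)
  have e : P = l • EUC5_T sa sb S1 X Y + m • EUC5_T sb sc S2 Y Z + k • EUC5_T sa sc S3 X Z := by
    rw [h]
    unfold EUC5_T
    have c1 : α = l * (1 / S1 * sb) + k * (1 / S3 * sc) := by
      rw [hl, hk]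
      field_simp
      ring
    have c2 : β = l * (1 / S1 * sa) + m * (1 / S2 * sc) := by
      rw [hl, hm]
      field_simp
      ring
    have c3 : γ = m * (1 / S2 * sb) + k * (1 / S3 * sa) := by
      rw [hm, hk]
      field_simp
      ring
    conv_lhs => rw [c1, c2, c3]
    module
  have hsum := EUC5_sum hP hT1 hT2 hT3 hl0 hm0 hk0 e
  have m1 : mink U (EUC5_T sa sb S1 X Y) = -1 := by
    rw [EUC5_mT, hUX, hUY, div_eq_iff hS1.ne', hS1d]
    ring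
  have m2 : mink U (EUC5_T sb sc S2 Y Z) = -1 := by
    rw [EUC5_mT, hUY, hUZ, div_eq_iff hS2.ne', hS2d]
    ring
  have m3 : mink U (EUC5_T sa sc S3 X Z) = -1 := by
    rw [EUC5_mT, hUX, hUZ, div_eq_iff hS3.ne', hS3d]
    ring
  rw [e, EUC5_ma, EUC5_ma, EUC5_ms, EUC5_ms, EUC5_ms, m1, m2, m3]
  linarith

/-- distances in the disc -/
theorem EUC5_dist {x1 x2 xt y1 y2 yt A B : ℝ} (hx : xt + A ≠ 0) (hy : yt + B ≠ 0) :
    (x1 / (xt + A) - y1 / (yt + B)) ^ 2 + (x2 / (xt + A) - y2 / (yt + B)) ^ 2 =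
      (x1 * x1 + x2 * x2 - xt * xt + A ^ 2) / (xt + A) ^ 2 +
      (y1 * y1 + y2 * y2 - yt * yt + B ^ 2) / (yt + B) ^ 2 +
      2 * (-(x1 * y1 + x2 * y2 - xt * yt) - A * B) / ((xt + A) * (yt + B)) := by
  field_simp
  ring

/-- the incircle is on the inner side -/
theorem EUC5_side {x1 x2 y1 y2 z1 z2 q1 q2 p1 p2 a b c ρ : ℝ} (ha : 0 < a) (hb : 0 < b) (hc : 0 < c)
    (hxy : (x1 - y1) ^ 2 + (x2 - y2) ^ 2 = (a + b) ^ 2)
    (hyz : (y1 - z1) ^ 2 + (y2 - z2) ^ 2 = (b + c) ^ 2)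
    (hx : (x1 - q1) ^ 2 + (x2 - q2) ^ 2 = ρ + a ^ 2)
    (hy : (y1 - q1) ^ 2 + (y2 - q2) ^ 2 = ρ + b ^ 2)
    (hz : (z1 - q1) ^ 2 + (z2 - q2) ^ 2 = ρ + c ^ 2)
    (hp : (p1 - q1) ^ 2 + (p2 - q2) ^ 2 ≤ ρ)
    (ho : 0 < (y1 - x1) * (z2 - x2) - (y2 - x2) * (z1 - x1)) :
    0 ≤ (y1 - x1) * (p2 - x2) - (y2 - x2) * (p1 - x1) := by
  have hab : 0 < a + b := by positivity
  have hbc : 0 < b + c := by positivity
  -- tangency points
  set t1 := (b * x1 + a * y1) / (a + b) with ht1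
  set t2 := (b * x2 + a * y2) / (a + b) with ht2
  set s1 := (c * y1 + b * z1) / (b + c) with hs1
  set s2 := (c * y2 + b * z2) / (b + c) with hs2
  have et1 : (a + b) * t1 = b * x1 + a * y1 := by rw [ht1]; field_simp
  have et2 : (a + b) * t2 = b * x2 + a * y2 := by rw [ht2]; field_simp
  have es1 : (b + c) * s1 = c * y1 + b * z1 := by rw [hs1]; field_simp
  have es2 : (b + c) * s2 = c * y2 + b * z2 := by rw [hs2]; field_simp
  clear_value t1 t2 s1 s2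
  clear ht1 ht2 hs1 hs2
  have htq : (t1 - q1) ^ 2 + (t2 - q2) ^ 2 = ρ := by
    have h1 : (a + b) ^ 2 * ((t1 - q1) ^ 2 + (t2 - q2) ^ 2) = (a + b) ^ 2 * ρ := by
      have h2 : (a + b) ^ 2 * ((t1 - q1) ^ 2 + (t2 - q2) ^ 2) =
          ((a + b) * t1 - (a + b) * q1) ^ 2 + ((a + b) * t2 - (a + b) * q2) ^ 2 := by ring
      rw [h2, et1, et2]
      linear_combination (b * (a + b)) * hx + (a * (a + b)) * hy - (a * b) * hxy
    exact mul_left_cancel₀ (by positivity) h1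
  have hsq : (s1 - q1) ^ 2 + (s2 - q2) ^ 2 = ρ := by
    have h1 : (b + c) ^ 2 * ((s1 - q1) ^ 2 + (s2 - q2) ^ 2) = (b + c) ^ 2 * ρ := by
      have h2 : (b + c) ^ 2 * ((s1 - q1) ^ 2 + (s2 - q2) ^ 2) =
          ((b + c) * s1 - (b + c) * q1) ^ 2 + ((b + c) * s2 - (b + c) * q2) ^ 2 := by ring
      rw [h2, es1, es2]
      linear_combination (c * (b + c)) * hy + (b * (b + c)) * hz - (b * c) * hyz
    exact mul_left_cancel₀ (by positivity) h1
  -- q - t is orthogonal to y - x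
  have horth : (q1 - t1) * (y1 - x1) + (q2 - t2) * (y2 - x2) = 0 := by
    have h1 : (a + b) * ((q1 - t1) * (y1 - x1) + (q2 - t2) * (y2 - x2)) = 0 := by
      have h2 : (a + b) * ((q1 - t1) * (y1 - x1) + (q2 - t2) * (y2 - x2)) =
          ((a + b) * q1 - (a + b) * t1) * (y1 - x1) +
            ((a + b) * q2 - (a + b) * t2) * (y2 - x2) := by ring
      rw [h2, et1, et2]
      linear_combination ((a + b) / 2) * hx - ((a + b) / 2) * hy + ((b - a) / 2) * hxy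
    rcases mul_eq_zero.1 h1 with h2 | h2
    · exact absurd h2 hab.ne'
    · exact h2
  obtain ⟨lam, hlam⟩ : ∃ lam, lam = (y1 - x1) * (q2 - t2) - (y2 - x2) * (q1 - t1) := ⟨_, rfl⟩
  -- key identity
  have hD : 0 < (a + b) ^ 2 := by positivity
  have hkey : ∀ p1 p2 : ℝ, (a + b) ^ 2 * ((p1 - t1) * (q1 - t1) + (p2 - t2) * (q2 - t2)) =
      lam * ((y1 - x1) * (p2 - x2) - (y2 - x2) * (p1 - x1)) := by
    intro p1 p2
    have h1 : (y1 - x1) * (p2 - x2) - (y2 - x2) * (p1 - x1) =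
        (y1 - x1) * (p2 - t2) - (y2 - x2) * (p1 - t1) := by
      have h2 : (a + b) * ((y1 - x1) * (x2 - t2) - (y2 - x2) * (x1 - t1)) = 0 := by
        linear_combination (y2 - x2) * et1 - (y1 - x1) * et2
      rcases mul_eq_zero.1 h2 with h3 | h3
      · exact absurd h3 hab.ne'
      · linear_combination -h3
    rw [h1, ← hxy, hlam]
    linear_combination ((y1 - x1) * (p1 - t1) + (y2 - x2) * (p2 - t2)) * horth
  have hin : ∀ p1 p2 : ℝ, (p1 - q1) ^ 2 + (p2 - q2) ^ 2 ≤ ρ →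
      ((p1 - t1) ^ 2 + (p2 - t2) ^ 2) / 2 ≤ (p1 - t1) * (q1 - t1) + (p2 - t2) * (q2 - t2) := by
    intro p1 p2 h
    have h1 : (p1 - q1) ^ 2 + (p2 - q2) ^ 2 = ((p1 - t1) ^ 2 + (p2 - t2) ^ 2) -
        2 * ((p1 - t1) * (q1 - t1) + (p2 - t2) * (q2 - t2)) +
        ((t1 - q1) ^ 2 + (t2 - q2) ^ 2) := by ring
    rw [h1, htq] at h
    linarith
  -- lam is positive
  have hos : (b + c) * ((y1 - x1) * (s2 - x2) - (y2 - x2) * (s1 - x1)) =
      b * ((y1 - x1) * (z2 - x2) - (y2 - x2) * (z1 - x1)) := by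
    linear_combination (y1 - x1) * es2 - (y2 - x2) * es1
  have hos0 : 0 < (y1 - x1) * (s2 - x2) - (y2 - x2) * (s1 - x1) := by
    have h1 : 0 < (b + c) * ((y1 - x1) * (s2 - x2) - (y2 - x2) * (s1 - x1)) := by
      rw [hos]; positivity
    exact (mul_pos_iff_of_pos_left hbc).1 h1
  have hne : 0 < (s1 - t1) ^ 2 + (s2 - t2) ^ 2 := by
    by_contra hcon
    push Not at hcon
    have h1 : s1 - t1 = 0 := by
      have h2 : (s1 - t1) ^ 2 = 0 := by linarith [sq_nonneg (s1 - t1), sq_nonneg (s2 - t2)]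
      exact pow_eq_zero_iff two_ne_zero |>.1 h2
    have h2 : s2 - t2 = 0 := by
      have h2 : (s2 - t2) ^ 2 = 0 := by linarith [sq_nonneg (s1 - t1), sq_nonneg (s2 - t2)]
      exact pow_eq_zero_iff two_ne_zero |>.1 h2
    have h3 : (a + b) * ((y1 - x1) * (s2 - x2) - (y2 - x2) * (s1 - x1)) = 0 := by
      linear_combination (a + b) * (y1 - x1) * h2 - (a + b) * (y2 - x2) * h1 +
        (y1 - x1) * et2 - (y2 - x2) * et1
    rcases mul_eq_zero.1 h3 with h4 | h4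
    · exact absurd h4 hab.ne'
    · exact absurd h4 hos0.ne'
  have hlam0 : 0 < lam := by
    have h1 := hin s1 s2 hsq.le
    have h2 := hkey s1 s2
    have h3 : 0 < lam * ((y1 - x1) * (s2 - x2) - (y2 - x2) * (s1 - x1)) := by
      rw [← h2]
      apply mul_pos hD
      linarith
    exact (mul_pos_iff_of_pos_right hos0).1 h3
  have h1 := hin p1 p2 hp
  have h2 := hkey p1 p2
  have h3 : 0 ≤ lam * ((y1 - x1) * (p2 - x2) - (y2 - x2) * (p1 - x1)) := by
    rw [← h2]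
    apply mul_nonneg hD.le
    linarith [sq_nonneg (p1 - t1), sq_nonneg (p2 - t2)]
  exact (mul_nonneg_iff_of_pos_left hlam0).1 h3

theorem EUC5_hull {x y z p : ℂ} (h1 : 0 ≤ (y.re - x.re) * (p.im - x.im) - (y.im - x.im) * (p.re - x.re))
    (h2 : 0 ≤ (z.re - y.re) * (p.im - y.im) - (z.im - y.im) * (p.re - y.re))
    (h3 : 0 ≤ (x.re - z.re) * (p.im - z.im) - (x.im - z.im) * (p.re - z.re))
    (ho : 0 < (y.re - x.re) * (z.im - x.im) - (y.im - x.im) * (z.re - x.re)) :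
    p ∈ convexHull ℝ ({x, y, z} : Set ℂ) := by
  set D := (y.re - x.re) * (z.im - x.im) - (y.im - x.im) * (z.re - x.re) with hD
  set A := (z.re - y.re) * (p.im - y.im) - (z.im - y.im) * (p.re - y.re) with hA
  set B := (x.re - z.re) * (p.im - z.im) - (x.im - z.im) * (p.re - z.re) with hB
  set C := (y.re - x.re) * (p.im - x.im) - (y.im - x.im) * (p.re - x.re) with hC
  have hsum : A + B + C = D := by
    rw [hA, hB, hC, hD]; ring
  have hconv := convex_convexHull ℝ ({x, y, z} : Set ℂ)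
  have hmem := hconv.sum_mem (t := Finset.univ) (w := ![A / D, B / D, C / D]) (z := ![x, y, z])
    (by
      intro i _
      fin_cases i
      · exact div_nonneg h2 ho.le
      · exact div_nonneg h3 ho.le
      · exact div_nonneg h1 ho.le)
    (by
      rw [Fin.sum_univ_three]
      simp only [Matrix.cons_val_zero, Matrix.cons_val_one, Matrix.cons_val]
      rw [← add_div, ← add_div, hsum, div_self ho.ne'])
    (by
      intro i _
      fin_cases i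
      · exact subset_convexHull ℝ _ (by simp)
      · exact subset_convexHull ℝ _ (by simp)
      · exact subset_convexHull ℝ _ (by simp))
  rw [Fin.sum_univ_three] at hmem
  simp only [Matrix.cons_val_zero, Matrix.cons_val_one, Matrix.cons_val] at hmem
  convert hmem using 1
  apply Complex.ext
  · simp only [Complex.add_re, Complex.real_smul, Complex.re_ofReal_mul]
    rw [div_mul_eq_mul_div, div_mul_eq_mul_div, div_mul_eq_mul_div, ← add_div, ← add_div,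
      eq_div_iff ho.ne', hD, hA, hB, hC]
    ring
  · simp only [Complex.add_im, Complex.real_smul, Complex.im_ofReal_mul]
    rw [div_mul_eq_mul_div, div_mul_eq_mul_div, div_mul_eq_mul_div, ← add_div, ← add_div,
      eq_div_iff ho.ne', hD, hA, hB, hC]
    ring


theorem EUC5_cs {a : ℝ} (ha : 0 < a) (ha1 : a < 1) : 0 < sR a ∧ 0 < cR a ∧ cR a ^ 2 = 1 + sR a ^ 2 := by
  refine ⟨?_, ?_, ?_⟩
  · unfold sR
    apply div_pos _ (by positivity)
    nlinarith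
  · unfold cR
    positivity
  · unfold sR cR
    field_simp
    ring

theorem EUC5_Ch {a b : ℝ} (ha : 0 < a) (hb : 0 < b) : Ch a b = cR a * cR b + sR a * sR b := by
  unfold Ch cR sR
  field_simp
  ring

theorem EUC5_c1 : cR 1 = 1 := by
  unfold cR
  norm_num

theorem EUC5_ezre (X : V3) (a : ℝ) : (ez X a).re = X.1 / (X.2.2 + cR a) := by
  unfold ez
  rw [Complex.add_re, Complex.ofReal_re, Complex.re_ofReal_mul, Complex.I_re, mul_zero, add_zero]

theorem EUC5_ezim (X : V3) (a : ℝ) : (ez X a).im = X.2.1 / (X.2.2 + cR a) := by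
  unfold ez
  rw [Complex.add_im, Complex.ofReal_im, Complex.im_ofReal_mul, Complex.I_im, mul_one, zero_add]

theorem EUC5_disc {X P : V3} {a : ℝ} (hX : Hyp X) (hP : Hyp P) (ha : 0 < a) (ha1 : a < 1)
    (h : -mink X P ≤ cR a) : ez P 1 ∈ Metric.closedBall (ez X a) (er X a) := by
  obtain ⟨hs, hc, hcs⟩ := EUC5_cs ha ha1
  have hX2 := hX.2
  have hP2 := hP.2
  have hw : 0 < X.2.2 + cR a := by positivity
  have hv : 0 < P.2.2 + 1 := by positivity
  have her : 0 ≤ er X a := by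
    unfold er
    positivity
  rw [Metric.mem_closedBall, Complex.dist_eq, ← sq_le_sq₀ (norm_nonneg _) her,
    ← Complex.normSq_eq_norm_sq, Complex.normSq_apply, Complex.sub_re, Complex.sub_im,
    EUC5_ezre, EUC5_ezre, EUC5_ezim, EUC5_ezim, EUC5_c1]
  have e := EUC5_dist (x1 := P.1) (x2 := P.2.1) (y1 := X.1) (y2 := X.2.1) hv.ne' hw.ne'
  have hX1 : X.1 * X.1 + X.2.1 * X.2.1 - X.2.2 * X.2.2 = -1 := hX.1
  have hP1 : P.1 * P.1 + P.2.1 * P.2.1 - P.2.2 * P.2.2 = -1 := hP.1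
  have hXP : X.1 * P.1 + X.2.1 * P.2.1 - X.2.2 * P.2.2 = mink X P := rfl
  have hXP' : P.1 * X.1 + P.2.1 * X.2.1 - P.2.2 * X.2.2 = mink X P := by
    rw [← hXP]; ring
  rw [hX1, hP1, hXP', hcs] at e
  rw [← sq, ← sq, e]
  have e2 : er X a ^ 2 = (-1 + (1 + sR a ^ 2)) / (X.2.2 + cR a) ^ 2 := by
    unfold er
    rw [div_pow]
    congr 1
    ring
  rw [← e2]
  have e3 : 2 * (-mink X P - 1 * cR a) / ((P.2.2 + 1) * (X.2.2 + cR a)) ≤ 0 := by
    apply div_nonpos_of_nonpos_of_nonneg _ (by positivity)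
    linarith
  have e4 : (-1 + (1:ℝ) ^ 2) / (P.2.2 + 1) ^ 2 = 0 := by norm_num
  rw [e4]
  linarith

theorem EUC5 (hEUC4 : S_EUC4) : S_EUC5 := by
  intro X Y Z P a b c hX hY hZ hP ha ha1 hb hb1 hc hc1 hT hIn
  obtain ⟨hsa, hca, hca2⟩ := EUC5_cs ha ha1
  obtain ⟨hsb, hcb, hcb2⟩ := EUC5_cs hb hb1
  obtain ⟨hsc, hcc, hcc2⟩ := EUC5_cs hc hc1
  obtain ⟨hXY, hYZ, hXZ, hΔ⟩ := hT
  have hor := hEUC4 X Y Z a b c hX hY hZ ha ha1 hb hb1 hc hc1 ⟨hXY, hYZ, hXZ, hΔ⟩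
  rw [EUC5_Ch ha hb] at hXY
  rw [EUC5_Ch hb hc] at hYZ
  rw [EUC5_Ch ha hc] at hXZ
  obtain ⟨i1, i2, i3⟩ := hIn
  set Δ := det3 X Y Z with hΔd
  set α := det3 Y Z P / Δ with hα
  set β := det3 Z X P / Δ with hβ
  set γ := det3 X Y P / Δ with hγ
  have hα0 : 0 ≤ α := div_nonneg i2 hΔ.le
  have hβ0 : 0 ≤ β := div_nonneg i3 hΔ.le
  have hγ0 : 0 ≤ γ := div_nonneg i1 hΔ.le
  have hPc : P = α • X + β • Y + γ • Z := by
    have k1 : Δ * P.1 = det3 Y Z P * X.1 + det3 Z X P * Y.1 + det3 X Y P * Z.1 := by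
      rw [hΔd]; unfold det3; ring
    have k2 : Δ * P.2.1 = det3 Y Z P * X.2.1 + det3 Z X P * Y.2.1 + det3 X Y P * Z.2.1 := by
      rw [hΔd]; unfold det3; ring
    have k3 : Δ * P.2.2 = det3 Y Z P * X.2.2 + det3 Z X P * Y.2.2 + det3 X Y P * Z.2.2 := by
      rw [hΔd]; unfold det3; ring
    have hne := hΔ.ne'
    apply Prod.ext
    · simp only [Prod.fst_add, Prod.smul_fst, smul_eq_mul, hα, hβ, hγ]
      rw [div_mul_eq_mul_div, div_mul_eq_mul_div, div_mul_eq_mul_div, ← add_div, ← add_div,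
        eq_div_iff hne, ← k1]
      ring
    · apply Prod.ext
      · simp only [Prod.fst_add, Prod.snd_add, Prod.smul_fst, Prod.smul_snd, smul_eq_mul, hα, hβ,
          hγ]
        rw [div_mul_eq_mul_div, div_mul_eq_mul_div, div_mul_eq_mul_div, ← add_div, ← add_div,
          eq_div_iff hne, ← k2]
        ring
      · simp only [Prod.snd_add, Prod.smul_snd, smul_eq_mul, hα, hβ, hγ]
        rw [div_mul_eq_mul_div, div_mul_eq_mul_div, div_mul_eq_mul_div, ← add_div, ← add_div,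
          eq_div_iff hne, ← k3]
        ring
  clear_value α β γ
  clear hα hβ hγ
  by_cases h1 : β * sR b + γ * sR c ≤ α * sR a
  · left
    exact EUC5_disc hX hP ha ha1 (EUC5_corner hX hY hZ hP hsa hsb hsc hca hcb hcc hca2 hcb2 hcc2
      hXY hXZ hβ0 hγ0 hPc h1)
  by_cases h2 : γ * sR c + α * sR a ≤ β * sR b
  · right; left
    refine EUC5_disc hY hP hb hb1 (EUC5_corner hY hZ hX hP hsb hsc hsa hcb hcc hca hcb2 hcc2 hca2
      hYZ (by rw [EUC5_mc, hXY]; ring) hγ0 hα0 (α := β) ?_ h2)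
    rw [hPc]; abel
  by_cases h3 : α * sR a + β * sR b ≤ γ * sR c
  · right; right; left
    refine EUC5_disc hZ hP hc hc1 (EUC5_corner hZ hX hY hP hsc hsa hsb hcc hca hcb hcc2 hca2 hcb2
      (by rw [EUC5_mc, hXZ]; ring) (by rw [EUC5_mc, hYZ]; ring) hα0 hβ0 (α := γ) ?_ h3)
    rw [hPc]; abel
  right; right; right
  push Not at h1 h2 h3
  -- the vector U
  have hX2 := hX.2
  have hY2 := hY.2
  have hZ2 := hZ.2
  have hP2 := hP.2
  set W1 := cR a * (Y.2.1 * Z.2.2 - Y.2.2 * Z.2.1) + cR b * (Z.2.1 * X.2.2 - Z.2.2 * X.2.1) +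
    cR c * (X.2.1 * Y.2.2 - X.2.2 * Y.2.1) with hW1
  set W2 := cR a * (Y.2.2 * Z.1 - Y.1 * Z.2.2) + cR b * (Z.2.2 * X.1 - Z.1 * X.2.2) +
    cR c * (X.2.2 * Y.1 - X.1 * Y.2.2) with hW2
  set Wt := cR a * (Y.1 * Z.2.1 - Y.2.1 * Z.1) + cR b * (Z.1 * X.2.1 - Z.2.1 * X.1) +
    cR c * (X.1 * Y.2.1 - X.2.1 * Y.1) with hWt
  have hw1 : 0 < X.2.2 + cR a := by positivity
  have hw2 : 0 < Y.2.2 + cR b := by positivity
  have hw3 : 0 < Z.2.2 + cR c := by positivity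
  -- orientation
  have ho : 0 < ((ez Y b).re - (ez X a).re) * ((ez Z c).im - (ez X a).im) -
      ((ez Y b).im - (ez X a).im) * ((ez Z c).re - (ez X a).re) := by
    have e : ((starRingEnd ℂ) (ez Y b - ez X a) * (ez Z c - ez X a)).im =
        ((ez Y b).re - (ez X a).re) * ((ez Z c).im - (ez X a).im) -
        ((ez Y b).im - (ez X a).im) * ((ez Z c).re - (ez X a).re) := by
      simp only [Complex.mul_im, Complex.conj_re, Complex.conj_im, Complex.sub_re, Complex.sub_im]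
      ring
    rw [← e]
    exact hor
  have hoW : (X.2.2 + cR a) * (Y.2.2 + cR b) * (Z.2.2 + cR c) *
      (((ez Y b).re - (ez X a).re) * ((ez Z c).im - (ez X a).im) -
      ((ez Y b).im - (ez X a).im) * ((ez Z c).re - (ez X a).re)) = Δ + Wt := by
    rw [EUC5_ezre, EUC5_ezre, EUC5_ezre, EUC5_ezim, EUC5_ezim, EUC5_ezim, hΔd, hWt]
    unfold det3
    field_simp
    ring
  have hΔW : 0 < Δ + Wt := by
    rw [← hoW]
    positivity
  obtain ⟨U, hU⟩ : ∃ U : V3, U = (-W1 / Δ, -W2 / Δ, Wt / Δ) := ⟨_, rfl⟩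
  have hUt : 0 < U.2.2 + 1 := by
    rw [hU]
    show 0 < Wt / Δ + 1
    have : Wt / Δ + 1 = (Δ + Wt) / Δ := by
      field_simp
      ring
    rw [this]
    positivity
  have hUX : mink U X = -cR a := by
    rw [hU]
    show -W1 / Δ * X.1 + -W2 / Δ * X.2.1 - Wt / Δ * X.2.2 = -cR a
    have e : W1 * X.1 + W2 * X.2.1 + Wt * X.2.2 = cR a * Δ := by
      rw [hW1, hW2, hWt, hΔd]; unfold det3; ring
    have e2 : -W1 / Δ * X.1 + -W2 / Δ * X.2.1 - Wt / Δ * X.2.2 =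
        -(W1 * X.1 + W2 * X.2.1 + Wt * X.2.2) / Δ := by ring
    rw [e2, e]
    field_simp
  have hUY : mink U Y = -cR b := by
    rw [hU]
    show -W1 / Δ * Y.1 + -W2 / Δ * Y.2.1 - Wt / Δ * Y.2.2 = -cR b
    have e : W1 * Y.1 + W2 * Y.2.1 + Wt * Y.2.2 = cR b * Δ := by
      rw [hW1, hW2, hWt, hΔd]; unfold det3; ring
    have e2 : -W1 / Δ * Y.1 + -W2 / Δ * Y.2.1 - Wt / Δ * Y.2.2 =
        -(W1 * Y.1 + W2 * Y.2.1 + Wt * Y.2.2) / Δ := by ring
    rw [e2, e]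
    field_simp
  have hUZ : mink U Z = -cR c := by
    rw [hU]
    show -W1 / Δ * Z.1 + -W2 / Δ * Z.2.1 - Wt / Δ * Z.2.2 = -cR c
    have e : W1 * Z.1 + W2 * Z.2.1 + Wt * Z.2.2 = cR c * Δ := by
      rw [hW1, hW2, hWt, hΔd]; unfold det3; ring
    have e2 : -W1 / Δ * Z.1 + -W2 / Δ * Z.2.1 - Wt / Δ * Z.2.2 =
        -(W1 * Z.1 + W2 * Z.2.1 + Wt * Z.2.2) / Δ := by ring
    rw [e2, e]
    field_simp
  have hUP := EUC5_middle hX hY hZ hP hsa hsb hsc hca hcb hcc hca2 hcb2 hcc2 hXY hYZ hXZ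
    hUX hUY hUZ hPc h1.le h2.le h3.le
  clear hU hW1 hW2 hWt hoW hΔW
  -- euclidean facts
  have dist2 : ∀ (V V' : V3) (d d' : ℝ), Hyp V → Hyp V' → 0 < d → d < 1 → 0 < d' → d' < 1 →
      mink V V' = -(cR d * cR d' + sR d * sR d') →
      ((ez V d).re - (ez V' d').re) ^ 2 + ((ez V d).im - (ez V' d').im) ^ 2 =
        (er V d + er V' d') ^ 2 := by
    intro V V' d d' hV hV' hd hd1 hd' hd'1 hVV
    obtain ⟨_, r2, r3⟩ := EUC5_cs hd hd1
    obtain ⟨_, r2', r3'⟩ := EUC5_cs hd' hd'1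
    have hv := hV.2
    have hv' := hV'.2
    have hw : 0 < V.2.2 + cR d := by positivity
    have hw' : 0 < V'.2.2 + cR d' := by positivity
    rw [EUC5_ezre, EUC5_ezre, EUC5_ezim, EUC5_ezim]
    have e := EUC5_dist (x1 := V.1) (x2 := V.2.1) (y1 := V'.1) (y2 := V'.2.1) hw.ne' hw'.ne'
    have hV1 : V.1 * V.1 + V.2.1 * V.2.1 - V.2.2 * V.2.2 = -1 := hV.1
    have hV1' : V'.1 * V'.1 + V'.2.1 * V'.2.1 - V'.2.2 * V'.2.2 = -1 := hV'.1
    have hm : V.1 * V'.1 + V.2.1 * V'.2.1 - V.2.2 * V'.2.2 =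
      -(cR d * cR d' + sR d * sR d') := hVV
    rw [e, hV1, hV1', hm, r3, r3']
    unfold er
    field_simp
    ring
  set ρ := (mink U U + 1) / (U.2.2 + 1) ^ 2 with hρ
  have distq : ∀ (V : V3) (d : ℝ), Hyp V → 0 < d → d < 1 → mink U V = -cR d →
      ((ez V d).re - U.1 / (U.2.2 + 1)) ^ 2 + ((ez V d).im - U.2.1 / (U.2.2 + 1)) ^ 2 =
        ρ + er V d ^ 2 := by
    intro V d hV hd hd1 hUV
    obtain ⟨_, r2, r3⟩ := EUC5_cs hd hd1
    have hv := hV.2
    have hw : 0 < V.2.2 + cR d := by positivity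
    rw [EUC5_ezre, EUC5_ezim]
    have e := EUC5_dist (x1 := V.1) (x2 := V.2.1) (y1 := U.1) (y2 := U.2.1) hw.ne' hUt.ne'
    have hV1 : V.1 * V.1 + V.2.1 * V.2.1 - V.2.2 * V.2.2 = -1 := hV.1
    have hm : V.1 * U.1 + V.2.1 * U.2.1 - V.2.2 * U.2.2 = -cR d := by
      rw [← hUV]; unfold mink; ring
    have hUU : U.1 * U.1 + U.2.1 * U.2.1 - U.2.2 * U.2.2 = mink U U := rfl
    rw [e, hV1, hm, hUU, r3, hρ]
    unfold er
    field_simp
    ring
  have hpq : ((ez P 1).re - U.1 / (U.2.2 + 1)) ^ 2 + ((ez P 1).im - U.2.1 / (U.2.2 + 1)) ^ 2 ≤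
      ρ := by
    have hv : 0 < P.2.2 + 1 := by positivity
    rw [EUC5_ezre, EUC5_ezim, EUC5_c1]
    have e := EUC5_dist (x1 := P.1) (x2 := P.2.1) (y1 := U.1) (y2 := U.2.1) hv.ne' hUt.ne'
    have hP1 : P.1 * P.1 + P.2.1 * P.2.1 - P.2.2 * P.2.2 = -1 := hP.1
    have hm : P.1 * U.1 + P.2.1 * U.2.1 - P.2.2 * U.2.2 = mink U P := by
      unfold mink; ring
    have hUU : U.1 * U.1 + U.2.1 * U.2.1 - U.2.2 * U.2.2 = mink U U := rfl
    rw [e, hP1, hm, hUU, one_pow]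
    have e3 : 2 * (-mink U P - 1 * 1) / ((P.2.2 + 1) * (U.2.2 + 1)) ≤ 0 := by
      apply div_nonpos_of_nonpos_of_nonneg _ (by positivity)
      linarith
    have e4 : (-1 + (1:ℝ)) / (P.2.2 + 1) ^ 2 = 0 := by norm_num
    rw [e4, hρ]
    linarith
  have hra : 0 < er X a := by unfold er; positivity
  have hrb : 0 < er Y b := by unfold er; positivity
  have hrc : 0 < er Z c := by unfold er; positivity
  have dXY := dist2 X Y a b hX hY ha ha1 hb hb1 hXY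
  have dYZ := dist2 Y Z b c hY hZ hb hb1 hc hc1 hYZ
  have dZX := dist2 Z X c a hZ hX hc hc1 ha ha1 (by rw [EUC5_mc, hXZ]; ring)
  have qX := distq X a hX ha ha1 hUX
  have qY := distq Y b hY hb hb1 hUY
  have qZ := distq Z c hZ hc hc1 hUZ
  refine EUC5_hull ?_ ?_ ?_ ho
  · exact EUC5_side hra hrb hrc dXY dYZ qX qY qZ hpq ho
  · exact EUC5_side hrb hrc hra dYZ dZX qY qZ qX hpq (by linarith)
  · exact EUC5_side hrc hra hrb dZX dXY qZ qX qY hpq (by linarith)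

end H637F
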