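import Pool.Agent.H637R3.DF.Stm

namespace H637F

open Real

theorem EXT_det (X E F : V3) (C S C' S' θ θ' : ℝ) :
    det3 X (pol X E F C S θ) (pol X E F C' S' θ') = S * S' * Real.sin (θ' - θ) * det3 X E F := by
  obtain ⟨x1, x2, x3⟩ := X
  obtain ⟨e1, e2, e3⟩ := E
  obtain ⟨f1, f2, f3⟩ := F
  rw [Real.sin_sub]
  simp only [det3, pol, Prod.smul_mk, Prod.mk_add_mk, smul_eq_mul]
  ring

theorem EXT_cyc (X Y Z : V3) : det3 Y X Z = det3 X Z Y := by
  obtain ⟨x1, x2, x3⟩ := X
  obtain ⟨e1, e2, e3⟩ := Y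
  obtain ⟨f1, f2, f3⟩ := Z
  simp only [det3]
  ring

theorem EXT_Sh (a b : ℝ) (ha : 0 < a) (ha' : a ≤ 1 / 8) (hb : 0 < b) (hb' : b ≤ 1 / 8) :
    0 < Sh a b := by
  unfold Sh
  have h1 : a * b ≤ 1 / 8 * (1 / 8) := mul_le_mul ha' hb' hb.le (by norm_num)
  have h2 : 0 < a * b := mul_pos ha hb
  apply div_pos
  · nlinarith
  · positivity

/-- an angle in the sector. -/
theorem EXT_ang (φ t δ : ℝ) (h0 : 0 ≤ φ) (h1 : φ < 2 * π) (ht : 0 ≤ t) (hd : 0 < δ) (hdp : δ < π)
    (htd : t + δ ≤ 2 * π) (s1 : 0 ≤ Real.sin (φ - t)) (s2 : 0 ≤ Real.sin (t + δ - φ)) :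
    ∃ ψ, (ψ = φ ∨ ψ = φ + 2 * π) ∧ t ≤ ψ ∧ ψ ≤ t + δ := by
  rcases le_or_gt t φ with h | h
  · refine ⟨φ, Or.inl rfl, h, ?_⟩
    by_contra hc
    rw [not_le] at hc
    rcases le_or_gt (φ - t) π with h2 | h2
    · have := Real.sin_neg_of_neg_of_neg_pi_lt (x := t + δ - φ) (by linarith) (by linarith)
      linarith
    · have h3 : Real.sin (φ - t) = Real.sin (φ - t - 2 * π) := (Real.sin_sub_two_pi _).symm
      have := Real.sin_neg_of_neg_of_neg_pi_lt (x := φ - t - 2 * π) (by linarith) (by linarith)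
      linarith
  · have h2 : φ - t ≤ -π := by
      by_contra hc
      rw [not_le] at hc
      have := Real.sin_neg_of_neg_of_neg_pi_lt (x := φ - t) (by linarith) hc
      linarith
    refine ⟨φ + 2 * π, Or.inr rfl, by linarith, ?_⟩
    by_contra hc
    rw [not_le] at hc
    have h3 : Real.sin (t + δ - φ) = Real.sin (t + δ - φ - 2 * π) := (Real.sin_sub_two_pi _).symm
    have := Real.sin_neg_of_neg_of_neg_pi_lt (x := t + δ - φ - 2 * π) (by linarith) (by linarith)
    linarith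

theorem EXT_iot (M : ℕ → ℕ) (n : ℕ) (hn : 1 ≤ n) : 2 ≤ iot M n ∧ iot M n ≤ 4 := by
  unfold iot
  split_ifs <;> omega

theorem EXT_w0 (M : ℕ → ℕ) (n : ℕ) (hn : 1 ≤ n) : w M n 0 = n + 1 := by
  have h := (EXT_iot M n hn).1
  unfold w
  rw [if_pos (by omega)]
  unfold inn
  by_cases h1 : n = 1
  · rw [if_pos h1, if_pos rfl]; omega
  · rw [if_neg h1]
    by_cases h2 : M (par M n) = n
    · rw [if_pos h2, if_pos rfl]
    · rw [if_neg h2, if_pos rfl]

theorem EXT (hPOLN : S_POLN) (hPOLANY : S_POLANY) (hHAB : S_HAB) (hMGR : S_MGR) : S_EXT := by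
  intro M b X hX n y z hf P hP
  obtain ⟨hM, h1, -⟩ := hMGR M hX.good
  have key : 1 ≤ n → ∃ (E F : V3) (C S φ ti δ Φ C0 S0 C1 S1 Cy Sy Cz Sz : ℝ),
      det3 (X n) E F = 1 ∧ 0 ≤ S ∧ 0 ≤ φ ∧ φ < 2 * π ∧ P = pol (X n) E F C S φ ∧
      0 < S0 ∧ 0 < S1 ∧ 0 < Sy ∧ 0 < Sz ∧ 0 < δ ∧ δ < π ∧ 0 < Φ ∧ Φ < π ∧ Φ ≤ ti ∧
      ti + δ ≤ 2 * π ∧ X (n + 1) = pol (X n) E F C0 S0 0 ∧ X (M n) = pol (X n) E F C1 S1 Φ ∧
      X y = pol (X n) E F Cy Sy ti ∧ X z = pol (X n) E F Cz Sz (ti + δ) := by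
    intro hn
    obtain ⟨E, F, θ, hfr, hθ0, hθd, hθs, hXw⟩ := hPOLN M b X hX n
    have hdet : det3 (X n) E F = 1 := hfr.2.2.2.2.2.2
    obtain ⟨S, φ, hS, hφ0, hφ1, hPp⟩ := hPOLANY (X n) E F P hfr (hX.hyp n).2 hP
    obtain ⟨hi2, hi4⟩ := EXT_iot M n hn
    have hMn : M n < M (n + 1) := hM (Nat.lt_succ_self n)
    have hdeg : deg M n = iot M n + (M (n + 1) - M n + 1) := rfl
    have hha : ∀ i, i < deg M n → θ i + 0 < θ (i + 1) ∧ θ (i + 1) ≤ θ i + 1 / 3 := by
      intro i hi
      have h := hHAB (b n) (b (w M n i)) (b (w M n ((i + 1) % deg M n))) (hX.bpos _) (hX.ble _)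
        (hX.bpos _) (hX.ble _) (hX.bpos _) (hX.ble _)
      have hb1 := hX.bpos n
      have hb2 := hX.ble n
      rw [hθs i hi]
      constructor
      · linarith [h.1]
      · linarith [h.2]
    have hmono : ∀ i j, i ≤ j → j ≤ deg M n → θ i ≤ θ j := by
      intro i j hij
      induction j, hij using Nat.le_induction with
      | base => intro _; exact le_rfl
      | succ j hij ih =>
        intro hj
        have := ih (by omega)
        have := (hha j (by omega)).1
        linarith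
    have hΦ4 : ∀ i, i ≤ 4 → i ≤ deg M n → θ i ≤ i / 3 := by
      intro i
      induction i with
      | zero => intro _ _; rw [hθ0]; simp
      | succ i ih =>
        intro h4 hd
        have h5 := ih (by omega) (by omega)
        have h6 := (hha i (by omega)).2
        push_cast
        linarith
    have hpi := Real.pi_gt_three
    have hΦpos : 0 < θ (iot M n) := by
      have h5 := (hha 0 (by omega)).1
      have h6 := hmono 1 (iot M n) (by omega) (by omega)
      rw [hθ0] at h5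
      linarith
    have hΦpi : θ (iot M n) < π := by
      have h5 := hΦ4 (iot M n) hi4 (by omega)
      have h6 : ((iot M n : ℕ) : ℝ) ≤ 4 := by exact_mod_cast hi4
      linarith
    have hwge : ∀ i, iot M n ≤ i → w M n i = M n + (i - iot M n) := by
      intro i hi
      unfold w
      rw [if_neg (by omega)]
    -- the index of the face
    obtain ⟨i, hid, hii, hy, hz⟩ : ∃ i, i < deg M n ∧ iot M n ≤ i ∧ y = w M n i ∧
        z = w M n ((i + 1) % deg M n) := by
      obtain ⟨m, h | h⟩ := hf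
      · obtain ⟨j, hj1, hj2, hj3⟩ := h
        simp only [Prod.mk.injEq] at hj3
        obtain ⟨rfl, rfl, rfl⟩ := hj3
        refine ⟨iot M n + (y - M n), by omega, by omega, ?_, ?_⟩
        · rw [hwge _ (by omega)]; omega
        · rw [Nat.mod_eq_of_lt (by omega), hwge _ (by omega)]; omega
      · simp only [Prod.mk.injEq] at h
        obtain ⟨rfl, rfl, rfl⟩ := h
        refine ⟨iot M n + (M (n + 1) - M n), by omega, by omega, ?_, ?_⟩
        · rw [hwge _ (by omega)]; omega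
        · have e : iot M n + (M (n + 1) - M n) + 1 = deg M n := by omega
          rw [e, Nat.mod_self, EXT_w0 M n hn]
    have hXy := hXw i hid
    rw [← hy] at hXy
    have hXz : X z = pol (X n) E F (Ch (b n) (b z)) (Sh (b n) (b z)) (θ (i + 1)) := by
      rcases Nat.lt_or_ge (i + 1) (deg M n) with h | h
      · have h2 := hXw (i + 1) h
        rw [Nat.mod_eq_of_lt h] at hz
        rw [← hz] at h2
        exact h2
      · have e : i + 1 = deg M n := by omega
        have h2 := hXw 0 (by omega)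
        rw [e, Nat.mod_self] at hz
        rw [← hz, hθ0] at h2
        rw [e, hθd, h2]
        simp only [pol, Real.cos_zero, Real.sin_zero, Real.cos_two_pi, Real.sin_two_pi]
    have hX0 := hXw 0 (by omega)
    rw [EXT_w0 M n hn, hθ0] at hX0
    have hX1 := hXw (iot M n) (by omega)
    rw [hwge (iot M n) le_rfl, Nat.sub_self, Nat.add_zero] at hX1
    have hδ := hha i hid
    refine ⟨E, F, √(1 + S ^ 2), S, φ, θ i, θ (i + 1) - θ i, θ (iot M n), _, _, _, _, _, _,
      Ch (b n) (b z), Sh (b n) (b z), hdet, hS, hφ0, hφ1, hPp, ?_, ?_, ?_, ?_, by linarith [hδ.1], by linarith [hδ.2], hΦpos, hΦpi,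
      hmono _ _ hii (by omega), ?_, hX0, hX1, hXy, ?_⟩
    · exact EXT_Sh _ _ (hX.bpos _) (hX.ble _) (hX.bpos _) (hX.ble _)
    · exact EXT_Sh _ _ (hX.bpos _) (hX.ble _) (hX.bpos _) (hX.ble _)
    · exact EXT_Sh _ _ (hX.bpos _) (hX.ble _) (hX.bpos _) (hX.ble _)
    · exact EXT_Sh (b n) (b z) (hX.bpos _) (hX.ble _) (hX.bpos _) (hX.ble _)
    · have := hmono (i + 1) (deg M n) (by omega) le_rfl
      rw [hθd] at this
      linarith
    · rw [add_sub_cancel]
      exact hXz
  have hnx : 1 ≤ n → nx M n n = n + 1 ∧ nx M n (M n) = n := by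
    intro _
    unfold nx
    rw [if_pos (by have := h1 n; omega), if_neg (lt_irrefl _)]
    exact ⟨rfl, rfl⟩
  constructor
  · intro hn hIn hS
    obtain ⟨E, F, C, S, φ, ti, δ, Φ, C0, S0, C1, S1, Cy, Sy, Cz, Sz, hdet, hS0, hφ0, hφ1, hP',
      q0, q1, qy, qz, hδ0, hδ1, hΦ0, hΦ1, hΦt, htd, hX0, hX1, hXy, hXz⟩ := key hn
    obtain ⟨hn1, hn2⟩ := hnx hn
    have r1 := hS n le_rfl (by have := h1 n; omega)
    have r2 := hS (M n) (by have := h1 n; omega) le_rfl
    rw [hn1, hX0, hP', EXT_det, hdet, mul_one, sub_zero] at r1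
    rw [hn2, EXT_cyc, hX1, hP', EXT_det, hdet, mul_one] at r2
    have hSpos : 0 < S := by
      rcases hS0.eq_or_lt with h | h
      · rw [← h] at r1; simp at r1
      · exact h
    have i1 := hIn.1
    have i3 := hIn.2.2
    rw [hXy, hP', EXT_det, hdet, mul_one] at i1
    rw [EXT_cyc, hXz, hP', EXT_det, hdet, mul_one] at i3
    have s1 : 0 ≤ Real.sin (φ - ti) := nonneg_of_mul_nonneg_right i1 (mul_pos qy hSpos)
    have s2 : 0 ≤ Real.sin (ti + δ - φ) := nonneg_of_mul_nonneg_right i3 (mul_pos hSpos qz)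
    have t1 : 0 < Real.sin φ := pos_of_mul_pos_right r1 (mul_pos q0 hSpos).le
    have t2 : 0 < Real.sin (Φ - φ) := pos_of_mul_pos_right r2 (mul_pos hSpos q1).le
    obtain ⟨ψ, hψ, hψ1, hψ2⟩ := EXT_ang φ ti δ hφ0 hφ1 (by linarith) hδ0 hδ1 htd s1 s2
    have u1 : 0 < Real.sin ψ := by
      rcases hψ with rfl | rfl
      · exact t1
      · rwa [Real.sin_add_two_pi]
    have u2 : 0 < Real.sin (Φ - ψ) := by
      rcases hψ with rfl | rfl
      · exact t2
      · rw [← sub_sub, Real.sin_sub_two_pi]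
        exact t2
    have hψpi : ψ < π := by
      by_contra hc
      rw [not_lt] at hc
      have h3 : Real.sin ψ = - Real.sin (ψ - π) := by rw [Real.sin_sub_pi]; ring
      have := Real.sin_nonneg_of_nonneg_of_le_pi (x := ψ - π) (by linarith) (by linarith)
      linarith
    have := Real.sin_nonpos_of_nonpos_of_neg_pi_le (x := Φ - ψ) (by linarith) (by linarith)
    linarith
  · intro hn hIn hS
    obtain ⟨E, F, C, S, φ, ti, δ, Φ, C0, S0, C1, S1, Cy, Sy, Cz, Sz, hdet, hS0, hφ0, hφ1, hP',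
      q0, q1, qy, qz, hδ0, hδ1, hΦ0, hΦ1, hΦt, htd, hX0, hX1, hXy, hXz⟩ := key hn
    obtain ⟨hn1, hn2⟩ := hnx hn
    have r1 := hS n le_rfl (by have := h1 n; omega)
    have r2 := hS (M n) (by have := h1 n; omega) le_rfl
    rw [hn1, hX0, hP', EXT_det, hdet, mul_one, sub_zero] at r1
    rw [hn2, EXT_cyc, hX1, hP', EXT_det, hdet, mul_one] at r2
    have i1 := hIn.1
    have i3 := hIn.2.2
    rw [hXy, hP', EXT_det, hdet, mul_one] at i1
    rw [EXT_cyc, hXz, hP', EXT_det, hdet, mul_one] at i3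
    have hSpos : 0 < S := by
      rcases hS0.eq_or_lt with h | h
      · rw [← h] at i1; simp at i1
      · exact h
    have s1 : 0 < Real.sin (φ - ti) := pos_of_mul_pos_right i1 (mul_pos qy hSpos).le
    have s2 : 0 < Real.sin (ti + δ - φ) := pos_of_mul_pos_right i3 (mul_pos hSpos qz).le
    have t1 : 0 ≤ Real.sin φ := nonneg_of_mul_nonneg_right r1 (mul_pos q0 hSpos)
    have t2 : 0 ≤ Real.sin (Φ - φ) := nonneg_of_mul_nonneg_right r2 (mul_pos hSpos q1)
    obtain ⟨ψ, hψ, hψ1, hψ2⟩ := EXT_ang φ ti δ hφ0 hφ1 (by linarith) hδ0 hδ1 htd s1.le s2.le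
    have u1 : 0 ≤ Real.sin ψ := by
      rcases hψ with rfl | rfl
      · exact t1
      · rwa [Real.sin_add_two_pi]
    have u2 : 0 ≤ Real.sin (Φ - ψ) := by
      rcases hψ with rfl | rfl
      · exact t2
      · rw [← sub_sub, Real.sin_sub_two_pi]
        exact t2
    have u3 : 0 < Real.sin (ψ - ti) := by
      rcases hψ with rfl | rfl
      · exact s1
      · have : φ + 2 * π - ti = φ - ti + 2 * π := by ring
        rw [this, Real.sin_add_two_pi]
        exact s1
    have u4 : 0 < Real.sin (ti + δ - ψ) := by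
      rcases hψ with rfl | rfl
      · exact s2
      · rw [← sub_sub, Real.sin_sub_two_pi]
        exact s2
    have v1 : ti < ψ := by
      rcases hψ1.eq_or_lt with h | h
      · rw [h, sub_self, Real.sin_zero] at u3
        exact absurd u3 (lt_irrefl _)
      · exact h
    have v2 : ψ < ti + δ := by
      rcases hψ2.eq_or_lt with h | h
      · rw [h, sub_self, Real.sin_zero] at u4
        exact absurd u4 (lt_irrefl _)
      · exact h
    have hψpi : ψ ≤ π := by
      by_contra hc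
      rw [not_le] at hc
      have h3 : Real.sin ψ = - Real.sin (ψ - π) := by rw [Real.sin_sub_pi]; ring
      have := Real.sin_pos_of_pos_of_lt_pi (x := ψ - π) (by linarith) (by linarith)
      linarith
    have := Real.sin_neg_of_neg_of_neg_pi_lt (x := Φ - ψ) (by linarith) (by linarith)
    linarith

end H637F
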