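import Pool.Agent.H637R3.DF.Stm

/-! Task FAN of project DF (MP_3555ad_an). -/

namespace H637F

theorem FAN_swap (X Y P : V3) : det3 Y X P = -det3 X Y P := by
  unfold det3
  ring

theorem FAN (hMGR : S_MGR) : S_FAN := by
  intro M b X hL n hn P hP
  have hM : n + 50 ≤ M n := (hMGR M hL.good).2.2 n hn
  have hstep : ∀ k, n ≤ k → k < M n → 0 ≤ det3 (X k) (X (k + 1)) P := by
    intro k h1 h2
    have h := hP k h1 h2.le
    unfold nx at h
    rwa [if_pos h2] at h
  have hlast : 0 ≤ det3 (X (M n)) (X n) P := by
    have h := hP (M n) (by omega) le_rfl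
    unfold nx at h
    rwa [if_neg (lt_irrefl _)] at h
  by_contra hcon
  push Not at hcon
  have key : ∀ j, n + 1 + j ≤ M n → 0 ≤ det3 (X n) (X (n + 1 + j)) P ∧
      (1 ≤ j → 0 < det3 (X n) (X (n + 1 + j)) P) := by
    intro j
    induction j with
    | zero =>
      intro _
      exact ⟨hstep n le_rfl (by omega), fun h => absurd h (by omega)⟩
    | succ j ih =>
      intro hj
      have h1 := (ih (by omega)).1
      have h2 : 0 < det3 (X n) (X (n + 1 + (j + 1))) P := by
        by_contra h3
        push Not at h3
        refine hcon (n + 1 + j) (by omega) (by omega) ⟨h1, hstep _ (by omega) (by omega), ?_⟩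
        rw [FAN_swap]
        have : n + 1 + j + 1 = n + 1 + (j + 1) := by omega
        rw [this]
        linarith
      exact ⟨h2.le, fun _ => h2⟩
  have h := (key (M n - (n + 1)) (by omega)).2 (by omega)
  rw [show n + 1 + (M n - (n + 1)) = M n by omega] at h
  rw [FAN_swap] at hlast
  linarith

end H637F
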