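import Pool.Agent.H637R3.DF.Stm

set_option autoImplicit false

namespace H637F

open Real

lemma FLC_det (X E F : V3) (C1 S1 a C2 S2 c : ℝ) :
    det3 X (pol X E F C1 S1 a) (pol X E F C2 S2 c) = S1 * S2 * Real.sin (c - a) * det3 X E F := by
  obtain ⟨x1, x2, x3⟩ := X
  obtain ⟨e1, e2, e3⟩ := E
  obtain ⟨f1, f2, f3⟩ := F
  simp only [det3, pol, Real.sin_sub, Prod.smul_mk, Prod.mk_add_mk, smul_eq_mul]
  ring

lemma FLC_Sh {a b : ℝ} (ha : 0 < a) (ha' : a ≤ 1 / 8) (hb : 0 < b) (hb' : b ≤ 1 / 8) :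
    0 < Sh a b := by
  unfold Sh
  have h1 : a ^ 2 ≤ 1 / 64 := by nlinarith
  have h2 : b ^ 2 ≤ 1 / 64 := by nlinarith
  have h3 : a ^ 2 * b ^ 2 < 1 := by nlinarith [sq_nonneg a, sq_nonneg b]
  apply div_pos
  · linarith
  · positivity

theorem FLC (hHALF : S_HALF) (hPOLN : S_POLN) (hPOLANY : S_POLANY) (hHAB : S_HAB)
    (hFLOA : S_FLOA) : S_FLC := by
  intro M b X h n P hP hle
  obtain ⟨E, F, θ, hFr, h0, hd, hstep, hpol⟩ := hPOLN M b X h n
  obtain ⟨S, φ, hS, hφ0, hφ1, hPp⟩ := hPOLANY (X n) E F P hFr (h.hyp n).2 hP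
  obtain ⟨hdeg, hfl⟩ := hFLOA M h.good n
  -- find the sector
  have hex : ∃ j, φ < θ j := ⟨deg M n, by rw [hd]; exact hφ1⟩
  classical
  have hj1 := Nat.find_spec hex
  have hjmin : ∀ m, m < Nat.find hex → θ m ≤ φ := fun m hm => not_lt.mp (Nat.find_min hex hm)
  have hjd : Nat.find hex ≤ deg M n := Nat.find_min' hex (by rw [hd]; exact hφ1)
  generalize Nat.find hex = j at hj1 hjmin hjd
  rcases Nat.eq_zero_or_pos j with hj0 | hj0
  · subst hj0
    rw [h0] at hj1
    linarith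
  obtain ⟨i, rfl⟩ : ∃ i, j = i + 1 := ⟨j - 1, by omega⟩
  have hi : i < deg M n := by omega
  have hmod : (i + 1) % deg M n < deg M n := Nat.mod_lt _ (by omega)
  refine ⟨i, hi, ?_⟩
  have hθi : θ i ≤ φ := hjmin i (by omega)
  have hst := hstep i hi
  have hab := hHAB (b n) (b (w M n i)) (b (w M n ((i + 1) % deg M n))) (h.bpos _) (h.ble _)
    (h.bpos _) (h.ble _) (h.bpos _) (h.ble _)
  have hpi := Real.pi_gt_three
  have hbn := h.ble n
  have hlt : θ (i + 1) - θ i < π := by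
    rw [hst]
    linarith [hab.2]
  have hdet : det3 (X n) E F = 1 := hFr.2.2.2.2.2.2
  have hT := h.tri _ _ _ (hfl i hi)
  refine ⟨?_, ?_, ?_⟩
  · rw [hPp, hpol i hi, FLC_det, hdet, mul_one]
    apply mul_nonneg
    · exact mul_nonneg (FLC_Sh (h.bpos _) (h.ble _) (h.bpos _) (h.ble _)).le hS
    · apply Real.sin_nonneg_of_nonneg_of_le_pi
      · linarith
      · linarith
  · exact (hHALF (X n) _ _ P _ _ _ (h.hyp _) (h.hyp _) (h.hyp _) hP (h.bpos _) (h.ble _)
      (h.bpos _) (h.ble _) (h.bpos _) (h.ble _) hT hle).le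
  · have hsin : 0 ≤ Real.sin (θ ((i + 1) % deg M n) - φ) := by
      rcases Nat.lt_or_ge (i + 1) (deg M n) with h1 | h1
      · rw [Nat.mod_eq_of_lt h1]
        apply Real.sin_nonneg_of_nonneg_of_le_pi
        · linarith
        · linarith
      · have h2 : i + 1 = deg M n := by omega
        rw [h2, Nat.mod_self, h0]
        have h3 : Real.sin (θ (i + 1) - φ) = Real.sin (0 - φ) := by
          rw [h2, hd]
          rw [show 2 * π - φ = (0 - φ) + 2 * π by ring, Real.sin_add_two_pi]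
        rw [← h3]
        apply Real.sin_nonneg_of_nonneg_of_le_pi
        · linarith
        · linarith
    have hcyc : ∀ A B C : V3, det3 A B C = det3 B C A := by
      intro A B C
      simp only [det3]
      ring
    rw [hcyc, hPp, hpol _ hmod, FLC_det, hdet, mul_one]
    apply mul_nonneg
    · exact mul_nonneg hS (FLC_Sh (h.bpos _) (h.ble _) (h.bpos _) (h.ble _)).le
    · exact hsin

end H637F
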