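import Pool.Agent.H637R3.DF.Stm

/-!
FLOA: the flower of `n` consists of faces.
-/

namespace H637F

theorem FLOA_base {M : ℕ → ℕ} {n j : ℕ} (h1 : M n ≤ j) (h2 : j < M (n + 1)) :
    (n, j, j + 1) ∈ BF M := ⟨n, Or.inl ⟨j, h1, h2, rfl⟩⟩

theorem FLOA_close {M : ℕ → ℕ} (n : ℕ) : (n, M (n + 1), n + 1) ∈ BF M := ⟨n, Or.inr rfl⟩

theorem FLOA_r0 {M : ℕ → ℕ} {x y z : ℕ} (h : (x, y, z) ∈ BF M) : (x, y, z) ∈ FF M :=
  ⟨x, y, z, h, Or.inl rfl⟩

theorem FLOA_r1 {M : ℕ → ℕ} {x y z : ℕ} (h : (x, y, z) ∈ BF M) : (y, z, x) ∈ FF M :=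
  ⟨x, y, z, h, Or.inr (Or.inl rfl)⟩

theorem FLOA_r2 {M : ℕ → ℕ} {x y z : ℕ} (h : (x, y, z) ∈ BF M) : (z, x, y) ∈ FF M :=
  ⟨x, y, z, h, Or.inr (Or.inr rfl)⟩

theorem FLOA_w0 {M : ℕ → ℕ} (hM : Good M) (n : ℕ) : w M n 0 = n + 1 := by
  unfold w iot inn
  by_cases h0 : n = 0
  · simp [h0, hM.zero]
  by_cases h1 : n = 1
  · simp [h1]
  by_cases h2 : M (par M n) = n
  · simp [h0, h1, h2]
  · simp [h0, h1, h2]

theorem FLOA (hMGR : S_MGR) (hPAR : S_PAR) : S_FLOA := by
  intro M hM n
  have hst := hM.step n
  have hdeg : deg M n = iot M n + (M (n + 1) - M n + 1) := rfl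
  refine ⟨by omega, fun i hi => ?_⟩
  rcases Nat.lt_or_ge i (iot M n) with h1 | h1
  · -- inner neighbours
    have hmod : (i + 1) % deg M n = i + 1 := Nat.mod_eq_of_lt (by omega)
    rw [hmod]
    by_cases h0 : n = 0
    · exfalso
      have : iot M n = 0 := by unfold iot; rw [if_pos h0]
      omega
    by_cases hn1 : n = 1
    · subst hn1
      have hiot : iot M 1 = 2 := by unfold iot; simp
      rw [hiot] at h1
      have hst0 := hM.step 0
      rw [hM.zero] at hst0
      have hi2 : i = 0 ∨ i = 1 := by omega
      rcases hi2 with rfl | rfl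
      · have e1 : w M 1 0 = 2 := by unfold w; rw [hiot]; simp [inn]
        have e2 : w M 1 (0 + 1) = 0 := by unfold w; rw [hiot]; simp [inn]
        rw [e1, e2]
        exact FLOA_r1 (FLOA_base (n := 0) (j := 1) (by rw [hM.zero]) (by omega))
      · have e1 : w M 1 1 = 0 := by unfold w; rw [hiot]; simp [inn]
        have e2 : w M 1 (1 + 1) = M 1 := by unfold w; rw [hiot]; simp
        rw [e1, e2]
        exact FLOA_r2 (FLOA_close (M := M) 0)
    · have hn2 : 2 ≤ n := by omega
      obtain ⟨p1, p2, p3, _⟩ := hPAR M hM n (by omega)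
      obtain ⟨hmono, _, _⟩ := hMGR M hM
      have f0 : (n, n + 1, par M n) ∈ FF M := FLOA_r1 (FLOA_base p1 p2)
      have fl : (n, n - 1, M n) ∈ FF M := by
        have := FLOA_close (M := M) (n - 1)
        rw [Nat.sub_add_cancel (by omega : 1 ≤ n)] at this
        exact FLOA_r2 this
      by_cases hp : M (par M n) = n
      · have hiot : iot M n = 4 := by unfold iot; rw [if_neg h0, if_neg hn1, if_pos hp]
        have hw : ∀ j, j < 4 → w M n j = inn M n j := by
          intro j hj; unfold w; rw [if_pos (by omega)]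
        have e0 : inn M n 0 = n + 1 := by unfold inn; rw [if_neg hn1, if_pos hp]; simp
        have e1 : inn M n 1 = par M n := by unfold inn; rw [if_neg hn1, if_pos hp]; simp
        have e2 : inn M n 2 = par M n - 1 := by unfold inn; rw [if_neg hn1, if_pos hp]; simp
        have e3 : inn M n 3 = n - 1 := by unfold inn; rw [if_neg hn1, if_pos hp]; simp
        have e4 : w M n 4 = M n := by unfold w; rw [if_neg (by omega), hiot]; simp
        have hpp : 1 ≤ par M n := by
          by_contra hcon
          have h5 : par M n = 0 := by omega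
          rw [h5, hM.zero] at hp
          omega
        have h6 : par M n - 1 + 1 = par M n := by omega
        have h7 : M (par M n - 1) < n := by
          have := hmono (show par M n - 1 < par M n by omega)
          omega
        rw [hiot] at h1
        have hi4 : i = 0 ∨ i = 1 ∨ i = 2 ∨ i = 3 := by omega
        rcases hi4 with rfl | rfl | rfl | rfl
        · rw [hw 0 (by omega), hw 1 (by omega), e0, e1]
          exact f0
        · rw [hw 1 (by omega), hw (1 + 1) (by omega), e1, e2]
          have := FLOA_close (M := M) (par M n - 1)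
          rw [h6, hp] at this
          exact FLOA_r1 this
        · rw [hw 2 (by omega), hw (2 + 1) (by omega), e2, e3]
          have := FLOA_base (M := M) (n := par M n - 1) (j := n - 1) (by omega)
            (by rw [h6]; omega)
          rw [Nat.sub_add_cancel (by omega : 1 ≤ n)] at this
          exact FLOA_r2 this
        · rw [hw 3 (by omega), e3]
          show (n, n - 1, w M n 4) ∈ FF M
          rw [e4]
          exact fl
      · have hiot : iot M n = 3 := by unfold iot; rw [if_neg h0, if_neg hn1, if_neg hp]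
        have hw : ∀ j, j < 3 → w M n j = inn M n j := by
          intro j hj; unfold w; rw [if_pos (by omega)]
        have e0 : inn M n 0 = n + 1 := by unfold inn; rw [if_neg hn1, if_neg hp]; simp
        have e1 : inn M n 1 = par M n := by unfold inn; rw [if_neg hn1, if_neg hp]; simp
        have e2 : inn M n 2 = n - 1 := by unfold inn; rw [if_neg hn1, if_neg hp]; simp
        have e4 : w M n 3 = M n := by unfold w; rw [if_neg (by omega), hiot]; simp
        rw [hiot] at h1
        have hi4 : i = 0 ∨ i = 1 ∨ i = 2 := by omega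
        rcases hi4 with rfl | rfl | rfl
        · rw [hw 0 (by omega), hw 1 (by omega), e0, e1]
          exact f0
        · rw [hw 1 (by omega), hw (1 + 1) (by omega), e1, e2]
          have := FLOA_base (M := M) (n := par M n) (j := n - 1) (by omega) (by omega)
          rw [Nat.sub_add_cancel (by omega : 1 ≤ n)] at this
          exact FLOA_r2 this
        · rw [hw 2 (by omega), e2]
          show (n, n - 1, w M n 3) ∈ FF M
          rw [e4]
          exact fl
  · have e1 : w M n i = M n + (i - iot M n) := by unfold w; rw [if_neg (by omega)]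
    rcases Nat.lt_or_ge (i + 1) (deg M n) with h2 | h2
    · rw [Nat.mod_eq_of_lt h2]
      have e2 : w M n (i + 1) = M n + (i - iot M n) + 1 := by
        unfold w
        rw [if_neg (by omega)]
        omega
      rw [e1, e2]
      exact FLOA_r0 (FLOA_base (by omega) (by omega))
    · have h3 : i + 1 = deg M n := by omega
      rw [h3, Nat.mod_self, FLOA_w0 hM, e1]
      have e3 : M n + (i - iot M n) = M (n + 1) := by omega
      rw [e3]
      exact FLOA_r0 (FLOA_close n)

end H637F
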