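import Pool.Agent.H637R3.DF.Stm

namespace H637F

open Real

theorem FLOB_iot_zero (M : ℕ → ℕ) : iot M 0 = 0 := by simp [iot]

theorem FLOB_iot_one (M : ℕ → ℕ) : iot M 1 = 2 := by simp [iot]

theorem FLOB_iotA {M : ℕ → ℕ} {n : ℕ} (hn : 2 ≤ n) (h : M (par M n) = n) : iot M n = 4 := by
  have h0 : n ≠ 0 := by omega
  have h1 : n ≠ 1 := by omega
  simp only [iot, if_neg h0, if_neg h1, if_pos h]

theorem FLOB_iotB {M : ℕ → ℕ} {n : ℕ} (hn : 2 ≤ n) (h : M (par M n) ≠ n) : iot M n = 3 := by
  have h0 : n ≠ 0 := by omega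
  have h1 : n ≠ 1 := by omega
  simp only [iot, if_neg h0, if_neg h1, if_neg h]

theorem FLOB_w_outer (M : ℕ → ℕ) (n j : ℕ) : w M n (iot M n + j) = M n + j := by
  simp [w]

theorem FLOB_w_zero {M : ℕ → ℕ} (hM : Good M) (n : ℕ) : w M n 0 = n + 1 := by
  rcases Nat.lt_or_ge n 2 with h | h
  · have : n = 0 ∨ n = 1 := by omega
    rcases this with rfl | rfl
    · simp [w, iot, hM.zero]
    · simp [w, iot, inn]
  · by_cases hA : M (par M n) = n
    · have h1 : n ≠ 1 := by omega
      simp only [w, FLOB_iotA h hA, inn, if_neg h1, if_pos hA]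
      simp
    · have h1 : n ≠ 1 := by omega
      simp only [w, FLOB_iotB h hA, inn, if_neg h1, if_neg hA]
      simp

theorem FLOB_w_one {M : ℕ → ℕ} {n : ℕ} (h : 2 ≤ n) : w M n 1 = par M n := by
  by_cases hA : M (par M n) = n
  · have h1 : n ≠ 1 := by omega
    simp only [w, FLOB_iotA h hA, inn, if_neg h1, if_pos hA]
    simp
  · have h1 : n ≠ 1 := by omega
    simp only [w, FLOB_iotB h hA, inn, if_neg h1, if_neg hA]
    simp

theorem FLOB_wA {M : ℕ → ℕ} {n : ℕ} (h : 2 ≤ n) (hA : M (par M n) = n) (i : ℕ) :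
    w M n i = if i < 4 then (if i = 0 then n + 1 else if i = 1 then par M n else
      if i = 2 then par M n - 1 else n - 1) else M n + (i - 4) := by
  have h1 : n ≠ 1 := by omega
  simp only [w, FLOB_iotA h hA, inn, if_neg h1, if_pos hA]

theorem FLOB_wB {M : ℕ → ℕ} {n : ℕ} (h : 2 ≤ n) (hA : M (par M n) ≠ n) (i : ℕ) :
    w M n i = if i < 3 then (if i = 0 then n + 1 else if i = 1 then par M n else n - 1)
      else M n + (i - 3) := by
  have h1 : n ≠ 1 := by omega
  simp only [w, FLOB_iotB h hA, inn, if_neg h1, if_neg hA]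

theorem FLOB_w1 (M : ℕ → ℕ) (i : ℕ) :
    w M 1 i = if i < 2 then (if i = 0 then 2 else 0) else M 1 + (i - 2) := by
  simp only [w, FLOB_iot_one, inn, if_true]

theorem FLOB_w0 {M : ℕ → ℕ} (i : ℕ) : w M 0 i = M 0 + i := by
  simp [w, iot]

theorem FLOB_inj (hMGR : S_MGR) (hPAR : S_PAR) {M : ℕ → ℕ} (hM : Good M) (n i j : ℕ)
    (h : w M n i = w M n j) : i = j := by
  obtain ⟨-, hm1, hm50⟩ := hMGR M hM
  rcases Nat.lt_or_ge n 2 with hn | hn
  · have : n = 0 ∨ n = 1 := by omega
    rcases this with rfl | rfl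
    · rw [FLOB_w0, FLOB_w0] at h
      omega
    · have h50 := hm50 1 le_rfl
      rw [FLOB_w1, FLOB_w1] at h
      split_ifs at h <;> omega
  · have h50 := hm50 n (by omega)
    obtain ⟨p1, p2, p3, -⟩ := hPAR M hM n (by omega)
    have hp := hm1 (par M n)
    by_cases hA : M (par M n) = n
    · have hp0 : 1 ≤ par M n := by
        by_contra hc
        have h0 : par M n = 0 := by omega
        rw [h0, hM.zero] at hA
        omega
      have hp50 := hm50 (par M n) hp0
      rw [FLOB_wA hn hA, FLOB_wA hn hA] at h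
      split_ifs at h <;> omega
    · have hlt : M (par M n) < n := lt_of_le_of_ne p1 hA
      rw [FLOB_wB hn hA, FLOB_wB hn hA] at h
      split_ifs at h <;> omega

theorem FLOB (hMGR : S_MGR) (hPAR : S_PAR) : S_FLOB := by
  intro M hM n
  refine ⟨fun i j _ _ h => FLOB_inj hMGR hPAR hM n i j h, ?_⟩
  obtain ⟨hmono, hm1, hm50⟩ := hMGR M hM
  have hdeg : deg M n = iot M n + (M (n + 1) - M n + 1) := rfl
  have hstep := hM.step n
  rintro y z ⟨x', y', z', ⟨m, ⟨j, hj1, hj2, hf⟩ | hf⟩, hrot⟩
  · simp only [Prod.mk.injEq] at hf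
    obtain ⟨rfl, rfl, rfl⟩ := hf
    rcases hrot with h | h | h
    · simp only [Prod.mk.injEq] at h
      obtain ⟨rfl, rfl, rfl⟩ := h
      refine ⟨iot M n + (y - M n), by omega, ?_, ?_⟩
      · rw [FLOB_w_outer]
        omega
      · rw [Nat.mod_eq_of_lt (by omega), show iot M n + (y - M n) + 1 = iot M n + (y + 1 - M n)
          by omega, FLOB_w_outer]
        omega
    · simp only [Prod.mk.injEq] at h
      obtain ⟨rfl, rfl, rfl⟩ := h
      have hn1 : 1 ≤ n := by
        have := hm1 z
        omega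
      obtain ⟨-, -, -, puniq⟩ := hPAR M hM n hn1
      have hz := puniq z hj1 hj2
      refine ⟨0, by omega, ?_, ?_⟩
      · rw [FLOB_w_zero hM]
      · rw [zero_add, Nat.mod_eq_of_lt (by omega)]
        rcases Nat.lt_or_ge n 2 with hn | hn
        · have h1 : n = 1 := by omega
          subst h1
          rw [FLOB_w1]
          have := hm1 z
          simp
          omega
        · rw [FLOB_w_one hn]
          exact hz
    · simp only [Prod.mk.injEq] at h
      obtain ⟨rfl, rfl, rfl⟩ := h
      have hn2 : 2 ≤ z + 1 := by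
        have := hm1 y
        omega
      obtain ⟨p1, p2, p3, puniq⟩ := hPAR M hM (z + 1) (by omega)
      by_cases hlt : z + 1 < M (y + 1)
      · have hp := puniq y (by omega) hlt
        have hB : M (par M (z + 1)) ≠ z + 1 := by
          rw [← hp]
          omega
        have hi := FLOB_iotB hn2 hB
        refine ⟨1, by omega, ?_, ?_⟩
        · rw [FLOB_w_one hn2]
          exact hp
        · rw [Nat.mod_eq_of_lt (by omega), FLOB_wB hn2 hB]
          simp
      · have heq : z + 1 = M (y + 1) := by omega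
        have hst := hM.step (y + 1)
        have hp := puniq (y + 1) (by omega) (by omega)
        have hA : M (par M (z + 1)) = z + 1 := by
          rw [← hp]
          omega
        have hi := FLOB_iotA hn2 hA
        refine ⟨2, by omega, ?_, ?_⟩
        · rw [FLOB_wA hn2 hA, ← hp]
          simp
        · rw [Nat.mod_eq_of_lt (by omega), FLOB_wA hn2 hA]
          simp
  · simp only [Prod.mk.injEq] at hf
    obtain ⟨rfl, rfl, rfl⟩ := hf
    rcases hrot with h | h | h
    · simp only [Prod.mk.injEq] at h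
      obtain ⟨rfl, rfl, rfl⟩ := h
      refine ⟨iot M n + (M (n + 1) - M n), by omega, ?_, ?_⟩
      · rw [FLOB_w_outer]
        omega
      · rw [show iot M n + (M (n + 1) - M n) + 1 = deg M n by omega, Nat.mod_self,
          FLOB_w_zero hM]
    · simp only [Prod.mk.injEq] at h
      obtain ⟨rfl, rfl, rfl⟩ := h
      have h50 := hm50 (z + 1) (by omega)
      have hn2 : 2 ≤ M (z + 1) := by omega
      have hst := hM.step (z + 1)
      obtain ⟨p1, p2, p3, puniq⟩ := hPAR M hM (M (z + 1)) (by omega)
      have hp := puniq (z + 1) le_rfl (by omega)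
      have hA : M (par M (M (z + 1))) = M (z + 1) := by rw [← hp]
      have hi := FLOB_iotA hn2 hA
      refine ⟨1, by omega, ?_, ?_⟩
      · rw [FLOB_w_one hn2]
        exact hp
      · rw [Nat.mod_eq_of_lt (by omega), FLOB_wA hn2 hA, ← hp]
        simp
    · simp only [Prod.mk.injEq] at h
      obtain ⟨rfl, rfl, rfl⟩ := h
      rcases Nat.lt_or_ge (y + 1) 2 with hn | hn
      · have h1 : y = 0 := by omega
        subst h1
        have hi := FLOB_iot_one M
        rw [zero_add] at *
        refine ⟨1, by omega, ?_, ?_⟩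
        · rw [FLOB_w1]
          simp
        · rw [Nat.mod_eq_of_lt (by omega), FLOB_w1]
          simp
      · by_cases hA : M (par M (y + 1)) = y + 1
        · have hi := FLOB_iotA hn hA
          refine ⟨3, by omega, ?_, ?_⟩
          · rw [FLOB_wA hn hA]
            simp
          · rw [Nat.mod_eq_of_lt (by omega), FLOB_wA hn hA]
            simp
        · have hi := FLOB_iotB hn hA
          refine ⟨2, by omega, ?_, ?_⟩
          · rw [FLOB_wB hn hA]
            simp
          · rw [Nat.mod_eq_of_lt (by omega), FLOB_wB hn hA]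
            simp

end H637F
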