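import Pool.Agent.H637R3.DF.Stm

/-!
Project DF, task FLOWC: flowers are convex polygons.
-/

namespace H637F

open Real MeasureTheory

lemma FLOWC_per (X E F : V3) (C S θ : ℝ) :
    pol X E F C S (θ + 2 * π) = pol X E F C S θ := by
  unfold pol
  rw [Real.cos_add_two_pi, Real.sin_add_two_pi]

lemma FLOWC_sh {r x : ℝ} (hr : 0 < r) (hr' : r ≤ 1 / 8) (hx : 0 < x) (hx' : x ≤ 1 / 8) :
    0 ≤ Sh r x ∧ Sh r x < Ch r x := by
  have hrx : 0 < r * x := mul_pos hr hx
  have h1 : r * x ≤ 1 / 64 := by nlinarith
  have h2 : r ^ 2 * x ^ 2 ≤ 1 := by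
    have : r ^ 2 * x ^ 2 = (r * x) ^ 2 := by ring
    rw [this]; nlinarith
  have h3 : 0 < r ^ 2 * x ^ 2 := by positivity
  constructor
  · unfold Sh
    apply div_nonneg
    · linarith
    · positivity
  · unfold Sh Ch
    apply div_lt_div_of_pos_right
    · linarith
    · positivity

lemma FLOWC_mono (θ : ℕ → ℝ) (d : ℕ) (h : ∀ i, i < d → θ i ≤ θ (i + 1)) :
    ∀ i k, i + k ≤ d → θ i ≤ θ (i + k) := by
  intro i k
  induction k with
  | zero => intro _; exact le_rfl
  | succ k ih =>
    intro hk
    have h1 := ih (by omega)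
    have h2 := h (i + k) (by omega)
    exact le_trans h1 h2

theorem FLOWC (hPOLN : S_POLN) (hDETG : S_DETG) (hHAB : S_HAB) (hFLOA : S_FLOA) : S_FLOWC := by
  intro M b X hL n i l hi hl hli hli1
  obtain ⟨E, F, θ, hFr, h0, hd, hstep, hX⟩ := hPOLN M b X hL n
  have hdeg : 51 ≤ deg M n := (hFLOA M hL.good n).1
  set d := deg M n with hdd
  have hbp := hL.bpos
  have hbl := hL.ble
  have hA : ∀ x y, 0 < ha (b n) (b x) (b y) := by
    intro x y
    have h1 := (hHAB (b n) (b x) (b y) (hbp n) (hbl n) (hbp x) (hbl x) (hbp y) (hbl y)).1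
    have h2 := hbp n
    linarith
  have hmono1 : ∀ i, i < d → θ i ≤ θ (i + 1) := by
    intro i hi
    rw [hstep i hi]
    have := hA (w M n i) (w M n ((i + 1) % d))
    linarith
  have hmono : ∀ i j, i ≤ j → j ≤ d → θ i ≤ θ j := by
    intro i j hij hj
    obtain ⟨k, rfl⟩ := Nat.exists_eq_add_of_le hij
    exact FLOWC_mono θ d hmono1 i k hj
  -- the next vertex
  have hnext : X (w M n ((i + 1) % d)) = pol (X n) E F (Ch (b n) (b (w M n ((i + 1) % d))))
      (Sh (b n) (b (w M n ((i + 1) % d))))
      (θ i + ha (b n) (b (w M n i)) (b (w M n ((i + 1) % d)))) := by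
    rw [← hstep i hi]
    by_cases h1 : i + 1 < d
    · rw [Nat.mod_eq_of_lt h1]
      exact hX (i + 1) h1
    · have h2 : i + 1 = d := by omega
      rw [h2, Nat.mod_self, hd, hX 0 (by omega), h0]
      have := FLOWC_per (X n) E F (Ch (b n) (b (w M n 0))) (Sh (b n) (b (w M n 0))) 0
      rw [zero_add] at this
      exact this.symm
  have hCS := FLOWC_sh (hbp n) (hbl n) (hbp (w M n l)) (hbl (w M n l))
  -- main inequality with an angle
  have hmain : ∀ θ' : ℝ,
      ha (b n) (b (w M n i)) (b (w M n ((i + 1) % d))) +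
        ha (b n) (b (w M n ((i + 1) % d))) (b (w M n (((i + 1) % d + 1) % d))) ≤ θ' - θ i →
      θ' - θ i ≤ 2 * π - ha (b n) (b (w M n ((i + d - 1) % d))) (b (w M n i)) →
      0 < det3 (X (w M n i)) (X (w M n ((i + 1) % d)))
        (pol (X n) E F (Ch (b n) (b (w M n l))) (Sh (b n) (b (w M n l))) θ') := by
    intro θ' h1 h2
    rw [hnext, hX i hi]
    exact hDETG (X n) E F (b n) (b (w M n i)) (b (w M n ((i + 1) % d)))
      (b (w M n (((i + 1) % d + 1) % d))) (b (w M n ((i + d - 1) % d)))
      (Ch (b n) (b (w M n l))) (Sh (b n) (b (w M n l))) (θ i) θ' hFr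
      (hbp _) (hbl _) (hbp _) (hbl _) (hbp _) (hbl _) (hbp _) (hbl _) (hbp _) (hbl _)
      hCS.1 hCS.2 h1 h2
  by_cases hil : i < l
  · -- case i < l
    have hi1 : i + 1 < d := by omega
    have hm1 : (i + 1) % d = i + 1 := Nat.mod_eq_of_lt hi1
    have hl2 : i + 2 ≤ l := by
      rw [hm1] at hli1
      omega
    have key := hmain (θ l) ?_ ?_
    · rw [hX l hl]
      exact key
    · have e1 := hstep i hi
      have e2 := hstep (i + 1) hi1
      rw [hm1] at e1 ⊢
      have e3 : θ (i + 1 + 1) ≤ θ l := hmono (i + 1 + 1) l (by omega) (by omega)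
      linarith
    · by_cases hi0 : i = 0
      · subst hi0
        have e4 : (0 + d - 1) % d = d - 1 := by
          rw [Nat.zero_add]
          exact Nat.mod_eq_of_lt (by omega)
        rw [e4, h0]
        have e5 := hstep (d - 1) (by omega)
        have e6 : d - 1 + 1 = d := by omega
        rw [e6, Nat.mod_self, hd] at e5
        have e7 : θ l ≤ θ (d - 1) := hmono l (d - 1) (by omega) (by omega)
        linarith
      · obtain ⟨j, rfl⟩ := Nat.exists_eq_succ_of_ne_zero hi0
        have e4 : (j.succ + d - 1) % d = j := by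
          have : j.succ + d - 1 = j + d := by omega
          rw [this, Nat.add_mod_right]
          exact Nat.mod_eq_of_lt (by omega)
        rw [e4]
        have e5 := hstep j (by omega)
        have e6 : (j + 1) % d = j + 1 := Nat.mod_eq_of_lt (by omega)
        rw [e6] at e5
        have e7 : θ 0 ≤ θ j := hmono 0 j (by omega) (by omega)
        have e8 : θ l ≤ θ d := hmono l d (by omega) le_rfl
        rw [h0] at e7
        rw [hd] at e8
        have e9 : θ j.succ = θ (j + 1) := rfl
        have e10 : w M n j.succ = w M n (j + 1) := rfl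
        rw [e9, e10]
        linarith
  · -- case l < i
    have hli' : l < i := by omega
    have key := hmain (θ l + 2 * π) ?_ ?_
    · rw [hX l hl]
      rw [FLOWC_per] at key
      exact key
    · have e1 := hstep i hi
      by_cases hi1 : i + 1 < d
      · have hm1 : (i + 1) % d = i + 1 := Nat.mod_eq_of_lt hi1
        have e2 := hstep (i + 1) hi1
        rw [hm1] at e1 ⊢
        have e3 : θ (i + 1 + 1) ≤ θ d := hmono (i + 1 + 1) d (by omega) le_rfl
        have e4 : θ 0 ≤ θ l := hmono 0 l (by omega) (by omega)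
        rw [hd] at e3
        rw [h0] at e4
        linarith
      · have h2 : i + 1 = d := by omega
        rw [h2, Nat.mod_self] at hli1
        rw [h2, Nat.mod_self, hd] at e1
        have e2 := hstep 0 (by omega)
        rw [h2, Nat.mod_self]
        have e3 : θ (0 + 1) ≤ θ l := hmono (0 + 1) l (by omega) (by omega)
        rw [h0] at e2
        linarith
    · obtain ⟨j, rfl⟩ := Nat.exists_eq_succ_of_ne_zero (show i ≠ 0 by omega)
      have e4 : (j.succ + d - 1) % d = j := by
        have : j.succ + d - 1 = j + d := by omega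
        rw [this, Nat.add_mod_right]
        exact Nat.mod_eq_of_lt (by omega)
      rw [e4]
      have e5 := hstep j (by omega)
      have e6 : (j + 1) % d = j + 1 := Nat.mod_eq_of_lt (by omega)
      rw [e6] at e5
      have e7 : θ l ≤ θ j := hmono l j (by omega) (by omega)
      have e9 : θ j.succ = θ (j + 1) := rfl
      have e10 : w M n j.succ = w M n (j + 1) := rfl
      rw [e9, e10]
      linarith

end H637F
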