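import Pool.Agent.H637R3.DF.Stm

namespace H637F

theorem FRAME : S_FRAME := by
  rintro ⟨x1, x2, x3⟩ ⟨y1, y2, y3⟩ r s ⟨hX, _⟩ ⟨hY, _⟩ hr0 hr1 hs0 hs1 hXY
  have hq0 : 0 < r * s := mul_pos hr0 hs0
  have hq1 : r * s < 1 := by nlinarith
  have hS : 0 < Sh r s := by
    unfold Sh
    refine div_pos ?_ (by positivity)
    have : r ^ 2 * s ^ 2 = (r * s) ^ 2 := by ring
    rw [this]
    nlinarith
  have hCS : Ch r s ^ 2 - Sh r s ^ 2 = 1 := by
    unfold Ch Sh
    field_simp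
    ring
  set C := Ch r s with hC
  set S := Sh r s with hSdef
  unfold mink at hX hY hXY
  simp only at hX hY hXY
  have hS' : S ≠ 0 := hS.ne'
  -- the vector E
  obtain ⟨e1, he1⟩ : ∃ e1, e1 = (y1 - C * x1) / S := ⟨_, rfl⟩
  obtain ⟨e2, he2⟩ : ∃ e2, e2 = (y2 - C * x2) / S := ⟨_, rfl⟩
  obtain ⟨e3, he3⟩ : ∃ e3, e3 = (y3 - C * x3) / S := ⟨_, rfl⟩
  have g1 : S * e1 = y1 - C * x1 := by rw [he1]; field_simp
  have g2 : S * e2 = y2 - C * x2 := by rw [he2]; field_simp
  have g3 : S * e3 = y3 - C * x3 := by rw [he3]; field_simp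
  have hXE : x1 * e1 + x2 * e2 - x3 * e3 = 0 := by
    have h1 : S * (x1 * e1 + x2 * e2 - x3 * e3) = 0 := by
      linear_combination x1 * g1 + x2 * g2 - x3 * g3 + hXY - C * hX
    exact (mul_eq_zero.mp h1).resolve_left hS'
  have hEE : e1 * e1 + e2 * e2 - e3 * e3 = 1 := by
    have h1 : S ^ 2 * (e1 * e1 + e2 * e2 - e3 * e3) = S ^ 2 * 1 := by
      have k1 : (S * e1) * (S * e1) + (S * e2) * (S * e2) - (S * e3) * (S * e3) = S ^ 2 := by
        rw [g1, g2, g3]
        linear_combination hY - 2 * C * hXY + C ^ 2 * hX + hCS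
      linear_combination k1
    exact mul_left_cancel₀ (pow_ne_zero 2 hS') h1
  refine ⟨(e1, e2, e3), (x2 * e3 - x3 * e2, x3 * e1 - x1 * e3, -(x1 * e2 - x2 * e1)),
    ⟨?_, ?_, ?_, ?_, ?_, ?_, ?_⟩, ?_⟩
  · unfold mink
    simp only
    exact hX
  · unfold mink
    simp only
    exact hEE
  · unfold mink
    simp only
    linear_combination (x1 * e1 + x2 * e2 - x3 * e3) * hXE - hX * (e1 * e1 + e2 * e2 - e3 * e3) + hEE
  · unfold mink
    simp only
    exact hXE
  · unfold mink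
    simp only
    ring
  · unfold mink
    simp only
    ring
  · unfold det3
    simp only
    linear_combination (x1 * e1 + x2 * e2 - x3 * e3) * hXE - hX * (e1 * e1 + e2 * e2 - e3 * e3) + hEE
  · unfold pol
    rw [Real.cos_zero, Real.sin_zero, one_smul, zero_smul, add_zero]
    ext
    · show y1 = C * x1 + S * e1
      rw [g1]; ring
    · show y2 = C * x2 + S * e2
      rw [g2]; ring
    · show y3 = C * x3 + S * e3
      rw [g3]; ring

end H637F
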