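import Pool.Agent.H637R3.DF.Stm

namespace H637F

open Real

theorem GINE_half {r s t : ℝ} (hr : 0 < r) (hr1 : r ≤ 1 / 8) (hs : 0 < s) (hs1 : s ≤ 1 / 8)
    (ht : 0 < t) (ht1 : t ≤ 1 / 8) :
    ∃ h, ha r s t = 2 * h ∧ 0 ≤ h ∧ h ≤ π / 2 ∧ 63 / 64 * r ≤ Real.sin h := by
  have hr2 : r ^ 2 ≤ 1 / 64 := by nlinarith
  have hs2 : s ^ 2 ≤ 1 / 64 := by nlinarith
  have ht2 : t ^ 2 ≤ 1 / 64 := by nlinarith
  have hr0 : 0 ≤ r ^ 2 := sq_nonneg r
  have hs0 : 0 ≤ s ^ 2 := sq_nonneg s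
  have ht0 : 0 ≤ t ^ 2 := sq_nonneg t
  have hrs : r ^ 2 * s ^ 2 ≤ s ^ 2 := by nlinarith
  have hrt : r ^ 2 * t ^ 2 ≤ t ^ 2 := by nlinarith
  have hrs0 : 0 ≤ r ^ 2 * s ^ 2 := mul_nonneg hr0 hs0
  have hrt0 : 0 ≤ r ^ 2 * t ^ 2 := mul_nonneg hr0 ht0
  have hA : 0 < (1 - r ^ 2 * s ^ 2) * (1 - r ^ 2 * t ^ 2) := by
    apply mul_pos <;> linarith
  set Q := (1 - s ^ 2) * (1 - t ^ 2) / ((1 - r ^ 2 * s ^ 2) * (1 - r ^ 2 * t ^ 2)) with hQ
  have hQ1 : Q ≤ 1 := by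
    rw [hQ, div_le_one hA]
    apply mul_le_mul <;> linarith
  have hQ2 : (63 / 64) ^ 2 ≤ Q := by
    rw [hQ, le_div_iff₀ hA]
    have h1 : (1 - r ^ 2 * s ^ 2) * (1 - r ^ 2 * t ^ 2) ≤ 1 := by
      have : (1 - r ^ 2 * s ^ 2) * (1 - r ^ 2 * t ^ 2) ≤ 1 * 1 := by
        apply mul_le_mul <;> linarith
      linarith
    have h2 : (63 / 64 : ℝ) ^ 2 ≤ (1 - s ^ 2) * (1 - t ^ 2) := by
      rw [pow_two]
      apply mul_le_mul <;> linarith
    nlinarith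
  have hq1 : √Q ≤ 1 := by
    rw [Real.sqrt_le_one]
    exact hQ1
  have hq2 : 63 / 64 ≤ √Q := Real.le_sqrt_of_sq_le hQ2
  have hy1 : r * √Q ≤ 1 := by
    have : r * √Q ≤ r * 1 := mul_le_mul_of_nonneg_left hq1 hr.le
    linarith
  have hy0 : 0 ≤ r * √Q := mul_nonneg hr.le (Real.sqrt_nonneg _)
  refine ⟨Real.arcsin (r * √Q), rfl, Real.arcsin_nonneg.2 hy0, Real.arcsin_le_pi_div_two _, ?_⟩
  rw [Real.sin_arcsin (by linarith) hy1]
  have := mul_le_mul_of_nonneg_left hq2 hr.le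
  linarith

theorem GINE_ct {r t : ℝ} (hr : 0 < r) (hr1 : r ≤ 1 / 8) (ht : 0 < t) (ht1 : t ≤ 1 / 8) :
    ∃ c, Ch r t / Sh r t = 1 + c ∧ 0 ≤ c ∧ c < (63 / 64 * r) * (63 / 64 * r) := by
  have hr2 : r ^ 2 ≤ 1 / 64 := by nlinarith
  have ht2 : t ^ 2 ≤ 1 / 64 := by nlinarith
  have hr0 : 0 < r ^ 2 := by positivity
  have ht0 : 0 < t ^ 2 := by positivity
  have hrt : r ^ 2 * t ^ 2 ≤ 1 / 64 * (1 / 64) := by
    apply mul_le_mul hr2 ht2 ht0.le (by norm_num)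
  have hA : 0 < 1 - r ^ 2 * t ^ 2 := by linarith
  have hrt' : 0 < 2 * r * t := by positivity
  refine ⟨2 * r ^ 2 * t ^ 2 / (1 - r ^ 2 * t ^ 2), ?_, by positivity, ?_⟩
  · rw [Ch, Sh]
    field_simp
    ring
  · rw [div_lt_iff₀ hA]
    have h1 : 2 * r ^ 2 * t ^ 2 ≤ 2 * r ^ 2 * (1 / 64) := by
      apply mul_le_mul_of_nonneg_left ht2 (by positivity)
    have h2 : (63 / 64 * r) * (63 / 64 * r) * (1 - 1 / 64 * (1 / 64)) ≤
        (63 / 64 * r) * (63 / 64 * r) * (1 - r ^ 2 * t ^ 2) := by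
      apply mul_le_mul_of_nonneg_left (by linarith) (by positivity)
    nlinarith

theorem GINE_sin {a b x y : ℝ} (ha0 : 0 ≤ a) (hax : a ≤ x) (hb0 : 0 ≤ b) (hxb : x ≤ π - b)
    (h1 : y ≤ Real.sin a) (h2 : y ≤ Real.sin b) : y ≤ Real.sin x := by
  have hpi := Real.pi_pos
  rcases le_total x (π / 2) with h | h
  · exact h1.trans (Real.sin_le_sin_of_le_of_le_pi_div_two (by linarith) h hax)
  · rw [← Real.sin_pi_sub x]
    exact h2.trans (Real.sin_le_sin_of_le_of_le_pi_div_two (by linarith) (by linarith)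
      (by linarith))

theorem GINE : S_GINE := by
  intro r s t u v φ hr hr1 hs hs1 ht ht1 hu hu1 hv hv1 hφ1 hφ2
  obtain ⟨d, hd, hd0, hd1, hds⟩ := GINE_half hr hr1 hs hs1 ht ht1
  obtain ⟨e, he, he0, he1, hes⟩ := GINE_half hr hr1 ht ht1 hu hu1
  obtain ⟨z, hz, hz0, hz1, hzs⟩ := GINE_half hr hr1 hv hv1 hs hs1
  obtain ⟨ct, hct, hct0, hct1⟩ := GINE_ct hr hr1 ht ht1
  obtain ⟨cs, hcs, hcs0, hcs1⟩ := GINE_ct hr hr1 hs hs1
  rw [hd, he] at hφ1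
  rw [hz] at hφ2
  rw [hd, hct, hcs]
  set g := φ / 2 - d with hg
  have hφ : φ = 2 * (d + g) := by rw [hg]; ring
  have e1 : φ - 2 * d = 2 * g := by rw [hg]; ring
  rw [e1, hφ]
  have hsg : 63 / 64 * r ≤ Real.sin g := by
    apply GINE_sin he0 _ hz0 _ hes hzs
    · rw [hg]; linarith
    · rw [hg]; linarith
  have hsp : 63 / 64 * r ≤ Real.sin (d + g) := by
    apply GINE_sin hd0 _ hz0 _ hds hzs
    · rw [hg]; linarith
    · rw [hg]; linarith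
  have hy0 : 0 < 63 / 64 * r := by positivity
  have hid : Real.sin (2 * d) + Real.sin (2 * g) - Real.sin (2 * (d + g)) =
      4 * Real.sin d * Real.sin g * Real.sin (d + g) := by
    rw [Real.sin_two_mul, Real.sin_two_mul, Real.sin_two_mul, Real.sin_add, Real.cos_add]
    have c1 := Real.sin_sq_add_cos_sq d
    have c2 := Real.sin_sq_add_cos_sq g
    have c3 : Real.cos d ^ 2 = 1 - Real.sin d ^ 2 := by linarith
    have c4 : Real.cos g ^ 2 = 1 - Real.sin g ^ 2 := by linarith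
    ring_nf
    rw [c3, c4]
    ring
  set D := Real.sin d with hD
  set G := Real.sin g with hG
  set P := Real.sin (d + g) with hP
  have hsinp : Real.sin (2 * (d + g)) ≤ 2 * P := by
    rw [Real.sin_two_mul]
    have := Real.cos_le_one (d + g)
    nlinarith
  have hsing : -(2 * G) ≤ Real.sin (2 * g) := by
    rw [Real.sin_two_mul]
    have := Real.neg_one_le_cos g
    nlinarith
  have k1 : ct < D * G := lt_of_lt_of_le hct1 (mul_le_mul hds hsg hy0.le (by linarith))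
  have k2 : cs < D * P := lt_of_lt_of_le hcs1 (mul_le_mul hds hsp hy0.le (by linarith))
  have m1 : ct * Real.sin (2 * (d + g)) ≤ ct * (2 * P) := mul_le_mul_of_nonneg_left hsinp hct0
  have m2 : cs * -(2 * G) ≤ cs * Real.sin (2 * g) := mul_le_mul_of_nonneg_left hsing hcs0
  have m3 : 0 < P * (D * G - ct) := mul_pos (by linarith) (by linarith)
  have m4 : 0 < G * (D * P - cs) := mul_pos (by linarith) (by linarith)
  nlinarith

end H637F
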