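import Pool.Agent.H637R3.DF.Stm

namespace H637F

open Real

private theorem HAB_lower {x : ℝ} (h0 : 0 ≤ x) (h1 : x ≤ 1 / 8) : x ≤ arcsin x := by
  have hpi := Real.pi_gt_three
  rw [Real.le_arcsin_iff_sin_le ⟨by linarith, by linarith⟩ ⟨by linarith, by linarith⟩]
  exact Real.sin_le h0

private theorem HAB_upper {x : ℝ} (h0 : 0 < x) (h1 : x ≤ 1 / 8) : arcsin x ≤ 1.01 * x := by
  have hpi := Real.pi_gt_three
  rw [Real.arcsin_le_iff_le_sin ⟨by linarith, by linarith⟩ ⟨by linarith, by linarith⟩]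
  have h2 := Real.sin_gt_sub_cube (x := 1.01 * x) (by linarith)
  have h3 : x ^ 2 ≤ 1 / 64 := by nlinarith
  have h4 : x ^ 3 ≤ x * (1 / 64) := by
    have : x ^ 3 = x * x ^ 2 := by ring
    rw [this]
    exact mul_le_mul_of_nonneg_left h3 h0.le
  have h5 : (1.01 * x) ^ 3 = 1.030301 * x ^ 3 := by ring
  rw [h5] at h2
  linarith

theorem HAB : S_HAB := by
  intro r s t hr hr8 hs hs8 ht ht8
  have hs2 : s ^ 2 ≤ 1 / 64 := by nlinarith
  have ht2 : t ^ 2 ≤ 1 / 64 := by nlinarith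
  have hr2 : r ^ 2 ≤ 1 := by nlinarith
  have hs0 : 0 ≤ s ^ 2 := sq_nonneg s
  have ht0 : 0 ≤ t ^ 2 := sq_nonneg t
  have hr0 : 0 ≤ r ^ 2 := sq_nonneg r
  have a1 : r ^ 2 * s ^ 2 ≤ s ^ 2 := mul_le_of_le_one_left hs0 hr2
  have a2 : r ^ 2 * t ^ 2 ≤ t ^ 2 := mul_le_of_le_one_left ht0 hr2
  have a3 : 0 ≤ r ^ 2 * s ^ 2 := mul_nonneg hr0 hs0
  have a4 : 0 ≤ r ^ 2 * t ^ 2 := mul_nonneg hr0 ht0
  set Q : ℝ := (1 - s ^ 2) * (1 - t ^ 2) / ((1 - r ^ 2 * s ^ 2) * (1 - r ^ 2 * t ^ 2)) with hQ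
  have hden : 0 < (1 - r ^ 2 * s ^ 2) * (1 - r ^ 2 * t ^ 2) :=
    mul_pos (by linarith) (by linarith)
  have hQ1 : Q ≤ 1 := by
    rw [hQ, div_le_one hden]
    exact mul_le_mul (by linarith) (by linarith) (by linarith) (by linarith)
  have hQ2 : (63 / 64) ^ 2 ≤ Q := by
    rw [hQ, le_div_iff₀ hden]
    have b1 : (1 - r ^ 2 * s ^ 2) * (1 - r ^ 2 * t ^ 2) ≤ 1 :=
      mul_le_one₀ (by linarith) (by linarith) (by linarith)
    have b2 : (63 / 64 : ℝ) * (63 / 64) ≤ (1 - s ^ 2) * (1 - t ^ 2) :=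
      mul_le_mul (by linarith) (by linarith) (by norm_num) (by linarith)
    nlinarith
  have hq1 : √Q ≤ 1 := by
    rw [Real.sqrt_le_one]
    exact hQ1
  have hq2 : 63 / 64 ≤ √Q := Real.le_sqrt_of_sq_le hQ2
  have hx0 : 0 < r * √Q := mul_pos hr (by linarith)
  have hx1 : r * √Q ≤ r := mul_le_of_le_one_right hr.le hq1
  have hx2 : r * (63 / 64) ≤ r * √Q := mul_le_mul_of_nonneg_left hq2 hr.le
  have l1 := HAB_lower hx0.le (by linarith)
  have l2 := HAB_upper hx0 (by linarith)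
  show 1.96 * r ≤ 2 * arcsin (r * √Q) ∧ 2 * arcsin (r * √Q) ≤ 2.02 * r
  constructor
  · linarith
  · linarith

end H637F
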