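import Pool.Agent.H637R3.DF.Stm

/-! Task HALF: each disc is on the inner side of the opposite side. -/

namespace H637F

/-- strict reverse Cauchy-Schwarz inequality -/
lemma HALF_rcs (U V : V3) (α β : ℝ) (hU : 0 < U.2.2) (hV : 0 < V.2.2) (hβ : 0 < β)
    (h1 : mink U U < -α ^ 2) (h2 : mink V V ≤ -β ^ 2) : α * β < -mink U V := by
  obtain ⟨u1, u2, u3⟩ := U
  obtain ⟨v1, v2, v3⟩ := V
  simp only [mink] at *
  have hA : u1 ^ 2 + u2 ^ 2 + α ^ 2 < u3 ^ 2 := by nlinarith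
  have hB : v1 ^ 2 + v2 ^ 2 + β ^ 2 ≤ v3 ^ 2 := by nlinarith
  have hB0 : 0 < v1 ^ 2 + v2 ^ 2 + β ^ 2 := by positivity
  have h3 : (u1 ^ 2 + u2 ^ 2 + α ^ 2) * (v1 ^ 2 + v2 ^ 2 + β ^ 2) < u3 ^ 2 * v3 ^ 2 := by
    calc (u1 ^ 2 + u2 ^ 2 + α ^ 2) * (v1 ^ 2 + v2 ^ 2 + β ^ 2)
        < u3 ^ 2 * (v1 ^ 2 + v2 ^ 2 + β ^ 2) := mul_lt_mul_of_pos_right hA hB0
      _ ≤ u3 ^ 2 * v3 ^ 2 := mul_le_mul_of_nonneg_left hB (sq_nonneg _)
  have h4 : (u1 * v1 + u2 * v2 + α * β) ^ 2 < (u3 * v3) ^ 2 := by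
    nlinarith [sq_nonneg (u1 * v2 - u2 * v1), sq_nonneg (α * v1 - β * u1),
      sq_nonneg (α * v2 - β * u2)]
  have h5 := abs_lt_of_sq_lt_sq h4 (by positivity)
  have h6 := (abs_lt.1 h5).2
  linarith

lemma HALF_sign (U Y : V3) (hY : 0 < Y.2.2) (h1 : mink U U < 0) (h2 : mink Y Y < 0)
    (h : mink U Y < 0) : 0 < U.2.2 := by
  obtain ⟨u1, u2, u3⟩ := U
  obtain ⟨v1, v2, v3⟩ := Y
  simp only [mink] at *
  by_contra hcon
  push Not at hcon
  have hA : u1 ^ 2 + u2 ^ 2 < u3 ^ 2 := by nlinarith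
  have hB : v1 ^ 2 + v2 ^ 2 < v3 ^ 2 := by nlinarith
  have h3 : (u1 * v1 + u2 * v2) ^ 2 ≤ (u3 * v3) ^ 2 := by
    have h4 : (u1 ^ 2 + u2 ^ 2) * (v1 ^ 2 + v2 ^ 2) ≤ u3 ^ 2 * v3 ^ 2 :=
      mul_le_mul hA.le hB.le (by positivity) (by positivity)
    nlinarith [sq_nonneg (u1 * v2 - u2 * v1)]
  have h5 : |u1 * v1 + u2 * v2| ≤ |u3 * v3| := sq_le_sq.1 h3
  have h6 : |u3 * v3| = -(u3 * v3) := abs_of_nonpos (mul_nonpos_of_nonpos_of_nonneg hcon hY.le)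
  rw [h6] at h5
  have h7 := (abs_le.1 h5).1
  linarith

lemma HALF_num (a b c : ℝ) (ha : 0 < a) (ha' : a ≤ 1 / 8) (hb : 0 < b) (hb' : b ≤ 1 / 8)
    (hc : 0 < c) (hc' : c ≤ 1 / 8) :
    (Sh b c) ^ 2 * (sR a) ^ 2 <
      1 + 2 * Ch a b * Ch a c * Ch b c - Ch a b ^ 2 - Ch a c ^ 2 - Ch b c ^ 2 := by
  have e1 : 1 + 2 * Ch a b * Ch a c * Ch b c - Ch a b ^ 2 - Ch a c ^ 2 - Ch b c ^ 2 =
      (1 - a ^ 2 * b ^ 2 * c ^ 2) * (1 - a ^ 2) * (1 - b ^ 2) * (1 - c ^ 2) /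
        (4 * a ^ 2 * b ^ 2 * c ^ 2) := by
    unfold Ch
    field_simp
    ring
  have e2 : (Sh b c) ^ 2 * (sR a) ^ 2 =
      ((1 - b ^ 2 * c ^ 2) ^ 2 * (1 - a ^ 2) ^ 2 / 4) / (4 * a ^ 2 * b ^ 2 * c ^ 2) := by
    unfold Sh sR
    field_simp
    ring
  rw [e1, e2]
  apply div_lt_div_of_pos_right _ (by positivity)
  have a2 : a ^ 2 ≤ 1 / 64 := by nlinarith
  have b2 : b ^ 2 ≤ 1 / 64 := by nlinarith
  have c2 : c ^ 2 ≤ 1 / 64 := by nlinarith
  have a0 : 0 < a ^ 2 := by positivity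
  have b0 : 0 < b ^ 2 := by positivity
  have c0 : 0 < c ^ 2 := by positivity
  set A := a ^ 2
  set B := b ^ 2
  set D := c ^ 2
  have hBD : B * D ≤ 1 / 64 := by nlinarith
  have hBD0 : 0 < B * D := by positivity
  have hABD : A * B * D ≤ 1 / 64 := by nlinarith
  have h1 : (1 - B * D) ^ 2 * (1 - A) ^ 2 / 4 ≤ (1 - A) / 4 := by
    have h2 : (1 - B * D) ^ 2 ≤ 1 := by nlinarith
    have h3 : (1 - A) ^ 2 ≤ 1 - A := by nlinarith
    have h4 : (1 - B * D) ^ 2 * (1 - A) ^ 2 ≤ 1 * (1 - A) :=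
      mul_le_mul h2 h3 (sq_nonneg _) zero_le_one
    linarith
  have h5 : (1 / 2 : ℝ) ≤ (1 - A * B * D) * (1 - B) * (1 - D) := by
    have h6 : (63 / 64 : ℝ) ≤ 1 - A * B * D := by linarith
    have h7 : (63 / 64 : ℝ) ≤ 1 - B := by linarith
    have h8 : (63 / 64 : ℝ) ≤ 1 - D := by linarith
    have h9 : (63 / 64 : ℝ) * (63 / 64) ≤ (1 - A * B * D) * (1 - B) :=
      mul_le_mul h6 h7 (by norm_num) (by linarith)
    have h10 : (63 / 64 : ℝ) * (63 / 64) * (63 / 64) ≤ (1 - A * B * D) * (1 - B) * (1 - D) :=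
      mul_le_mul h9 h8 (by norm_num) (by linarith)
    linarith
  have h11 : 0 < 1 - A := by linarith
  nlinarith

theorem HALF : S_HALF := by
  intro X Y Z P a b c hX hY hZ hP ha ha' hb hb' hc hc' hT hXP
  obtain ⟨hXY, hYZ, hXZ, hdet⟩ := hT
  have hnum := HALF_num a b c ha ha' hb hb' hc hc'
  set σ := Sh b c with hσ
  have hσ0 : 0 < σ := by
    rw [hσ]
    unfold Sh
    have : b ^ 2 * c ^ 2 < 1 := by
      have h1 : b * c ≤ 1 / 8 * (1 / 8) := mul_le_mul hb' hc' hc.le (by norm_num)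
      have h2 : 0 < b * c := by positivity
      nlinarith
    apply div_pos (by linarith) (by positivity)
  have hσC : σ ^ 2 = Ch b c ^ 2 - 1 := by
    rw [hσ]
    unfold Sh Ch
    field_simp
    ring
  have hcR : (cR a) ^ 2 = 1 + (sR a) ^ 2 := by
    unfold cR sR
    field_simp
    ring
  have hcR0 : 0 < cR a := by
    unfold cR
    positivity
  have hgram : det3 X Y Z ^ 2 =
      1 + 2 * Ch a b * Ch a c * Ch b c - Ch a b ^ 2 - Ch a c ^ 2 - Ch b c ^ 2 := by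
    have e : det3 X Y Z ^ 2 = -(mink X X * mink Y Y * mink Z Z +
        2 * mink X Y * mink Y Z * mink X Z - mink X X * mink Y Z ^ 2 - mink Y Y * mink X Z ^ 2 -
        mink Z Z * mink X Y ^ 2) := by
      unfold det3 mink
      ring
    rw [e, hX.1, hY.1, hZ.1, hXY, hYZ, hXZ]
    ring
  have hchab : 0 < Ch a b := by
    unfold Ch
    positivity
  by_contra hcon
  push Not at hcon
  set p := det3 X Y Z with hp
  set q := det3 Y Z P with hq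
  let N : V3 := (Y.2.1 * Z.2.2 - Y.2.2 * Z.2.1, Y.2.2 * Z.1 - Y.1 * Z.2.2,
    -(Y.1 * Z.2.1 - Y.2.1 * Z.1))
  have hNX : mink N X = p := by
    simp only [N, mink, hp, det3]
    ring
  have hNP : mink N P = q := by
    simp only [N, mink, hq, det3]
    ring
  have hNY : mink N Y = 0 := by
    simp only [N, mink]
    ring
  have hNN : mink N N = σ ^ 2 := by
    have e : mink N N = mink Y Z ^ 2 - mink Y Y * mink Z Z := by
      simp only [N, mink]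
      ring
    rw [e, hYZ, hY.1, hZ.1, hσC]
    ring
  let U : V3 := (σ ^ 2 * X.1 - p * N.1, σ ^ 2 * X.2.1 - p * N.2.1, σ ^ 2 * X.2.2 - p * N.2.2)
  let V : V3 := (σ ^ 2 * P.1 - q * N.1, σ ^ 2 * P.2.1 - q * N.2.1, σ ^ 2 * P.2.2 - q * N.2.2)
  have hUU : mink U U = -(σ ^ 2 * (σ ^ 2 + p ^ 2)) := by
    have e : mink U U = σ ^ 4 * mink X X - 2 * σ ^ 2 * p * mink N X + p ^ 2 * mink N N := by
      simp only [U, mink]
      ring
    rw [e, hX.1, hNX, hNN]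
    ring
  have hVV : mink V V = -(σ ^ 2 * (σ ^ 2 + q ^ 2)) := by
    have e : mink V V = σ ^ 4 * mink P P - 2 * σ ^ 2 * q * mink N P + q ^ 2 * mink N N := by
      simp only [V, mink]
      ring
    rw [e, hP.1, hNP, hNN]
    ring
  have hUV : mink U V = σ ^ 4 * mink X P - σ ^ 2 * p * q := by
    have e : mink U V = σ ^ 4 * mink X P - σ ^ 2 * q * mink N X - σ ^ 2 * p * mink N P +
        p * q * mink N N := by
      simp only [U, V, mink]
      ring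
    rw [e, hNX, hNP, hNN]
    ring
  have hUY : mink U Y = σ ^ 2 * mink X Y := by
    have e : mink U Y = σ ^ 2 * mink X Y - p * mink N Y := by
      simp only [U, mink]
      ring
    rw [e, hNY]
    ring
  have hVY : mink V Y = σ ^ 2 * mink P Y := by
    have e : mink V Y = σ ^ 2 * mink P Y - q * mink N Y := by
      simp only [V, mink]
      ring
    rw [e, hNY]
    ring
  have hs2 : 0 < σ ^ 2 := by positivity
  have hPY : mink P Y < 0 := by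
    have := HALF_rcs P Y 0 1 hP.2 hY.2 one_pos (by rw [hP.1]; norm_num)
      (by rw [hY.1]; norm_num)
    linarith
  have hYY : mink Y Y < 0 := by rw [hY.1]; norm_num
  have hU0 : 0 < U.2.2 := by
    apply HALF_sign U Y hY.2 _ hYY
    · rw [hUY, hXY]
      have := mul_pos hs2 hchab
      linarith
    · rw [hUU]
      have : 0 < σ ^ 2 * (σ ^ 2 + p ^ 2) := by positivity
      linarith
  have hV0 : 0 < V.2.2 := by
    apply HALF_sign V Y hY.2 _ hYY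
    · rw [hVY]
      exact mul_neg_of_pos_of_neg hs2 hPY
    · rw [hVV]
      have : 0 < σ ^ 2 * (σ ^ 2 + q ^ 2) := by positivity
      linarith
  have hfin := HALF_rcs U V (σ ^ 2 * cR a) (σ ^ 2) hU0 hV0 hs2 (by
      rw [hUU, mul_pow, hcR]
      have h1 : σ ^ 2 * sR a ^ 2 < p ^ 2 := by rw [hgram]; exact hnum
      have h2 : σ ^ 2 * (σ ^ 2 * sR a ^ 2) < σ ^ 2 * p ^ 2 := mul_lt_mul_of_pos_left h1 hs2
      have e1 : σ ^ 2 * (σ ^ 2 + p ^ 2) = (σ ^ 2) ^ 2 + σ ^ 2 * p ^ 2 := by ring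
      have e2 : (σ ^ 2) ^ 2 * (1 + sR a ^ 2) = (σ ^ 2) ^ 2 + σ ^ 2 * (σ ^ 2 * sR a ^ 2) := by ring
      rw [e1, e2]
      linarith) (by
      rw [hVV]
      have h3 : 0 ≤ σ ^ 2 * q ^ 2 := by positivity
      have e1 : σ ^ 2 * (σ ^ 2 + q ^ 2) = (σ ^ 2) ^ 2 + σ ^ 2 * q ^ 2 := by ring
      rw [e1]
      linarith)
  rw [hUV] at hfin
  have h1 : σ ^ 2 * p * q ≤ 0 := by
    apply mul_nonpos_of_nonneg_of_nonpos _ hcon
    positivity
  have h2 : σ ^ 4 * (-mink X P) ≤ σ ^ 4 * cR a := mul_le_mul_of_nonneg_left hXP (by positivity)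
  have e3 : σ ^ 2 * cR a * σ ^ 2 = σ ^ 4 * cR a := by ring
  rw [e3] at hfin
  linarith

end H637F
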