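import Pool.Agent.H637R3.DF.Stm

namespace H637F

open Real

theorem HAM_pos {r s : ℝ} (hr : 0 < r) (hr1 : r < 1) (hs : 0 < s) (hs1 : s < 1) :
    0 < 1 - r ^ 2 * s ^ 2 := by
  have h1 : r * s < 1 := by nlinarith
  have h2 : 0 < r * s := mul_pos hr hs
  have h3 : r ^ 2 * s ^ 2 = (r * s) ^ 2 := by ring
  rw [h3]
  nlinarith

theorem HAM_pos1 {s : ℝ} (hs : 0 < s) (hs1 : s < 1) : 0 < 1 - s ^ 2 := by nlinarith

theorem HAM : S_HAM := by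
  refine ⟨?_, ?_, ?_, ?_⟩
  · intro r s t
    unfold ha
    rw [mul_comm (1 - s ^ 2), mul_comm (1 - r ^ 2 * s ^ 2)]
  · intro r r' s t hr hrr hr1 hs hs1 ht ht1
    unfold ha
    have hr0 : r < 1 := lt_of_le_of_lt hrr hr1
    have hr'0 : 0 < r' := lt_of_lt_of_le hr hrr
    have a1 := HAM_pos hr'0 hr1 hs hs1
    have a2 := HAM_pos hr'0 hr1 ht ht1
    have hsq : r ^ 2 ≤ r' ^ 2 := pow_le_pow_left₀ hr.le hrr 2
    have b1 : 1 - r' ^ 2 * s ^ 2 ≤ 1 - r ^ 2 * s ^ 2 := by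
      have := mul_le_mul_of_nonneg_right hsq (sq_nonneg s)
      linarith
    have b2 : 1 - r' ^ 2 * t ^ 2 ≤ 1 - r ^ 2 * t ^ 2 := by
      have := mul_le_mul_of_nonneg_right hsq (sq_nonneg t)
      linarith
    have hA : (1 - s ^ 2) * (1 - t ^ 2) / ((1 - r ^ 2 * s ^ 2) * (1 - r ^ 2 * t ^ 2)) ≤
        (1 - s ^ 2) * (1 - t ^ 2) / ((1 - r' ^ 2 * s ^ 2) * (1 - r' ^ 2 * t ^ 2)) :=
      div_le_div_of_nonneg_left (mul_pos (HAM_pos1 hs hs1) (HAM_pos1 ht ht1)).le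
        (mul_pos a1 a2) (mul_le_mul b1 b2 a2.le (by linarith))
    exact mul_le_mul_of_nonneg_left (Real.monotone_arcsin (mul_le_mul hrr (Real.sqrt_le_sqrt hA)
      (Real.sqrt_nonneg _) hr'0.le)) (by norm_num)
  · intro r s s' t hr hr1 hs hss hs1 ht ht1
    unfold ha
    have hs0 : s < 1 := lt_of_le_of_lt hss hs1
    have hs'0 : 0 < s' := lt_of_lt_of_le hs hss
    have a1 := HAM_pos hr hr1 hs hs0
    have a1' := HAM_pos hr hr1 hs'0 hs1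
    have a2 := HAM_pos hr hr1 ht ht1
    have c2 := HAM_pos1 ht ht1
    have hsq : s ^ 2 ≤ s' ^ 2 := pow_le_pow_left₀ hs.le hss 2
    have hr2 : 0 < 1 - r ^ 2 := HAM_pos1 hr hr1
    have hq : (1 - s' ^ 2) / (1 - r ^ 2 * s' ^ 2) ≤ (1 - s ^ 2) / (1 - r ^ 2 * s ^ 2) := by
      rw [div_le_div_iff₀ a1' a1]
      nlinarith [mul_nonneg (sub_nonneg.2 hsq) hr2.le]
    have hA : (1 - s' ^ 2) * (1 - t ^ 2) / ((1 - r ^ 2 * s' ^ 2) * (1 - r ^ 2 * t ^ 2)) ≤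
        (1 - s ^ 2) * (1 - t ^ 2) / ((1 - r ^ 2 * s ^ 2) * (1 - r ^ 2 * t ^ 2)) := by
      rw [mul_div_mul_comm, mul_div_mul_comm]
      exact mul_le_mul_of_nonneg_right hq (div_nonneg c2.le a2.le)
    exact mul_le_mul_of_nonneg_left (Real.monotone_arcsin (mul_le_mul_of_nonneg_left
      (Real.sqrt_le_sqrt hA) hr.le)) (by norm_num)
  · have h1 : ContinuousOn (fun p : ℝ × ℝ × ℝ => (1 - p.2.1 ^ 2) * (1 - p.2.2 ^ 2) /
        ((1 - p.1 ^ 2 * p.2.1 ^ 2) * (1 - p.1 ^ 2 * p.2.2 ^ 2)))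
        {p | 0 < p.1 ∧ p.1 < 1 ∧ 0 < p.2.1 ∧ p.2.1 < 1 ∧ 0 < p.2.2 ∧ p.2.2 < 1} := by
      refine ContinuousOn.div (by fun_prop) (by fun_prop) ?_
      rintro p ⟨h1, h2, h3, h4, h5, h6⟩
      exact mul_ne_zero (HAM_pos h1 h2 h3 h4).ne' (HAM_pos h1 h2 h5 h6).ne'
    exact continuousOn_const.mul (Real.continuous_arcsin.comp_continuousOn
      (continuousOn_fst.mul h1.sqrt))

end H637F
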