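import Pool.Agent.H637R3.DF.Stm

namespace H637F

open Real

theorem LAWE1_cos (r s t : ℝ) (hr : 0 < r) (hs : 0 < s) (ht : 0 < t) :
    0 < ea r s t ∧ ea r s t < π ∧ cos (ea r s t) = 1 - 2 * (s * t / ((r + s) * (r + t))) := by
  have hA : 0 < r + s := by positivity
  have hB : 0 < r + t := by positivity
  have hq0 : 0 < s * t / ((r + s) * (r + t)) := by positivity
  have hq1 : s * t / ((r + s) * (r + t)) < 1 := by
    rw [div_lt_one (by positivity)]
    nlinarith [mul_pos hr hs, mul_pos hr ht, mul_pos hr hr]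
  have hy0 : 0 < √(s * t / ((r + s) * (r + t))) := Real.sqrt_pos.mpr hq0
  have hy1 : √(s * t / ((r + s) * (r + t))) < 1 := by
    rw [Real.sqrt_lt' one_pos, one_pow]; exact hq1
  refine ⟨?_, ?_, ?_⟩
  · unfold ea
    have := Real.arcsin_pos.mpr hy0
    linarith
  · unfold ea
    have := Real.arcsin_lt_pi_div_two.mpr hy1
    linarith
  · unfold ea
    rw [Real.cos_two_mul, Real.cos_sq', Real.sin_arcsin (by linarith) hy1.le,
      Real.sq_sqrt hq0.le]
    ring

theorem LAWE1 : S_LAWE1 := by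
  intro x r s t θ hr hs ht
  obtain ⟨h0, h1, hc⟩ := LAWE1_cos r s t hr hs ht
  refine ⟨h0, h1, ?_⟩
  set α := ea r s t with hα
  have hA : 0 < r + s := by positivity
  have hB : 0 < r + t := by positivity
  have hsin : 0 < sin α := Real.sin_pos_of_pos_of_lt_pi h0 h1
  set E := Complex.exp (θ * Complex.I) with hE
  set G := Complex.exp (α * Complex.I) with hG
  have hEG : Complex.exp (((θ + α : ℝ) : ℂ) * Complex.I) = E * G := by
    rw [hE, hG, ← Complex.exp_add]
    congr 1
    push_cast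
    ring
  have nE : ‖E‖ = 1 := Complex.norm_exp_ofReal_mul_I θ
  have nG : ‖G‖ = 1 := Complex.norm_exp_ofReal_mul_I α
  have hGre : G.re = cos α := Complex.exp_ofReal_mul_I_re α
  have hGim : G.im = sin α := Complex.exp_ofReal_mul_I_im α
  rw [hEG]
  refine ⟨?_, ?_, ?_, ?_⟩
  · have e : x - (x + ((r + s : ℝ) : ℂ) * E) = -(((r + s : ℝ) : ℂ) * E) := by ring
    rw [e, norm_neg, norm_mul, nE, mul_one, Complex.norm_real, Real.norm_of_nonneg hA.le]
  · have e : x + ((r + s : ℝ) : ℂ) * E - (x + ((r + t : ℝ) : ℂ) * (E * G)) =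
        E * (((r + s : ℝ) : ℂ) - ((r + t : ℝ) : ℂ) * G) := by ring
    rw [e, norm_mul, nE, one_mul]
    have hsq : ‖((r + s : ℝ) : ℂ) - ((r + t : ℝ) : ℂ) * G‖ ^ 2 = (s + t) ^ 2 := by
      rw [← Complex.normSq_eq_norm_sq, Complex.normSq_apply]
      simp only [Complex.sub_re, Complex.sub_im, Complex.mul_re, Complex.mul_im,
        Complex.ofReal_re, Complex.ofReal_im, hGre, hGim, zero_mul, sub_zero, add_zero, zero_sub]
      have h2 : cos α ^ 2 + sin α ^ 2 = 1 := by
        rw [add_comm]; exact Real.sin_sq_add_cos_sq α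
      have h3 : (r + s) * (r + t) * cos α = (r + s) * (r + t) - 2 * (s * t) := by
        rw [hc]
        field_simp
      linear_combination (r + t) ^ 2 * h2 - 2 * h3
    exact (sq_eq_sq₀ (norm_nonneg _) (by positivity)).mp hsq
  · have e : x - (x + ((r + t : ℝ) : ℂ) * (E * G)) = -(((r + t : ℝ) : ℂ) * (E * G)) := by ring
    rw [e, norm_neg, norm_mul, norm_mul, nE, nG, mul_one, mul_one, Complex.norm_real,
      Real.norm_of_nonneg hB.le]
  · have e1 : x + ((r + s : ℝ) : ℂ) * E - x = ((r + s : ℝ) : ℂ) * E := by ring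
    have e2 : x + ((r + t : ℝ) : ℂ) * (E * G) - x = ((r + t : ℝ) : ℂ) * (E * G) := by ring
    have hconj : (starRingEnd ℂ) E * E = 1 := by
      rw [mul_comm, Complex.mul_conj, Complex.normSq_eq_norm_sq, nE]
      norm_num
    have e3 : (starRingEnd ℂ) (((r + s : ℝ) : ℂ) * E) * (((r + t : ℝ) : ℂ) * (E * G)) =
        (((r + s) * (r + t) : ℝ) : ℂ) * G := by
      rw [map_mul, Complex.conj_ofReal]
      push_cast
      linear_combination ((r : ℂ) + s) * (r + t) * G * hconj
    rw [e1, e2, e3, Complex.im_ofReal_mul, hGim]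
    positivity

end H637F
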