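import Pool.Agent.H637R3.DF.Stm

namespace H637F

open Real

theorem LAWE2_cos (r s t : ℝ) (hr : 0 < r) (hs : 0 < s) (ht : 0 < t) :
    Real.cos (ea r s t) = 1 - 2 * (s * t / ((r + s) * (r + t))) ∧ 0 < Real.sin (ea r s t) := by
  set q := s * t / ((r + s) * (r + t)) with hq
  have hq0 : 0 < q := by positivity
  have hq1 : q < 1 := by
    rw [hq, div_lt_one (by positivity)]
    nlinarith [mul_pos hr hs, mul_pos hr ht, mul_pos hr hr]
  have hsq : (√q) ^ 2 = q := Real.sq_sqrt hq0.le
  have hs0 : 0 < √q := Real.sqrt_pos.2 hq0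
  have hs1 : √q ≤ 1 := by
    nlinarith
  have hsa : Real.sin (arcsin (√q)) = √q := Real.sin_arcsin (by linarith) hs1
  have hca : Real.cos (arcsin (√q)) = √(1 - q) := by rw [Real.cos_arcsin, hsq]
  have hα : ea r s t = 2 * arcsin (√q) := rfl
  rw [hα]
  constructor
  · rw [Real.cos_two_mul, Real.cos_sq', hsa, hsq]; ring
  · rw [Real.sin_two_mul, hsa, hca]
    have : 0 < √(1 - q) := Real.sqrt_pos.2 (by linarith)
    positivity

theorem LAWE2 : S_LAWE2 := by
  intro x z r s t θ hr hs ht h
  obtain ⟨h1, h2, h3, h4⟩ := h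
  obtain ⟨hc, hsn⟩ := LAWE2_cos r s t hr hs ht
  set α := ea r s t with hα
  set q := s * t / ((r + s) * (r + t)) with hq
  set E := Complex.exp (θ * Complex.I) with hE
  have hEre : E.re = Real.cos θ := by rw [hE, Complex.exp_ofReal_mul_I_re]
  have hEim : E.im = Real.sin θ := by rw [hE, Complex.exp_ofReal_mul_I_im]
  have hcs := Real.sin_sq_add_cos_sq θ
  have hcsα := Real.sin_sq_add_cos_sq α
  -- equations
  have e3 : (z.re - x.re) ^ 2 + (z.im - x.im) ^ 2 = (r + t) ^ 2 := by
    have : ‖x - z‖ ^ 2 = (r + t) ^ 2 := by rw [h3]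
    rw [Complex.sq_norm, Complex.normSq_apply] at this
    simp only [Complex.sub_re, Complex.sub_im] at this
    nlinarith
  have e2 : (x.re + (r + s) * Real.cos θ - z.re) ^ 2 + (x.im + (r + s) * Real.sin θ - z.im) ^ 2 =
      (s + t) ^ 2 := by
    have : ‖x + ((r + s : ℝ) : ℂ) * E - z‖ ^ 2 = (s + t) ^ 2 := by rw [h2]
    rw [Complex.sq_norm, Complex.normSq_apply] at this
    simp only [Complex.sub_re, Complex.sub_im, Complex.add_re, Complex.add_im,
      Complex.re_ofReal_mul, Complex.im_ofReal_mul, hEre, hEim] at this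
    nlinarith
  have e4 : 0 < (r + s) * (Real.cos θ * (z.im - x.im) - Real.sin θ * (z.re - x.re)) := by
    have h5 : x + ((r + s : ℝ) : ℂ) * E - x = ((r + s : ℝ) : ℂ) * E := by ring
    rw [h5, Complex.mul_im] at h4
    simp only [map_mul, Complex.conj_ofReal, Complex.re_ofReal_mul, Complex.im_ofReal_mul,
      Complex.conj_re, Complex.conj_im, Complex.sub_re, Complex.sub_im, hEre, hEim] at h4
    nlinarith
  set A := Real.cos θ * (z.re - x.re) + Real.sin θ * (z.im - x.im) with hA
  set B := Real.cos θ * (z.im - x.im) - Real.sin θ * (z.re - x.re) with hB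
  have hrs : 0 < r + s := by linarith
  have hrt : 0 < r + t := by linarith
  have hB0 : 0 < B := by
    rcases lt_or_ge 0 B with h | h
    · exact h
    · exact absurd e4 (not_lt.2 (mul_nonpos_of_nonneg_of_nonpos hrs.le h))
  have hAB : A ^ 2 + B ^ 2 = (r + t) ^ 2 := by
    have : A ^ 2 + B ^ 2 = (Real.sin θ ^ 2 + Real.cos θ ^ 2) *
        ((z.re - x.re) ^ 2 + (z.im - x.im) ^ 2) := by rw [hA, hB]; ring
    rw [this, hcs, e3, one_mul]
  have hA2 : 2 * (r + s) * A = (r + s) ^ 2 + (r + t) ^ 2 - (s + t) ^ 2 := by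
    have : (x.re + (r + s) * Real.cos θ - z.re) ^ 2 + (x.im + (r + s) * Real.sin θ - z.im) ^ 2 =
        (r + s) ^ 2 * (Real.sin θ ^ 2 + Real.cos θ ^ 2) - 2 * (r + s) * A +
        ((z.re - x.re) ^ 2 + (z.im - x.im) ^ 2) := by rw [hA]; ring
    rw [this, hcs, e3] at e2
    linarith
  have hAc : A = (r + t) * Real.cos α := by
    have h6 : q * ((r + s) * (r + t)) = s * t := by
      rw [hq]; field_simp
    have h7 : 2 * (r + s) * A = 2 * (r + s) * ((r + t) * Real.cos α) := by
      rw [hA2, hc]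
      linear_combination 4 * h6
    exact mul_left_cancel₀ (by positivity) h7
  have hBs : B = (r + t) * Real.sin α := by
    have h8 : B ^ 2 = ((r + t) * Real.sin α) ^ 2 := by
      have : B ^ 2 = (r + t) ^ 2 - A ^ 2 := by linarith
      rw [this, hAc]
      linear_combination (-(r + t) ^ 2) * hcsα
    have h9 : 0 < (r + t) * Real.sin α := by positivity
    exact (sq_eq_sq₀ hB0.le h9.le).1 h8
  have hzre : z.re - x.re = Real.cos θ * A - Real.sin θ * B := by
    rw [hA, hB]; linear_combination (-(z.re - x.re)) * hcs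
  have hzim : z.im - x.im = Real.sin θ * A + Real.cos θ * B := by
    rw [hA, hB]; linear_combination (-(z.im - x.im)) * hcs
  apply Complex.ext
  · rw [Complex.add_re, Complex.re_ofReal_mul, Complex.exp_ofReal_mul_I_re, Real.cos_add]
    rw [hAc, hBs] at hzre
    linear_combination hzre
  · rw [Complex.add_im, Complex.im_ofReal_mul, Complex.exp_ofReal_mul_I_im, Real.sin_add]
    rw [hAc, hBs] at hzim
    linear_combination hzim

end H637F
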