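import Pool.Agent.H637R3.DF.Stm

/-!
Project DF, task LAWH1: hyperbolic law of cosines, existence.
-/

set_option autoImplicit false

namespace H637F

open Real

theorem LAWH1_pp (X E F : V3) (h : Frame X E F) (C S C2 S2 a b : ℝ) :
    mink (pol X E F C S a) (pol X E F C2 S2 b) = -(C * C2) + S * S2 * Real.cos (a - b) := by
  obtain ⟨x1, x2, x3⟩ := X
  obtain ⟨e1, e2, e3⟩ := E
  obtain ⟨f1, f2, f3⟩ := F
  obtain ⟨h1, h2, h3, h4, h5, h6, -⟩ := h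
  simp only [mink, pol, Prod.fst_add, Prod.snd_add, Prod.smul_fst, Prod.smul_snd,
    smul_eq_mul] at h1 h2 h3 h4 h5 h6 ⊢
  rw [Real.cos_sub]
  linear_combination C * C2 * h1 + S * S2 * Real.cos a * Real.cos b * h2 +
    S * S2 * Real.sin a * Real.sin b * h3 + (C * S2 * Real.cos b + C2 * S * Real.cos a) * h4 +
    (C * S2 * Real.sin b + C2 * S * Real.sin a) * h5 +
    S * S2 * (Real.cos a * Real.sin b + Real.sin a * Real.cos b) * h6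

theorem LAWH1_xp (X E F : V3) (h : Frame X E F) (C S a : ℝ) :
    mink X (pol X E F C S a) = -C := by
  obtain ⟨x1, x2, x3⟩ := X
  obtain ⟨e1, e2, e3⟩ := E
  obtain ⟨f1, f2, f3⟩ := F
  obtain ⟨h1, h2, h3, h4, h5, h6, -⟩ := h
  simp only [mink, pol, Prod.fst_add, Prod.snd_add, Prod.smul_fst, Prod.smul_snd,
    smul_eq_mul] at h1 h2 h3 h4 h5 h6 ⊢
  linear_combination C * h1 + S * Real.cos a * h4 + S * Real.sin a * h5

theorem LAWH1_det (X E F : V3) (h : Frame X E F) (C S C2 S2 a b : ℝ) :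
    det3 X (pol X E F C S a) (pol X E F C2 S2 b) = S * S2 * Real.sin (b - a) := by
  obtain ⟨x1, x2, x3⟩ := X
  obtain ⟨e1, e2, e3⟩ := E
  obtain ⟨f1, f2, f3⟩ := F
  obtain ⟨-, -, -, -, -, -, h7⟩ := h
  simp only [det3, pol, Prod.fst_add, Prod.snd_add, Prod.smul_fst, Prod.smul_snd,
    smul_eq_mul] at h7 ⊢
  rw [Real.sin_sub]
  linear_combination S * S2 * (Real.sin b * Real.cos a - Real.cos b * Real.sin a) * h7

theorem LAWH1_time (X E F : V3) (h : Frame X E F) :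
    X.2.2 ^ 2 - E.2.2 ^ 2 - F.2.2 ^ 2 = 1 := by
  obtain ⟨x1, x2, x3⟩ := X
  obtain ⟨e1, e2, e3⟩ := E
  obtain ⟨f1, f2, f3⟩ := F
  obtain ⟨h1, h2, h3, h4, h5, h6, -⟩ := h
  simp only [mink] at h1 h2 h3 h4 h5 h6 ⊢
  have hAB : (!![x1, x2, x3; e1, e2, e3; f1, f2, f3] : Matrix (Fin 3) (Fin 3) ℝ) *
      !![-x1, e1, f1; -x2, e2, f2; x3, -e3, -f3] = 1 := by
    ext i j
    fin_cases i <;> fin_cases j <;>
      simp [Matrix.mul_apply, Fin.sum_univ_three] <;> linarith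
  have hBA := mul_eq_one_comm.mp hAB
  have h9 := congrFun (congrFun hBA 2) 2
  simp [Matrix.mul_apply, Fin.sum_univ_three] at h9
  nlinarith [h9]

theorem LAWH1_hyp (X E F : V3) (h : Frame X E F) (hX : 0 < X.2.2) (C S a : ℝ)
    (hS : 0 < S) (hCS : S < C) (h1 : C ^ 2 - S ^ 2 = 1) : Hyp (pol X E F C S a) := by
  refine ⟨?_, ?_⟩
  · rw [LAWH1_pp X E F h]
    rw [sub_self, Real.cos_zero]
    linarith
  · have ht := LAWH1_time X E F h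
    have e1 : (pol X E F C S a).2.2 =
        C * X.2.2 + S * (Real.cos a * E.2.2 + Real.sin a * F.2.2) := by
      simp only [pol, Prod.snd_add, Prod.smul_snd, smul_eq_mul]
    rw [e1]
    have h2 : (Real.cos a * E.2.2 + Real.sin a * F.2.2) ^ 2 < X.2.2 ^ 2 := by
      have h3 : (Real.cos a * E.2.2 + Real.sin a * F.2.2) ^ 2 +
          (Real.sin a * E.2.2 - Real.cos a * F.2.2) ^ 2 = E.2.2 ^ 2 + F.2.2 ^ 2 := by
        have := Real.sin_sq_add_cos_sq a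
        linear_combination (E.2.2 ^ 2 + F.2.2 ^ 2) * this
      nlinarith [sq_nonneg (Real.sin a * E.2.2 - Real.cos a * F.2.2)]
    have h4 : |Real.cos a * E.2.2 + Real.sin a * F.2.2| < X.2.2 :=
      abs_lt_of_sq_lt_sq h2 hX.le
    have h5 := (abs_lt.mp h4).1
    nlinarith [mul_pos hS hX, mul_pos (sub_pos.mpr hCS) hX,
      mul_pos hS (by linarith : 0 < X.2.2 + (Real.cos a * E.2.2 + Real.sin a * F.2.2))]

/-- facts about `Ch`, `Sh` -/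
theorem LAWH1_cs (r s : ℝ) (hr : 0 < r) (hr1 : r < 1) (hs : 0 < s) (hs1 : s < 1) :
    0 < Sh r s ∧ Sh r s < Ch r s ∧ Ch r s ^ 2 - Sh r s ^ 2 = 1 := by
  have hrs : 0 < r * s := mul_pos hr hs
  have hrs1 : r * s < 1 := by nlinarith
  have h2 : r ^ 2 * s ^ 2 < 1 := by nlinarith [hrs, hrs1]
  refine ⟨?_, ?_, ?_⟩
  · unfold Sh
    exact div_pos (by linarith) (by positivity)
  · unfold Sh Ch
    rw [div_lt_div_iff_of_pos_right (by positivity)]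
    nlinarith [mul_pos hrs hrs]
  · unfold Sh Ch
    field_simp
    ring

theorem LAWH1_ratio (r s t : ℝ) (hr : 0 < r) (hr1 : r < 1) (hs : 0 < s) (hs1 : s < 1)
    (ht : 0 < t) (ht1 : t < 1) :
    0 < (1 - s ^ 2) * (1 - t ^ 2) / ((1 - r ^ 2 * s ^ 2) * (1 - r ^ 2 * t ^ 2)) ∧
    r ^ 2 * ((1 - s ^ 2) * (1 - t ^ 2) / ((1 - r ^ 2 * s ^ 2) * (1 - r ^ 2 * t ^ 2))) < 1 := by
  have hs2 : 0 < 1 - s ^ 2 := by nlinarith
  have ht2 : 0 < 1 - t ^ 2 := by nlinarith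
  have hr2 : 0 < 1 - r ^ 2 := by nlinarith
  have h1 : 1 - s ^ 2 ≤ 1 - r ^ 2 * s ^ 2 := by nlinarith [mul_pos hr2 (pow_pos hs 2)]
  have h2 : 1 - t ^ 2 ≤ 1 - r ^ 2 * t ^ 2 := by nlinarith [mul_pos hr2 (pow_pos ht 2)]
  have h3 : 0 < 1 - r ^ 2 * s ^ 2 := by linarith
  have h4 : 0 < 1 - r ^ 2 * t ^ 2 := by linarith
  have h5 : 0 < (1 - r ^ 2 * s ^ 2) * (1 - r ^ 2 * t ^ 2) := mul_pos h3 h4
  have h6 : (1 - s ^ 2) * (1 - t ^ 2) ≤ (1 - r ^ 2 * s ^ 2) * (1 - r ^ 2 * t ^ 2) :=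
    mul_le_mul h1 h2 ht2.le h3.le
  refine ⟨div_pos (mul_pos hs2 ht2) h5, ?_⟩
  have h7 : (1 - s ^ 2) * (1 - t ^ 2) / ((1 - r ^ 2 * s ^ 2) * (1 - r ^ 2 * t ^ 2)) ≤ 1 := by
    rw [div_le_one h5]; exact h6
  have h8 : 0 < (1 - s ^ 2) * (1 - t ^ 2) / ((1 - r ^ 2 * s ^ 2) * (1 - r ^ 2 * t ^ 2)) :=
    div_pos (mul_pos hs2 ht2) h5
  nlinarith

theorem LAWH1_ha (r s t : ℝ) (hr : 0 < r) (hr1 : r < 1) (hs : 0 < s) (hs1 : s < 1)
    (ht : 0 < t) (ht1 : t < 1) :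
    0 < ha r s t ∧ ha r s t < π ∧
    Ch r s * Ch r t - Sh r s * Sh r t * Real.cos (ha r s t) = Ch s t := by
  obtain ⟨hq0, hq1⟩ := LAWH1_ratio r s t hr hr1 hs hs1 ht ht1
  set q : ℝ := (1 - s ^ 2) * (1 - t ^ 2) / ((1 - r ^ 2 * s ^ 2) * (1 - r ^ 2 * t ^ 2)) with hq
  have hy0 : 0 < r * √q := mul_pos hr (Real.sqrt_pos.mpr hq0)
  have hysq : (r * √q) ^ 2 = r ^ 2 * q := by rw [mul_pow, Real.sq_sqrt hq0.le]
  have hy1 : r * √q < 1 := by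
    have : (r * √q) ^ 2 < 1 ^ 2 := by rw [hysq]; linarith
    exact lt_of_pow_lt_pow_left₀ 2 zero_le_one this
  have hha : ha r s t = 2 * Real.arcsin (r * √q) := rfl
  have ha0 : 0 < Real.arcsin (r * √q) := Real.arcsin_pos.mpr hy0
  have ha1 : Real.arcsin (r * √q) < π / 2 := Real.arcsin_lt_pi_div_two.mpr hy1
  refine ⟨by rw [hha]; linarith, by rw [hha]; linarith, ?_⟩
  have hcos : Real.cos (ha r s t) = 1 - 2 * (r ^ 2 * q) := by
    rw [hha, Real.cos_two_mul, Real.cos_sq', Real.sin_arcsin (by linarith) hy1.le, hysq]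
    ring
  rw [hcos, hq]
  have hr2 : r ^ 2 < 1 := by nlinarith
  have h3 : (1 - r ^ 2 * s ^ 2) ≠ 0 := by
    have : r ^ 2 * s ^ 2 < 1 := by nlinarith [pow_pos hs 2, pow_pos hr 2]
    linarith
  have h4 : (1 - r ^ 2 * t ^ 2) ≠ 0 := by
    have : r ^ 2 * t ^ 2 < 1 := by nlinarith [pow_pos ht 2, pow_pos hr 2]
    linarith
  unfold Ch Sh
  have hr0 : r ≠ 0 := hr.ne'
  have hs0 : s ≠ 0 := hs.ne'
  have ht0 : t ≠ 0 := ht.ne'
  field_simp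
  ring

theorem LAWH1 : S_LAWH1 := by
  intro X E F r s t θ h hX hr hr1 hs hs1 ht ht1
  obtain ⟨a1, a2, a3⟩ := LAWH1_ha r s t hr hr1 hs hs1 ht ht1
  obtain ⟨b1, b2, b3⟩ := LAWH1_cs r s hr hr1 hs hs1
  obtain ⟨c1, c2, c3⟩ := LAWH1_cs r t hr hr1 ht ht1
  refine ⟨LAWH1_hyp X E F h hX _ _ _ b1 b2 b3, a1, a2, LAWH1_xp X E F h _ _ _, ?_,
    LAWH1_xp X E F h _ _ _, ?_⟩
  · rw [LAWH1_pp X E F h]
    have e1 : θ - (θ + ha r s t) = -(ha r s t) := by ring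
    rw [e1, Real.cos_neg]
    linarith
  · rw [LAWH1_det X E F h]
    have e1 : θ + ha r s t - θ = ha r s t := by ring
    rw [e1]
    exact mul_pos (mul_pos b1 c1) (Real.sin_pos_of_pos_of_lt_pi a1 a2)

end H637F
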