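import Pool.Agent.H637R3.DF.Stm

namespace H637F

open Real

lemma LAWH2_x (r s t : ℝ) (hr : 0 < r) (hr1 : r < 1) (hs : 0 < s) (hs1 : s < 1) (ht : 0 < t)
    (ht1 : t < 1) :
    ∃ x : ℝ, 0 < x ∧ x < 1 ∧ ha r s t = 2 * arcsin x ∧
      x ^ 2 = r ^ 2 * ((1 - s ^ 2) * (1 - t ^ 2) / ((1 - r ^ 2 * s ^ 2) * (1 - r ^ 2 * t ^ 2))) := by
  have h1 : 0 < 1 - s ^ 2 := by nlinarith
  have h2 : 0 < 1 - t ^ 2 := by nlinarith
  have h3 : 0 < 1 - r ^ 2 := by nlinarith
  have hr2 : 0 < r ^ 2 := by positivity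
  have hs2 : 0 < s ^ 2 := by positivity
  have ht2 : 0 < t ^ 2 := by positivity
  have h4 : 0 < 1 - r ^ 2 * s ^ 2 := by nlinarith
  have h5 : 0 < 1 - r ^ 2 * t ^ 2 := by nlinarith
  have hq : 0 < (1 - s ^ 2) * (1 - t ^ 2) / ((1 - r ^ 2 * s ^ 2) * (1 - r ^ 2 * t ^ 2)) := by
    positivity
  have hx0 : 0 < r * √((1 - s ^ 2) * (1 - t ^ 2) / ((1 - r ^ 2 * s ^ 2) * (1 - r ^ 2 * t ^ 2))) :=
    mul_pos hr (Real.sqrt_pos.mpr hq)
  have hx2 : (r * √((1 - s ^ 2) * (1 - t ^ 2) / ((1 - r ^ 2 * s ^ 2) * (1 - r ^ 2 * t ^ 2)))) ^ 2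
      = r ^ 2 * ((1 - s ^ 2) * (1 - t ^ 2) / ((1 - r ^ 2 * s ^ 2) * (1 - r ^ 2 * t ^ 2))) := by
    rw [mul_pow, Real.sq_sqrt hq.le]
  refine ⟨_, hx0, ?_, rfl, hx2⟩
  have h6 : 0 < 1 - r ^ 2 * s ^ 2 * t ^ 2 := by
    have : r ^ 2 * s ^ 2 * t ^ 2 < 1 := by
      have h7 : r ^ 2 * s ^ 2 < 1 := by linarith
      have h8 : t ^ 2 < 1 := by linarith
      have h9 : 0 < r ^ 2 * s ^ 2 := by positivity
      nlinarith
    linarith
  have h7 : r ^ 2 * ((1 - s ^ 2) * (1 - t ^ 2) / ((1 - r ^ 2 * s ^ 2) * (1 - r ^ 2 * t ^ 2))) < 1 := by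
    rw [← mul_div_assoc, div_lt_one (by positivity)]
    nlinarith [mul_pos h3 h6]
  rw [← hx2] at h7
  nlinarith

lemma LAWH2_cos (r s t : ℝ) (hr : 0 < r) (hr1 : r < 1) (hs : 0 < s) (hs1 : s < 1) (ht : 0 < t)
    (ht1 : t < 1) :
    Ch r s * Ch r t - Sh r s * Sh r t * Real.cos (ha r s t) = Ch s t ∧
      0 < Real.sin (ha r s t) := by
  obtain ⟨x, hx0, hx1, hha, hx2⟩ := LAWH2_x r s t hr hr1 hs hs1 ht ht1
  have hsin : Real.sin (arcsin x) = x := Real.sin_arcsin (by linarith) hx1.le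
  constructor
  · have hcos : Real.cos (ha r s t) = 1 - 2 * x ^ 2 := by
      rw [hha, Real.cos_two_mul, Real.cos_sq', hsin]
      ring
    have hr2 : 0 < r ^ 2 := by positivity
    have hs2 : 0 < s ^ 2 := by positivity
    have ht2 : 0 < t ^ 2 := by positivity
    have h3 : 0 < 1 - r ^ 2 := by nlinarith
    have h1 : 0 < 1 - s ^ 2 := by nlinarith
    have h2 : 0 < 1 - t ^ 2 := by nlinarith
    have h4 : 1 - r ^ 2 * s ^ 2 ≠ 0 := by nlinarith
    have h5 : 1 - r ^ 2 * t ^ 2 ≠ 0 := by nlinarith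
    rw [hcos, hx2]
    unfold Ch Sh
    field_simp
    ring
  · rw [hha]
    apply Real.sin_pos_of_pos_of_lt_pi
    · have := Real.arcsin_pos.mpr hx0
      linarith
    · have := Real.arcsin_lt_pi_div_two.mpr hx1
      linarith

lemma LAWH2_exp (X E F Z : V3) (h : Frame X E F) :
    Z.1 = -mink X Z * X.1 + mink E Z * E.1 + mink F Z * F.1 ∧
    Z.2.1 = -mink X Z * X.2.1 + mink E Z * E.2.1 + mink F Z * F.2.1 ∧
    Z.2.2 = -mink X Z * X.2.2 + mink E Z * E.2.2 + mink F Z * F.2.2 := by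
  obtain ⟨hXX, hEE, hFF, hXE, hXF, hEF, hd⟩ := h
  obtain ⟨x1, x2, x3⟩ := X
  obtain ⟨e1, e2, e3⟩ := E
  obtain ⟨f1, f2, f3⟩ := F
  obtain ⟨z1, z2, z3⟩ := Z
  simp only [mink, det3] at *
  -- W = Z - c X - a E - b F
  set c : ℝ := -(x1 * z1 + x2 * z2 - x3 * z3) with hc
  set a : ℝ := e1 * z1 + e2 * z2 - e3 * z3 with ha
  set b : ℝ := f1 * z1 + f2 * z2 - f3 * z3 with hb
  set w1 : ℝ := z1 - (c * x1 + a * e1 + b * f1) with hw1
  set w2 : ℝ := z2 - (c * x2 + a * e2 + b * f2) with hw2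
  set w3 : ℝ := z3 - (c * x3 + a * e3 + b * f3) with hw3
  have hX : x1 * w1 + x2 * w2 - x3 * w3 = 0 := by
    rw [hw1, hw2, hw3]
    linear_combination (-c) * hXX - a * hXE - b * hXF - hc
  have hE : e1 * w1 + e2 * w2 - e3 * w3 = 0 := by
    rw [hw1, hw2, hw3]
    linear_combination (-c) * hXE - a * hEE - b * hEF - ha
  have hF : f1 * w1 + f2 * w2 - f3 * w3 = 0 := by
    rw [hw1, hw2, hw3]
    linear_combination (-c) * hXF - a * hEF - b * hFF - hb
  have k1 : w1 = 0 := by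
    linear_combination (-w1) * hd + (e2 * f3 - e3 * f2) * hX - (x2 * f3 - x3 * f2) * hE
      + (x2 * e3 - x3 * e2) * hF
  have k2 : w2 = 0 := by
    linear_combination (-w2) * hd - (e1 * f3 - e3 * f1) * hX + (x1 * f3 - x3 * f1) * hE
      - (x1 * e3 - x3 * e1) * hF
  have k3 : w3 = 0 := by
    linear_combination (-w3) * hd - (e1 * f2 - e2 * f1) * hX + (x1 * f2 - x2 * f1) * hE
      - (x1 * e2 - x2 * e1) * hF
  refine ⟨?_, ?_, ?_⟩
  · linear_combination k1 + hw1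
  · linear_combination k2 + hw2
  · linear_combination k3 + hw3

theorem LAWH2 : S_LAWH2 := by
  intro X E F Z r s t θ hfr hX3 hZ hr hr1 hs hs1 ht ht1 hT
  obtain ⟨hcos, hsin⟩ := LAWH2_cos r s t hr hr1 hs hs1 ht ht1
  obtain ⟨e1, e2, e3⟩ := LAWH2_exp X E F Z hfr
  obtain ⟨-, hYZ, hXZ, hdet⟩ := hT
  obtain ⟨hZZ, -⟩ := hZ
  obtain ⟨hXX, hEE, hFF, hXE, hXF, hEF, hd⟩ := hfr
  have hr2 : 0 < r ^ 2 := by positivity
  have hs2 : 0 < s ^ 2 := by positivity
  have ht2 : 0 < t ^ 2 := by positivity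
  have h3 : 0 < 1 - r ^ 2 := by nlinarith
  have h1 : 0 < 1 - s ^ 2 := by nlinarith
  have h2 : 0 < 1 - t ^ 2 := by nlinarith
  have hSrs : 0 < Sh r s := by
    unfold Sh
    have : 0 < 1 - r ^ 2 * s ^ 2 := by nlinarith
    positivity
  have hSrt : 0 < Sh r t := by
    unfold Sh
    have : 0 < 1 - r ^ 2 * t ^ 2 := by nlinarith
    positivity
  have hCS : Ch r t ^ 2 - 1 = Sh r t ^ 2 := by
    unfold Ch Sh
    field_simp
    ring
  set a : ℝ := mink E Z with ha'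
  set b : ℝ := mink F Z with hb'
  set φ : ℝ := ha r s t with hφ
  rw [hXZ] at e1 e2 e3
  -- expansions
  have hYZ' : mink (pol X E F (Ch r s) (Sh r s) θ) Z
      = Ch r s * mink X Z + Sh r s * (Real.cos θ * a + Real.sin θ * b) := by
    rw [ha', hb']
    simp only [mink, pol, Prod.fst_add, Prod.snd_add, Prod.smul_fst, Prod.smul_snd, smul_eq_mul]
    ring
  have hA : Real.cos θ * a + Real.sin θ * b = Sh r t * Real.cos φ := by
    have : Sh r s * (Real.cos θ * a + Real.sin θ * b) = Sh r s * (Sh r t * Real.cos φ) := by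
      rw [hYZ', hXZ] at hYZ
      linear_combination hYZ + hcos
    exact mul_left_cancel₀ hSrs.ne' this
  have hzz : mink Z Z = -(-Ch r t) * mink X Z + a * mink E Z + b * mink F Z := by
    simp only [mink]
    linear_combination Z.1 * e1 + Z.2.1 * e2 - Z.2.2 * e3
  have hnorm : a ^ 2 + b ^ 2 = Sh r t ^ 2 := by
    rw [hZZ, hXZ, ← ha', ← hb'] at hzz
    linear_combination -hzz + hCS
  have hdet' : det3 X (pol X E F (Ch r s) (Sh r s) θ) Z
      = Sh r s * (Real.cos θ * b - Real.sin θ * a) * det3 X E F := by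
    simp only [det3, pol, Prod.fst_add, Prod.snd_add, Prod.smul_fst, Prod.smul_snd, smul_eq_mul]
    rw [e1, e2, e3]
    ring
  have hB0 : 0 < Real.cos θ * b - Real.sin θ * a := by
    rw [hdet', hd, mul_one] at hdet
    exact (mul_pos_iff_of_pos_left hSrs).mp hdet
  have hct := Real.sin_sq_add_cos_sq θ
  have hcp := Real.sin_sq_add_cos_sq φ
  have hB : Real.cos θ * b - Real.sin θ * a = Sh r t * Real.sin φ := by
    have hsq : (Real.cos θ * b - Real.sin θ * a) ^ 2 = (Sh r t * Real.sin φ) ^ 2 := by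
      have h8 : (Real.cos θ * a + Real.sin θ * b) ^ 2 + (Real.cos θ * b - Real.sin θ * a) ^ 2
          = a ^ 2 + b ^ 2 := by
        linear_combination (a ^ 2 + b ^ 2) * hct
      rw [hA, hnorm] at h8
      linear_combination h8 - (Sh r t) ^ 2 * hcp
    have hp : 0 < Sh r t * Real.sin φ := mul_pos hSrt hsin
    nlinarith [sq_nonneg (Real.cos θ * b - Real.sin θ * a - Sh r t * Real.sin φ)]
  have hafin : a = Sh r t * Real.cos (θ + φ) := by
    rw [Real.cos_add]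
    linear_combination Real.cos θ * hA - Real.sin θ * hB - a * hct
  have hbfin : b = Sh r t * Real.sin (θ + φ) := by
    rw [Real.sin_add]
    linear_combination Real.sin θ * hA + Real.cos θ * hB - b * hct
  refine Prod.ext ?_ (Prod.ext ?_ ?_)
  · simp only [pol, Prod.fst_add, Prod.smul_fst, smul_eq_mul]
    rw [e1, hafin, hbfin]
    ring
  · simp only [pol, Prod.fst_add, Prod.snd_add, Prod.smul_fst, Prod.smul_snd, smul_eq_mul]
    rw [e2, hafin, hbfin]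
    ring
  · simp only [pol, Prod.snd_add, Prod.smul_snd, smul_eq_mul]
    rw [e3, hafin, hbfin]
    ring

end H637F
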