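import Pool.Agent.H637R3.DF.Stm

namespace H637F

/-- the layout recursion -/
private def LAYABS_lay {P : Type} (M : ℕ → ℕ)
    (hpar : ∀ k, 1 ≤ k → par M k < k) (g : ℕ → P → P → P) (p q : P) : ℕ → P
  | 0 => p
  | 1 => q
  | (k + 2) => g (k + 1) (LAYABS_lay M hpar g p q (par M (k + 1)))
      (LAYABS_lay M hpar g p q (k + 1))
termination_by n => n
decreasing_by
  · have := hpar (k + 1) (by omega)
    omega
  · omega

private theorem LAYABS_ex {P : Type} (M : ℕ → ℕ)
    (hpar : ∀ k, 1 ≤ k → par M k < k) (g : ℕ → P → P → P) (p q : P) :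
    ∃ X : ℕ → P, X 0 = p ∧ X 1 = q ∧ ∀ k, 1 ≤ k → X (k + 1) = g k (X (par M k)) (X k) := by
  refine ⟨LAYABS_lay M hpar g p q, ?_, ?_, ?_⟩
  · rw [LAYABS_lay]
  · rw [LAYABS_lay]
  · intro k hk
    obtain ⟨k, rfl⟩ : ∃ k', k = k' + 1 := ⟨k - 1, by omega⟩
    rw [LAYABS_lay]

private theorem LAYABS_w0 {M : ℕ → ℕ} (hM : Good M) (n : ℕ) : w M n 0 = n + 1 := by
  rcases eq_or_ne n 0 with rfl | h0
  · simp [w, iot, hM.zero]
  · rcases eq_or_ne n 1 with rfl | h1
    · simp [w, iot, inn]
    · by_cases h : M (par M n) = n
      · simp [w, iot, inn, h0, h1, h]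
      · simp [w, iot, inn, h0, h1, h]

private theorem LAYABS_wne {M : ℕ → ℕ} (hM : Good M) (h50 : ∀ n, 1 ≤ n → n + 50 ≤ M n)
    (hpar : ∀ k, 1 ≤ k → par M k < k) (n i : ℕ) (hi : 1 ≤ i) : w M n i ≠ n + 1 := by
  rcases eq_or_ne n 0 with rfl | h0
  · simp [w, iot, hM.zero]
    omega
  · have h2 := h50 n (by omega)
    have h3 := hpar n (by omega)
    unfold w
    split_ifs with h4
    · unfold inn
      split_ifs <;> omega
    · omega

private theorem LAYABS_wlast {M : ℕ → ℕ} (hMs : StrictMono M) (n : ℕ) :
    w M n (deg M n - 1) = M (n + 1) := by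
  have h1 : M n < M (n + 1) := hMs (Nat.lt_succ_self n)
  have h2 : ¬ (iot M n + (M (n + 1) - M n + 1) - 1 < iot M n) := by omega
  unfold w deg
  rw [if_neg h2]
  omega

theorem LAYABS (hMGR : S_MGR) (hPAR : S_PAR) (hFLOA : S_FLOA) : S_LAYABS := by
  intro P M T D hM hrot hTD hsym hex hclose p q hD0
  classical
  obtain ⟨hMs, hM1, hM50⟩ := hMGR M hM
  have hpar := hPAR M hM
  have hparlt : ∀ k, 1 ≤ k → par M k < k := fun k hk => (hpar k hk).2.2.1
  let g : ℕ → P → P → P := fun k a b =>
    if h : D (par M k) a k b then (hex _ _ _ _ (k + 1) h).choose else p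
  have hg : ∀ k a b, D (par M k) a k b → T (par M k) a k b (k + 1) (g k a b) := by
    intro k a b h
    simp only [g, dif_pos h]
    exact (hex _ _ _ _ (k + 1) h).choose_spec
  obtain ⟨X, hX0, hX1, hXs⟩ := LAYABS_ex M hparlt g p q
  -- all faces of block `n`
  have main : ∀ n, (∀ j, M n ≤ j → j < M (n + 1) → T n (X n) j (X j) (j + 1) (X (j + 1))) ∧
      T n (X n) (M (n + 1)) (X (M (n + 1))) (n + 1) (X (n + 1)) := by
    intro n
    induction n using Nat.strong_induction_on with
    | _ n ih =>
      have hstart : D n (X n) (M n) (X (M n)) := by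
        rcases Nat.eq_zero_or_pos n with rfl | hn
        · rw [hM.zero, hX0, hX1]
          exact hD0
        · have h1 := (ih (n - 1) (by omega)).2
          rw [show n - 1 + 1 = n by omega] at h1
          exact hsym _ _ _ _ (hTD _ _ _ _ _ _ (hrot _ _ _ _ _ _ h1))
      have hstep : ∀ j, M n ≤ j → j < M (n + 1) → D n (X n) j (X j) →
          T n (X n) j (X j) (j + 1) (X (j + 1)) := by
        intro j h1 h2 h3
        have hj : 1 ≤ j := by
          have := hM1 n
          omega
        have h4 : n = par M j := (hpar j hj).2.2.2 n h1 h2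
        rw [hXs j hj, ← h4]
        have h5 := hg j (X n) (X j)
        rw [← h4] at h5
        exact h5 h3
      have hDj : ∀ d, M n + d ≤ M (n + 1) → D n (X n) (M n + d) (X (M n + d)) := by
        intro d
        induction d with
        | zero => intro _; exact hstart
        | succ d ihd =>
          intro hd
          have h1 := hstep (M n + d) (by omega) (by omega) (ihd (by omega))
          exact hsym _ _ _ _ (hTD _ _ _ _ _ _ (hrot _ _ _ _ _ _ (hrot _ _ _ _ _ _ h1)))
      have hfirst : ∀ j, M n ≤ j → j < M (n + 1) → T n (X n) j (X j) (j + 1) (X (j + 1)) := by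
        intro j h1 h2
        have h3 := hDj (j - M n) (by omega)
        rw [show M n + (j - M n) = j by omega] at h3
        exact hstep j h1 h2 h3
      refine ⟨hfirst, ?_⟩
      have hcl := hclose n (X n) (fun i => X (w M n i)) ?_
      · simp only [LAYABS_w0 hM, LAYABS_wlast hMs] at hcl
        exact hcl
      · intro i hi
        have h1 := (hFLOA M hM n).2 i (by omega)
        rw [Nat.mod_eq_of_lt hi] at h1
        have hwne := LAYABS_wne hM hM50 hparlt n (i + 1) (by omega)
        obtain ⟨x, y, z, hB, hf⟩ := h1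
        -- the basic face is known
        have key : T x (X x) y (X y) z (X z) := by
          obtain ⟨m, hm⟩ := hB
          rcases hm with ⟨j, hj1, hj2, hj3⟩ | hj3
          · simp only [Prod.mk.injEq] at hj3 hf
            obtain ⟨rfl, rfl, rfl⟩ := hj3
            rcases lt_trichotomy x n with h | h | h
            · exact (ih x h).1 y hj1 hj2
            · subst h
              exact hfirst y hj1 hj2
            · exfalso
              have := hM1 x
              rcases hf with hf | hf | hf <;> omega
          · simp only [Prod.mk.injEq] at hj3 hf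
            obtain ⟨rfl, rfl, rfl⟩ := hj3
            rcases lt_trichotomy x n with h | h | h
            · exact (ih x h).2
            · exfalso
              subst h
              have := hM1 (x + 1)
              rcases hf with hf | hf | hf
              · exact hwne hf.2.2
              · omega
              · omega
            · exfalso
              have := hM1 (x + 1)
              rcases hf with hf | hf | hf <;> omega
        simp only [Prod.mk.injEq] at hf
        rcases hf with hf | hf | hf
        · obtain ⟨e1, e2, e3⟩ := hf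
          simp only [e2, e3]
          rw [e1]
          exact key
        · obtain ⟨e1, e2, e3⟩ := hf
          simp only [e2, e3]
          rw [e1]
          exact hrot _ _ _ _ _ _ key
        · obtain ⟨e1, e2, e3⟩ := hf
          simp only [e2, e3]
          rw [e1]
          exact hrot _ _ _ _ _ _ (hrot _ _ _ _ _ _ key)
  refine ⟨X, hX0, hX1, ?_⟩
  intro x y z hf
  obtain ⟨x', y', z', hB, hf⟩ := hf
  have key : T x' (X x') y' (X y') z' (X z') := by
    obtain ⟨m, hm⟩ := hB
    rcases hm with ⟨j, hj1, hj2, hj3⟩ | hj3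
    · simp only [Prod.mk.injEq] at hj3
      obtain ⟨rfl, rfl, rfl⟩ := hj3
      exact (main x').1 y' hj1 hj2
    · simp only [Prod.mk.injEq] at hj3
      obtain ⟨rfl, rfl, rfl⟩ := hj3
      exact (main x').2
  simp only [Prod.mk.injEq] at hf
  rcases hf with ⟨rfl, rfl, rfl⟩ | ⟨rfl, rfl, rfl⟩ | ⟨rfl, rfl, rfl⟩
  · exact key
  · exact hrot _ _ _ _ _ _ key
  · exact hrot _ _ _ _ _ _ (hrot _ _ _ _ _ _ key)

end H637F
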