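import Pool.Agent.H637R3.DF.Stm

set_option autoImplicit false

namespace H637F

theorem LAYE_rot (x y z : ℂ) (a b c : ℝ) (h : ET x y z a b c) : ET y z x b c a := by
  obtain ⟨h1, h2, h3, h4⟩ := h
  refine ⟨h2, ?_, ?_, ?_⟩
  · rw [norm_sub_rev, h3, add_comm]
  · rw [norm_sub_rev, h1, add_comm]
  · have e : ((starRingEnd ℂ) (z - y) * (x - y)).im = ((starRingEnd ℂ) (y - x) * (z - x)).im := by
      simp only [Complex.mul_im, Complex.conj_re, Complex.conj_im, Complex.sub_re, Complex.sub_im]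
      ring
    rw [e]
    exact h4

theorem LAYE (hLAYABS : S_LAYABS) (hCLOSEE : S_CLOSEE) (hLAWE1 : S_LAWE1) (hFLOA : S_FLOA) :
    S_LAYE := by
  intro M r hM hr htot
  have key := hLAYABS ℂ M (fun x p y q z s => ET p q s (r x) (r y) (r z))
    (fun x p y q => ‖p - q‖ = r x + r y) hM
    (fun x p y q z s h => LAYE_rot _ _ _ _ _ _ h)
    (fun x p y q z s h => h.1)
    (fun x p y q h => by
      show ‖q - p‖ = r y + r x
      rw [norm_sub_rev, add_comm]
      exact h)
    (fun x p y q z h => by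
      have h1 : ‖q - p‖ = r x + r y := by
        rw [norm_sub_rev]
        exact h
      have h2 : q = p + ((r x + r y : ℝ) : ℂ) * Complex.exp ((Complex.arg (q - p) : ℝ) *
          Complex.I) := by
        rw [← h1, Complex.norm_mul_exp_arg_mul_I]
        ring
      have h3 := (hLAWE1 p (r x) (r y) (r z) (Complex.arg (q - p)) (hr x) (hr y) (hr z)).2.2
      rw [← h2] at h3
      exact ⟨_, h3⟩)
    (fun n p s h => by
      have hdeg := (hFLOA M hM n).1
      have hd : deg M n - 1 + 1 = deg M n := by omega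
      refine hCLOSEE p s (fun i => r (w M n i)) (r n) (deg M n - 1) (hr n)
        (fun i _ => hr _) (by omega) (fun i hi => h i (by omega)) ?_
      obtain ⟨k, hk⟩ := htot n
      refine ⟨k, ?_⟩
      rw [← hk]
      unfold tot
      conv_rhs => rw [← hd]
      rw [Finset.sum_range_succ]
      congr 1
      · refine Finset.sum_congr rfl fun i hi => ?_
        have hi' := Finset.mem_range.1 hi
        rw [Nat.mod_eq_of_lt (by omega)]
      · rw [Nat.mod_self])
    (-1) (-1 + ((r 0 + r 1 : ℝ) : ℂ)) (by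
      show ‖(-1 : ℂ) - (-1 + ((r 0 + r 1 : ℝ) : ℂ))‖ = r 0 + r 1
      have : (-1 : ℂ) - (-1 + ((r 0 + r 1 : ℝ) : ℂ)) = -((r 0 + r 1 : ℝ) : ℂ) := by ring
      rw [this, norm_neg, Complex.norm_real, Real.norm_eq_abs, abs_of_pos (add_pos (hr 0) (hr 1))])
  obtain ⟨X, hX0, hX1, hX⟩ := key
  exact ⟨X, hX0, hX1, hX⟩

end H637F
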