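import Pool.Agent.H637R3.DF.Stm

set_option autoImplicit false

namespace H637F

open Real

theorem LAYH_ms (X Y : V3) : mink X Y = mink Y X := by
  unfold mink
  ring

theorem LAYH_cs (a b : ℝ) : Ch a b = Ch b a := by
  unfold Ch
  congr 1 <;> ring

theorem LAYH_cyc (X Y Z : V3) : det3 Y Z X = det3 X Y Z := by
  unfold det3
  ring

theorem LAYH (hLAYABS : S_LAYABS) (hCLOSEH : S_CLOSEH) (hLAWH1 : S_LAWH1) (hFRAME : S_FRAME)
    (hFLOA : S_FLOA) : S_LAYH := by
  intro M b hM hb ht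
  have hb1 : ∀ n, b n < 1 := fun n => lt_of_le_of_lt (hb n).2 (by norm_num)
  have hdeg : ∀ n, 51 ≤ deg M n := fun n => (hFLOA M hM n).1
  obtain ⟨X, hX0, hX1, hX⟩ := hLAYABS V3 M
    (fun x p y q z s => Hyp p ∧ Hyp q ∧ Hyp s ∧ HT p q s (b x) (b y) (b z))
    (fun x p y q => Hyp p ∧ Hyp q ∧ mink p q = -Ch (b x) (b y)) hM
    (by
      rintro x p y q z s ⟨h1, h2, h3, h4, h5, h6, h7⟩
      refine ⟨h2, h3, h1, h5, ?_, ?_, ?_⟩
      · rw [LAYH_ms, LAYH_cs]
        exact h6
      · rw [LAYH_ms, LAYH_cs]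
        exact h4
      · rw [LAYH_cyc]
        exact h7)
    (by
      rintro x p y q z s ⟨h1, h2, h3, h4, h5, h6, h7⟩
      exact ⟨h1, h2, h4⟩)
    (by
      rintro x p y q ⟨h1, h2, h3⟩
      refine ⟨h2, h1, ?_⟩
      rw [LAYH_ms, LAYH_cs]
      exact h3)
    (by
      rintro x p y q z ⟨h1, h2, h3⟩
      obtain ⟨E, F, hE, hq⟩ := hFRAME p q (b x) (b y) h1 h2 (hb x).1 (hb1 x) (hb y).1 (hb1 y) h3
      obtain ⟨a1, a2, a3, a4⟩ := hLAWH1 p E F (b x) (b y) (b z) 0 hE h1.2 (hb x).1 (hb1 x)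
        (hb y).1 (hb1 y) (hb z).1 (hb1 z)
      obtain ⟨c1, c2, c3, c4⟩ := hLAWH1 p E F (b x) (b z) (b z) (0 + ha (b x) (b y) (b z)) hE
        h1.2 (hb x).1 (hb1 x) (hb z).1 (hb1 z) (hb z).1 (hb1 z)
      rw [← hq] at a4
      exact ⟨_, h1, h2, c1, a4⟩)
    (by
      intro n p s hT
      have hd := hdeg n
      have hall : ∀ i, i ≤ deg M n - 1 → Hyp (s i) := by
        intro i hi
        by_cases h0 : i + 1 < deg M n
        · exact (hT i h0).2.1
        · have := (hT (i - 1) (by omega)).2.2.1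
          have e : i - 1 + 1 = i := by omega
          rw [e] at this
          exact this
      have hp : Hyp p := (hT 0 (by omega)).1
      refine ⟨hp, hall _ le_rfl, hall 0 (by omega), ?_⟩
      apply hCLOSEH p s (fun i => b (w M n i)) (b n) (deg M n - 1) hp (hb n).1 (hb1 n)
        (fun i hi => ⟨hall i hi, (hb _).1, hb1 _⟩) (by omega)
        (fun i hi => (hT i (by omega)).2.2.2)
      refine ⟨1, ?_⟩
      have h1 := ht n
      unfold tot at h1
      obtain ⟨d, hd'⟩ : ∃ d, deg M n = d + 1 := ⟨deg M n - 1, by omega⟩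
      rw [hd', Finset.sum_range_succ, Nat.mod_self] at h1
      rw [hd', Nat.add_sub_cancel]
      rw [Int.cast_one, mul_one, ← h1]
      congr 1
      apply Finset.sum_congr rfl
      intro i hi
      rw [Finset.mem_range] at hi
      rw [Nat.mod_eq_of_lt (by omega)])
    OO (Sh (b 0) (b 1), 0, Ch (b 0) (b 1))
    (by
      have h0 := (hb 0).1
      have h1 := (hb 1).1
      have h2 : 0 < Ch (b 0) (b 1) := by
        unfold Ch
        positivity
      refine ⟨⟨by norm_num [mink, OO], by norm_num [OO]⟩, ⟨?_, h2⟩, by norm_num [mink, OO]⟩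
      unfold mink Sh Ch
      field_simp
      ring)
  refine ⟨X, hM, fun n => (hb n).1, fun n => (hb n).2, ht, hX0, fun n => ?_, fun x y z h => ?_⟩
  · exact (hX _ _ _ ((hFLOA M hM n).2 0 (by have := hdeg n; omega))).1
  · exact (hX x y z h).2.2.2

end H637F
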