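import Pool.Agent.H637R3.DF.Stm

namespace H637F

open Real

/-- determinant of two points in polar coordinates -/
theorem LOC_det (X E F : V3) (hf : Frame X E F) (C S C' S' a b : ℝ) :
    det3 X (pol X E F C S a) (pol X E F C' S' b) = S * S' * Real.sin (b - a) := by
  have h := hf.2.2.2.2.2.2
  rw [Real.sin_sub]
  unfold det3 pol at *
  simp only [Prod.smul_fst, Prod.smul_snd, Prod.fst_add, Prod.snd_add, smul_eq_mul] at *
  linear_combination (S * S' * (Real.sin b * Real.cos a - Real.cos b * Real.sin a)) * h

theorem LOC_cyc (X Y Z : V3) : det3 X Y Z = det3 Y Z X := by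
  unfold det3; ring

theorem LOC_Sh {a b : ℝ} (ha : 0 < a) (ha' : a ≤ 1 / 8) (hb : 0 < b) (hb' : b ≤ 1 / 8) :
    0 < Sh a b := by
  unfold Sh
  have h1 : a * b < 1 := by nlinarith
  have h2 : a ^ 2 * b ^ 2 < 1 := by
    have h3 : 0 < a * b := mul_pos ha hb
    nlinarith
  apply div_pos (by linarith) (by positivity)

/-- the angles are positive and small -/
theorem LOC_core (hPOLN : S_POLN) (hHAB : S_HAB) {M : ℕ → ℕ} {b : ℕ → ℝ} {X : ℕ → V3}
    (h : HL M b X) (n i j : ℕ) (hij : i < j) (hj : j < deg M n) (hsm : j ≤ i + 4) :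
    0 < det3 (X n) (X (w M n i)) (X (w M n j)) := by
  obtain ⟨E, F, θ, hf, -, -, hth, hX⟩ := hPOLN M b X h n
  rw [hX i (by omega), hX j hj, LOC_det (X n) E F hf]
  have hang : ∀ k, k < deg M n → 1.96 * b n ≤ θ (k + 1) - θ k ∧ θ (k + 1) - θ k ≤ 2.02 * b n := by
    intro k hk
    rw [hth k hk, add_sub_cancel_left]
    exact hHAB _ _ _ (h.bpos _) (h.ble _) (h.bpos _) (h.ble _) (h.bpos _) (h.ble _)
  have hsum : ∀ m, i + m < deg M n + 1 → 1.96 * b n * m ≤ θ (i + m) - θ i ∧
      θ (i + m) - θ i ≤ 2.02 * b n * m := by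
    intro m
    induction m with
    | zero => intro _; simp
    | succ m ih =>
      intro hm
      have h1 := ih (by omega)
      have h2 := hang (i + m) (by omega)
      have e : i + (m + 1) = i + m + 1 := by omega
      rw [e]
      push_cast
      constructor <;> linarith [h1.1, h1.2, h2.1, h2.2]
  have hb := h.bpos n
  have hb' := h.ble n
  obtain ⟨m, hm⟩ := Nat.exists_eq_add_of_lt hij
  have hs := hsum (m + 1) (by omega)
  have e : i + (m + 1) = j := by omega
  rw [e] at hs
  have hm1 : (1 : ℝ) ≤ ((m + 1 : ℕ) : ℝ) := by push_cast; linarith [(Nat.cast_nonneg m : (0:ℝ) ≤ m)]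
  have hm4 : ((m + 1 : ℕ) : ℝ) ≤ 4 := by
    have : m + 1 ≤ 4 := by omega
    exact_mod_cast this
  have h1 : 0 < θ j - θ i := by nlinarith
  have h2 : θ j - θ i < π := by nlinarith [Real.pi_gt_three]
  have hsin := Real.sin_pos_of_pos_of_lt_pi h1 h2
  have hS1 := LOC_Sh hb hb' (h.bpos (w M n i)) (h.ble (w M n i))
  have hS2 := LOC_Sh hb hb' (h.bpos (w M n j)) (h.ble (w M n j))
  positivity

theorem LOC (hPOLN : S_POLN) (hHAB : S_HAB) (hMGR : S_MGR) (hPAR : S_PAR) : S_LOC := by
  intro M b X h
  have hM := hMGR M h.good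
  have hstep := h.good.step
  refine ⟨?_, ?_, ?_⟩
  · intro k hk
    have hp := hPAR M h.good k (by omega)
    have hdeg : deg M k = iot M k + (M (k + 1) - M k + 1) := rfl
    have hst := hstep k
    have hiot : iot M k = if M (par M k) = k then 4 else 3 := by
      unfold iot
      rw [if_neg (by omega), if_neg (by omega)]
    have h0 : w M k 0 = k + 1 := by
      unfold w
      rw [if_pos (by rw [hiot]; split_ifs <;> omega)]
      unfold inn
      rw [if_neg (by omega)]
      split_ifs <;> first | rfl | omega | simp_all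
    have hl : w M k (iot M k - 1) = k - 1 := by
      unfold w
      rw [if_pos (by rw [hiot]; split_ifs <;> omega)]
      unfold inn
      rw [if_neg (by omega), hiot]
      split_ifs <;> first | rfl | omega | simp_all
    have hc := LOC_core hPOLN hHAB h k 0 (iot M k - 1) (by rw [hiot]; split_ifs <;> omega)
      (by rw [hdeg, hiot]; split_ifs <;> omega) (by rw [hiot]; split_ifs <;> omega)
    rw [h0, hl] at hc
    rwa [LOC_cyc]
  · intro n hn
    have hp := hPAR M h.good (n + 1) (by omega)
    have hdeg : deg M (n + 1) = iot M (n + 1) + (M (n + 1 + 1) - M (n + 1) + 1) := rfl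
    have hst := hstep (n + 1)
    have hiot : iot M (n + 1) = if M (par M (n + 1)) = n + 1 then 4 else 3 := by
      unfold iot
      rw [if_neg (by omega), if_neg (by omega)]
    have h0 : w M (n + 1) 0 = n + 2 := by
      unfold w
      rw [if_pos (by rw [hiot]; split_ifs <;> omega)]
      unfold inn
      rw [if_neg (by omega)]
      split_ifs <;> first | rfl | omega | simp_all
    have hl : w M (n + 1) (iot M (n + 1)) = M (n + 1) := by
      unfold w
      rw [if_neg (by omega)]
      simp
    have hc := LOC_core hPOLN hHAB h (n + 1) 0 (iot M (n + 1)) (by rw [hiot]; split_ifs <;> omega)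
      (by rw [hdeg, hiot]; split_ifs <;> omega) (by rw [hiot]; split_ifs <;> omega)
    rw [h0, hl] at hc
    rwa [LOC_cyc]
  · intro n hn
    have hdeg : deg M n = iot M n + (M (n + 1) - M n + 1) := rfl
    have hst := hstep n
    have hiot : 2 ≤ iot M n ∧ iot M n ≤ 4 := by
      unfold iot
      split_ifs <;> omega
    have h0 : w M n 0 = n + 1 := by
      unfold w
      rw [if_pos (by omega)]
      unfold inn
      split_ifs <;> simp_all
    have hl : w M n (iot M n) = M n := by
      unfold w
      rw [if_neg (by omega)]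
      simp
    have hc := LOC_core hPOLN hHAB h n 0 (iot M n) (by omega) (by rw [hdeg]; omega) (by omega)
    rwa [h0, hl] at hc

end H637F
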