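import Pool.Agent.H637R3.DF.Stm

namespace H637F

open Real

lemma LOSS_det {V E F : V3} (hF : Frame V E F) (C S α C' S' α' : ℝ) :
    det3 V (pol V E F C S α) (pol V E F C' S' α') = S * S' * Real.sin (α' - α) := by
  have h := hF.2.2.2.2.2.2
  rw [Real.sin_sub]
  simp only [det3, pol, Prod.fst_add, Prod.snd_add, Prod.smul_fst, Prod.smul_snd, smul_eq_mul] at h ⊢
  linear_combination (S * S' * (Real.cos α * Real.sin α' - Real.sin α * Real.cos α')) * h

lemma LOSS_mink {V E F : V3} (hF : Frame V E F) (C S α : ℝ) :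
    mink V (pol V E F C S α) = -C := by
  obtain ⟨h1, -, -, h2, h3, -, -⟩ := hF
  simp only [mink, pol, Prod.fst_add, Prod.snd_add, Prod.smul_fst, Prod.smul_snd, smul_eq_mul]
    at h1 h2 h3 ⊢
  linear_combination C * h1 + S * Real.cos α * h2 + S * Real.sin α * h3

lemma LOSS_cyc (X Y Z : V3) : det3 X Y Z = det3 Y Z X := by
  unfold det3
  ring

lemma LOSS_mink_comm (X Y : V3) : mink X Y = mink Y X := by
  unfold mink
  ring

lemma LOSS_Hyp_OO : Hyp OO := by
  unfold Hyp mink OO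
  norm_num

lemma LOSS_Sh_pos {a b : ℝ} (ha : 0 < a) (ha' : a ≤ 1 / 8) (hb : 0 < b) (hb' : b ≤ 1 / 8) :
    0 < Sh a b := by
  unfold Sh
  have h1 : a * b < 1 := by nlinarith
  have h2 : 0 < a * b := mul_pos ha hb
  have h3 : a ^ 2 * b ^ 2 < 1 := by
    rw [← mul_pow]
    exact pow_lt_one₀ h2.le h1 two_ne_zero
  exact div_pos (by linarith) (by positivity)

lemma LOSS_Ch_eq {a b : ℝ} (ha : 0 < a) (hb : 0 < b) : Ch a b = √(1 + Sh a b ^ 2) := by
  have h1 : 0 ≤ Ch a b := by
    unfold Ch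
    positivity
  rw [eq_comm, Real.sqrt_eq_iff_mul_self_eq (by positivity) h1]
  unfold Ch Sh
  field_simp
  ring

lemma LOSS_pol_two_pi (V E F : V3) (C S α : ℝ) :
    pol V E F C S (α + 2 * π) = pol V E F C S α := by
  unfold pol
  rw [Real.cos_add_two_pi, Real.sin_add_two_pi]

lemma LOSS_iot {M : ℕ → ℕ} {n : ℕ} (hn : 1 ≤ n) : 2 ≤ iot M n ∧ iot M n ≤ 4 := by
  unfold iot
  rw [if_neg (by omega)]
  split_ifs <;> omega

lemma LOSS_w0 {M : ℕ → ℕ} {n : ℕ} (hn : 1 ≤ n) : w M n 0 = n + 1 := by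
  have h := (LOSS_iot (M := M) hn).1
  unfold w
  rw [if_pos (by omega)]
  unfold inn
  by_cases h1 : n = 1
  · rw [if_pos h1, if_pos rfl, h1]
  · rw [if_neg h1]
    split_ifs <;> first | rfl | omega

lemma LOSS_wi (M : ℕ → ℕ) (n i : ℕ) : w M n (iot M n + i) = M n + i := by
  unfold w
  rw [if_neg (by omega)]
  omega

/-- growth of the angles -/
lemma LOSS_grow {θ : ℕ → ℝ} {D : ℕ} {c C : ℝ} (h1 : ∀ i, i < D → c ≤ θ (i + 1) - θ i)
    (h2 : ∀ i, i < D → θ (i + 1) - θ i ≤ C) (i k : ℕ) (hk : i + k ≤ D) :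
    c * k ≤ θ (i + k) - θ i ∧ θ (i + k) - θ i ≤ C * k := by
  induction k with
  | zero => simp
  | succ k ih =>
    obtain ⟨ih1, ih2⟩ := ih (by omega)
    have a1 := h1 (i + k) (by omega)
    have a2 := h2 (i + k) (by omega)
    rw [← add_assoc]
    push_cast
    constructor <;> linarith

theorem LOSS (hLT : S_LT) (hPOLN : S_POLN) (hPOLANY : S_POLANY) (hARC : S_ARC) (hDISJ : S_DISJ)
    (hHAB : S_HAB) (hMGR : S_MGR) : S_LOSS := by
  intro M b X hHL n J hn hJ hJM
  obtain ⟨E, F, θ, hF, hθ0, hθD, hθs, hX⟩ := hPOLN M b X hHL n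
  obtain ⟨hMmono, hMn, -⟩ := hMGR M hHL.good
  have hstep := hHL.good.step n
  have hbn := hHL.bpos n
  have hbn8 := hHL.ble n
  obtain ⟨hi2, hi4⟩ := LOSS_iot (M := M) hn
  set V := X n with hV
  set β := b n with hβ
  set ι := iot M n with hι
  set D := deg M n with hD
  have hDeq : D = ι + (M (n + 1) - M n + 1) := rfl
  have hVt : 0 < V.2.2 := (hHL.hyp n).2
  -- angles
  have hab : ∀ i, i < D → 1.96 * β ≤ θ (i + 1) - θ i ∧ θ (i + 1) - θ i ≤ 2.02 * β := by
    intro i hi
    have h1 := hHAB β (b (w M n i)) (b (w M n ((i + 1) % D))) hbn hbn8 (hHL.bpos _) (hHL.ble _)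
      (hHL.bpos _) (hHL.ble _)
    rw [hθs i hi]
    constructor <;> linarith [h1.1, h1.2]
  have hgr := fun i k hk => LOSS_grow (θ := θ) (D := D) (fun i hi => (hab i hi).1)
    (fun i hi => (hab i hi).2) i k hk
  -- polar coordinates of the origin
  obtain ⟨S, th, hS0, hth0, hth2, hO⟩ := hPOLANY V E F OO hF hVt LOSS_Hyp_OO
  have hC : √(1 + S ^ 2) = V.2.2 := by
    have h1 := LOSS_mink hF (√(1 + S ^ 2)) S th
    rw [← hO] at h1
    have h2 : mink V OO = -V.2.2 := by
      unfold mink OO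
      ring
    linarith
  have hS : S = √(V.2.2 ^ 2 - 1) := by
    rw [← hC, Real.sq_sqrt (by positivity), add_sub_cancel_left, Real.sqrt_sq hS0]
  rw [hC] at hO
  -- the angle of the origin
  have hSR := (hARC M b X hHL).1 n hn
  have hnM : n < M n := lt_of_lt_of_le (Nat.lt_succ_self n) (hMn n)
  have hX0 := hX 0 (by omega)
  rw [LOSS_w0 hn, hθ0] at hX0
  have hXι := hX ι (by omega)
  have hwι : w M n ι = M n := by
    have := LOSS_wi M n 0
    rwa [add_zero, add_zero] at this
  rw [hwι] at hXι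
  have hsin1 : 0 < Sh β (b (n + 1)) * S * Real.sin (th - 0) := by
    have h1 := hSR n le_rfl hnM.le
    unfold nx at h1
    rw [if_pos hnM, hX0, hO, LOSS_det hF] at h1
    exact h1
  have hsin2 : 0 < S * Sh β (b (M n)) * Real.sin (θ ι - th) := by
    have h1 := hSR (M n) hnM.le le_rfl
    unfold nx at h1
    rw [if_neg (lt_irrefl _), LOSS_cyc, hXι, hO, LOSS_det hF] at h1
    exact h1
  have hSh1 := LOSS_Sh_pos hbn hbn8 (hHL.bpos (n + 1)) (hHL.ble (n + 1))
  have hSpos : 0 < S := by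
    rcases hS0.lt_or_eq with h | h
    · exact h
    · rw [← h] at hsin1
      simp at hsin1
  have hsin1' : 0 < Real.sin th := by
    rw [sub_zero] at hsin1
    exact pos_of_mul_pos_right hsin1 (mul_pos hSh1 hSpos).le
  have hsin2' : 0 < Real.sin (θ ι - th) :=
    pos_of_mul_pos_right hsin2 (mul_pos hSpos
      (LOSS_Sh_pos hbn hbn8 (hHL.bpos (M n)) (hHL.ble (M n)))).le
  have hpi : (3.14 : ℝ) < π := Real.pi_gt_d2
  have hth_pi : th < π := by
    by_contra hcon
    push Not at hcon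
    have h1 : Real.sin th ≤ 0 := by
      have h2 : 0 ≤ Real.sin (th - π) :=
        Real.sin_nonneg_of_nonneg_of_le_pi (by linarith) (by linarith)
      rw [Real.sin_sub_pi] at h2
      linarith
    linarith
  have hth_pos : 0 < th := by
    rcases hth0.lt_or_eq with h | h
    · exact h
    · rw [← h, Real.sin_zero] at hsin1'
      exact absurd hsin1' (lt_irrefl _)
  have hι' := hgr 0 ι (by omega)
  rw [zero_add, hθ0, sub_zero] at hι'
  have hιR : (ι : ℝ) ≤ 4 := by exact_mod_cast hi4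
  have hι4 : θ ι ≤ 2.02 * β * 4 := le_trans hι'.2 (mul_le_mul_of_nonneg_left hιR (by positivity))
  have hthι : th < θ ι := by
    by_contra hcon
    push Not at hcon
    have h1 : Real.sin (θ ι - th) ≤ 0 := by
      have h2 : 0 ≤ Real.sin (th - θ ι) :=
        Real.sin_nonneg_of_nonneg_of_le_pi (by linarith) (by
          have : 0 ≤ θ ι := le_trans (by positivity) hι'.1
          linarith)
      have h3 : Real.sin (θ ι - th) = -Real.sin (th - θ ι) := by
        rw [← Real.sin_neg]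
        congr 1
        ring
      linarith
    linarith
  -- size of the angles
  have hD53 : 53 ≤ D := by omega
  have hD8 : 8 * J + 3 ≤ D := by omega
  have hJR : (1 : ℝ) ≤ J := by exact_mod_cast hJ
  have hsmall : (4 + (J : ℝ)) * 2.02 * β < π := by
    have h1 := (hgr 0 D (by omega)).1
    rw [zero_add, hθD, hθ0, sub_zero] at h1
    have h2 : (53 : ℝ) ≤ D := by exact_mod_cast hD53
    have h3 : 8 * (J : ℝ) + 3 ≤ D := by exact_mod_cast hD8
    have h4 : (4 + (J : ℝ)) * 2.02 < 0.98 * D := by linarith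
    have h5 := mul_lt_mul_of_pos_right h4 hbn
    linarith
  -- the bound for the discs
  have hcR : cR β ≤ V.2.2 := by
    have h1 := hDISJ M b X hHL 0 n (by omega)
    rw [hHL.x0] at h1
    have h2 : mink OO (X n) = -V.2.2 := by
      rw [hV]
      unfold mink OO
      ring
    rw [h2] at h1
    have h3 : cR β ≤ Ch (b 0) β := by
      unfold cR Ch
      have h0 := hHL.bpos 0
      have h08 := hHL.ble 0
      rw [div_le_div_iff₀ (by positivity) (by positivity)]
      have h4 : 0 ≤ (1 - b 0) * (1 - b 0 * β ^ 2) := by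
        have h5 : β ^ 2 ≤ 1 := by nlinarith
        have h6 : b 0 * β ^ 2 ≤ 1 := by nlinarith [sq_nonneg β]
        exact mul_nonneg (by linarith) (by linarith)
      nlinarith [mul_nonneg hbn.le h4]
    linarith
  have hβ1 : β < 1 := by linarith
  -- the two vertices
  have hR : X (M (n + 1) + 1 - J) = pol V E F (Ch β (b (M (n + 1) + 1 - J)))
      (Sh β (b (M (n + 1) + 1 - J))) (th - (th + (2 * π - θ (D - J)))) := by
    have h1 := hX (D - J) (by omega)
    have h2 : w M n (D - J) = M (n + 1) + 1 - J := by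
      have h3 : D - J = ι + (M (n + 1) - M n + 1 - J) := by omega
      rw [h3, hι, LOSS_wi]
      omega
    rw [h2] at h1
    have e := LOSS_pol_two_pi V E F (Ch β (b (M (n + 1) + 1 - J)))
      (Sh β (b (M (n + 1) + 1 - J))) (th - (th + (2 * π - θ (D - J))))
    rw [h1, ← e]
    congr 1
    ring
  have hL : X (M n + J) = pol V E F (Ch β (b (M n + J))) (Sh β (b (M n + J)))
      (th + (θ (ι + J) - th)) := by
    have h1 := hX (ι + J) (by omega)
    rw [hι, LOSS_wi] at h1
    rw [h1, hι]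
    congr 1
    ring
  have hgR := hgr (D - J) J (by omega)
  rw [Nat.sub_add_cancel (by omega), hθD] at hgR
  have hgL := hgr ι J (by omega)
  have hψR : 1.96 * β * J ≤ th + (2 * π - θ (D - J)) := by linarith [hgR.1]
  have hψR' : th + (2 * π - θ (D - J)) < π := by linarith [hgR.2]
  have hψL : 1.96 * β * J ≤ θ (ι + J) - th := by linarith [hgL.1]
  have hψL' : θ (ι + J) - th < π := by linarith [hgL.2]
  have hbJ : 0 < 1.96 * β * J := by positivity
  have hShR := LOSS_Sh_pos hbn hbn8 (hHL.bpos (M (n + 1) + 1 - J)) (hHL.ble (M (n + 1) + 1 - J))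
  have hShL := LOSS_Sh_pos hbn hbn8 (hHL.bpos (M n + J)) (hHL.ble (M n + J))
  have hbound : ∀ ψ : ℝ, 1.96 * β * J ≤ ψ → 4 * β / ψ ≤ 3 / J := by
    intro ψ hψ
    rw [div_le_div_iff₀ (by linarith) (by linarith)]
    nlinarith
  rw [hS] at hO
  refine ⟨?_, ?_, ?_⟩
  · rw [LOSS_cyc, hR]
    rw [hO, LOSS_det hF]
    have h1 : 0 < Real.sin (th - (th - (th + (2 * π - θ (D - J))))) :=
      Real.sin_pos_of_pos_of_lt_pi (by linarith) (by linarith)
    have h2 : 0 < √(V.2.2 ^ 2 - 1) := by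
      rw [← hS]
      exact hSpos
    positivity
  · rw [← LOSS_cyc, hL]
    rw [hO, LOSS_det hF]
    have h1 : 0 < Real.sin (th + (θ (ι + J) - th) - th) :=
      Real.sin_pos_of_pos_of_lt_pi (by linarith) (by linarith)
    have h2 : 0 < √(V.2.2 ^ 2 - 1) := by
      rw [← hS]
      exact hSpos
    positivity
  · intro φ hφ
    constructor
    · have h1 := (hLT V E F OO β _ _ th (th + (2 * π - θ (D - J))) φ hF hVt hbn hβ1 hcR hShR
        (LOSS_Ch_eq hbn (hHL.bpos _)) hO (by linarith) hψR'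
        (le_trans (hbound _ hψR) hφ)).1.2
      rw [hR]
      exact h1
    · have h1 := (hLT V E F OO β _ _ th (θ (ι + J) - th) φ hF hVt hbn hβ1 hcR hShL
        (LOSS_Ch_eq hbn (hHL.bpos _)) hO (by linarith) hψL'
        (le_trans (hbound _ hψL) hφ)).2.2
      rw [hL]
      exact h1

end H637F
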