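import Pool.Agent.H637R3.DF.Stm

/-! LT: trigonometry of directions (helper896). -/

set_option autoImplicit false

namespace H637F

open Real

/-- `e = exp (-d)` -/
theorem LT_e (β v h : ℝ) (hβ : 0 < β) (hβ1 : β < 1) (hv : cR β ≤ v) (hh : 0 < h)
    (hhv : h ^ 2 = v ^ 2 - 1) :
    ∃ e : ℝ, 0 < e ∧ e ≤ β ∧ 2 * v * e = e ^ 2 + 1 ∧ 2 * h * e = 1 - e ^ 2 := by
  have hv1 : 1 + β ^ 2 ≤ 2 * β * v := by
    unfold cR at hv
    rw [div_le_iff₀ (by positivity)] at hv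
    linarith
  have hv0 : 0 < v := by
    by_contra hc
    push Not at hc
    nlinarith [sq_nonneg β]
  have hehv : (v - h) * (v + h) = 1 := by nlinarith
  have he0 : 0 < v - h := by
    by_contra hc
    push Not at hc
    nlinarith
  have he1 : v - h ≤ 1 := by
    have h1 : v - h ≤ v + h := by linarith
    by_contra hc
    push Not at hc
    nlinarith
  have hve : 2 * v * (v - h) = (v - h) ^ 2 + 1 := by nlinarith
  have hhe : 2 * h * (v - h) = 1 - (v - h) ^ 2 := by nlinarith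
  refine ⟨v - h, he0, ?_, hve, hhe⟩
  generalize v - h = e at *
  have h1 : 0 ≤ (β * e - 1) * (e - β) := by
    have : e * (1 + β ^ 2) ≤ e * (2 * β * v) := by gcongr
    nlinarith
  have h2 : β * e < 1 := by nlinarith
  by_contra hc
  push Not at hc
  nlinarith

theorem LT_half (x y : ℝ) (hx : 0 ≤ x) (hxy : x ^ 2 + y ^ 2 = 1) :
    ∃ σ κ : ℝ, 0 ≤ σ ∧ 0 ≤ κ ∧ κ ≤ 1 ∧ x = 2 * σ * κ ∧ y = κ ^ 2 - σ ^ 2 ∧
      √(2 - 2 * y) = 2 * σ := by
  have hy1 : y ≤ 1 := by nlinarith [sq_nonneg x]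
  have hy2 : -1 ≤ y := by nlinarith [sq_nonneg x]
  have hσ2 : √((1 - y) / 2) ^ 2 = (1 - y) / 2 := Real.sq_sqrt (by linarith)
  have hκ2 : √((1 + y) / 2) ^ 2 = (1 + y) / 2 := Real.sq_sqrt (by linarith)
  have hσ0 : 0 ≤ √((1 - y) / 2) := Real.sqrt_nonneg _
  have hκ0 : 0 ≤ √((1 + y) / 2) := Real.sqrt_nonneg _
  refine ⟨_, _, hσ0, hκ0, ?_, ?_, ?_, ?_⟩
  · exact Real.sqrt_le_iff.2 ⟨by norm_num, by linarith⟩
  · have h1 : x ^ 2 = (2 * √((1 - y) / 2) * √((1 + y) / 2)) ^ 2 := by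
      rw [mul_pow, mul_pow, hσ2, hκ2]; linarith
    have h2 : 0 ≤ 2 * √((1 - y) / 2) * √((1 + y) / 2) := by positivity
    exact (pow_left_inj₀ hx h2 two_ne_zero).1 h1
  · rw [hσ2, hκ2]; ring
  · have h1 : 2 - 2 * y = (2 * √((1 - y) / 2)) ^ 2 := by rw [mul_pow, hσ2]; ring
    rw [h1, Real.sqrt_sq (by positivity)]

theorem LT_psi (ψ : ℝ) (hψ : 0 < ψ) (hψπ : ψ < π) :
    ∃ s c : ℝ, 0 < s ∧ 0 < c ∧ s ^ 2 + c ^ 2 = 1 ∧ sin ψ = 2 * s * c ∧ cos ψ = c ^ 2 - s ^ 2 ∧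
      ψ / 2 * c ≤ s := by
  have hsc : sin (ψ / 2) ^ 2 + cos (ψ / 2) ^ 2 = 1 := Real.sin_sq_add_cos_sq _
  have hs0 : 0 < sin (ψ / 2) := Real.sin_pos_of_pos_of_lt_pi (by linarith) (by linarith)
  have hc0 : 0 < cos (ψ / 2) := Real.cos_pos_of_mem_Ioo ⟨by linarith, by linarith⟩
  have e1 : 2 * (ψ / 2) = ψ := by ring
  refine ⟨sin (ψ / 2), cos (ψ / 2), hs0, hc0, hsc, ?_, ?_, ?_⟩
  · have := Real.sin_two_mul (ψ / 2)
    rwa [e1] at this
  · have := Real.cos_two_mul (ψ / 2)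
    rw [e1] at this
    rw [this]; linarith
  · have h1 := Real.lt_tan (by linarith : 0 < ψ / 2) (by linarith)
    rw [Real.tan_eq_sin_div_cos, lt_div_iff₀ hc0] at h1
    exact h1.le

theorem LT_fin (e β c s κ σ ψ : ℝ) (he : 0 < e) (heβ : e ≤ β) (hc : 0 < c)
    (hκ1 : κ ≤ 1) (hσ : 0 ≤ σ) (hψ : 0 < ψ) (h1 : ψ / 2 * c ≤ s)
    (h2 : 4 * β / ψ ≤ 2 * σ) : e * c * κ ≤ s * σ := by
  have h3 : 2 * β ≤ ψ * σ := by
    rw [div_le_iff₀ hψ] at h2
    linarith
  have h4 : ψ / 2 * c * σ ≤ s * σ := mul_le_mul_of_nonneg_right h1 hσ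
  have h5 : e * c * κ ≤ e * c := mul_le_of_le_one_right (by positivity) hκ1
  have h6 : e * c ≤ β * c := mul_le_mul_of_nonneg_right heβ hc.le
  have h7 : 2 * β * c ≤ ψ * σ * c := mul_le_mul_of_nonneg_right h3 hc.le
  linarith

theorem LT_key (β v h C S ψ x y : ℝ) (hβ : 0 < β) (hβ1 : β < 1) (hv : cR β ≤ v) (hh : 0 < h)
    (hhv : h ^ 2 = v ^ 2 - 1) (hS : 0 < S) (hC : S ≤ C) (hψ : 0 < ψ) (hψπ : ψ < π) (hx : 0 ≤ x)
    (hxy : x ^ 2 + y ^ 2 = 1) (hn : 4 * β / ψ ≤ √(2 - 2 * y)) :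
    0 ≤ (C * h - S * v * cos ψ) * x - S * sin ψ * y := by
  obtain ⟨e, he0, heβ, hve, hhe⟩ := LT_e β v h hβ hβ1 hv hh hhv
  obtain ⟨σ, κ, hσ0, hκ0, hκ1, hxσ, hy, hnσ⟩ := LT_half x y hx hxy
  obtain ⟨s, c, hs0, hc0, hsc, hsin, hcos, htan⟩ := LT_psi ψ hψ hψπ
  rw [hnσ] at hn
  have hmain := LT_fin e β c s κ σ ψ he0 heβ hc0 hκ1 hσ0 hψ htan hn
  have hQ : 0 ≤ (h - v * cos ψ) * x - sin ψ * y := by
    have h1 : e * ((h - v * cos ψ) * x - sin ψ * y) =
        2 * (s * σ - e * c * κ) * (s * κ + e * c * σ) := by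
      rw [hsin, hcos, hxσ, hy]
      have h2 : s ^ 2 = 1 - c ^ 2 := by linarith
      have h3 : e * ((h - v * (c ^ 2 - s ^ 2)) * (2 * σ * κ) - 2 * s * c * (κ ^ 2 - σ ^ 2)) =
        ((2 * h * e) - (2 * v * e) * (c ^ 2 - s ^ 2)) * (σ * κ)
          - 2 * e * s * c * (κ ^ 2 - σ ^ 2) := by ring
      rw [h3, hhe, hve]
      linear_combination (-σ * κ * (1 - e ^ 2)) * hsc
    have h2 : 0 ≤ e * ((h - v * cos ψ) * x - sin ψ * y) := by
      rw [h1]
      have : 0 ≤ s * σ - e * c * κ := by linarith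
      positivity
    exact nonneg_of_mul_nonneg_right h2 he0
  have h4 : (C * h - S * v * cos ψ) * x - S * sin ψ * y =
      (C - S) * h * x + S * ((h - v * cos ψ) * x - sin ψ * y) := by ring
  rw [h4]
  have h3 : 0 ≤ C - S := by linarith
  positivity

/-- the frame at `V` pointing to the origin -/
theorem LT_frame (V E F : V3) (h θ : ℝ) (hF : Frame V E F) (hh : 0 < h)
    (hhv : h ^ 2 = V.2.2 ^ 2 - 1) (hO : OO = pol V E F V.2.2 h θ) (C S a : ℝ) :
    h * (pol V E F C S (θ - a)).1 =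
      (C * h - S * V.2.2 * cos a) * V.1 - S * sin a * V.2.1 ∧
    h * (pol V E F C S (θ - a)).2.1 =
      (C * h - S * V.2.2 * cos a) * V.2.1 + S * sin a * V.1 := by
  obtain ⟨hVV, hEE, hFF, hVE, hVF, hEF, hd⟩ := hF
  have o1 := congrArg (fun X : V3 => X.1) hO
  have o2 := congrArg (fun X : V3 => X.2.1) hO
  have o3 := congrArg (fun X : V3 => X.2.2) hO
  have hpq : sin θ ^ 2 + cos θ ^ 2 = 1 := Real.sin_sq_add_cos_sq θ
  simp only [OO, pol, Prod.fst_add, Prod.snd_add, Prod.smul_fst, Prod.smul_snd, smul_eq_mul] at o1 o2 o3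
  simp only [pol, Prod.fst_add, Prod.snd_add, Prod.smul_fst, Prod.smul_snd, smul_eq_mul]
  rw [Real.cos_sub, Real.sin_sub]
  unfold mink at hVV hEE hFF hVE hVF hEF
  unfold det3 at hd
  obtain ⟨vx, vy, v⟩ := V
  obtain ⟨ex, ey, et⟩ := E
  obtain ⟨fx, fy, ft⟩ := F
  simp only at *
  generalize cos θ = p at *
  generalize sin θ = q at *
  generalize cos a = ca at *
  generalize sin a = sa at *
  -- the vector B
  have hBt : -q * et + p * ft = 0 := by
    have : -(-q * et + p * ft) = v * (-q * (vx * ex + vy * ey - v * et) +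
        p * (vx * fx + vy * fy - v * ft)) + h * (p * (-q) * (ex * ex + ey * ey - et * et) +
        q * p * (fx * fx + fy * fy - ft * ft) +
        (p ^ 2 - q ^ 2) * (ex * fx + ey * fy - et * ft)) := by
      linear_combination (-q * ex + p * fx) * o1 + (-q * ey + p * fy) * o2 -
        (-q * et + p * ft) * o3
    rw [hVE, hVF, hEE, hFF, hEF] at this
    linarith
  have hVB : vx * (-q * ex + p * fx) + vy * (-q * ey + p * fy) = 0 := by
    linear_combination (-q) * hVE + p * hVF + v * hBt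
  have hdB : vy * (-q * ex + p * fx) - vx * (-q * ey + p * fy) = h := by
    linear_combination (-vy * (-q * et + p * ft) + v * (-q * ey + p * fy)) * o1 +
      (vx * (-q * et + p * ft) - v * (-q * ex + p * fx)) * o2 +
      (-vx * (-q * ey + p * fy) + vy * (-q * ex + p * fx)) * o3 +
      h * (p ^ 2 + q ^ 2) * hd + h * hpq
  have hBx : h * (-q * ex + p * fx) = vy := by
    have h1 : h * (h * (-q * ex + p * fx)) = h * vy := by
      linear_combination (-q * ex + p * fx) * hhv - (-q * ex + p * fx) * hVV + vy * hdB +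
        vx * hVB
    exact mul_left_cancel₀ hh.ne' h1
  have hBy : h * (-q * ey + p * fy) = -vx := by
    have h1 : h * (h * (-q * ey + p * fy)) = h * (-vx) := by
      linear_combination (-q * ey + p * fy) * hhv - (-q * ey + p * fy) * hVV - vx * hdB +
        vy * hVB
    exact mul_left_cancel₀ hh.ne' h1
  constructor
  · linear_combination (-S * ca) * o1 - (S * sa) * hBx
  · linear_combination (-S * ca) * o2 - (S * sa) * hBy

theorem LT : S_LT := by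
  intro V E F _U β C S θ ψ φ hF hV0 hβ hβ1 hcR hS hC hO hψ hψπ hn
  have hVV : mink V V = -1 := hF.1
  have hcR1 : 1 < cR β := by
    unfold cR
    rw [lt_div_iff₀ (by positivity)]
    nlinarith [sq_nonneg (1 - β), mul_pos (sub_pos.2 hβ1) (sub_pos.2 hβ1)]
  have hv1 : 1 < V.2.2 := lt_of_lt_of_le hcR1 hcR
  have hpos : 0 < V.2.2 ^ 2 - 1 := by nlinarith
  set h : ℝ := √(V.2.2 ^ 2 - 1) with hh
  have hh0 : 0 < h := Real.sqrt_pos.2 hpos
  have hhv : h ^ 2 = V.2.2 ^ 2 - 1 := Real.sq_sqrt hpos.le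
  have hSC : S ≤ C := by
    rw [hC]
    apply Real.le_sqrt_of_sq_le
    linarith
  have hxy0 : V.1 ^ 2 + V.2.1 ^ 2 = h ^ 2 := by
    unfold mink at hVV
    rw [hhv]; linarith
  have hsψ : 0 < sin ψ := Real.sin_pos_of_pos_of_lt_pi hψ hψπ
  -- coordinates of the direction
  set x : ℝ := (V.1 * sin φ - V.2.1 * cos φ) / h with hx
  set y : ℝ := (V.1 * cos φ + V.2.1 * sin φ) / h with hy
  have hxy : x ^ 2 + y ^ 2 = 1 := by
    rw [hx, hy]
    have h1 := Real.sin_sq_add_cos_sq φ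
    field_simp
    rw [← hxy0]
    linear_combination (V.1 ^ 2 + V.2.1 ^ 2) * h1
  have hxh : h * x = V.1 * sin φ - V.2.1 * cos φ := by rw [hx]; field_simp
  have hyh : h * y = V.1 * cos φ + V.2.1 * sin φ := by rw [hy]; field_simp
  have hnorm : ‖Complex.exp (φ * Complex.I) - ed V‖ = √(2 - 2 * y) := by
    have hs : √(V.1 ^ 2 + V.2.1 ^ 2) = h := by rw [hxy0, Real.sqrt_sq hh0.le]
    unfold ed
    rw [hs, Complex.exp_mul_I, ← Complex.ofReal_cos, ← Complex.ofReal_sin]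
    have e1 : ((cos φ : ℝ) : ℂ) + ((sin φ : ℝ) : ℂ) * Complex.I -
        (((V.1 / h : ℝ) : ℂ) + ((V.2.1 / h : ℝ) : ℂ) * Complex.I) =
        ((cos φ - V.1 / h : ℝ) : ℂ) + ((sin φ - V.2.1 / h : ℝ) : ℂ) * Complex.I := by
      push_cast; ring
    rw [e1, Complex.norm_add_mul_I]
    congr 1
    have h1 := Real.sin_sq_add_cos_sq φ
    rw [hy]
    have h2 : (V.1 / h) ^ 2 + (V.2.1 / h) ^ 2 = 1 := by
      rw [div_pow, div_pow, ← add_div, hxy0, div_self (by positivity)]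
    have h3 : (V.1 * cos φ + V.2.1 * sin φ) / h = V.1 / h * cos φ + V.2.1 / h * sin φ := by
      ring
    rw [h3]
    linear_combination h1 + h2
  rw [hnorm] at hn
  have f1 := LT_frame V E F h θ hF hh0 hhv hO C S ψ
  have f2 := LT_frame V E F h θ hF hh0 hhv hO C S (-ψ)
  rw [sub_neg_eq_add, Real.cos_neg, Real.sin_neg] at f2
  obtain ⟨f1x, f1y⟩ := f1
  obtain ⟨f2x, f2y⟩ := f2
  have hdet : ∀ Y Z' : V3, det3 OO Y Z' = Y.1 * Z'.2.1 - Y.2.1 * Z'.1 := by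
    intro Y Z'
    simp [det3, OO]
  have hdd1 : (DD φ).1 = cos φ := rfl
  have hdd2 : (DD φ).2.1 = sin φ := rfl
  simp only [hdet, hdd1, hdd2]
  generalize (pol V E F C S (θ - ψ)) = U1 at *
  generalize (pol V E F C S (θ + ψ)) = U2 at *
  refine ⟨⟨?_, ?_⟩, ?_, ?_⟩
  · have h1 : h * (V.1 * U1.2.1 - V.2.1 * U1.1) = h * (S * sin ψ * h) := by
      linear_combination V.1 * f1y - V.2.1 * f1x + S * sin ψ * hxy0
    rw [mul_left_cancel₀ hh0.ne' h1]
    positivity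
  · intro h0
    rw [← hxh] at h0
    have hx0 : 0 ≤ x := nonneg_of_mul_nonneg_right h0 hh0
    have h1 : h * (U1.1 * sin φ - U1.2.1 * cos φ) =
        h * ((C * h - S * V.2.2 * cos ψ) * x - S * sin ψ * y) := by
      linear_combination sin φ * f1x - cos φ * f1y - (C * h - S * V.2.2 * cos ψ) * hxh +
        S * sin ψ * hyh
    rw [mul_left_cancel₀ hh0.ne' h1]
    exact LT_key β V.2.2 h C S ψ x y hβ hβ1 hcR hh0 hhv hS hSC hψ hψπ hx0 hxy hn
  · have h1 : h * (U2.1 * V.2.1 - U2.2.1 * V.1) = h * (S * sin ψ * h) := by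
      linear_combination V.2.1 * f2x - V.1 * f2y + S * sin ψ * hxy0
    rw [mul_left_cancel₀ hh0.ne' h1]
    positivity
  · intro h0
    have h0' : 0 ≤ h * (-x) := by
      rw [mul_neg, hxh]; linarith
    have hx0 : 0 ≤ -x := nonneg_of_mul_nonneg_right h0' hh0
    have h1 : h * (cos φ * U2.2.1 - sin φ * U2.1) =
        h * ((C * h - S * V.2.2 * cos ψ) * (-x) - S * sin ψ * y) := by
      linear_combination cos φ * f2y - sin φ * f2x + (C * h - S * V.2.2 * cos ψ) * hxh +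
        S * sin ψ * hyh
    rw [mul_left_cancel₀ hh0.ne' h1]
    exact LT_key β V.2.2 h C S ψ (-x) y hβ hβ1 hcR hh0 hhv hS hSC hψ hψπ hx0
      (by rw [neg_sq]; exact hxy) hn

end H637F
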