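import Pool.Agent.H637R3.DF.Stm

/-!
Project DF, task MEAS: the set of good directions has positive measure.
-/

namespace H637F

open Real MeasureTheory

lemma MEAS_det1 (X : V3) (φ : ℝ) :
    det3 OO X (DD φ) = X.1 * Real.sin φ - X.2.1 * Real.cos φ := by
  simp [det3, OO, DD]

lemma MEAS_det2 (Y : V3) (φ : ℝ) :
    det3 OO (DD φ) Y = Real.cos φ * Y.2.1 - Real.sin φ * Y.1 := by
  simp [det3, OO, DD]

lemma MEAS_closed (X : ℕ → V3) : IsClosed (EE X) := by
  have e : EE X = {φ : ℝ | 0 ≤ φ} ∩ ({φ : ℝ | φ ≤ 2 * π} ∩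
      ({φ : ℝ | 0 ≤ (X 1).1 * Real.sin φ - (X 1).2.1 * Real.cos φ} ∩
      ({φ : ℝ | 0 ≤ Real.cos φ * (X 2).2.1 - Real.sin φ * (X 2).1} ∩
      ⋂ n : ℕ, ⋂ _ : 1 ≤ n,
        {φ : ℝ | 3 / (JJ n : ℝ) ≤ ‖Complex.exp (φ * Complex.I) - ed (X n)‖}))) := by
    ext φ
    simp only [EE, Btw, MEAS_det1, MEAS_det2, Set.mem_inter_iff, Set.mem_iInter]
    constructor
    · rintro ⟨h1, h2, ⟨h3, h4⟩, h5⟩
      exact ⟨h1, h2, h3, h4, h5⟩
    · rintro ⟨h1, h2, h3, h4, h5⟩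
      exact ⟨h1, h2, ⟨h3, h4⟩, h5⟩
  rw [e]
  refine (isClosed_le continuous_const continuous_id).inter
    ((isClosed_le continuous_id continuous_const).inter
    ((isClosed_le continuous_const (by fun_prop)).inter
    ((isClosed_le continuous_const (by fun_prop)).inter
    (isClosed_iInter fun n => isClosed_iInter fun _ =>
      isClosed_le continuous_const ?_))))
  fun_prop

/-- distance of two points of the unit circle -/
lemma MEAS_dist {φ ψ : ℝ} (h : |φ - ψ| ≤ π) :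
    2 / π * |φ - ψ| ≤ ‖Complex.exp (φ * Complex.I) - Complex.exp (ψ * Complex.I)‖ := by
  have e : Complex.exp (φ * Complex.I) - Complex.exp (ψ * Complex.I) =
      Complex.exp (ψ * Complex.I) * (Complex.exp (Complex.I * ((φ - ψ : ℝ) : ℂ)) - 1) := by
    rw [mul_sub, mul_one, ← Complex.exp_add]
    congr 2
    push_cast
    ring
  rw [e, norm_mul, Complex.norm_exp_ofReal_mul_I, one_mul, Complex.norm_exp_I_mul_ofReal_sub_one,
    norm_mul, Real.norm_eq_abs, Real.norm_eq_abs, abs_two]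
  have h1 : |(φ - ψ) / 2| ≤ π / 2 := by
    rw [abs_div, abs_two]
    linarith
  have h2 := Real.mul_abs_le_abs_sin h1
  rw [abs_div, abs_two] at h2
  linarith

/-- a short interval contains few directions close to a given point -/
lemma MEAS_vol (a L δ : ℝ) (hL : L ≤ π) (z : ℂ) :
    volume (Set.Icc a (a + L) ∩ {φ : ℝ | ‖Complex.exp (φ * Complex.I) - z‖ < δ}) ≤
      ENNReal.ofReal (2 * (π * δ)) := by
  rcases Set.eq_empty_or_nonempty
    (Set.Icc a (a + L) ∩ {φ : ℝ | ‖Complex.exp (φ * Complex.I) - z‖ < δ}) with h | ⟨ψ, hψ1, hψ2⟩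
  · rw [h, measure_empty]
    exact zero_le
  · have hψ3 : ‖Complex.exp (ψ * Complex.I) - z‖ < δ := hψ2
    have hsub : Set.Icc a (a + L) ∩ {φ : ℝ | ‖Complex.exp (φ * Complex.I) - z‖ < δ} ⊆
        Metric.closedBall ψ (π * δ) := by
      rintro φ ⟨h1, h2⟩
      have h3 : ‖Complex.exp (φ * Complex.I) - z‖ < δ := h2
      have h4 : |φ - ψ| ≤ π := by
        rw [abs_le]
        constructor
        · linarith [h1.1, hψ1.2]
        · linarith [h1.2, hψ1.1]
      have h5 := MEAS_dist h4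
      have h6 : ‖Complex.exp (φ * Complex.I) - Complex.exp (ψ * Complex.I)‖ ≤
          ‖Complex.exp (φ * Complex.I) - z‖ + ‖Complex.exp (ψ * Complex.I) - z‖ := by
        have := norm_sub_le (Complex.exp (φ * Complex.I) - z) (Complex.exp (ψ * Complex.I) - z)
        rwa [sub_sub_sub_cancel_right] at this
      have h7 : 2 / π * |φ - ψ| ≤ 2 * δ := by linarith
      rw [Metric.mem_closedBall, Real.dist_eq]
      have h8 : |φ - ψ| = π / 2 * (2 / π * |φ - ψ|) := by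
        field_simp
      rw [h8]
      calc π / 2 * (2 / π * |φ - ψ|) ≤ π / 2 * (2 * δ) :=
            mul_le_mul_of_nonneg_left h7 (by positivity)
        _ = π * δ := by ring
    refine (measure_mono hsub).trans ?_
    rw [Real.volume_closedBall]

/-- the interval of directions -/
lemma MEAS_int (β θ : ℝ) (h1 : -π < β) (h2 : β ≤ π) (hθ : 0 < θ) (hθ1 : θ ≤ 1) :
    ∃ a : ℝ, 0 ≤ a ∧ a + θ / 2 ≤ 2 * π ∧ ∀ φ ∈ Set.Icc a (a + θ / 2),
      0 ≤ Real.sin (φ - β) ∧ 0 ≤ Real.sin (β + θ - φ) := by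
  have hpi := Real.pi_gt_three
  rcases le_or_gt 0 β with h | h
  · refine ⟨β, h, by linarith, ?_⟩
    rintro φ ⟨h3, h4⟩
    exact ⟨Real.sin_nonneg_of_nonneg_of_le_pi (by linarith) (by linarith),
      Real.sin_nonneg_of_nonneg_of_le_pi (by linarith) (by linarith)⟩
  · rcases le_or_gt 0 (β + θ / 2) with h5 | h5
    · refine ⟨β + θ / 2, h5, by linarith, ?_⟩
      rintro φ ⟨h3, h4⟩
      exact ⟨Real.sin_nonneg_of_nonneg_of_le_pi (by linarith) (by linarith),
        Real.sin_nonneg_of_nonneg_of_le_pi (by linarith) (by linarith)⟩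
    · refine ⟨β + 2 * π, by linarith, by linarith, ?_⟩
      rintro φ ⟨h3, h4⟩
      constructor
      · rw [← Real.sin_sub_two_pi]
        exact Real.sin_nonneg_of_nonneg_of_le_pi (by linarith) (by linarith)
      · rw [← Real.sin_add_two_pi]
        exact Real.sin_nonneg_of_nonneg_of_le_pi (by linarith) (by linarith)

lemma MEAS_Sh {a b : ℝ} (ha : 0 < a) (ha1 : a ≤ 1 / 8) (hb : 0 < b) (hb1 : b ≤ 1 / 8) :
    0 < Sh a b := by
  unfold Sh
  apply div_pos
  · have h1 : a ^ 2 ≤ 1 := by nlinarith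
    have h2 : b ^ 2 ≤ 1 / 64 := by nlinarith
    nlinarith [sq_nonneg a, sq_nonneg b, mul_nonneg (sq_nonneg a) (sq_nonneg b)]
  · positivity

lemma MEAS_w (i : ℕ) : w MM 0 i = 1 + i := by
  simp [w, iot, MM]

lemma MEAS_deg : deg MM 0 = 51 := by
  simp [deg, iot, MM, JJ]

/-- the interval of directions between `X 1` and `X 2` -/
lemma MEAS_btw (hPOLN : S_POLN) (hHAB : S_HAB) (b : ℕ → ℝ) (X : ℕ → V3) (h : HL MM b X) :
    ∃ (a θ : ℝ), 1 / 10 ≤ θ ∧ θ ≤ 1 ∧ 0 ≤ a ∧ a + θ / 2 ≤ 2 * π ∧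
      ∀ φ ∈ Set.Icc a (a + θ / 2), Btw φ (X 1) (X 2) := by
  obtain ⟨E, F, θ, hfr, h0, h2pi, hstep, hpol⟩ := hPOLN MM b X h 0
  rw [MEAS_deg] at h2pi hstep hpol
  have hb : ∀ n, 0 < b n ∧ b n ≤ 1 / 8 := fun n => ⟨h.bpos n, h.ble n⟩
  have hup : ∀ i, i < 51 → θ (i + 1) ≤ θ i + 2.02 * b 0 := by
    intro i hi
    rw [hstep i hi]
    have := (hHAB (b 0) (b (w MM 0 i)) (b (w MM 0 ((i + 1) % 51))) (hb _).1 (hb _).2 (hb _).1
      (hb _).2 (hb _).1 (hb _).2).2
    linarith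
  have hup2 : ∀ i, i ≤ 51 → θ i ≤ i * (2.02 * b 0) := by
    intro i
    induction i with
    | zero => intro _; rw [h0]; simp
    | succ i ih =>
      intro hi
      have h1 := hup i (by omega)
      have h2 := ih (by omega)
      push_cast
      linarith
  have h51 := hup2 51 le_rfl
  rw [h2pi] at h51
  push_cast at h51
  have hpi := Real.pi_gt_d2
  have hb0 : 0.06 ≤ b 0 := by linarith
  have hθ1 : θ 1 = ha (b 0) (b 1) (b 2) := by
    have := hstep 0 (by norm_num)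
    rw [h0, MEAS_w, MEAS_w] at this
    simpa using this
  have hθb := hHAB (b 0) (b 1) (b 2) (hb _).1 (hb _).2 (hb _).1 (hb _).2 (hb _).1 (hb _).2
  rw [← hθ1] at hθb
  have hθ10 : 1 / 10 ≤ θ 1 := by linarith [hθb.1]
  have hθ11 : θ 1 ≤ 1 := by linarith [hθb.2, (hb 0).2]
  -- the frame
  rw [h.x0] at hfr hpol
  obtain ⟨-, hE, hF, hXE, hXF, hEF, hdet⟩ := hfr
  have hE3 : E.2.2 = 0 := by
    have : mink OO E = -E.2.2 := by simp [mink, OO]
    linarith
  have hF3 : F.2.2 = 0 := by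
    have : mink OO F = -F.2.2 := by simp [mink, OO]
    linarith
  have hE' : E.1 ^ 2 + E.2.1 ^ 2 = 1 := by
    have : mink E E = E.1 * E.1 + E.2.1 * E.2.1 - E.2.2 * E.2.2 := rfl
    rw [this, hE3] at hE
    linarith
  have hEF' : E.1 * F.1 + E.2.1 * F.2.1 = 0 := by
    have : mink E F = E.1 * F.1 + E.2.1 * F.2.1 - E.2.2 * F.2.2 := rfl
    rw [this, hE3] at hEF
    linarith
  have hdet' : E.1 * F.2.1 - E.2.1 * F.1 = 1 := by
    have : det3 OO E F = E.1 * F.2.1 - E.2.1 * F.1 := by simp [det3, OO]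
    linarith
  have hF1 : F.1 = -E.2.1 := by
    have : F.1 = (E.1 ^ 2 + E.2.1 ^ 2) * F.1 := by rw [hE', one_mul]
    rw [this]
    linear_combination E.1 * hEF' - E.2.1 * hdet'
  have hF2 : F.2.1 = E.1 := by
    have : F.2.1 = (E.1 ^ 2 + E.2.1 ^ 2) * F.2.1 := by rw [hE', one_mul]
    rw [this]
    linear_combination E.2.1 * hEF' + E.1 * hdet'
  -- the argument
  set z : ℂ := ⟨E.1, E.2.1⟩ with hz
  have hzn : ‖z‖ = 1 := by
    have h1 : ‖z‖ ^ 2 = 1 := by
      rw [← Complex.normSq_eq_norm_sq, Complex.normSq_apply]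
      show E.1 * E.1 + E.2.1 * E.2.1 = 1
      linarith
    have h2 := norm_nonneg z
    nlinarith
  set β : ℝ := Complex.arg z with hβ
  have hcos : Real.cos β = E.1 := by
    have := Complex.norm_mul_cos_arg z
    rw [hzn, one_mul] at this
    exact this
  have hsin : Real.sin β = E.2.1 := by
    have := Complex.norm_mul_sin_arg z
    rw [hzn, one_mul] at this
    exact this
  obtain ⟨a, ha0, ha1, ha2⟩ := MEAS_int β (θ 1) (Complex.neg_pi_lt_arg z) (Complex.arg_le_pi z)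
    (by linarith) hθ11
  refine ⟨a, θ 1, hθ10, hθ11, ha0, ha1, ?_⟩
  intro φ hφ
  obtain ⟨hs1, hs2⟩ := ha2 φ hφ
  have hX1 := hpol 0 (by norm_num)
  have hX2 := hpol 1 (by norm_num)
  rw [MEAS_w, add_zero, h0] at hX1
  rw [MEAS_w] at hX2
  have hX2 : X 2 = pol OO E F (Ch (b 0) (b 2)) (Sh (b 0) (b 2)) (θ 1) := hX2
  have hS1 := MEAS_Sh (hb 0).1 (hb 0).2 (hb 1).1 (hb 1).2
  have hS2 := MEAS_Sh (hb 0).1 (hb 0).2 (hb 2).1 (hb 2).2
  constructor
  · rw [MEAS_det1, hX1]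
    have e1 : (pol OO E F (Ch (b 0) (b 1)) (Sh (b 0) (b 1)) 0).1 = Sh (b 0) (b 1) * E.1 := by
      simp [pol, OO]
    have e2 : (pol OO E F (Ch (b 0) (b 1)) (Sh (b 0) (b 1)) 0).2.1 = Sh (b 0) (b 1) * E.2.1 := by
      simp [pol, OO]
    rw [e1, e2, ← hcos, ← hsin]
    have e3 : Sh (b 0) (b 1) * Real.cos β * Real.sin φ - Sh (b 0) (b 1) * Real.sin β * Real.cos φ =
        Sh (b 0) (b 1) * Real.sin (φ - β) := by
      rw [Real.sin_sub]; ring
    rw [e3]
    exact mul_nonneg hS1.le hs1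
  · rw [MEAS_det2, hX2]
    have e1 : (pol OO E F (Ch (b 0) (b 2)) (Sh (b 0) (b 2)) (θ 1)).1 =
        Sh (b 0) (b 2) * (Real.cos (θ 1) * E.1 + Real.sin (θ 1) * F.1) := by
      simp [pol, OO]
      ring
    have e2 : (pol OO E F (Ch (b 0) (b 2)) (Sh (b 0) (b 2)) (θ 1)).2.1 =
        Sh (b 0) (b 2) * (Real.cos (θ 1) * E.2.1 + Real.sin (θ 1) * F.2.1) := by
      simp [pol, OO]
      ring
    rw [e1, e2, hF1, hF2, ← hcos, ← hsin]
    have e3 : Real.cos φ * (Sh (b 0) (b 2) *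
          (Real.cos (θ 1) * Real.sin β + Real.sin (θ 1) * Real.cos β)) -
        Real.sin φ * (Sh (b 0) (b 2) *
          (Real.cos (θ 1) * Real.cos β + Real.sin (θ 1) * -Real.sin β)) =
        Sh (b 0) (b 2) * Real.sin (β + θ 1 - φ) := by
      rw [Real.sin_sub, Real.sin_add, Real.cos_add]; ring
    rw [e3]
    exact mul_nonneg hS2.le hs2

theorem MEAS (hPOLN : S_POLN) (hHAB : S_HAB) : S_MEAS := by
  intro b X h
  refine ⟨(MEAS_closed X).measurableSet, ?_⟩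
  obtain ⟨a, θ, hθ0, hθ1, ha0, ha1, hbtw⟩ := MEAS_btw hPOLN hHAB b X h
  have hpi3 := Real.pi_gt_three
  have hpi4 := Real.pi_lt_four
  set D : ℕ → Set ℝ := fun n => Set.Icc a (a + θ / 2) ∩
    {φ : ℝ | ‖Complex.exp (φ * Complex.I) - ed (X (n + 1))‖ < 3 / (JJ (n + 1) : ℝ)} with hD
  have hcov : Set.Icc a (a + θ / 2) ⊆ EE X ∪ ⋃ n, D n := by
    intro φ hφ
    by_cases hall : ∀ n : ℕ, 1 ≤ n → 3 / (JJ n : ℝ) ≤ ‖Complex.exp (φ * Complex.I) - ed (X n)‖
    · exact Or.inl ⟨ha0.trans hφ.1, hφ.2.trans ha1, hbtw φ hφ, hall⟩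
    · right
      push Not at hall
      obtain ⟨n, hn, hlt⟩ := hall
      obtain ⟨m, rfl⟩ : ∃ m, n = m + 1 := ⟨n - 1, by omega⟩
      exact Set.mem_iUnion.2 ⟨m, hφ, hlt⟩
  have hDn : ∀ n, volume (D n) ≤ ENNReal.ofReal (6 * π / 10 ^ 6 / 2 / 2 ^ n) := by
    intro n
    have h1 := MEAS_vol a (θ / 2) (3 / (JJ (n + 1) : ℝ)) (by linarith) (ed (X (n + 1)))
    refine h1.trans (ENNReal.ofReal_le_ofReal (le_of_eq ?_))
    have h2 : (JJ (n + 1) : ℝ) = 10 ^ 6 * 2 ^ (n + 1) := by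
      simp [JJ]
      norm_num
    rw [h2, pow_succ]
    field_simp
    ring
  have hsum : ∑' n, volume (D n) ≤ ENNReal.ofReal (6 * π / 10 ^ 6) := by
    refine (ENNReal.tsum_le_tsum hDn).trans ?_
    rw [← ENNReal.ofReal_tsum_of_nonneg (fun n => by positivity)
      (summable_geometric_two' (6 * π / 10 ^ 6)), tsum_geometric_two']
  rw [pos_iff_ne_zero]
  intro hzero
  have h1 : volume (Set.Icc a (a + θ / 2)) ≤ ENNReal.ofReal (6 * π / 10 ^ 6) := by
    refine (measure_mono hcov).trans ((measure_union_le _ _).trans ?_)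
    rw [hzero, zero_add]
    exact (measure_iUnion_le _).trans hsum
  rw [Real.volume_Icc, ENNReal.ofReal_le_ofReal_iff (by positivity)] at h1
  norm_num at h1
  linarith

end H637F
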