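import Pool.Agent.H637R3.DF.Stm

namespace H637F

theorem MGR : S_MGR := by
  intro M hM
  have h0 := hM.zero
  have h1 := hM.step
  refine ⟨strictMono_nat_of_lt_succ (fun n => by have := h1 n; omega), ?_, ?_⟩
  · intro n
    induction n with
    | zero => omega
    | succ n ih => have := h1 n; omega
  · intro n hn
    induction n, hn using Nat.le_induction with
    | base => have := h1 0; simp only [zero_add] at this; omega
    | succ n hn ih => have := h1 n; omega

end H637F
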