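import Pool.Agent.H637R3.DF.Stm

namespace H637F

theorem MMG : S_MMG := by
  refine ⟨rfl, fun n => ?_⟩
  show MM n + 50 ≤ MM n + (8 * JJ n + 50)
  omega

end H637F
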