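import Pool.Agent.H637R3.DF.Stm

set_option autoImplicit false

namespace H637F

theorem MONO_cramer (X Y Z U V P : V3) : det3 X Y Z * det3 U V P =
    det3 Y Z P * det3 U V X + det3 Z X P * det3 U V Y + det3 X Y P * det3 U V Z := by
  unfold det3
  ring

theorem MONO_cyc (X Y Z : V3) : det3 Y Z X = det3 X Y Z := by
  unfold det3
  ring

theorem MONO_r1 (X Y : V3) : det3 X Y X = 0 := by
  unfold det3
  ring

theorem MONO_r2 (X Y : V3) : det3 X Y Y = 0 := by
  unfold det3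
  ring

theorem MONO_wk {M : ℕ → ℕ} {X : ℕ → V3} {n : ℕ} (h : Cvx M X n) {k l : ℕ} (hk : n ≤ k)
    (hk' : k ≤ M n) (hl : n ≤ l) (hl' : l ≤ M n) : 0 ≤ det3 (X k) (X (nx M n k)) (X l) := by
  by_cases h1 : l = k
  · rw [h1, MONO_r1]
  · by_cases h2 : l = nx M n k
    · rw [h2, MONO_r2]
    · exact (h k hk hk' l hl hl' h1 h2).le

theorem MONO (hFAN : S_FAN) (hNIN : S_NIN) (hCVX : S_CVX) (hMGR : S_MGR) : S_MONO := by
  intro M b X h n hn P hP
  obtain ⟨hm1, hm2, hm3⟩ := hMGR M h.good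
  have h2 : M n < M (n + 1) := hm1 (Nat.lt_succ_self n)
  have key : Reg M X n P → ∃ k, n < k ∧ k < M n ∧ 0 < det3 (X n) (X k) (X (k + 1)) ∧
      ∀ j, n + 1 ≤ j → j ≤ M (n + 1) →
        det3 (X k) (X (k + 1)) P * det3 (X j) (X (nx M (n + 1) j)) (X n) ≤
        det3 (X n) (X k) (X (k + 1)) * det3 (X j) (X (nx M (n + 1) j)) P := by
    intro hR
    obtain ⟨k, hk1, hk2, ⟨i1, i2, i3⟩⟩ := hFAN M b X h n hn P hR
    have e' : nx M n k = k + 1 := by
      unfold nx
      rw [if_pos hk2]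
    have hD := hCVX M b X h n hn k hk1.le hk2.le n le_rfl (by have := hm2 n; omega)
      (by omega) (by rw [e']; omega)
    rw [e', MONO_cyc] at hD
    refine ⟨k, hk1, hk2, hD, fun j hj1 hj2 => ?_⟩
    have hcr := MONO_cramer (X n) (X k) (X (k + 1)) (X j) (X (nx M (n + 1) j)) P
    have w1 := MONO_wk (hCVX M b X h (n + 1) (by omega)) hj1 hj2 (l := k) (by omega) (by omega)
    have w2 := MONO_wk (hCVX M b X h (n + 1) (by omega)) hj1 hj2 (l := k + 1) (by omega)
      (by omega)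
    have p1 := mul_nonneg i3 w1
    have p2 := mul_nonneg i1 w2
    linarith
  constructor
  · intro hR j hj1 hj2
    obtain ⟨k, hk1, hk2, hD, hj⟩ := key hR
    have h3 := hj j hj1 hj2
    have e' : nx M n k = k + 1 := by
      unfold nx
      rw [if_pos hk2]
    have h4 := hR k hk1.le hk2.le
    rw [e'] at h4
    have h5 := hNIN M b X h n j hj1 hj2
    have h6 : 0 ≤ det3 (X n) (X k) (X (k + 1)) * det3 (X j) (X (nx M (n + 1) j)) P :=
      le_trans (mul_nonneg h4 h5.le) h3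
    exact nonneg_of_mul_nonneg_right h6 hD
  · intro hR j hj1 hj2
    obtain ⟨k, hk1, hk2, hD, hj⟩ := key (fun k h1 h2 => (hR k h1 h2).le)
    have h3 := hj j hj1 hj2
    have e' : nx M n k = k + 1 := by
      unfold nx
      rw [if_pos hk2]
    have h4 := hR k hk1.le hk2.le
    rw [e'] at h4
    have h5 := hNIN M b X h n j hj1 hj2
    have h6 : 0 < det3 (X n) (X k) (X (k + 1)) * det3 (X j) (X (nx M (n + 1) j)) P :=
      lt_of_lt_of_le (mul_pos h4 h5) h3
    exact (mul_pos_iff_of_pos_left hD).1 h6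

end H637F
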