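import Pool.Agent.H637R3.DF.Stm

namespace H637F

open Real

/-- near position of a pair of points with given types. -/
def NEAR_N (s t : ℕ) (X Y : ℂ) (η : ℝ) : Prop :=
  ∃ P U : ℂ, ‖P‖ ≤ η ∧ ‖U - 1‖ ≤ η ∧ X = P + pp s * U ∧ Y = P + pp t * U

theorem NEAR_symm {s t : ℕ} {X Y : ℂ} {η : ℝ} (h : NEAR_N s t X Y η) : NEAR_N t s Y X η := by
  obtain ⟨P, U, h1, h2, h3, h4⟩ := h
  exact ⟨P, U, h1, h2, h4, h3⟩

theorem NEAR_mono {s t : ℕ} {X Y : ℂ} {η η' : ℝ} (h : NEAR_N s t X Y η) (hh : η ≤ η') :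
    NEAR_N s t X Y η' := by
  obtain ⟨P, U, h1, h2, h3, h4⟩ := h
  exact ⟨P, U, h1.trans hh, h2.trans hh, h3, h4⟩

theorem NEAR_p0 : pp 0 = -1 := by simp [pp]
theorem NEAR_p1 : pp 1 = 1 := by simp [pp]
theorem NEAR_p2 : pp 2 = 0 := by simp [pp]

theorem NEAR_q (A B D : ℂ) (e δ : ℝ) (hAB : ‖A - B‖ = 2) (hAD : ‖A - D‖ = 1 + e)
    (hBD : ‖B - D‖ = 1 + e) (hδ : 0 ≤ δ) (h : (1 + e) ^ 2 - 1 ≤ δ ^ 2) :
    ‖D - (A + B) / 2‖ ≤ δ := by
  have h1 := parallelogram_law_with_norm ℝ (D - A) (D - B)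
  have e1 : (D - A) + (D - B) = 2 * (D - (A + B) / 2) := by ring
  have e2 : (D - A) - (D - B) = -(A - B) := by ring
  rw [e1, e2, norm_mul, norm_neg, hAB, norm_sub_rev D A, norm_sub_rev D B, hAD, hBD] at h1
  have h2 : ‖(2 : ℂ)‖ = 2 := by simp
  rw [h2] at h1
  apply abs_le_of_sq_le_sq' _ hδ |>.2
  nlinarith

theorem NEAR_sorted (A B D : ℂ) (η δ : ℝ) (hδ : 0 ≤ δ) (hq : ‖D - (A + B) / 2‖ ≤ δ)
    (h : NEAR_N 0 1 A B η ∨ NEAR_N 0 2 A D η ∨ NEAR_N 1 2 B D η) :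
    NEAR_N 0 1 A B (η + 2 * δ) ∧ NEAR_N 0 2 A D (η + 2 * δ) ∧ NEAR_N 1 2 B D (η + 2 * δ) := by
  obtain ⟨q, hq'⟩ : ∃ q : ℂ, q = D - (A + B) / 2 := ⟨_, rfl⟩
  rw [← hq'] at hq
  have n2 : ‖2 * q‖ ≤ 2 * δ := by
    rw [norm_mul]
    have h2 : ‖(2 : ℂ)‖ = 2 := by simp
    rw [h2]
    linarith
  have hadd : ∀ z w : ℂ, ∀ a b : ℝ, ‖z‖ ≤ a → ‖w‖ ≤ b → ‖z + w‖ ≤ a + b := fun z w a b ha hb =>
    (norm_add_le z w).trans (add_le_add ha hb)
  have hsub : ∀ z w : ℂ, ∀ a b : ℝ, ‖z‖ ≤ a → ‖w‖ ≤ b → ‖z - w‖ ≤ a + b := fun z w a b ha hb =>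
    (norm_sub_le z w).trans (add_le_add ha hb)
  have hq2 : ‖q‖ ≤ 2 * δ := by linarith
  have hz : (0 : ℝ) ≤ 2 * δ := by linarith
  rcases h with ⟨P, U, h1, h2, h3, h4⟩ | ⟨P, U, h1, h2, h3, h4⟩ | ⟨P, U, h1, h2, h3, h4⟩
  · rw [NEAR_p0] at h3
    rw [NEAR_p1] at h4
    have hD : D = P + q := by rw [hq', h3, h4]; ring
    refine ⟨⟨P, U, by linarith, by linarith, by rw [NEAR_p0]; exact h3, by rw [NEAR_p1]; exact h4⟩,
      ⟨P + q, U + q, hadd _ _ _ _ h1 hq2, ?_, ?_, ?_⟩, ⟨P + q, U - q, hadd _ _ _ _ h1 hq2, ?_, ?_, ?_⟩⟩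
    · have : U + q - 1 = (U - 1) + q := by ring
      rw [this]; exact hadd _ _ _ _ h2 hq2
    · rw [NEAR_p0, h3]; ring
    · rw [NEAR_p2, hD]; ring
    · have : U - q - 1 = (U - 1) - q := by ring
      rw [this]; exact hsub _ _ _ _ h2 hq2
    · rw [NEAR_p1, h4]; ring
    · rw [NEAR_p2, hD]; ring
  · rw [NEAR_p0] at h3
    rw [NEAR_p2] at h4
    have hD : D = P := by rw [h4]; ring
    have hB : B = P + U - 2 * q := by rw [hq', hD, h3]; ring
    refine ⟨⟨P - q, U - q, hsub _ _ _ _ h1 hq2, ?_, ?_, ?_⟩,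
      ⟨P, U, by linarith, by linarith, by rw [NEAR_p0]; exact h3, by rw [NEAR_p2]; exact h4⟩,
      ⟨P, U - 2 * q, by linarith, ?_, ?_, ?_⟩⟩
    · have : U - q - 1 = (U - 1) - q := by ring
      rw [this]; exact hsub _ _ _ _ h2 hq2
    · rw [NEAR_p0, h3]; ring
    · rw [NEAR_p1, hB]; ring
    · have : U - 2 * q - 1 = (U - 1) - 2 * q := by ring
      rw [this]; exact hsub _ _ _ _ h2 n2
    · rw [NEAR_p1, hB]; ring
    · rw [NEAR_p2, hD]; ring
  · rw [NEAR_p1] at h3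
    rw [NEAR_p2] at h4
    have hD : D = P := by rw [h4]; ring
    have hA : A = P - U - 2 * q := by rw [hq', hD, h3]; ring
    refine ⟨⟨P - q, U + q, hsub _ _ _ _ h1 hq2, ?_, ?_, ?_⟩,
      ⟨P, U + 2 * q, by linarith, ?_, ?_, ?_⟩,
      ⟨P, U, by linarith, by linarith, by rw [NEAR_p1]; exact h3, by rw [NEAR_p2]; exact h4⟩⟩
    · have : U + q - 1 = (U - 1) + q := by ring
      rw [this]; exact hadd _ _ _ _ h2 hq2
    · rw [NEAR_p0, hA]; ring
    · rw [NEAR_p1, h3]; ring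
    · have : U + 2 * q - 1 = (U - 1) + 2 * q := by ring
      rw [this]; exact hadd _ _ _ _ h2 n2
    · rw [NEAR_p0, hA]; ring
    · rw [NEAR_p2, hD]; ring

/-- increment -/
noncomputable def NEAR_i (N : ℕ) : ℝ := 4 / 10 ^ 10 * (1 / 4) ^ N

theorem NEAR_i_pos (N : ℕ) : 0 < NEAR_i N := by unfold NEAR_i; positivity

theorem NEAR_i_anti {N n : ℕ} (h : N ≤ n) : NEAR_i n ≤ NEAR_i N := by
  unfold NEAR_i
  apply mul_le_mul_of_nonneg_left _ (by positivity)
  exact pow_le_pow_of_le_one (by norm_num) (by norm_num) h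

theorem NEAR_sorted' (A B D : ℂ) (η : ℝ) (N n : ℕ) (hn : N ≤ n)
    (hAB : ‖A - B‖ = 1 + 1) (hAD : ‖A - D‖ = 1 + 1 / 10 ^ 20 * (1 / 16) ^ n)
    (hBD : ‖B - D‖ = 1 + 1 / 10 ^ 20 * (1 / 16) ^ n)
    (h : NEAR_N 0 1 A B η ∨ NEAR_N 0 2 A D η ∨ NEAR_N 1 2 B D η) :
    NEAR_N 0 1 A B (η + NEAR_i N) ∧ NEAR_N 0 2 A D (η + NEAR_i N) ∧
      NEAR_N 1 2 B D (η + NEAR_i N) := by
  have hδ : (0 : ℝ) ≤ 2 / 10 ^ 10 * (1 / 4) ^ n := by positivity
  have hq := NEAR_q A B D (1 / 10 ^ 20 * (1 / 16) ^ n) (2 / 10 ^ 10 * (1 / 4) ^ n)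
    (by rw [hAB]; norm_num) hAD hBD hδ (by
      have e1 : (2 / 10 ^ 10 * (1 / 4 : ℝ) ^ n) ^ 2 = 4 * (1 / 10 ^ 20 * (1 / 16) ^ n) := by
        have : ((1 / 4 : ℝ) ^ n) ^ 2 = (1 / 16) ^ n := by
          rw [← pow_mul, mul_comm n 2, pow_mul]; norm_num
        rw [mul_pow, this]; ring
      rw [e1]
      have h1 : (1 / 16 : ℝ) ^ n ≤ 1 := pow_le_one₀ (by norm_num) (by norm_num)
      have h0 : (0 : ℝ) ≤ (1 / 16 : ℝ) ^ n := by positivity
      set v := (1 / 16 : ℝ) ^ n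
      nlinarith)
  have h1 := NEAR_sorted A B D η _ hδ hq h
  have h2 : η + 2 * (2 / 10 ^ 10 * (1 / 4) ^ n) ≤ η + NEAR_i N := by
    have := NEAR_i_anti hn
    unfold NEAR_i at this ⊢
    linarith
  exact ⟨NEAR_mono h1.1 h2, NEAR_mono h1.2.1 h2, NEAR_mono h1.2.2 h2⟩

theorem NEAR_step (ty : ℕ → ℕ) (r : ℕ → ℝ) (c : ℕ → ℂ) (x y z N : ℕ) (h3 : D3 ty x y z)
    (hx : r x = rho ty x) (hy : r y = rho ty y) (hz : r z = rho ty z)
    (het : ET (c x) (c y) (c z) (r x) (r y) (r z)) (hNx : N ≤ x) (hNy : N ≤ y) (hNz : N ≤ z)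
    (η : ℝ)
    (h : NEAR_N (ty x) (ty y) (c x) (c y) η ∨ NEAR_N (ty y) (ty z) (c y) (c z) η ∨
      NEAR_N (ty x) (ty z) (c x) (c z) η) :
    NEAR_N (ty x) (ty y) (c x) (c y) (η + NEAR_i N) ∧
    NEAR_N (ty y) (ty z) (c y) (c z) (η + NEAR_i N) ∧
    NEAR_N (ty x) (ty z) (c x) (c z) (η + NEAR_i N) := by
  obtain ⟨a1, a2, a3, a4, a5, a6⟩ := h3
  obtain ⟨b1, b2, b3, -⟩ := het
  rw [hx, hy] at b1
  rw [hy, hz] at b2
  rw [hx, hz] at b3
  unfold rho at b1 b2 b3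
  have b1' := b1
  have b2' := b2
  have b3' := b3
  rw [norm_sub_rev] at b1' b2' b3'
  clear hx hy hz
  generalize ty x = tx at *
  generalize ty y = t2 at *
  generalize ty z = tz at *
  have hcases : (tx = 0 ∧ t2 = 1 ∧ tz = 2) ∨ (tx = 0 ∧ t2 = 2 ∧ tz = 1) ∨
      (tx = 1 ∧ t2 = 0 ∧ tz = 2) ∨ (tx = 1 ∧ t2 = 2 ∧ tz = 0) ∨
      (tx = 2 ∧ t2 = 0 ∧ tz = 1) ∨ (tx = 2 ∧ t2 = 1 ∧ tz = 0) := by omega
  rcases hcases with ⟨rfl, rfl, rfl⟩ | ⟨rfl, rfl, rfl⟩ | ⟨rfl, rfl, rfl⟩ | ⟨rfl, rfl, rfl⟩ |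
    ⟨rfl, rfl, rfl⟩ | ⟨rfl, rfl, rfl⟩
  · norm_num at b1 b2 b3 b1' b2' b3'
    have := NEAR_sorted' (c x) (c y) (c z) η N z hNz (by rw [b1]; norm_num)
      (by rw [b3]; norm_num) (by rw [b2]; norm_num) (by tauto)
    tauto
  · norm_num at b1 b2 b3 b1' b2' b3'
    have := NEAR_sorted' (c x) (c z) (c y) η N y hNy (by rw [b3]; norm_num)
      (by rw [b1]; norm_num) (by rw [b2']; ring) (by
        rcases h with h | h | h
        · exact Or.inr (Or.inl h)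
        · exact Or.inr (Or.inr (NEAR_symm h))
        · exact Or.inl h)
    exact ⟨this.2.1, NEAR_symm this.2.2, this.1⟩
  · norm_num at b1 b2 b3 b1' b2' b3'
    have := NEAR_sorted' (c y) (c x) (c z) η N z hNz (by rw [b1']; norm_num)
      (by rw [b2]; norm_num) (by rw [b3]; norm_num) (by
        rcases h with h | h | h
        · exact Or.inl (NEAR_symm h)
        · exact Or.inr (Or.inl h)
        · exact Or.inr (Or.inr h))
    exact ⟨NEAR_symm this.1, this.2.1, this.2.2⟩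
  · norm_num at b1 b2 b3 b1' b2' b3'
    have := NEAR_sorted' (c z) (c x) (c y) η N y hNy (by rw [b3']; norm_num)
      (by rw [b2']; ring) (by rw [b1]; norm_num) (by
        rcases h with h | h | h
        · exact Or.inr (Or.inr h)
        · exact Or.inr (Or.inl (NEAR_symm h))
        · exact Or.inl (NEAR_symm h))
    exact ⟨this.2.2, NEAR_symm this.2.1, NEAR_symm this.1⟩
  · norm_num at b1 b2 b3 b1' b2' b3'
    have := NEAR_sorted' (c y) (c z) (c x) η N x hNx (by rw [b2]; norm_num)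
      (by rw [b1']; ring) (by rw [b3']; ring) (by
        rcases h with h | h | h
        · exact Or.inr (Or.inl (NEAR_symm h))
        · exact Or.inl h
        · exact Or.inr (Or.inr (NEAR_symm h)))
    exact ⟨NEAR_symm this.2.1, this.1, NEAR_symm this.2.2⟩
  · norm_num at b1 b2 b3 b1' b2' b3'
    have := NEAR_sorted' (c z) (c y) (c x) η N x hNx (by rw [b2']; norm_num)
      (by rw [b3']; ring) (by rw [b1']; ring) (by
        rcases h with h | h | h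
        · exact Or.inr (Or.inr (NEAR_symm h))
        · exact Or.inl (NEAR_symm h)
        · exact Or.inr (Or.inl (NEAR_symm h)))
    exact ⟨NEAR_symm this.2.2, NEAR_symm this.1, NEAR_symm this.2.1⟩

theorem NEAR_MMs (n : ℕ) : MM (n + 1) = MM n + (8 * JJ n + 50) := rfl

theorem NEAR_MMge (n : ℕ) : n + 1 ≤ MM n := by
  induction n with
  | zero => simp [MM]
  | succ n ih => rw [NEAR_MMs]; omega

theorem NEAR_JJ (n : ℕ) (hn : 1 ≤ n) : JJ n = 10 ^ 6 * 2 ^ n := by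
  unfold JJ
  rw [if_neg (by omega)]

theorem NEAR_JJpos (n : ℕ) (hn : 1 ≤ n) : 2 ≤ JJ n := by
  rw [NEAR_JJ n hn]
  have : 1 ≤ 2 ^ n := Nat.one_le_two_pow
  omega

theorem NEAR_faceA (n j : ℕ) (h1 : MM n ≤ j) (h2 : j < MM (n + 1)) : (n, j, j + 1) ∈ FF MM :=
  ⟨n, j, j + 1, ⟨n, Or.inl ⟨j, h1, h2, rfl⟩⟩, Or.inl rfl⟩

theorem NEAR_faceB (n : ℕ) : (n, MM (n + 1), n + 1) ∈ FF MM :=
  ⟨n, MM (n + 1), n + 1, ⟨n, Or.inr rfl⟩, Or.inl rfl⟩

theorem NEAR_rad (ty : ℕ → ℕ) (G : ℕ → Prop) (r : ℕ → ℝ) (hT : TG ty G) (hR : RR ty G r) (k : ℕ)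
    (hG : G k) : r k = rho ty k ∧ r (k + 1) = rho ty (k + 1) := by
  rcases hT.conv k hG with rfl | ⟨n, i, hn, hi, hGn, rfl⟩ | ⟨n, i, hn, hi1, hi, hGn, rfl⟩
  · refine ⟨?_, hR.gc 0 2 (Or.inl ⟨rfl, rfl⟩)⟩
    rw [hR.z1]
    unfold rho
    rw [hT.t1]
    norm_num
  · refine ⟨?_, hR.gc n _ (Or.inr (Or.inl ⟨hn, hGn, by omega, by omega⟩))⟩
    rcases Nat.eq_zero_or_pos i with rfl | hi0
    · obtain ⟨m, rfl⟩ : ∃ m, n = m + 1 := ⟨n - 1, by omega⟩
      have hm : 1 ≤ m := by omega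
      have := NEAR_JJpos m hm
      have h2 := NEAR_MMs m
      exact hR.gc m _ (Or.inr (Or.inr ⟨hm, hGn, by omega, by omega⟩))
    · exact hR.gc n _ (Or.inr (Or.inl ⟨hn, hGn, by omega, by omega⟩))
  · have h2 := NEAR_MMs n
    exact ⟨hR.gc n _ (Or.inr (Or.inr ⟨hn, hGn, by omega, by omega⟩)),
      hR.gc n _ (Or.inr (Or.inr ⟨hn, hGn, by omega, by omega⟩))⟩

theorem NEAR_num1 (n : ℕ) (hn : 1 ≤ n) : (1 + (JJ n : ℝ)) * NEAR_i (n - 1) ≤
    1 / 100 * ((1 / 2) ^ (n - 1) - (1 / 2) ^ (n + 1)) := by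
  obtain ⟨m, rfl⟩ : ∃ m, n = m + 1 := ⟨n - 1, by omega⟩
  rw [NEAR_JJ _ hn]
  unfold NEAR_i
  simp only [Nat.add_sub_cancel]
  push_cast
  have h1 : (1 / 4 : ℝ) ^ m = (1 / 2) ^ m * (1 / 2) ^ m := by
    rw [← mul_pow]; norm_num
  have h2 : (2 : ℝ) ^ (m + 1) * (1 / 2) ^ m = 2 := by
    rw [pow_succ, mul_right_comm, ← mul_pow]; norm_num
  have h3 : (1 / 2 : ℝ) ^ (m + 1 + 1) = (1 / 2) ^ m * (1 / 4) := by
    rw [pow_succ, pow_succ]; ring
  have h4 : (1 / 2 : ℝ) ^ m ≤ 1 := pow_le_one₀ (by norm_num) (by norm_num)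
  have h5 : (0 : ℝ) < (1 / 2) ^ m := by positivity
  rw [h1, h3]
  have h6 : (1 + 1000000 * (2 : ℝ) ^ (m + 1)) * (4 / 10 ^ 10 * ((1 / 2) ^ m * (1 / 2) ^ m)) =
      4 / 10 ^ 10 * (1 / 2) ^ m * ((1 / 2) ^ m + 1000000 * ((2 : ℝ) ^ (m + 1) * (1 / 2) ^ m)) := by
    ring
  rw [h6, h2]
  nlinarith

theorem NEAR_num2 (n : ℕ) (hn : 1 ≤ n) : (1 + (JJ n : ℝ)) * NEAR_i n ≤
    1 / 100 * ((1 / 2) ^ n - (1 / 2) ^ (n + 1)) := by
  rw [NEAR_JJ _ hn]
  unfold NEAR_i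
  push_cast
  have h1 : (1 / 4 : ℝ) ^ n = (1 / 2) ^ n * (1 / 2) ^ n := by
    rw [← mul_pow]; norm_num
  have h2 : (2 : ℝ) ^ n * (1 / 2) ^ n = 1 := by
    rw [← mul_pow]; norm_num
  have h3 : (1 / 2 : ℝ) ^ (n + 1) = (1 / 2) ^ n * (1 / 2) := by
    rw [pow_succ]
  have h4 : (1 / 2 : ℝ) ^ n ≤ 1 := pow_le_one₀ (by norm_num) (by norm_num)
  have h5 : (0 : ℝ) < (1 / 2) ^ n := by positivity
  rw [h1, h3]
  have h6 : (1 + 1000000 * (2 : ℝ) ^ n) * (4 / 10 ^ 10 * ((1 / 2) ^ n * (1 / 2) ^ n)) =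
      4 / 10 ^ 10 * (1 / 2) ^ n * ((1 / 2) ^ n + 1000000 * ((2 : ℝ) ^ n * (1 / 2) ^ n)) := by
    ring
  rw [h6, h2]
  nlinarith

theorem NEAR_fin {s t : ℕ} {X Y : ℂ} {η : ℝ} (h : NEAR_N s t X Y η) (hη : η ≤ 1 / 100) :
    ‖X - pp s‖ ≤ 1 / 10 ∧ ‖Y - pp t‖ ≤ 1 / 10 := by
  obtain ⟨P, U, h1, h2, h3, h4⟩ := h
  have hp : ∀ s : ℕ, ‖pp s‖ ≤ 1 := by
    intro s
    unfold pp
    split_ifs <;> simp
  have key : ∀ s : ℕ, ‖P + pp s * U - pp s‖ ≤ 1 / 10 := by
    intro s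
    have e1 : P + pp s * U - pp s = P + pp s * (U - 1) := by ring
    rw [e1]
    refine (norm_add_le _ _).trans ?_
    rw [norm_mul]
    have := mul_le_mul (hp s) h2 (norm_nonneg _) zero_le_one
    linarith
  rw [h3, h4]
  exact ⟨key s, key t⟩

theorem NEAR : S_NEAR := by
  intro ty G r c hT hR hc0 hc1 hF
  have rad := NEAR_rad ty G r hT hR
  have h01 : NEAR_N (ty 0) (ty 1) (c 0) (c 1) 0 := by
    refine ⟨0, 1, by simp, by simp, ?_, ?_⟩
    · rw [hT.t0, NEAR_p0, hc0]; ring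
    · rw [hT.t1, NEAR_p1, hc1]; ring
  have hr0 : r 0 = rho ty 0 := by
    rw [hR.z0]; unfold rho; rw [hT.t0]; norm_num
  have hface0 : (0, 1, 1 + 1) ∈ FF MM := NEAR_faceA 0 1 (by simp [MM]) (by simp [MM])
  have h012 := NEAR_step ty r c 0 1 2 0 ⟨by rw [hT.t0]; norm_num, by rw [hT.t1]; norm_num,
      by rw [hT.t2]; norm_num, by rw [hT.t0, hT.t1]; norm_num, by rw [hT.t1, hT.t2]; norm_num,
      by rw [hT.t0, hT.t2]; norm_num⟩ hr0 (rad 1 hT.g1).1 (rad 1 hT.g1).2 (hF _ _ _ hface0)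
      (le_refl _) (by omega) (by omega) 0 (Or.inl h01)
  have hi0 : (0 : ℝ) + NEAR_i 0 ≤ 1 / 100 * (1 - (1 / 2) ^ 1) := by
    unfold NEAR_i; norm_num
  have hclaim : ∀ k, G k → NEAR_N (ty k) (ty (k + 1)) (c k) (c (k + 1))
      (1 / 100 * (1 - (1 / 2) ^ k)) := by
    intro k
    induction k using Nat.strong_induction_on with
    | _ k IH =>
      intro hG
      rcases hT.conv k hG with rfl | ⟨n, i, hn, hi, hGn, rfl⟩ | ⟨n, i, hn, hi1, hi, hGn, rfl⟩
      · exact NEAR_mono h012.2.1 hi0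
      · -- left child
        obtain ⟨m, rfl⟩ : ∃ m, n = m + 1 := ⟨n - 1, by omega⟩
        simp only [Nat.add_sub_cancel] at hGn
        have hm : 1 ≤ m := by omega
        have hge := NEAR_MMge (m + 1)
        have ih := IH m (by omega) hGn
        have hGM : G (MM (m + 1)) := by
          have := (hT.left1 (m + 1) hn (by simpa using hGn) 0 (by omega)).1
          simpa using this
        have s0 := NEAR_step ty r c m (MM (m + 1)) (m + 1) m (hT.right0 m hm hGn)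
          (rad m hGn).1 (rad _ hGM).1 (rad m hGn).2 (hF _ _ _ (NEAR_faceB m)) (le_refl _)
          (by omega) (by omega) _ (Or.inr (Or.inr ih))
        have chain : ∀ j, j ≤ i → NEAR_N (ty (m + 1)) (ty (MM (m + 1) + j)) (c (m + 1))
            (c (MM (m + 1) + j)) (1 / 100 * (1 - (1 / 2) ^ m) + (1 + j) * NEAR_i m) ∧
            (NEAR_N (ty (MM (m + 1) + j)) (ty (MM (m + 1) + j + 1)) (c (MM (m + 1) + j))
            (c (MM (m + 1) + j + 1)) (1 / 100 * (1 - (1 / 2) ^ m) + (2 + j) * NEAR_i m)) := by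
          have hstep : ∀ j, j ≤ i → ∀ η, NEAR_N (ty (m + 1)) (ty (MM (m + 1) + j)) (c (m + 1))
            (c (MM (m + 1) + j)) η →
            NEAR_N (ty (MM (m + 1) + j)) (ty (MM (m + 1) + j + 1)) (c (MM (m + 1) + j))
            (c (MM (m + 1) + j + 1)) (η + NEAR_i m) ∧
            NEAR_N (ty (m + 1)) (ty (MM (m + 1) + j + 1)) (c (m + 1))
            (c (MM (m + 1) + j + 1)) (η + NEAR_i m) := by
            intro j hj η hη
            have hl := hT.left1 (m + 1) hn (by simpa using hGn) j (by omega)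
            have hMs := NEAR_MMs (m + 1)
            have := NEAR_step ty r c (m + 1) (MM (m + 1) + j) (MM (m + 1) + j + 1) m hl.2
              (rad m hGn).2 (rad _ hl.1).1 (rad _ hl.1).2
              (hF _ _ _ (NEAR_faceA (m + 1) (MM (m + 1) + j) (by omega) (by omega))) (by omega)
              (by omega) (by omega) η (Or.inl hη)
            exact ⟨this.2.1, this.2.2⟩
          intro j
          induction j with
          | zero =>
            intro hj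
            have h1 : NEAR_N (ty (m + 1)) (ty (MM (m + 1) + 0)) (c (m + 1))
              (c (MM (m + 1) + 0)) (1 / 100 * (1 - (1 / 2) ^ m) + NEAR_i m) := NEAR_symm s0.2.1
            refine ⟨?_, ?_⟩
            · refine NEAR_mono h1 (by push_cast; linarith)
            · exact NEAR_mono (hstep 0 hj _ h1).1 (by push_cast; linarith)
          | succ j ih' =>
            intro hj
            have h1 := (ih' (by omega)).1
            have h2 := (hstep j (by omega) _ h1).2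
            refine ⟨?_, ?_⟩
            · exact NEAR_mono h2 (by push_cast; linarith)
            · exact NEAR_mono (hstep (j + 1) hj _ h2).1 (by push_cast; linarith)
        refine NEAR_mono (chain i (le_refl _)).2 ?_
        have hnum := NEAR_num1 (m + 1) (by omega)
        simp only [Nat.add_sub_cancel] at hnum
        have hij : (2 + (i : ℝ)) * NEAR_i m ≤ (1 + (JJ (m + 1) : ℝ)) * NEAR_i m := by
          apply mul_le_mul_of_nonneg_right _ (NEAR_i_pos m).le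
          have : ((i + 1 : ℕ) : ℝ) ≤ (JJ (m + 1) : ℝ) := by exact_mod_cast hi
          push_cast at this
          linarith
        have hk : (1 / 2 : ℝ) ^ (MM (m + 1) + i) ≤ (1 / 2) ^ (m + 1 + 1) :=
          pow_le_pow_of_le_one (by norm_num) (by norm_num) (by omega)
        linarith
      · -- right child
        have hge := NEAR_MMge n
        have hMs := NEAR_MMs n
        have ih := IH n (by omega) hGn
        have hJ := NEAR_JJpos n hn
        have hrM : r (MM (n + 1)) = rho ty (MM (n + 1)) :=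
          hR.gc n _ (Or.inr (Or.inr ⟨hn, hGn, by omega, by omega⟩))
        have s0 := NEAR_step ty r c n (MM (n + 1)) (n + 1) n (hT.right0 n hn hGn)
          (rad n hGn).1 hrM (rad n hGn).2 (hF _ _ _ (NEAR_faceB n)) (le_refl _)
          (by omega) (by omega) _ (Or.inr (Or.inr ih))
        have hstep : ∀ j, 1 ≤ j → j ≤ i → ∀ η, NEAR_N (ty n) (ty (MM (n + 1) - j + 1)) (c n)
            (c (MM (n + 1) - j + 1)) η →
            NEAR_N (ty (MM (n + 1) - j)) (ty (MM (n + 1) - j + 1)) (c (MM (n + 1) - j))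
            (c (MM (n + 1) - j + 1)) (η + NEAR_i n) ∧
            NEAR_N (ty n) (ty (MM (n + 1) - j)) (c n)
            (c (MM (n + 1) - j)) (η + NEAR_i n) := by
          intro j hj1 hj η hη
          have hl := hT.right1 n hn hGn j hj1 (by omega)
          have := NEAR_step ty r c n (MM (n + 1) - j) (MM (n + 1) - j + 1) n hl.2
            (rad n hGn).1 (rad _ hl.1).1 (rad _ hl.1).2
            (hF _ _ _ (NEAR_faceA n (MM (n + 1) - j) (by omega) (by omega))) (by omega)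
            (by omega) (by omega) η (Or.inr (Or.inr hη))
          exact ⟨this.2.1, this.1⟩
        have chain : ∀ j, j < i → NEAR_N (ty n) (ty (MM (n + 1) - j)) (c n)
            (c (MM (n + 1) - j)) (1 / 100 * (1 - (1 / 2) ^ n) + (1 + j) * NEAR_i n) := by
          intro j
          induction j with
          | zero =>
            intro hj
            exact NEAR_mono s0.1 (by push_cast; linarith)
          | succ j ih' =>
            intro hj
            have h1 := ih' (by omega)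
            have e1 : MM (n + 1) - (j + 1) + 1 = MM (n + 1) - j := by omega
            have h2 := (hstep (j + 1) (by omega) (by omega) _ (by rw [e1]; exact h1)).2
            exact NEAR_mono h2 (by push_cast; linarith)
        obtain ⟨j, rfl⟩ : ∃ j, i = j + 1 := ⟨i - 1, by omega⟩
        have e1 : MM (n + 1) - (j + 1) + 1 = MM (n + 1) - j := by omega
        have h2 := (hstep (j + 1) (by omega) (le_refl _) _ (by
          rw [e1]; exact chain j (by omega))).1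
        refine NEAR_mono h2 ?_
        have hnum := NEAR_num2 n hn
        have hij : (2 + (j : ℝ)) * NEAR_i n ≤ (1 + (JJ n : ℝ)) * NEAR_i n := by
          apply mul_le_mul_of_nonneg_right _ (NEAR_i_pos n).le
          have : ((j + 1 : ℕ) : ℝ) ≤ (JJ n : ℝ) := by exact_mod_cast hi.le
          push_cast at this
          linarith
        have hk : (1 / 2 : ℝ) ^ (MM (n + 1) - (j + 1)) ≤ (1 / 2) ^ (n + 1) :=
          pow_le_pow_of_le_one (by norm_num) (by norm_num) (by omega)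
        linarith
  refine ⟨?_, ?_⟩
  · intro n hn
    have hb := NEAR_fin h012.1 (by linarith)
    have hb2 := NEAR_fin h012.2.1 (by linarith)
    interval_cases n
    · exact hb.1
    · exact hb.2
    · exact hb2.2
  · intro k hG
    apply NEAR_fin (hclaim k hG)
    have : (0 : ℝ) ≤ (1 / 2) ^ k := by positivity
    linarith

end H637F
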