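import Pool.Agent.H637R3.DF.Stm

set_option autoImplicit false

namespace H637F

theorem NIN_cyc (X Y Z : V3) : det3 Y Z X = det3 X Y Z := by
  unfold det3
  ring

theorem NIN (hCVX : S_CVX) (hMGR : S_MGR) : S_NIN := by
  intro M b X h n k hk1 hk2
  obtain ⟨hm1, hm2, hm3⟩ := hMGR M h.good
  by_cases h1 : k < M n
  · have hn : 1 ≤ n := by
      by_contra hn
      have : n = 0 := by omega
      subst this
      have := h.good.zero
      omega
    have h2 : M n < M (n + 1) := hm1 (Nat.lt_succ_self n)
    have e : nx M (n + 1) k = k + 1 := by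
      unfold nx
      rw [if_pos (by omega)]
    have e' : nx M n k = k + 1 := by
      unfold nx
      rw [if_pos h1]
    have h3 := hCVX M b X h n hn k (by omega) h1.le n le_rfl (by have := hm2 n; omega)
      (by omega) (by rw [e']; omega)
    rw [e'] at h3
    rw [e]
    exact h3
  · by_cases h2 : k < M (n + 1)
    · have e : nx M (n + 1) k = k + 1 := by
        unfold nx
        rw [if_pos h2]
      have h3 := h.tri n k (k + 1) ⟨n, k, k + 1, ⟨n, Or.inl ⟨k, by omega, h2, rfl⟩⟩, Or.inl rfl⟩
      rw [e, NIN_cyc]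
      exact h3.2.2.2
    · have h4 : k = M (n + 1) := by omega
      subst h4
      have e : nx M (n + 1) (M (n + 1)) = n + 1 := by
        unfold nx
        rw [if_neg (by omega)]
      have h3 := h.tri n (M (n + 1)) (n + 1)
        ⟨n, M (n + 1), n + 1, ⟨n, Or.inr rfl⟩, Or.inl rfl⟩
      rw [e, NIN_cyc]
      exact h3.2.2.2

end H637F
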