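import Pool.Agent.H637R3.DF.Stm

namespace H637F

theorem PACKF_t {X : V3} (h : Hyp X) : 0 < X.2.2 := h.2

theorem PACKF (hDISJ : S_DISJ) (hEUC1 : S_EUC1) (hEUC2 : S_EUC2) : S_PACKF := by
  intro M b X h K
  have hb0 := h.bpos
  have hb1 := h.ble
  have hcR : ∀ v, 0 < cR (b v) := by
    intro v
    unfold cR
    have := hb0 v
    positivity
  rcases le_or_gt K 0 with hK | hK
  · convert Set.finite_empty
    ext v
    simp only [Set.mem_ofPred_eq, Set.mem_empty_iff_false, iff_false, not_le]
    have h1 := (h.hyp v).2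
    have h2 : K * cR (b v) ≤ 0 := mul_nonpos_of_nonpos_of_nonneg hK (hcR v).le
    linarith
  · set δ : ℝ := 9 / 10 / (K + 1) with hδ
    have hδ0 : 0 < δ := by positivity
    -- radii
    have her : ∀ v, (X v).2.2 ≤ K * cR (b v) → δ ≤ er (X v) (b v) := by
      intro v hv
      have h0 := hb0 v
      have h1 := hb1 v
      have ht := (h.hyp v).2
      have hc := hcR v
      have hs : 9 / 10 * cR (b v) ≤ sR (b v) := by
        unfold cR sR
        rw [← mul_div_assoc, div_le_div_iff_of_pos_right (by positivity)]
        nlinarith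
      unfold er
      rw [hδ, div_div, div_le_div_iff₀ (by positivity) (by positivity)]
      nlinarith
    -- separation
    have hsep : ∀ i j, i ≠ j → (X i).2.2 ≤ K * cR (b i) → (X j).2.2 ≤ K * cR (b j) →
        2 * δ ≤ ‖ez (X i) (b i) - ez (X j) (b j)‖ := by
      intro i j hij hi hj
      have h1 := hEUC2 (X i) (X j) (b i) (b j) (h.hyp i) (h.hyp j) (hb0 i)
        (by linarith [hb1 i]) (hb0 j) (by linarith [hb1 j])
      have h2 := hDISJ M b X h i j hij
      have h3 : 0 ≤ 2 * (-mink (X i) (X j) - Ch (b i) (b j)) /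
          (((X i).2.2 + cR (b i)) * ((X j).2.2 + cR (b j))) := by
        have ti := (h.hyp i).2
        have tj := (h.hyp j).2
        have ci := hcR i
        have cj := hcR j
        apply div_nonneg
        · linarith
        · positivity
      have h4 := her i hi
      have h5 := her j hj
      have h6 : (er (X i) (b i) + er (X j) (b j)) ^ 2 ≤
          ‖ez (X i) (b i) - ez (X j) (b j)‖ ^ 2 := by linarith
      have h7 : er (X i) (b i) + er (X j) (b j) ≤ ‖ez (X i) (b i) - ez (X j) (b j)‖ :=
        (abs_le_of_sq_le_sq' h6 (norm_nonneg _)).2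
      linarith
    -- covering
    obtain ⟨t, ht, hcov⟩ := Metric.totallyBounded_iff.1
      (isCompact_closedBall (0 : ℂ) 1).totallyBounded δ hδ0
    have hin : ∀ v, ez (X v) (b v) ∈ Metric.closedBall (0 : ℂ) 1 := by
      intro v
      have h1 := hEUC1 (X v) (b v) (h.hyp v) (hb0 v) (by linarith [hb1 v])
      rw [mem_closedBall_zero_iff]
      linarith [h1.1, h1.2]
    have hch : ∀ v, ∃ y ∈ t, ez (X v) (b v) ∈ Metric.ball y δ := by
      intro v
      have h1 := hcov (hin v)
      simpa only [Set.mem_iUnion, exists_prop] using h1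
    choose f hf1 hf2 using hch
    refine Set.Finite.of_injOn (f := f) (t := t) (fun v _ => hf1 v) ?_ ht
    intro i hi j hj hij
    by_contra hne
    have h1 := hsep i j hne hi hj
    have h2 := hf2 i
    have h3 := hf2 j
    rw [Metric.mem_ball] at h2 h3
    rw [← hij] at h3
    have h4 := dist_triangle_right (ez (X i) (b i)) (ez (X j) (b j)) (f i)
    rw [dist_eq_norm] at h4
    linarith

end H637F
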