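import Pool.Agent.H637R3.DF.Stm

set_option autoImplicit false

namespace H637F

theorem PAR (hMGR : S_MGR) : S_PAR := by
  intro M hM k hk
  obtain ⟨hmono, hgr, _⟩ := hMGR M hM
  have h0 : M 0 ≤ k := by rw [hM.zero]; exact hk
  have h1 : M (par M k) ≤ k := by
    unfold par
    exact Nat.findGreatest_spec (P := fun m => M m ≤ k) (Nat.zero_le k) h0
  have h3 : par M k < k := by
    have := hgr (par M k)
    omega
  have h2 : k < M (par M k + 1) := by
    by_contra hcon
    have h4 : ¬ M (par M k + 1) ≤ k := by
      have := Nat.findGreatest_is_greatest (P := fun m => M m ≤ k) (n := k) (k := par M k + 1)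
        (by unfold par; exact Nat.lt_succ_self _) (by omega)
      exact this
    omega
  refine ⟨h1, h2, h3, fun m hm1 hm2 => ?_⟩
  have h5 : m < par M k + 1 := hmono.lt_iff_lt.1 (lt_of_le_of_lt hm1 h2)
  have h6 : par M k < m + 1 := hmono.lt_iff_lt.1 (lt_of_le_of_lt h1 hm2)
  omega

end H637F
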