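import Pool.Agent.H637R3.DF.Stm

namespace H637F

open Real Filter Topology

theorem PERRON_open : IsOpen
    {p : ℝ × ℝ × ℝ | 0 < p.1 ∧ p.1 < 1 ∧ 0 < p.2.1 ∧ p.2.1 < 1 ∧ 0 < p.2.2 ∧ p.2.2 < 1} := by
  have h1 : IsOpen {p : ℝ × ℝ × ℝ | 0 < p.1} := isOpen_lt (by fun_prop) (by fun_prop)
  have h2 : IsOpen {p : ℝ × ℝ × ℝ | p.1 < 1} := isOpen_lt (by fun_prop) (by fun_prop)
  have h3 : IsOpen {p : ℝ × ℝ × ℝ | 0 < p.2.1} := isOpen_lt (by fun_prop) (by fun_prop)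
  have h4 : IsOpen {p : ℝ × ℝ × ℝ | p.2.1 < 1} := isOpen_lt (by fun_prop) (by fun_prop)
  have h5 : IsOpen {p : ℝ × ℝ × ℝ | 0 < p.2.2} := isOpen_lt (by fun_prop) (by fun_prop)
  have h6 : IsOpen {p : ℝ × ℝ × ℝ | p.2.2 < 1} := isOpen_lt (by fun_prop) (by fun_prop)
  exact h1.inter (h2.inter (h3.inter (h4.inter (h5.inter h6))))

theorem PERRON_cont (hHAM : S_HAM) {x y z : ℝ} (hx : 0 < x ∧ x < 1) (hy : 0 < y ∧ y < 1)
    (hz : 0 < z ∧ z < 1) :
    Tendsto (fun p : ℝ × ℝ × ℝ => ha p.1 p.2.1 p.2.2) (𝓝 (x, y, z)) (𝓝 (ha x y z)) := by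
  have h4 := hHAM.2.2.2
  have hm : ((x, y, z) : ℝ × ℝ × ℝ) ∈
      {p : ℝ × ℝ × ℝ | 0 < p.1 ∧ p.1 < 1 ∧ 0 < p.2.1 ∧ p.2.1 < 1 ∧ 0 < p.2.2 ∧ p.2.2 < 1} :=
    ⟨hx.1, hx.2, hy.1, hy.2, hz.1, hz.2⟩
  exact h4.continuousAt (PERRON_open.mem_nhds hm)

theorem PERRON_tendsto1 (hHAM : S_HAM) {ι : Type} {l : Filter ι} {x y z : ℝ}
    (hx : 0 < x ∧ x < 1) (hy : 0 < y ∧ y < 1) (hz : 0 < z ∧ z < 1) {f g h : ι → ℝ}
    (hf : Tendsto f l (𝓝 x)) (hg : Tendsto g l (𝓝 y)) (hh : Tendsto h l (𝓝 z)) :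
    Tendsto (fun i => ha (f i) (g i) (h i)) l (𝓝 (ha x y z)) := by
  have h3 : Tendsto (fun i => (f i, g i, h i)) l (𝓝 (x, y, z)) :=
    hf.prodMk_nhds (hg.prodMk_nhds hh)
  have h4 := PERRON_cont hHAM hx hy hz
  have h5 := Tendsto.comp h4 h3
  exact h5

theorem PERRON_tendsto (hHAM : S_HAM) {ι : Type} {l : Filter ι} (M : ℕ → ℕ) (F : ι → ℕ → ℝ)
    (B : ℕ → ℝ) (hB : ∀ n, 0 < B n ∧ B n < 1) (hF : ∀ n, Tendsto (fun x => F x n) l (𝓝 (B n)))
    (n : ℕ) : Tendsto (fun x => tot ha M (F x) n) l (𝓝 (tot ha M B n)) := by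
  unfold tot
  refine tendsto_finsetSum _ (fun i _ => ?_)
  exact PERRON_tendsto1 hHAM (hB _) (hB _) (hB _) (hF _) (hF _) (hF _)

/-- the Perron family. -/
def PERRON_F (M : ℕ → ℕ) (b : ℕ → ℝ) : Prop :=
  (∀ n, 0 < b n ∧ b n ≤ 1 / 8) ∧ ∀ n, 2 * π ≤ tot ha M b n

/-- decreasing the labels of the neighbours increases the total angle. -/
theorem PERRON_mono (hHAM : S_HAM) (M : ℕ → ℕ) (b c : ℕ → ℝ) (hb : ∀ n, 0 < b n ∧ b n ≤ 1 / 8)
    (hc : ∀ n, 0 < c n ∧ c n ≤ 1 / 8) (hcb : ∀ n, c n ≤ b n) (n : ℕ) (hn : c n = b n) :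
    tot ha M b n ≤ tot ha M c n := by
  unfold tot
  refine Finset.sum_le_sum (fun i _ => ?_)
  rw [hn]
  obtain ⟨hsymm, -, hdec, -⟩ := hHAM
  have h1 : ∀ n, b n < 1 := fun n => lt_of_le_of_lt (hb n).2 (by norm_num)
  have h2 : ∀ n, c n < 1 := fun n => lt_of_le_of_lt (hc n).2 (by norm_num)
  refine le_trans (hdec (b n) (c (w M n i)) (b (w M n i)) (b (w M n ((i + 1) % deg M n)))
    (hb n).1 (h1 n) (hc _).1 (hcb _) (h1 _) (hb _).1 (h1 _)) ?_
  rw [hsymm (b n) (c (w M n i)) (b _), hsymm (b n) (c (w M n i)) (c _)]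
  exact hdec (b n) (c (w M n ((i + 1) % deg M n))) (b (w M n ((i + 1) % deg M n))) (c (w M n i))
    (hb n).1 (h1 n) (hc _).1 (hcb _) (h1 _) (hc _).1 (h2 _)

theorem PERRON_min (hHAM : S_HAM) (M : ℕ → ℕ) (b c : ℕ → ℝ) (hb : PERRON_F M b)
    (hc : PERRON_F M c) : PERRON_F M (fun n => min (b n) (c n)) := by
  have hpos : ∀ n, 0 < min (b n) (c n) ∧ min (b n) (c n) ≤ 1 / 8 := fun n =>
    ⟨lt_min (hb.1 n).1 (hc.1 n).1, le_trans (min_le_left _ _) (hb.1 n).2⟩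
  refine ⟨hpos, fun n => ?_⟩
  rcases le_total (b n) (c n) with h | h
  · exact le_trans (hb.2 n) (PERRON_mono hHAM M b _ hb.1 hpos (fun _ => min_le_left _ _) n
      (min_eq_left h))
  · exact le_trans (hc.2 n) (PERRON_mono hHAM M c _ hc.1 hpos (fun _ => min_le_right _ _) n
      (min_eq_right h))

theorem PERRON_const (hHAB : S_HAB) (M : ℕ → ℕ) (hdeg : ∀ n, 51 ≤ deg M n) :
    PERRON_F M (fun _ => 1 / 8) := by
  refine ⟨fun n => ⟨by norm_num, le_rfl⟩, fun n => ?_⟩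
  unfold tot
  have h1 : ∀ i ∈ Finset.range (deg M n), (1.96 : ℝ) * (1 / 8) ≤ ha (1 / 8) (1 / 8) (1 / 8) :=
    fun i _ => (hHAB (1 / 8) (1 / 8) (1 / 8) (by norm_num) le_rfl (by norm_num) le_rfl
      (by norm_num) le_rfl).1
  have h2 := Finset.card_nsmul_le_sum (Finset.range (deg M n)) _ _ h1
  rw [Finset.card_range, nsmul_eq_mul] at h2
  refine le_trans ?_ h2
  have h3 : (51 : ℝ) ≤ deg M n := by exact_mod_cast hdeg n
  have h4 := Real.pi_lt_d2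
  nlinarith

theorem PERRON_lo (hHAB : S_HAB) (M : ℕ → ℕ) (b : ℕ → ℝ) (hb : PERRON_F M b) (n : ℕ) :
    2 * π ≤ deg M n * (2.02 * b n) := by
  refine le_trans (hb.2 n) ?_
  unfold tot
  have h1 : ∀ i ∈ Finset.range (deg M n),
      ha (b n) (b (w M n i)) (b (w M n ((i + 1) % deg M n))) ≤ 2.02 * b n :=
    fun i _ => (hHAB _ _ _ (hb.1 _).1 (hb.1 _).2 (hb.1 _).1 (hb.1 _).2 (hb.1 _).1 (hb.1 _).2).2
  have h2 := Finset.sum_le_card_nsmul (Finset.range (deg M n)) _ _ h1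
  rwa [Finset.card_range, nsmul_eq_mul] at h2

theorem PERRON (hFLOA : S_FLOA) (hHAB : S_HAB) (hHAM : S_HAM) : S_PERRON := by
  intro M hM
  have hdeg : ∀ n, 51 ≤ deg M n := fun n => (hFLOA M hM n).1
  have hconst := PERRON_const hHAB M hdeg
  haveI : Nonempty {b : ℕ → ℝ // PERRON_F M b} := ⟨⟨_, hconst⟩⟩
  haveI : IsCodirectedOrder {b : ℕ → ℝ // PERRON_F M b} :=
    ⟨fun b c => ⟨⟨_, PERRON_min hHAM M b.1 c.1 b.2 c.2⟩, fun n => min_le_left _ _,
      fun n => min_le_right _ _⟩⟩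
  set B : ℕ → ℝ := fun n => ⨅ b : {b : ℕ → ℝ // PERRON_F M b}, b.1 n with hBdef
  have hbdd : ∀ n, BddBelow (Set.range fun b : {b : ℕ → ℝ // PERRON_F M b} => b.1 n) := fun n =>
    ⟨0, by
      rintro x ⟨b, rfl⟩
      exact (b.2.1 n).1.le⟩
  have hlim : ∀ n, Tendsto (fun b : {b : ℕ → ℝ // PERRON_F M b} => b.1 n) atBot (𝓝 (B n)) :=
    fun n => tendsto_atBot_ciInf (fun b c hbc => hbc n) (hbdd n)
  have hBle : ∀ (b : {b : ℕ → ℝ // PERRON_F M b}) n, B n ≤ b.1 n := fun b n => ciInf_le (hbdd n) b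
  have hlo : ∀ n, 0 < B n := by
    intro n
    have hd : (0 : ℝ) < deg M n := by
      have : (51 : ℝ) ≤ deg M n := by exact_mod_cast hdeg n
      linarith
    have h1 : 2 * π / (deg M n * 2.02) ≤ B n := by
      refine le_ciInf (fun b => ?_)
      rw [div_le_iff₀ (by positivity)]
      have := PERRON_lo hHAB M b.1 b.2 n
      linarith
    exact lt_of_lt_of_le (by positivity) h1
  have hB8 : ∀ n, B n ≤ 1 / 8 := fun n => hBle ⟨_, hconst⟩ n
  have hB : ∀ n, 0 < B n ∧ B n ≤ 1 / 8 := fun n => ⟨hlo n, hB8 n⟩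
  have hB1 : ∀ n, 0 < B n ∧ B n < 1 := fun n => ⟨hlo n, lt_of_le_of_lt (hB8 n) (by norm_num)⟩
  have htot : ∀ n, 2 * π ≤ tot ha M B n := by
    intro n
    exact ge_of_tendsto (PERRON_tendsto hHAM M (fun b : {b : ℕ → ℝ // PERRON_F M b} => b.1) B hB1
      hlim n) (Eventually.of_forall fun b => b.2.2 n)
  refine ⟨B, hB, fun n => ?_⟩
  by_contra hne
  have hlt : 2 * π < tot ha M B n := lt_of_le_of_ne (htot n) (Ne.symm hne)
  -- continuity in the `n`-th coordinate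
  have hupd : ∀ m, Tendsto (fun x : ℝ => Function.update B n x m) (𝓝 (B n)) (𝓝 (B m)) := by
    intro m
    by_cases hm : m = n
    · subst hm
      simp only [Function.update_self]
      exact tendsto_id
    · simp only [Function.update_of_ne hm]
      exact tendsto_const_nhds
  have ht := PERRON_tendsto hHAM M (fun x : ℝ => Function.update B n x) B hB1 hupd n
  have hev : ∀ᶠ x in 𝓝 (B n), 2 * π < tot ha M (Function.update B n x) n :=
    ht.eventually (lt_mem_nhds hlt)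
  have hev2 : ∀ᶠ x in 𝓝 (B n), 0 < x := lt_mem_nhds (hlo n)
  obtain ⟨x, ⟨hx1, hx2⟩, hx3⟩ := (((hev.and hev2).filter_mono nhdsWithin_le_nhds).and
    (self_mem_nhdsWithin : Set.Iio (B n) ∈ 𝓝[<] (B n))).exists
  have hx3' : x < B n := hx3
  have hF : PERRON_F M (Function.update B n x) := by
    have hpos : ∀ m, 0 < Function.update B n x m ∧ Function.update B n x m ≤ 1 / 8 := by
      intro m
      by_cases hm : m = n
      · subst hm
        rw [Function.update_self]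
        exact ⟨hx2, le_trans hx3'.le (hB8 m)⟩
      · rw [Function.update_of_ne hm]
        exact hB m
    refine ⟨hpos, fun m => ?_⟩
    by_cases hm : m = n
    · subst hm
      exact hx1.le
    · refine le_trans (htot m) (PERRON_mono hHAM M B _ hB hpos (fun k => ?_) m
        (Function.update_of_ne hm _ _))
      by_cases hk : k = n
      · subst hk
        rw [Function.update_self]
        exact hx3'.le
      · rw [Function.update_of_ne hk]
  have := hBle ⟨_, hF⟩ n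
  dsimp only at this
  rw [Function.update_self] at this
  linarith

end H637F
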