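import Pool.Agent.H637R3.DF.Stm

/-! PEX (helper338): existence of the bounded packing. -/

namespace H637F

open Real

private theorem PEX_GT {c : ℕ → ℂ} {ty : ℕ → ℕ} {x y z : ℕ} (h : D3 ty x y z)
    (hx : ‖c x - pp (ty x)‖ ≤ 1 / 10) (hy : ‖c y - pp (ty y)‖ ≤ 1 / 10)
    (hz : ‖c z - pp (ty z)‖ ≤ 1 / 10) : GT c ty x y z := by
  obtain ⟨h1, h2, h3, h4, h5, h6⟩ := h
  exact ⟨h4, h5, h6, h1, h2, h3, hx, hy, hz⟩

private theorem PEX_JJ {n : ℕ} (hn : 1 ≤ n) : 1 < JJ n := by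
  unfold JJ
  rw [if_neg (by omega)]
  have : 1 ≤ 2 ^ n := Nat.one_le_two_pow
  omega

private theorem PEX_MM (n : ℕ) : 1 ≤ MM n := by
  induction n with
  | zero => exact le_refl 1
  | succ n ih =>
    show 1 ≤ MM n + (8 * JJ n + 50)
    omega

theorem PEX (hTYG : S_TYG) (hRREC : S_RREC) (hLAYE : S_LAYE) (hNEAR : S_NEAR) (hBND : S_BND)
    (hMMG : S_MMG) : S_PEX := by
  obtain ⟨ty, G, hTG⟩ := hTYG
  obtain ⟨r, hRR⟩ := hRREC ty G hTG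
  obtain ⟨c, h0, h1, htri⟩ := hLAYE MM r hMMG hRR.pos hRR.tt
  have h1' : c 1 = 1 := by
    rw [h1, hRR.z0, hRR.z1]
    push_cast
    norm_num
  obtain ⟨hn2, hnear⟩ := hNEAR ty G r c hTG hRR h0 h1' htri
  have hbdd := hBND ty G r c hTG hRR htri hn2 hnear
  refine ⟨r, c, ty, G, ⟨hRR.pos, htri, hbdd, hTG.g1, ?_, ?_, ?_, ?_⟩⟩
  · refine PEX_GT ?_ (hn2 0 (by norm_num)) (hn2 1 (by norm_num)) (hn2 2 le_rfl)
    unfold D3
    rw [hTG.t0, hTG.t1, hTG.t2]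
    norm_num
  · intro n hn hG
    have hk := hnear n hG
    have hG1 := (hTG.right1 n hn hG 1 le_rfl (PEX_JJ hn)).1
    have hk1 := (hnear _ hG1).2
    rw [Nat.sub_add_cancel (PEX_MM (n + 1))] at hk1
    exact PEX_GT (hTG.right0 n hn hG) hk.1 hk1 hk.2
  · intro n hn hG i hi1 hi2
    obtain ⟨hG1, hD⟩ := hTG.right1 n hn hG i hi1 hi2
    exact ⟨hG1, PEX_GT hD (hnear n hG).1 (hnear _ hG1).1 (hnear _ hG1).2⟩
  · intro n hn hG i hi
    obtain ⟨hG1, hD⟩ := hTG.left1 n hn hG i hi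
    have hk := (hnear _ hG).2
    rw [Nat.sub_add_cancel (by omega : 1 ≤ n)] at hk
    exact ⟨hG1, PEX_GT hD hk (hnear _ hG1).1 (hnear _ hG1).2⟩

end H637F
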