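import Pool.Agent.H637R3.DF.Stm

/-! POLANY: polar coordinates of any point (helper747). -/

namespace H637F

open Real

theorem POLANY_exp (X E F P : V3) (h : Frame X E F) :
    P = (-mink X P) • X + (mink E P • E + mink F P • F) := by
  obtain ⟨x1, x2, x3⟩ := X
  obtain ⟨e1, e2, e3⟩ := E
  obtain ⟨f1, f2, f3⟩ := F
  obtain ⟨p1, p2, p3⟩ := P
  obtain ⟨hXX, hEE, hFF, hXE, hXF, hEF, hdet⟩ := h
  simp only [mink, det3] at hXX hEE hFF hXE hXF hEF hdet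
  obtain ⟨c, hc⟩ : ∃ c : ℝ, c = -(x1 * p1 + x2 * p2 - x3 * p3) := ⟨_, rfl⟩
  obtain ⟨a, ha⟩ : ∃ a : ℝ, a = e1 * p1 + e2 * p2 - e3 * p3 := ⟨_, rfl⟩
  obtain ⟨b, hb⟩ : ∃ b : ℝ, b = f1 * p1 + f2 * p2 - f3 * p3 := ⟨_, rfl⟩
  obtain ⟨q1, hq1⟩ : ∃ q1 : ℝ, q1 = p1 - (c * x1 + (a * e1 + b * f1)) := ⟨_, rfl⟩
  obtain ⟨q2, hq2⟩ : ∃ q2 : ℝ, q2 = p2 - (c * x2 + (a * e2 + b * f2)) := ⟨_, rfl⟩
  obtain ⟨q3, hq3⟩ : ∃ q3 : ℝ, q3 = p3 - (c * x3 + (a * e3 + b * f3)) := ⟨_, rfl⟩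
  have h1 : x1 * q1 + x2 * q2 - x3 * q3 = 0 := by
    rw [hq1, hq2, hq3]
    linear_combination (-c) * hXX - a * hXE - b * hXF + hc
  have h2 : e1 * q1 + e2 * q2 - e3 * q3 = 0 := by
    rw [hq1, hq2, hq3]
    linear_combination (-c) * hXE - a * hEE - b * hEF - ha
  have h3 : f1 * q1 + f2 * q2 - f3 * q3 = 0 := by
    rw [hq1, hq2, hq3]
    linear_combination (-c) * hXF - a * hEF - b * hFF - hb
  have g1 : q1 = 0 := by
    linear_combination (e2 * f3 - e3 * f2) * h1 + (f2 * x3 - f3 * x2) * h2 +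
      (x2 * e3 - x3 * e2) * h3 - q1 * hdet
  have g2 : q2 = 0 := by
    linear_combination (e3 * f1 - e1 * f3) * h1 + (f3 * x1 - f1 * x3) * h2 +
      (x3 * e1 - x1 * e3) * h3 - q2 * hdet
  have g3 : q3 = 0 := by
    linear_combination (-((e1 * f2 - e2 * f1) * h1)) - (f1 * x2 - f2 * x1) * h2 -
      (x1 * e2 - x2 * e1) * h3 - q3 * hdet
  have k1 : p1 = -(x1 * p1 + x2 * p2 - x3 * p3) * x1 + ((e1 * p1 + e2 * p2 - e3 * p3) * e1 +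
      (f1 * p1 + f2 * p2 - f3 * p3) * f1) := by
    rw [← hc, ← ha, ← hb]
    linarith
  have k2 : p2 = -(x1 * p1 + x2 * p2 - x3 * p3) * x2 + ((e1 * p1 + e2 * p2 - e3 * p3) * e2 +
      (f1 * p1 + f2 * p2 - f3 * p3) * f2) := by
    rw [← hc, ← ha, ← hb]
    linarith
  have k3 : p3 = -(x1 * p1 + x2 * p2 - x3 * p3) * x3 + ((e1 * p1 + e2 * p2 - e3 * p3) * e3 +
      (f1 * p1 + f2 * p2 - f3 * p3) * f3) := by
    rw [← hc, ← ha, ← hb]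
    linarith
  exact Prod.ext k1 (Prod.ext k2 k3)

theorem POLANY_sq (X E F P : V3) (h : Frame X E F) (hP : mink P P = -1) :
    mink X P ^ 2 = 1 + (mink E P ^ 2 + mink F P ^ 2) := by
  have he := POLANY_exp X E F P h
  obtain ⟨c, hc⟩ : ∃ c : ℝ, c = -mink X P := ⟨_, rfl⟩
  obtain ⟨a, ha⟩ : ∃ a : ℝ, a = mink E P := ⟨_, rfl⟩
  obtain ⟨b, hb⟩ : ∃ b : ℝ, b = mink F P := ⟨_, rfl⟩
  rw [← hc, ← ha, ← hb] at he
  have e1 : mink P P = -(c ^ 2) + a ^ 2 + b ^ 2 := by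
    rw [he]
    obtain ⟨x1, x2, x3⟩ := X
    obtain ⟨e1, e2, e3⟩ := E
    obtain ⟨f1, f2, f3⟩ := F
    obtain ⟨hXX, hEE, hFF, hXE, hXF, hEF, hdet⟩ := h
    simp only [mink, det3, Prod.smul_mk, Prod.mk_add_mk, smul_eq_mul] at hXX hEE hFF hXE hXF hEF ⊢
    linear_combination c ^ 2 * hXX + a ^ 2 * hEE + b ^ 2 * hFF + 2 * a * c * hXE +
      2 * b * c * hXF + 2 * a * b * hEF
  have e2 : mink X P ^ 2 = c ^ 2 := by rw [hc]; ring
  rw [e2, ← ha, ← hb]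
  linarith

theorem POLANY_pos (X P : V3) (hX : Hyp X) (hP : Hyp P) : 0 < -mink X P := by
  obtain ⟨x1, x2, x3⟩ := X
  obtain ⟨p1, p2, p3⟩ := P
  obtain ⟨h1, h2⟩ := hX
  obtain ⟨h3, h4⟩ := hP
  simp only [mink] at h1 h2 h3 h4 ⊢
  have h5 : (x1 * p1 + x2 * p2) ^ 2 < (x3 * p3) ^ 2 := by
    have e1 : (x1 * p1 + x2 * p2) ^ 2 ≤ (x1 ^ 2 + x2 ^ 2) * (p1 ^ 2 + p2 ^ 2) := by
      nlinarith [sq_nonneg (x1 * p2 - x2 * p1)]
    have e2 : x1 ^ 2 + x2 ^ 2 = x3 ^ 2 - 1 := by linarith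
    have e3 : p1 ^ 2 + p2 ^ 2 = p3 ^ 2 - 1 := by linarith
    rw [e2, e3] at e1
    have e4 : 0 ≤ x3 ^ 2 - 1 := by rw [← e2]; positivity
    have e5 : 0 ≤ p3 ^ 2 - 1 := by rw [← e3]; positivity
    nlinarith
  have h6 := abs_lt_of_sq_lt_sq h5 (by positivity)
  have h7 := (abs_lt.1 h6).2
  linarith

theorem POLANY : S_POLANY := by
  intro X E F P hF hX hP
  have he := POLANY_exp X E F P hF
  have hs := POLANY_sq X E F P hF hP.1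
  have hp := POLANY_pos X P ⟨hF.1, hX⟩ hP
  obtain ⟨z, hz⟩ : ∃ z : ℂ, z = ⟨mink E P, mink F P⟩ := ⟨_, rfl⟩
  have hre : z.re = mink E P := by rw [hz]
  have him : z.im = mink F P := by rw [hz]
  have hn : ‖z‖ ^ 2 = mink E P ^ 2 + mink F P ^ 2 := by
    rw [Complex.sq_norm, Complex.normSq_apply, hre, him]
    ring
  have hC : √(1 + ‖z‖ ^ 2) = -mink X P := by
    rw [hn, ← hs, ← neg_sq, Real.sqrt_sq hp.le]
  have hcos := Complex.norm_mul_cos_arg z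
  have hsin := Complex.norm_mul_sin_arg z
  rw [hre] at hcos
  rw [him] at hsin
  have hfin : ∀ θ : ℝ, ‖z‖ * Real.cos θ = mink E P → ‖z‖ * Real.sin θ = mink F P →
      P = pol X E F (√(1 + ‖z‖ ^ 2)) ‖z‖ θ := by
    intro θ h1 h2
    rw [hC, pol, smul_add, smul_smul, smul_smul, h1, h2]
    exact he
  by_cases h0 : 0 ≤ Complex.arg z
  · refine ⟨‖z‖, Complex.arg z, norm_nonneg _, h0, ?_, hfin _ hcos hsin⟩
    have := Complex.arg_le_pi z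
    have := Real.pi_pos
    linarith
  · push Not at h0
    refine ⟨‖z‖, Complex.arg z + 2 * π, norm_nonneg _, ?_, by linarith, hfin _ ?_ ?_⟩
    · have := Complex.neg_pi_lt_arg z
      have := Real.pi_pos
      linarith
    · rw [Real.cos_add_two_pi, hcos]
    · rw [Real.sin_add_two_pi, hsin]

end H637F
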