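import Pool.Agent.H637R3.DF.Stm

namespace H637F

open Real

theorem POLN (hLAWH2 : S_LAWH2) (hFRAME : S_FRAME) (hFLOA : S_FLOA) : S_POLN := by
  intro M b X hL n
  obtain ⟨hdeg, hface⟩ := hFLOA M hL.good n
  have hb1 : ∀ k, b k < 1 := fun k => lt_of_le_of_lt (hL.ble k) (by norm_num)
  have h0 := hL.tri _ _ _ (hface 0 (by omega))
  obtain ⟨E, F, hEF, hX0⟩ := hFRAME (X n) (X (w M n 0)) (b n) (b (w M n 0)) (hL.hyp n)
    (hL.hyp _) (hL.bpos n) (hb1 n) (hL.bpos _) (hb1 _) h0.1
  refine ⟨E, F, fun i => ∑ j ∈ Finset.range i,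
    ha (b n) (b (w M n j)) (b (w M n ((j + 1) % deg M n))), hEF, ?_, ?_, ?_, ?_⟩
  · simp
  · exact hL.tt n
  · intro i _
    exact Finset.sum_range_succ _ _
  · intro i
    induction i with
    | zero =>
      intro _
      simpa using hX0
    | succ i ih =>
      intro hi
      have hi' : i < deg M n := by omega
      have hX := ih hi'
      have hT := hL.tri _ _ _ (hface i hi')
      have hmod : (i + 1) % deg M n = i + 1 := Nat.mod_eq_of_lt hi
      rw [hmod] at hT
      rw [hX] at hT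
      have := hLAWH2 (X n) E F (X (w M n (i + 1))) (b n) (b (w M n i)) (b (w M n (i + 1)))
        _ hEF (hL.hyp n).2 (hL.hyp _) (hL.bpos n) (hb1 n) (hL.bpos _) (hb1 _) (hL.bpos _) (hb1 _) hT
      simp only [Finset.sum_range_succ]
      rw [hmod]
      exact this

end H637F
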