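import Pool.Agent.H637R3.DF.Stm

/-!
Project DF, task PSTEP: one closing step of the euclidean packing.
-/

set_option autoImplicit false

namespace H637F

open Real

theorem PSTEP_ea_mono {r s s' t t' : ℝ} (hr : 0 < r) (hs : 0 < s) (hss : s ≤ s') (ht : 0 < t)
    (htt : t ≤ t') : ea r s t ≤ ea r s' t' := by
  unfold ea
  refine mul_le_mul_of_nonneg_left ?_ (by norm_num)
  refine Real.monotone_arcsin (Real.sqrt_le_sqrt ?_)
  have h : ∀ a b : ℝ, 0 < a → a ≤ b → a / (r + a) ≤ b / (r + b) := by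
    intro a b ha hab
    rw [div_le_div_iff₀ (by linarith) (by linarith)]
    nlinarith
  have e : ∀ a b : ℝ, a * b / ((r + a) * (r + b)) = a / (r + a) * (b / (r + b)) := by
    intro a b
    rw [div_mul_div_comm]
  rw [e, e]
  refine mul_le_mul (h s s' hs hss) (h t t' ht htt) ?_ ?_
  · exact div_nonneg ht.le (by linarith)
  · exact div_nonneg (by linarith) (by linarith)

theorem PSTEP_ea_diag {r s : ℝ} (hr : 0 < r) (hs : 0 < s) : ea r s s = 2 * arcsin (s / (r + s)) := by
  unfold ea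
  have h : s * s / ((r + s) * (r + s)) = (s / (r + s)) ^ 2 := by
    rw [div_pow, pow_two, pow_two]
  rw [h, Real.sqrt_sq (by positivity)]

theorem PSTEP_hi {r : ℝ} (hr : 0 < r) : 2 / 5 ≤ ea r (r / 4) (r / 4) := by
  rw [PSTEP_ea_diag hr (by positivity)]
  have h : r / 4 / (r + r / 4) = 1 / 5 := by field_simp; norm_num
  rw [h]
  have hpi := Real.pi_gt_three
  have h1 : (1 / 5 : ℝ) ≤ arcsin (1 / 5) := by
    rw [Real.le_arcsin_iff_sin_le' ⟨by linarith, by linarith⟩]
    exact Real.sin_le (by norm_num)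
  linarith

theorem PSTEP_lo {r : ℝ} (hr : 0 < r) : ea r (r / 40) (r / 40) ≤ 1 / 10 := by
  rw [PSTEP_ea_diag hr (by positivity)]
  have h : r / 40 / (r + r / 40) = 1 / 41 := by field_simp; norm_num
  rw [h]
  have hpi := Real.pi_gt_three
  have h1 : arcsin (1 / 41) ≤ 1 / 20 := by
    rw [Real.arcsin_le_iff_le_sin' ⟨by linarith, by linarith⟩]
    have := Real.sin_gt_sub_cube (x := 1 / 20) (by norm_num)
    norm_num at this ⊢
    linarith
  linarith

theorem PSTEP_inn (hMGR : S_MGR) (hMMG : S_MMG) (n i : ℕ) (hi : i < iot MM n) :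
    inn MM n i ≤ MM n := by
  obtain ⟨-, h1, h2⟩ := hMGR MM hMMG
  have hp : par MM n ≤ n := Nat.findGreatest_le n
  have h1n := h1 n
  unfold iot at hi
  unfold inn
  by_cases h0 : n = 0
  · rw [if_pos h0] at hi
    omega
  · by_cases hn1 : n = 1
    · rw [if_pos hn1]
      have := h2 n (by omega)
      split_ifs <;> omega
    · rw [if_neg hn1]
      split_ifs <;> omega

theorem PSTEP_w (hMGR : S_MGR) (hMMG : S_MMG) (n i : ℕ) (hi : i < deg MM n) :
    w MM n i ≤ MM (n + 1) := by
  have hle : MM n ≤ MM (n + 1) := ((hMGR MM hMMG).1 (Nat.lt_succ_self n)).le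
  unfold w
  unfold deg at hi
  split_ifs with h
  · exact (PSTEP_inn hMGR hMMG n i h).trans hle
  · omega

open Classical in
/-- the radii with the common radius `s` of the free vertices -/
noncomputable def PSTEP_R (ty : ℕ → ℕ) (G : ℕ → Prop) (n : ℕ) (r : ℕ → ℝ) (s : ℝ) (j : ℕ) : ℝ :=
  if j ≤ MM n then r j else if GC G n j then rho ty j else s

theorem PSTEP_R_pos (ty : ℕ → ℕ) (G : ℕ → Prop) (n : ℕ) (r : ℕ → ℝ) (hr : ∀ k, 0 < r k) {s : ℝ}
    (hs : 0 < s) (j : ℕ) : 0 < PSTEP_R ty G n r s j := by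
  unfold PSTEP_R
  split_ifs
  · exact hr j
  · unfold rho
    split_ifs
    · positivity
    · norm_num
  · exact hs

theorem PSTEP_R_mono (ty : ℕ → ℕ) (G : ℕ → Prop) (n : ℕ) (r : ℕ → ℝ) {s s' : ℝ} (h : s ≤ s')
    (j : ℕ) : PSTEP_R ty G n r s j ≤ PSTEP_R ty G n r s' j := by
  unfold PSTEP_R
  split_ifs
  · exact le_rfl
  · exact le_rfl
  · exact h

theorem PSTEP_R_cont (ty : ℕ → ℕ) (G : ℕ → Prop) (n : ℕ) (r : ℕ → ℝ) (j : ℕ) :
    Continuous fun s => PSTEP_R ty G n r s j := by
  unfold PSTEP_R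
  split_ifs
  · exact continuous_const
  · exact continuous_const
  · exact continuous_id

theorem PSTEP_ea_cont {a b c : ℝ → ℝ} {K : Set ℝ} (ha : ContinuousOn a K) (hb : ContinuousOn b K)
    (hc : ContinuousOn c K) (ha0 : ∀ s ∈ K, 0 < a s) (hb0 : ∀ s ∈ K, 0 < b s)
    (hc0 : ∀ s ∈ K, 0 < c s) : ContinuousOn (fun s => ea (a s) (b s) (c s)) K := by
  unfold ea
  refine continuousOn_const.mul ?_
  refine Real.continuous_arcsin.comp_continuousOn ?_
  refine Real.continuous_sqrt.comp_continuousOn ?_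
  refine ContinuousOn.div (hb.mul hc) ((ha.add hb).mul (ha.add hc)) ?_
  intro s hs
  have h1 := ha0 s hs
  have h2 := hb0 s hs
  have h3 := hc0 s hs
  positivity

theorem PSTEP (hMGR : S_MGR) (hMMG : S_MMG) : S_PSTEP := by
  intro ty G hTG n r hr
  have hrn := hr n
  obtain ⟨-, hM1, -⟩ := hMGR MM hMMG
  have hnM : n ≤ MM n := by have := hM1 n; omega
  have hstep : MM (n + 1) = MM n + (8 * JJ n + 50) := rfl
  have hdeg : deg MM n = iot MM n + (8 * JJ n + 50 + 1) := by
    unfold deg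
    rw [hstep]
    omega
  have hRn : ∀ s, PSTEP_R ty G n r s n = r n := by
    intro s
    unfold PSTEP_R
    rw [if_pos hnM]
  obtain ⟨f, hf⟩ : ∃ f : ℝ → ℝ, f = fun s => tot ea MM (PSTEP_R ty G n r s) n := ⟨_, rfl⟩
  obtain ⟨a, ha⟩ : ∃ a, a = r n / 40 := ⟨_, rfl⟩
  obtain ⟨b, hb⟩ : ∃ b, b = r n / 4 := ⟨_, rfl⟩
  have ha0 : 0 < a := by rw [ha]; positivity
  have hb0 : 0 < b := by rw [hb]; positivity
  have hab : a ≤ b := by rw [ha, hb]; linarith
  -- continuity
  have hfc : ContinuousOn f (Set.Icc a b) := by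
    rw [hf]
    unfold tot
    refine continuousOn_finsetSum _ ?_
    intro i _
    refine PSTEP_ea_cont (PSTEP_R_cont ty G n r _).continuousOn
      (PSTEP_R_cont ty G n r _).continuousOn (PSTEP_R_cont ty G n r _).continuousOn ?_ ?_ ?_
    · intro s hs
      exact PSTEP_R_pos ty G n r hr (lt_of_lt_of_le ha0 hs.1) _
    · intro s hs
      exact PSTEP_R_pos ty G n r hr (lt_of_lt_of_le ha0 hs.1) _
    · intro s hs
      exact PSTEP_R_pos ty G n r hr (lt_of_lt_of_le ha0 hs.1) _
  -- free vertices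
  have hfree : ∀ s m, JJ n + 2 ≤ m → m ≤ JJ n + 50 → PSTEP_R ty G n r s (MM n + m) = s := by
    intro s m h1 h2
    unfold PSTEP_R
    rw [if_neg (by omega), if_neg]
    rintro (⟨h3, h4⟩ | ⟨h3, h4, h5, h6⟩ | ⟨h3, h4, h5, h6⟩)
    · rw [h3] at h4 h1
      have : MM 0 = 1 := rfl
      omega
    · omega
    · rw [hstep] at h5
      omega
  -- growth
  have hgrow : f a + 48 * (3 / 10) ≤ f b := by
    have h1 : (48 : ℝ) * (3 / 10) ≤ ∑ i ∈ Finset.range (deg MM n),
        (ea (PSTEP_R ty G n r b n) (PSTEP_R ty G n r b (w MM n i))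
          (PSTEP_R ty G n r b (w MM n ((i + 1) % deg MM n))) -
        ea (PSTEP_R ty G n r a n) (PSTEP_R ty G n r a (w MM n i))
          (PSTEP_R ty G n r a (w MM n ((i + 1) % deg MM n)))) := by
      have hsub : Finset.Ico (iot MM n + (JJ n + 2)) (iot MM n + (JJ n + 50)) ⊆
          Finset.range (deg MM n) := by
        intro i hi
        rw [Finset.mem_Ico] at hi
        rw [Finset.mem_range, hdeg]
        omega
      refine le_trans ?_ (Finset.sum_le_sum_of_subset_of_nonneg hsub ?_)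
      · have hcard : (Finset.Ico (iot MM n + (JJ n + 2)) (iot MM n + (JJ n + 50))).card = 48 := by
          rw [Nat.card_Ico]
          omega
        have h2 := Finset.card_nsmul_le_sum
          (Finset.Ico (iot MM n + (JJ n + 2)) (iot MM n + (JJ n + 50)))
          (fun i => (ea (PSTEP_R ty G n r b n) (PSTEP_R ty G n r b (w MM n i))
          (PSTEP_R ty G n r b (w MM n ((i + 1) % deg MM n))) -
          ea (PSTEP_R ty G n r a n) (PSTEP_R ty G n r a (w MM n i))
          (PSTEP_R ty G n r a (w MM n ((i + 1) % deg MM n))))) (3 / 10) ?_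
        · rw [hcard, nsmul_eq_mul] at h2
          exact_mod_cast h2
        · intro i hi
          rw [Finset.mem_Ico] at hi
          have hmod : (i + 1) % deg MM n = i + 1 := Nat.mod_eq_of_lt (by rw [hdeg]; omega)
          have hw : ∀ i, iot MM n ≤ i → w MM n i = MM n + (i - iot MM n) := by
            intro i hi
            unfold w
            rw [if_neg (by omega)]
          rw [hmod, hw i (by omega), hw (i + 1) (by omega), hRn, hRn,
            hfree b _ (by omega) (by omega), hfree b _ (by omega) (by omega),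
            hfree a _ (by omega) (by omega), hfree a _ (by omega) (by omega), ha, hb]
          have g1 := PSTEP_hi hrn
          have g2 := PSTEP_lo hrn
          linarith
      · intro i _ _
        rw [hRn, hRn]
        have := PSTEP_ea_mono hrn (PSTEP_R_pos ty G n r hr ha0 (w MM n i))
          (PSTEP_R_mono ty G n r hab (w MM n i))
          (PSTEP_R_pos ty G n r hr ha0 (w MM n ((i + 1) % deg MM n)))
          (PSTEP_R_mono ty G n r hab (w MM n ((i + 1) % deg MM n)))
        linarith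
    rw [Finset.sum_sub_distrib] at h1
    rw [hf]
    unfold tot
    linarith
  have hpi := Real.pi_lt_d2
  have hpi0 := Real.pi_pos
  -- the multiple of `2 π`
  have hk1 : f a ≤ 2 * π * (⌈f a / (2 * π)⌉ : ℤ) := by
    have := Int.le_ceil (f a / (2 * π))
    rw [div_le_iff₀ (by positivity)] at this
    linarith
  have hk2 : 2 * π * (⌈f a / (2 * π)⌉ : ℤ) ≤ f b := by
    have h1 := Int.ceil_lt_add_one (f a / (2 * π))
    have h2 : 2 * π * (⌈f a / (2 * π)⌉ : ℤ) < 2 * π * (f a / (2 * π) + 1) :=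
      mul_lt_mul_of_pos_left h1 (by positivity)
    have h3 : 2 * π * (f a / (2 * π) + 1) = f a + 2 * π := by field_simp
    linarith
  obtain ⟨s, hs, hfs⟩ := intermediate_value_Icc hab hfc ⟨hk1, hk2⟩
  refine ⟨s, ⌈f a / (2 * π)⌉, lt_of_lt_of_le ha0 hs.1, hs.2.trans (le_of_eq hb), ?_⟩
  intro r' h1 h2 h3
  rw [← hfs, hf]
  have hr' : ∀ j, j ≤ MM (n + 1) → r' j = PSTEP_R ty G n r s j := by
    intro j hj
    unfold PSTEP_R
    split_ifs with g1 g2
    · exact h1 j g1
    · exact h2 j (by omega) hj g2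
    · exact h3 j (by omega) hj g2
  show tot ea MM r' n = tot ea MM (PSTEP_R ty G n r s) n
  unfold tot
  refine Finset.sum_congr rfl ?_
  intro i hi
  rw [Finset.mem_range] at hi
  rw [hr' n (by omega), hr' _ (PSTEP_w hMGR hMMG n i hi),
    hr' _ (PSTEP_w hMGR hMMG n _ (Nat.mod_lt _ (by omega)))]

end H637F
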