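import Pool.Agent.H637R3.DF.Stm

namespace H637F

private lemma R1_det (X E F : V3) (hF : Frame X E F) (C S θ C' S' φ : ℝ) :
    det3 X (pol X E F C S θ) (pol X E F C' S' φ) = S * S' * Real.sin (φ - θ) := by
  have h1 : det3 X E F = 1 := hF.2.2.2.2.2.2
  have h2 : det3 X (pol X E F C S θ) (pol X E F C' S' φ) =
      S * S' * Real.sin (φ - θ) * det3 X E F := by
    rw [Real.sin_sub]
    unfold det3 pol
    simp only [Prod.fst_add, Prod.snd_add, Prod.smul_fst, Prod.smul_snd, smul_eq_mul]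
    ring
  rw [h2, h1, mul_one]

private lemma R1_cyc (X Y Z : V3) : det3 Z X Y = det3 X Y Z := by
  unfold det3
  ring

private lemma R1_Sh {a b : ℝ} (ha : 0 < a) (ha' : a ≤ 1 / 8) (hb : 0 < b) (hb' : b ≤ 1 / 8) :
    0 ≤ Sh a b := by
  unfold Sh
  apply div_nonneg _ (by positivity)
  have h1 : a * b ≤ 1 := by nlinarith
  have h2 : 0 ≤ a * b := by positivity
  nlinarith

theorem R1 (hPOLN : S_POLN) (hPOLANY : S_POLANY) (hHAB : S_HAB) : S_R1 := by
  intro M b X h P hP hR
  obtain ⟨E, F, θ, hF, h0, hd, hstep, hpos⟩ := hPOLN M b X h 0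
  have hiot : iot M 0 = 0 := by unfold iot; simp
  have hM0 : M 0 = 1 := h.good.zero
  have hM1 : 51 ≤ M 1 := by
    have := h.good.step 0
    rw [zero_add] at this
    omega
  have hdeg : deg M 0 = M 1 := by
    unfold deg
    rw [hiot, hM0]
    simp only [zero_add]
    omega
  have hw : ∀ i, w M 0 i = 1 + i := by
    intro i
    unfold w
    rw [hiot, if_neg (Nat.not_lt_zero _), hM0, Nat.sub_zero]
  have hX0 : 0 < (X 0).2.2 := (h.hyp 0).2
  obtain ⟨S, φ, hS, hφ0, hφ1, hPeq⟩ := hPOLANY (X 0) E F P hF hX0 hP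
  -- choose the sector
  obtain ⟨i, hi, hi1, hi2⟩ : ∃ i, i < deg M 0 ∧ θ i ≤ φ ∧ φ < θ (i + 1) := by
    have hex : ∃ k, φ < θ k := ⟨deg M 0, by rw [hd]; exact hφ1⟩
    classical
    have hk := Nat.find_spec hex
    have hk0 : Nat.find hex ≠ 0 := by
      intro h'
      rw [h', h0] at hk
      linarith
    have hkd : Nat.find hex ≤ deg M 0 := Nat.find_min' hex (by rw [hd]; exact hφ1)
    refine ⟨Nat.find hex - 1, by omega, ?_, ?_⟩
    · have := Nat.find_min hex (m := Nat.find hex - 1) (by omega)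
      exact not_lt.mp this
    · have e : Nat.find hex - 1 + 1 = Nat.find hex := by omega
      rw [e]
      exact hk
  have hb := h.bpos
  have hb' := h.ble
  have hha := hHAB (b 0) (b (w M 0 i)) (b (w M 0 ((i + 1) % deg M 0))) (hb _) (hb' _) (hb _)
    (hb' _) (hb _) (hb' _)
  have hst := hstep i hi
  have hsmall : θ (i + 1) - θ i ≤ 1 := by
    have := hb' 0
    linarith [hha.2]
  have hpi : (1 : ℝ) ≤ Real.pi := by linarith [Real.pi_gt_three]
  set j := (i + 1) % deg M 0 with hj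
  have hjd : j < deg M 0 := Nat.mod_lt _ (by omega)
  have hXi := hpos i hi
  have hXj := hpos j hjd
  have hsinj : Real.sin (θ j - φ) = Real.sin (θ (i + 1) - φ) := by
    rcases Nat.lt_or_ge (i + 1) (deg M 0) with hlt | hge
    · rw [hj, Nat.mod_eq_of_lt hlt]
    · have e : i + 1 = deg M 0 := by omega
      rw [hj, e, Nat.mod_self, h0, hd]
      have : (2 : ℝ) * Real.pi - φ = 0 - φ + 2 * Real.pi := by ring
      rw [this, Real.sin_add_two_pi]
  have d1 : 0 ≤ det3 (X 0) (X (w M 0 i)) P := by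
    rw [hXi, hPeq, R1_det (X 0) E F hF]
    apply mul_nonneg (mul_nonneg (R1_Sh (hb _) (hb' _) (hb _) (hb' _)) hS)
    apply Real.sin_nonneg_of_nonneg_of_le_pi <;> linarith
  have d3 : 0 ≤ det3 (X (w M 0 j)) (X 0) P := by
    rw [← R1_cyc (X (w M 0 j)) (X 0) P, ← R1_cyc P (X (w M 0 j)) (X 0)]
    rw [hXj, hPeq, R1_det (X 0) E F hF, hsinj]
    apply mul_nonneg (mul_nonneg hS (R1_Sh (hb _) (hb' _) (hb _) (hb' _)))
    apply Real.sin_nonneg_of_nonneg_of_le_pi <;> linarith
  have hreg := hR (w M 0 i) (by rw [hw]; omega) (by rw [hw]; omega)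
  rcases Nat.lt_or_ge (i + 1) (deg M 0) with hlt | hge
  · have ej : w M 0 j = w M 0 i + 1 := by
      rw [hj, Nat.mod_eq_of_lt hlt, hw, hw]; omega
    refine ⟨w M 0 i, w M 0 i + 1, ⟨0, Or.inl ⟨w M 0 i, ?_, ?_, rfl⟩⟩, d1, ?_, ?_⟩
    · rw [hw, hM0]; omega
    · rw [hw]
      show 1 + i < M 1
      omega
    · have hn : nx M 1 (w M 0 i) = w M 0 i + 1 := by
        unfold nx
        rw [if_pos]
        rw [hw]; omega
      rw [hn] at hreg
      exact hreg
    · rw [ej] at d3
      exact d3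
  · have e : i + 1 = deg M 0 := by omega
    have ei : w M 0 i = M 1 := by rw [hw]; omega
    have ej : w M 0 j = 1 := by
      rw [hj, e, Nat.mod_self, hw]
    refine ⟨M 1, 1, ⟨0, Or.inr rfl⟩, ?_, ?_, ?_⟩
    · rw [ei] at d1; exact d1
    · have hn : nx M 1 (w M 0 i) = 1 := by
        unfold nx
        rw [if_neg]
        rw [hw]; omega
      rw [hn, ei] at hreg
      exact hreg
    · rw [ej] at d3
      exact d3

end H637F
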