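import Pool.Agent.H637R3.DF.Stm

namespace H637F

open Real

open Classical in
/-- the radii after the step `n` -/
private noncomputable def rrecR (ty : ℕ → ℕ) (G : ℕ → Prop) (s : ℕ → (ℕ → ℝ) → ℝ) :
    ℕ → ℕ → ℝ
  | 0 => fun _ => 1
  | n + 1 => fun j => if j ≤ MM n then rrecR ty G s n j else
      if GC G n j then rho ty j else s n (rrecR ty G s n)

private theorem rrec_gc {G : ℕ → Prop} {n k : ℕ} (h : GC G n k) : MM n < k ∧ k ≤ MM (n + 1) := by
  have h1 : MM (n + 1) = MM n + (8 * JJ n + 50) := rfl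
  rcases h with ⟨rfl, rfl⟩ | ⟨_, _, h2, h3⟩ | ⟨_, _, h2, h3⟩
  · have h0 : MM 0 = 1 := rfl
    rw [h1, h0]
    exact ⟨by omega, by omega⟩
  · exact ⟨h2, by omega⟩
  · exact ⟨by omega, h3⟩

private theorem rrec_rho (ty : ℕ → ℕ) (k : ℕ) : 0 < rho ty k ∧ rho ty k ≤ 1 := by
  unfold rho
  split_ifs
  · refine ⟨by positivity, ?_⟩
    have h1 : ((1 : ℝ) / 16) ^ k ≤ 1 := pow_le_one₀ (by norm_num) (by norm_num)
    have h2 : (0 : ℝ) ≤ (1 / 16) ^ k := by positivity
    nlinarith
  · exact ⟨one_pos, le_rfl⟩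

theorem RREC (hPSTEP : S_PSTEP) (hMGR : S_MGR) (_hPAR : S_PAR) (hMMG : S_MMG) : S_RREC := by
  classical
  intro ty G hTG
  obtain ⟨hmono, hMn, -⟩ := hMGR MM hMMG
  choose s k hs0 hs1 hs2 using hPSTEP ty G hTG
  set s' : ℕ → (ℕ → ℝ) → ℝ := fun n r => if h : ∀ k, 0 < r k then s n r h else 1 with hs'
  set R := rrecR ty G s' with hR
  have hRs : ∀ n j, R (n + 1) j = if j ≤ MM n then R n j else
      if GC G n j then rho ty j else s' n (R n) := fun n j => rfl
  have hpos : ∀ n j, 0 < R n j := by
    intro n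
    induction n with
    | zero => intro j; exact one_pos
    | succ n ih =>
      intro j
      rw [hRs]
      split_ifs with h1 h2
      · exact ih j
      · exact (rrec_rho ty j).1
      · simp only [hs', dif_pos ih]
        exact hs0 n _ ih
  have hsn : ∀ n, s' n (R n) = s n (R n) (hpos n) := fun n => by
    simp only [hs', dif_pos (hpos n)]
  have hle : ∀ n j, R n j ≤ 1 := by
    intro n
    induction n with
    | zero => intro j; exact le_rfl
    | succ n ih =>
      intro j
      rw [hRs]
      split_ifs with h1 h2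
      · exact ih j
      · exact (rrec_rho ty j).2
      · rw [hsn]
        have := hs1 n _ (hpos n)
        have := ih n
        linarith
  have hst : ∀ n m, n ≤ m → ∀ j, j ≤ MM n → R m j = R n j := by
    intro n m hnm
    induction m, hnm using Nat.le_induction with
    | base => intro j _; rfl
    | succ m hm ih =>
      intro j hj
      rw [hRs, if_pos (hj.trans (hmono.monotone hm)), ih j hj]
  have hr : ∀ n j, j ≤ MM n → R j j = R n j := by
    intro n j hj
    rcases le_total j n with h | h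
    · exact (hst j n h j (by have := hMn j; omega)).symm
    · exact hst n j h j hj
  refine ⟨fun j => R j j, ?_, ?_, fun n => hpos n n, fun n => hle n n, ?_, ?_, ?_⟩
  · rfl
  · change R 1 1 = 1
    rw [hRs, if_pos (show 1 ≤ MM 0 from le_refl 1)]
    rfl
  · intro n
    refine ⟨k n _ (hpos n), hs2 n _ (hpos n) _ (fun j hj => hr n j hj) (fun j h1 h2 h3 => ?_)
      (fun j h1 h2 h3 => ?_)⟩
    · change R j j = _
      rw [hr (n + 1) j h2, hRs, if_neg (by omega), if_pos h3]
    · change R j j = _
      rw [hr (n + 1) j h2, hRs, if_neg (by omega), if_neg h3, hsn]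
  · intro n k h
    obtain ⟨h1, h2⟩ := rrec_gc h
    change R k k = _
    rw [hr (n + 1) k h2, hRs, if_neg (by omega), if_pos h]
  · intro n k h1 h2 h3
    change R k k ≤ R n n / 4
    rw [hr (n + 1) k h2, hRs, if_neg (by omega), if_neg h3, hsn]
    exact hs1 n _ (hpos n)

end H637F
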