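import Pool.Agent.H637R3.DF.Stm

/-! Task RS (author helper171): the new points are covered. -/

namespace H637F

open Real

theorem RS_det (X E F : V3) (hF : Frame X E F) (C S C' S' θ θ' : ℝ) :
    det3 X (pol X E F C S θ) (pol X E F C' S' θ') = S * S' * Real.sin (θ' - θ) := by
  obtain ⟨-, -, -, -, -, -, h⟩ := hF
  rw [Real.sin_sub]
  unfold det3 at h
  simp only [det3, pol, Prod.fst_add, Prod.snd_add, Prod.smul_fst, Prod.smul_snd, smul_eq_mul]
  linear_combination (S * S' * (Real.sin θ' * Real.cos θ - Real.cos θ' * Real.sin θ)) * h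

theorem RS_cyc (X Y Z : V3) : det3 X Y Z = det3 Y Z X := by
  unfold det3; ring

theorem RS_iot (M : ℕ → ℕ) (n : ℕ) : iot M n ≤ 4 := by
  unfold iot; split_ifs <;> omega

theorem RS_iot1 (M : ℕ → ℕ) (n : ℕ) (hn : 1 ≤ n) : 1 ≤ iot M n := by
  unfold iot; split_ifs <;> omega

theorem RS_w0 (M : ℕ → ℕ) (n : ℕ) (hn : 1 ≤ n) : w M n 0 = n + 1 := by
  unfold w inn
  have h0 : 0 < iot M n := RS_iot1 M n hn
  rw [if_pos h0]
  by_cases h1 : n = 1
  · rw [if_pos h1]; simp [h1]
  · rw [if_neg h1]; simp

theorem RS_Sh (a b : ℝ) (ha : 0 < a) (ha' : a ≤ 1 / 8) (hb : 0 < b) (hb' : b ≤ 1 / 8) :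
    0 < Sh a b := by
  unfold Sh
  apply div_pos
  · have h1 : a ^ 2 ≤ 1 := by nlinarith
    have h2 : b ^ 2 ≤ 1 / 64 := by nlinarith
    nlinarith [sq_nonneg a, sq_nonneg b, mul_le_mul h1 h2 (sq_nonneg b) zero_le_one]
  · positivity

theorem RS (hPOLN : S_POLN) (hPOLANY : S_POLANY) (hHAB : S_HAB) (hMGR : S_MGR) : S_RS := by
  intro M b X hL n hn P hP hR
  have hG := hL.good
  obtain ⟨hmono, hM1, -⟩ := hMGR M hG
  obtain ⟨E, F, θ, hF, h0, hdeg, hstep, hpol⟩ := hPOLN M b X hL n
  obtain ⟨S, ph, hS, hph0, hph1, hPp⟩ := hPOLANY (X n) E F P hF (hL.hyp n).2 hP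
  have hbn := hL.bpos
  have hbl := hL.ble
  have hdegv : deg M n = iot M n + (M (n + 1) - M n + 1) := rfl
  have hMlt : M n < M (n + 1) := hmono (Nat.lt_succ_self n)
  have hMn : n + 1 ≤ M n := hM1 n
  have hpi := Real.pi_gt_three
  -- step bounds
  have hst : ∀ i, i < deg M n → 0 ≤ θ (i + 1) - θ i ∧ θ (i + 1) - θ i ≤ 2.02 / 8 := by
    intro i hi
    rw [hstep i hi]
    have := hHAB (b n) (b (w M n i)) (b (w M n ((i + 1) % deg M n))) (hbn _) (hbl _) (hbn _)
      (hbl _) (hbn _) (hbl _)
    have h1 := hbn n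
    have h2 := hbl n
    constructor
    · linarith [this.1]
    · linarith [this.2]
  have hiotdeg : iot M n < deg M n := by omega
  have hPhb : ∀ i, i ≤ iot M n → θ i ≤ i * (2.02 / 8) := by
    intro i
    induction i with
    | zero => intro _; rw [h0]; simp
    | succ i ih =>
      intro hi
      have h1 := ih (by omega)
      have h2 := (hst i (by omega)).2
      push_cast
      linarith
  have hPh : θ (iot M n) < π := by
    have h1 := hPhb (iot M n) le_rfl
    have h2 : (iot M n : ℝ) ≤ 4 := by exact_mod_cast RS_iot M n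
    nlinarith
  have hwi : w M n (iot M n) = M n := by
    unfold w
    rw [if_neg (lt_irrefl _)]
    simp
  have hw0 := RS_w0 M n hn
  have hdeg0 : 0 < deg M n := by omega
  have hX1 : X (n + 1) = pol (X n) E F (Ch (b n) (b (n + 1))) (Sh (b n) (b (n + 1))) 0 := by
    have := hpol 0 hdeg0
    rw [hw0, h0] at this
    exact this
  have hXM : X (M n) = pol (X n) E F (Ch (b n) (b (M n))) (Sh (b n) (b (M n))) (θ (iot M n)) := by
    have := hpol (iot M n) hiotdeg
    rw [hwi] at this
    exact this
  rcases le_or_gt ph (θ (iot M n)) with hle | hgt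
  · left
    intro k hk1 hk2
    rcases Nat.eq_or_lt_of_le hk1 with h | h
    · subst h
      have hnx : nx M n n = n + 1 := by unfold nx; rw [if_pos (by omega)]
      rw [hnx, hX1]
      conv_rhs => rw [hPp]
      rw [RS_det _ _ _ hF]
      have h1 := RS_Sh (b n) (b (n + 1)) (hbn _) (hbl _) (hbn _) (hbl _)
      have h2 : 0 ≤ Real.sin (ph - 0) := by
        rw [sub_zero]
        exact Real.sin_nonneg_of_nonneg_of_le_pi hph0 (by linarith)
      positivity
    · rcases Nat.eq_or_lt_of_le hk2 with h' | h'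
      · rw [h']
        have hnx : nx M n (M n) = n := by unfold nx; rw [if_neg (lt_irrefl _)]
        rw [hnx, RS_cyc, hXM]
        conv_rhs => rw [hPp]
        rw [RS_det _ _ _ hF]
        have h1 := RS_Sh (b n) (b (M n)) (hbn _) (hbl _) (hbn _) (hbl _)
        have h2 : 0 ≤ Real.sin (θ (iot M n) - ph) :=
          Real.sin_nonneg_of_nonneg_of_le_pi (by linarith) (by linarith)
        positivity
      · have h3 := hR k (by omega) (by omega)
        have hnx : nx M n k = k + 1 := by unfold nx; rw [if_pos h']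
        have hnx' : nx M (n + 1) k = k + 1 := by unfold nx; rw [if_pos (by omega)]
        rw [hnx'] at h3
        rw [hnx]
        exact h3
  · right
    -- find i
    have hex : ∃ i, ph < θ (i + 1) ∧ iot M n ≤ i ∧ i < deg M n := by
      refine ⟨deg M n - 1, ?_, by omega, by omega⟩
      rw [Nat.sub_add_cancel hdeg0, hdeg]
      exact hph1
    classical
    set i := Nat.find hex with hi
    obtain ⟨hi1, hi2, hi3⟩ := Nat.find_spec hex
    rw [← hi] at hi1 hi2 hi3
    have hi4 : θ i ≤ ph := by
      rcases Nat.eq_or_lt_of_le hi2 with h | h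
      · rw [← h]; exact hgt.le
      · by_contra hcon
        push Not at hcon
        have := Nat.find_min hex (m := i - 1) (by omega)
        apply this
        refine ⟨?_, by omega, by omega⟩
        rw [Nat.sub_add_cancel (by omega)]
        exact hcon
    have hstp := hst i hi3
    have hwI : w M n i = M n + (i - iot M n) := by
      unfold w
      rw [if_neg (by omega)]
    set y := w M n i with hy
    set z := w M n ((i + 1) % deg M n) with hz
    have hXy : X y = pol (X n) E F (Ch (b n) (b y)) (Sh (b n) (b y)) (θ i) := hpol i hi3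
    have hyz : (n, y, z) ∈ BF M ∧ 0 ≤ det3 (X y) (X z) P ∧
        0 ≤ Real.sin (θ (i + 1) - ph) ∧
        ∃ t, X z = pol (X n) E F (Ch (b n) (b z)) (Sh (b n) (b z)) t ∧
          Real.sin (t - ph) = Real.sin (θ (i + 1) - ph) := by
      have hsin : 0 ≤ Real.sin (θ (i + 1) - ph) :=
        Real.sin_nonneg_of_nonneg_of_le_pi (by linarith) (by linarith [hstp.2])
      by_cases hlast : i + 1 < deg M n
      · have hmod : (i + 1) % deg M n = i + 1 := Nat.mod_eq_of_lt hlast
        have hzz : z = y + 1 := by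
          rw [hz, hmod, hwI]
          unfold w
          rw [if_neg (by omega)]
          omega
        refine ⟨⟨n, Or.inl ⟨y, by omega, by omega, by rw [hzz]⟩⟩, ?_, hsin, θ (i + 1), ?_, rfl⟩
        · have h3 := hR y (by omega) (by omega)
          have hnx' : nx M (n + 1) y = y + 1 := by unfold nx; rw [if_pos (by omega)]
          rw [hnx'] at h3
          rw [hzz]
          exact h3
        · have := hpol (i + 1) hlast
          rw [hz, hmod]
          exact this
      · have hi5 : i + 1 = deg M n := by omega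
        have hmod : (i + 1) % deg M n = 0 := by rw [hi5, Nat.mod_self]
        have hzz : z = n + 1 := by rw [hz, hmod, hw0]
        have hyy : y = M (n + 1) := by omega
        refine ⟨⟨n, Or.inr (by rw [hyy, hzz])⟩, ?_, hsin, 0, ?_, ?_⟩
        · have h3 := hR (M (n + 1)) (by omega) le_rfl
          have hnx' : nx M (n + 1) (M (n + 1)) = n + 1 := by unfold nx; rw [if_neg (lt_irrefl _)]
          rw [hnx'] at h3
          rw [hzz, hyy]
          exact h3
        · rw [hzz]; exact hX1
        · rw [hi5, hdeg]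
          have : 2 * π - ph = (0 - ph) + 2 * π := by ring
          rw [this, Real.sin_add_two_pi]
    obtain ⟨hBF, hd, hsin, t, hXz, ht⟩ := hyz
    refine ⟨y, z, hBF, ?_, hd, ?_⟩
    · rw [hXy]
      conv_rhs => rw [hPp]
      rw [RS_det _ _ _ hF]
      have h1 := RS_Sh (b n) (b y) (hbn _) (hbl _) (hbn _) (hbl _)
      have h2 : 0 ≤ Real.sin (ph - θ i) :=
        Real.sin_nonneg_of_nonneg_of_le_pi (by linarith) (by linarith [hstp.2])
      positivity
    · rw [RS_cyc, hXz]
      conv_rhs => rw [hPp]
      rw [RS_det _ _ _ hF, ht]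
      have h1 := RS_Sh (b n) (b z) (hbn _) (hbl _) (hbn _) (hbl _)
      positivity

end H637F
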