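import Pool.Agent.H637R3.DF.Stm

/-!
Project DF, task SAME: faces with the same apex.
-/

namespace H637F

open Real

private theorem SAME_idx (hMGR : S_MGR) {M : ℕ → ℕ} (hM : Good M) {n y z : ℕ}
    (h : (n, y, z) ∈ BF M) :
    ∃ i, i < deg M n ∧ y = w M n i ∧ z = w M n ((i + 1) % deg M n) := by
  obtain ⟨m, hm⟩ := h
  have hmono : M n < M (n + 1) := (hMGR M hM).1 (Nat.lt_succ_self n)
  rcases hm with ⟨j, hj1, hj2, he⟩ | he
  · obtain ⟨rfl, rfl, rfl⟩ : n = m ∧ y = j ∧ z = j + 1 := by
      simpa [Prod.ext_iff] using he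
    refine ⟨iot M n + (y - M n), ?_, ?_, ?_⟩
    · unfold deg; omega
    · unfold w
      rw [if_neg (by omega)]
      omega
    · have h1 : (iot M n + (y - M n) + 1) % deg M n = iot M n + (y - M n) + 1 := by
        apply Nat.mod_eq_of_lt
        unfold deg; omega
      rw [h1]
      unfold w
      rw [if_neg (by omega)]
      omega
  · obtain ⟨rfl, rfl, rfl⟩ : n = m ∧ y = M (m + 1) ∧ z = m + 1 := by
      simpa [Prod.ext_iff] using he
    refine ⟨iot M n + (M (n + 1) - M n), ?_, ?_, ?_⟩
    · unfold deg; omega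
    · unfold w
      rw [if_neg (by omega)]
      omega
    · have h1 : (iot M n + (M (n + 1) - M n) + 1) % deg M n = 0 := by
        have : iot M n + (M (n + 1) - M n) + 1 = deg M n := by unfold deg; omega
        rw [this, Nat.mod_self]
      rw [h1]
      unfold w
      by_cases h0 : n = 0
      · subst h0
        have : iot M 0 = 0 := by simp [iot]
        rw [this, if_neg (by omega), hM.zero]
      · have hi : 0 < iot M n := by
          unfold iot
          rw [if_neg h0]
          split_ifs <;> omega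
        rw [if_pos hi]
        unfold inn
        by_cases h1 : n = 1
        · subst h1
          simp
        · rw [if_neg h1]
          simp

private theorem SAME_det (X E F : V3) (C S C' S' a p : ℝ) (h : det3 X E F = 1) :
    det3 X (pol X E F C S a) (pol X E F C' S' p) = S * S' * Real.sin (p - a) := by
  have : det3 X (pol X E F C S a) (pol X E F C' S' p)
      = S * S' * (Real.sin p * Real.cos a - Real.cos p * Real.sin a) * det3 X E F := by
    simp only [det3, pol, Prod.fst_add, Prod.snd_add, Prod.smul_fst, Prod.smul_snd, smul_eq_mul]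
    ring
  rw [this, h, Real.sin_sub]
  ring

private theorem SAME_det' (X Y P : V3) : det3 Y X P = - det3 X Y P := by
  simp only [det3]
  ring

private theorem SAME_neg {x : ℝ} (h1 : x < 0) (h2 : -π < x) : Real.sin x < 0 :=
  Real.sin_neg_of_neg_of_neg_pi_lt h1 h2

private theorem SAME_neg' {x : ℝ} (h1 : π < x) (h2 : x < 2 * π) : Real.sin x < 0 := by
  have : Real.sin (x - 2 * π) < 0 := SAME_neg (by linarith) (by linarith)
  rwa [Real.sin_sub_two_pi] at this

private theorem SAME_strict {x d : ℝ} (hd1 : d < π) (hx1 : -(2 * π) < x)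
    (hx2 : x < 2 * π) (hx3 : -(2 * π) ≤ x - d) (h1 : 0 < Real.sin x)
    (h2 : Real.sin (x - d) < 0) (hd0 : 0 < d) : 0 < x ∧ x < d := by
  have hp := Real.pi_pos
  constructor
  · by_contra hx
    push Not at hx
    rcases lt_or_ge (-π) x with h | h
    · have := Real.sin_nonpos_of_nonpos_of_neg_pi_le hx h.le
      linarith
    · have : 0 ≤ Real.sin (x - d + 2 * π) :=
        Real.sin_nonneg_of_nonneg_of_le_pi (by linarith) (by linarith)
      rw [Real.sin_add_two_pi] at this
      linarith
  · by_contra hx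
    push Not at hx
    rcases le_or_gt (x - d) π with h | h
    · have := Real.sin_nonneg_of_nonneg_of_le_pi (sub_nonneg.2 hx) h
      linarith
    · have := SAME_neg' (x := x) (by linarith) hx2
      linarith

private theorem SAME_weak {x d : ℝ} (hd1 : d < π) (hx1 : -(2 * π) < x)
    (hx2 : x < 2 * π) (hx3 : -(2 * π) < x - d) (h1 : 0 ≤ Real.sin x)
    (h2 : Real.sin (x - d) ≤ 0) (hd0 : 0 < d) : 0 ≤ x ∧ x ≤ d := by
  have hp := Real.pi_pos
  constructor
  · by_contra hx
    push Not at hx
    rcases lt_or_ge (-π) x with h | h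
    · have := SAME_neg hx h
      linarith
    · have : 0 < Real.sin (x - d + 2 * π) :=
        Real.sin_pos_of_pos_of_lt_pi (by linarith) (by linarith)
      rw [Real.sin_add_two_pi] at this
      linarith
  · by_contra hx
    push Not at hx
    rcases lt_or_ge (x - d) π with h | h
    · have := Real.sin_pos_of_pos_of_lt_pi (sub_pos.2 hx) h
      linarith
    · have := SAME_neg' (x := x) (by linarith) hx2
      linarith

theorem SAME (hPOLN : S_POLN) (hPOLANY : S_POLANY) (hHAB : S_HAB) (hMGR : S_MGR) : S_SAME := by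
  intro M b X hL n y z y' z' hf hf' P hP hS hI
  have hp := Real.pi_pos
  have hp3 := Real.pi_gt_three
  obtain ⟨i, hi, rfl, rfl⟩ := SAME_idx hMGR hL.good hf
  obtain ⟨j, hj, rfl, rfl⟩ := SAME_idx hMGR hL.good hf'
  obtain ⟨E, F, θ, hF, h0, hd, hs, hX⟩ := hPOLN M b X hL n
  have hdet : det3 (X n) E F = 1 := hF.2.2.2.2.2.2
  obtain ⟨S, φ, hS0, hφ0, hφ1, rfl⟩ := hPOLANY (X n) E F P hF (hL.hyp n).2 hP
  -- increments
  have hinc : ∀ k, k < deg M n → θ k < θ (k + 1) ∧ θ (k + 1) - θ k < π := by
    intro k hk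
    have h := hHAB (b n) (b (w M n k)) (b (w M n ((k + 1) % deg M n))) (hL.bpos _) (hL.ble _)
      (hL.bpos _) (hL.ble _) (hL.bpos _) (hL.ble _)
    have h1 := hs k hk
    have h2 := hL.bpos n
    have h3 := hL.ble n
    constructor
    · nlinarith [h.1]
    · nlinarith [h.2]
  have hmono : ∀ k l, k ≤ l → l ≤ deg M n → θ k ≤ θ l := by
    intro k l hkl
    induction l, hkl using Nat.le_induction with
    | base => intro _; exact le_rfl
    | succ l _ ih =>
      intro hl
      exact (ih (by omega)).trans (hinc l (by omega)).1.le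
  have hX' : ∀ k, k < deg M n → X (w M n ((k + 1) % deg M n)) =
      pol (X n) E F (Ch (b n) (b (w M n ((k + 1) % deg M n))))
        (Sh (b n) (b (w M n ((k + 1) % deg M n)))) (θ (k + 1)) := by
    intro k hk
    rcases Nat.lt_or_ge (k + 1) (deg M n) with h | h
    · rw [Nat.mod_eq_of_lt h]
      exact hX (k + 1) h
    · have he : k + 1 = deg M n := by omega
      rw [he, Nat.mod_self, hd]
      have h2 := hX 0 (by omega)
      rw [h0] at h2
      rw [h2]
      unfold pol
      rw [Real.cos_two_pi, Real.sin_two_pi, Real.cos_zero, Real.sin_zero]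
  have hSh : ∀ k, 0 < Sh (b n) (b k) := by
    intro k
    unfold Sh
    have h1 := hL.bpos n
    have h2 := hL.bpos k
    have h3 := hL.ble n
    have h4 := hL.ble k
    have h5 : b n * b k ≤ 1 / 8 * (1 / 8) := mul_le_mul h3 h4 h2.le (by norm_num)
    have h6 : 0 < b n * b k := mul_pos h1 h2
    apply div_pos
    · nlinarith
    · positivity
  have hSn : Sh (b n) (b (w M n i)) * S * Real.sin (φ - θ i) =
      det3 (X n) (X (w M n i)) (pol (X n) E F (√(1 + S ^ 2)) S φ) := by
    rw [← SAME_det (X n) E F (Ch (b n) (b (w M n i))) _ (√(1 + S ^ 2)) _ _ _ hdet, ← hX i hi]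
  have hSn' : Sh (b n) (b (w M n ((i + 1) % deg M n))) * S * Real.sin (φ - θ (i + 1)) =
      det3 (X n) (X (w M n ((i + 1) % deg M n))) (pol (X n) E F (√(1 + S ^ 2)) S φ) := by
    rw [← SAME_det (X n) E F (Ch (b n) (b (w M n ((i + 1) % deg M n)))) _ (√(1 + S ^ 2)) _ _ _ hdet,
      ← hX' i hi]
  have hSm : Sh (b n) (b (w M n j)) * S * Real.sin (φ - θ j) =
      det3 (X n) (X (w M n j)) (pol (X n) E F (√(1 + S ^ 2)) S φ) := by
    rw [← SAME_det (X n) E F (Ch (b n) (b (w M n j))) _ (√(1 + S ^ 2)) _ _ _ hdet, ← hX j hj]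
  have hSm' : Sh (b n) (b (w M n ((j + 1) % deg M n))) * S * Real.sin (φ - θ (j + 1)) =
      det3 (X n) (X (w M n ((j + 1) % deg M n))) (pol (X n) E F (√(1 + S ^ 2)) S φ) := by
    rw [← SAME_det (X n) E F (Ch (b n) (b (w M n ((j + 1) % deg M n)))) _ (√(1 + S ^ 2)) _ _ _ hdet,
      ← hX' j hj]
  have a1 := hS.1
  have a2 := hS.2.2
  have a3 := hI.1
  have a4 := hI.2.2
  rw [SAME_det'] at a2 a4
  rw [← hSn] at a1
  rw [← hSn'] at a2
  rw [← hSm] at a3
  rw [← hSm'] at a4
  have hSpos : 0 < S := by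
    rcases hS0.lt_or_eq with h | h
    · exact h
    · rw [← h] at a1
      simp at a1
  have c1 : 0 < Sh (b n) (b (w M n i)) * S := mul_pos (hSh _) hSpos
  have c2 : 0 < Sh (b n) (b (w M n ((i + 1) % deg M n))) * S := mul_pos (hSh _) hSpos
  have c3 : 0 < Sh (b n) (b (w M n j)) * S := mul_pos (hSh _) hSpos
  have c4 : 0 < Sh (b n) (b (w M n ((j + 1) % deg M n))) * S := mul_pos (hSh _) hSpos
  have b1 : 0 < Real.sin (φ - θ i) := (mul_pos_iff_of_pos_left c1).1 a1
  have b2 : Real.sin (φ - θ (i + 1)) < 0 := by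
    by_contra h
    push Not at h
    have := mul_nonneg c2.le h
    linarith
  have b3 : 0 ≤ Real.sin (φ - θ j) := by
    by_contra h
    push Not at h
    have := mul_neg_of_pos_of_neg c3 h
    linarith
  have b4 : Real.sin (φ - θ (j + 1)) ≤ 0 := by
    by_contra h
    push Not at h
    have := mul_pos c4 h
    linarith
  have t1 := hmono 0 i (Nat.zero_le _) hi.le
  have t2 := hmono (i + 1) (deg M n) (by omega) le_rfl
  have t3 := hmono 0 j (Nat.zero_le _) hj.le
  have t4 := hmono (j + 1) (deg M n) (by omega) le_rfl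
  have u1 := hinc i hi
  have u2 := hinc j hj
  rw [h0] at t1 t3
  rw [hd] at t2 t4
  have r1 : 0 < φ - θ i ∧ φ - θ i < θ (i + 1) - θ i := by
    apply SAME_strict u1.2 (by linarith [u1.1]) (by linarith) (by linarith) b1 _ (by linarith [u1.1])
    rw [show φ - θ i - (θ (i + 1) - θ i) = φ - θ (i + 1) by ring]
    exact b2
  have r2 : 0 ≤ φ - θ j ∧ φ - θ j ≤ θ (j + 1) - θ j := by
    apply SAME_weak u2.2 (by linarith [u2.1]) (by linarith) (by linarith [r1.1]) b3 _
      (by linarith [u2.1])
    rw [show φ - θ j - (θ (j + 1) - θ j) = φ - θ (j + 1) by ring]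
    exact b4
  have hij : i = j := by
    rcases Nat.lt_trichotomy i j with h | h | h
    · have := hmono (i + 1) j (by omega) hj.le
      linarith [r1.2, r2.1]
    · exact h
    · have := hmono (j + 1) i (by omega) hi.le
      linarith [r1.1, r2.2]
  subst hij
  exact ⟨rfl, rfl⟩

end H637F
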