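import Pool.Agent.H637R3.DF.Stm

namespace H637F

theorem SEC : S_SEC := by
  intro X Y Z W P h1 h2 h3 h4 h5 h6
  have key : det3 X Y Z * det3 X W P = det3 X P Z * det3 X W Y + det3 X Y P * det3 X W Z := by
    unfold det3
    ring
  have hpos : 0 < det3 X Y Z * det3 X W P := by
    rw [key]
    rcases h6 with h | h
    · have a1 := mul_nonneg h3 h4.le
      have a2 := mul_pos h h5
      linarith
    · have a1 := mul_pos h h4
      have a2 := mul_nonneg h2 h5.le
      linarith
  exact (mul_pos_iff_of_pos_left h1).mp hpos

end H637F
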