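import Pool.Agent.H637R3.DF.Stm2

/-!
Project DF, task SIM0: loops at `0` are contractible.
-/

namespace H637F

open Real MeasureTheory DFatou

lemma SIM0_rot {M : ℕ → ℕ} {x y z : ℕ} (h : (x, y, z) ∈ FF M) : (y, z, x) ∈ FF M := by
  obtain ⟨a, b, c, hb, h⟩ := h
  simp only [Prod.mk.injEq] at h
  rcases h with ⟨rfl, rfl, rfl⟩ | ⟨rfl, rfl, rfl⟩ | ⟨rfl, rfl, rfl⟩
  · exact ⟨x, y, z, hb, Or.inr (Or.inl rfl)⟩
  · exact ⟨z, x, y, hb, Or.inr (Or.inr rfl)⟩
  · exact ⟨y, z, x, hb, Or.inl rfl⟩

lemma SIM0_bf {M : ℕ → ℕ} (hM : ∀ n, n + 1 ≤ M n) {x y z : ℕ} (h : (x, y, z) ∈ BF M) :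
    x ≠ y ∧ y ≠ z ∧ x ≠ z := by
  obtain ⟨n, h⟩ := h
  simp only [Prod.mk.injEq] at h
  rcases h with ⟨j, h1, h2, rfl, rfl, rfl⟩ | ⟨rfl, rfl, rfl⟩
  · have := hM x
    omega
  · have := hM (x + 1)
    omega

lemma SIM0_ff {M : ℕ → ℕ} (hM : ∀ n, n + 1 ≤ M n) {x y z : ℕ} (h : (x, y, z) ∈ FF M) :
    x ≠ y := by
  obtain ⟨a, b, c, hb, h⟩ := h
  simp only [Prod.mk.injEq] at h
  have h3 := SIM0_bf hM hb
  rcases h with ⟨rfl, rfl, rfl⟩ | ⟨rfl, rfl, rfl⟩ | ⟨rfl, rfl, rfl⟩
  · exact h3.1
  · exact h3.2.1
  · exact fun h => h3.2.2 h.symm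

lemma SIM0_irr {M : ℕ → ℕ} (hM : ∀ n, n + 1 ≤ M n) {x y : ℕ} (h : Adj (FF M) x y) : x ≠ y := by
  obtain ⟨z, h | h⟩ := h
  · exact SIM0_ff hM h
  · exact fun e => SIM0_ff hM h e.symm

lemma SIM0_symm {K : Set (ℕ × ℕ × ℕ)} {x y : ℕ} (h : Adj K x y) : Adj K y x := by
  obtain ⟨z, h⟩ := h
  exact ⟨z, h.symm⟩

lemma SIM0_head {α : Type} (l : List α) (x y : α) (r r' : List α)
    (hx : (l ++ x :: r).head? = some y) : (l ++ x :: r').head? = some y := by
  cases l with
  | nil => simpa using hx
  | cons a l => simpa using hx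

lemma SIM0_last {α : Type} (l l' : List α) (x y : α) (r : List α)
    (hx : (l ++ x :: r).getLast? = some y) : (l' ++ x :: r).getLast? = some y := by
  rw [List.getLast?_append_of_ne_nil _ (by simp)] at hx ⊢
  exact hx

/-- the replacement of `x N y` by a path through smaller vertices. -/
lemma SIM0_step {M : ℕ → ℕ} (hLOW : S_LOW) (hG : Good M) (hM : ∀ n, n + 1 ≤ M n)
    (l r : List ℕ) (x N y : ℕ) (hp : Loop (FF M) 0 (l ++ x :: N :: y :: r))
    (hx : x < N) (hy : y < N) :
    ∃ q, Loop (FF M) 0 q ∧ Relation.EqvGen (Move (FF M)) (l ++ x :: N :: y :: r) q ∧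
      (q.map (fun v => 3 ^ v)).sum < ((l ++ x :: N :: y :: r).map (fun v => 3 ^ v)).sum := by
  obtain ⟨hc, hh, hl⟩ := hp
  rw [List.isChain_append_cons_cons] at hc
  obtain ⟨hc1, hxN, hc2⟩ := hc
  rw [List.isChain_cons_cons] at hc2
  obtain ⟨hNy, hc3⟩ := hc2
  have hlast : ∀ l' : List ℕ, (l' ++ y :: r).getLast? = some 0 := by
    intro l'
    have e : l ++ x :: N :: y :: r = (l ++ [x, N]) ++ y :: r := by simp
    rw [e] at hl
    exact SIM0_last _ _ _ _ _ hl
  have hhead : ∀ r', (l ++ x :: r').head? = some 0 := fun r' => SIM0_head _ _ _ _ _ hh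
  have hpos : 0 < 3 ^ N := by positivity
  have hpx : 0 < 3 ^ x := by positivity
  have spur : x = y → ∃ q, Loop (FF M) 0 q ∧
      Relation.EqvGen (Move (FF M)) (l ++ x :: N :: y :: r) q ∧
      (q.map (fun v => 3 ^ v)).sum < ((l ++ x :: N :: y :: r).map (fun v => 3 ^ v)).sum := by
    intro hxy
    subst hxy
    refine ⟨l ++ x :: r, ⟨?_, hhead _, hlast _⟩, ?_, ?_⟩
    · exact List.isChain_split.mpr ⟨hc1, hc3⟩
    · exact Relation.EqvGen.rel _ _ ⟨l, r, x, N, 0, Or.inl ⟨hxN, rfl, rfl⟩⟩
    · simp only [List.map_append, List.map_cons, List.sum_append, List.sum_cons]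
      omega
  by_cases hN1 : N < 2
  · exact spur (by omega)
  · have hN2 : 2 ≤ N := by omega
    rcases (hLOW M hG).2 N hN2 x y (SIM0_symm hxN) hNy hx hy with h | h | ⟨z, hz, h1, h2⟩
    · exact spur h
    · -- triangle
      have h3 : (x, N, y) ∈ FF M ∨ (x, y, N) ∈ FF M := by
        rcases h with h | h
        · exact Or.inr (SIM0_rot h)
        · exact Or.inl (SIM0_rot (SIM0_rot h))
      have hadj : Adj (FF M) x y := by
        rcases h3 with h3 | h3
        · exact ⟨N, Or.inr (SIM0_rot (SIM0_rot h3))⟩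
        · exact ⟨N, Or.inl h3⟩
      refine ⟨l ++ x :: y :: r, ⟨?_, hhead _, ?_⟩, ?_, ?_⟩
      · exact List.isChain_append_cons_cons.mpr ⟨hc1, hadj, hc3⟩
      · have e : l ++ x :: y :: r = (l ++ [x]) ++ y :: r := by simp
        rw [e]
        exact hlast _
      · exact Relation.EqvGen.rel _ _ ⟨l, r, x, N, y, Or.inr ⟨h3, rfl, rfl⟩⟩
      · simp only [List.map_append, List.map_cons, List.sum_append, List.sum_cons]
        omega
    · -- through z
      have h3 : (x, z, N) ∈ FF M ∨ (x, N, z) ∈ FF M := by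
        rcases h1 with h | h
        · exact Or.inl (SIM0_rot h)
        · exact Or.inr (SIM0_rot (SIM0_rot h))
      have h4 : (z, N, y) ∈ FF M ∨ (z, y, N) ∈ FF M := by
        rcases h2 with h | h
        · exact Or.inr (SIM0_rot h)
        · exact Or.inl (SIM0_rot (SIM0_rot h))
      have hxz : Adj (FF M) x z := by
        rcases h3 with h3 | h3
        · exact ⟨N, Or.inl h3⟩
        · exact ⟨N, Or.inr (SIM0_rot (SIM0_rot h3))⟩
      have hzy : Adj (FF M) z y := by
        rcases h4 with h4 | h4
        · exact ⟨N, Or.inr (SIM0_rot (SIM0_rot h4))⟩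
        · exact ⟨N, Or.inl h4⟩
      refine ⟨l ++ x :: z :: y :: r, ⟨?_, hhead _, ?_⟩, ?_, ?_⟩
      · refine List.isChain_append_cons_cons.mpr ⟨hc1, hxz, ?_⟩
        exact List.isChain_cons_cons.mpr ⟨hzy, hc3⟩
      · have e : l ++ x :: z :: y :: r = (l ++ [x, z]) ++ y :: r := by simp
        rw [e]
        exact hlast _
      · refine Relation.EqvGen.trans _ (l ++ x :: z :: N :: y :: r) _
          (Relation.EqvGen.symm _ _ (Relation.EqvGen.rel _ _
            ⟨l, y :: r, x, z, N, Or.inr ⟨h3, rfl, rfl⟩⟩)) (Relation.EqvGen.rel _ _ ?_)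
        refine ⟨l ++ [x], r, z, N, y, Or.inr ⟨h4, ?_, ?_⟩⟩
        · simp
        · simp
      · have h5 : 3 ^ z < 3 ^ N := Nat.pow_lt_pow_right (by norm_num) hz
        simp only [List.map_append, List.map_cons, List.sum_append, List.sum_cons]
        omega

theorem SIM0 (hLOW : S_LOW) (hMGR : S_MGR) : S_SIM0 := by
  intro M hG
  have hM : ∀ n, n + 1 ≤ M n := (hMGR M hG).2.1
  have main : ∀ m : ℕ, ∀ p, (p.map (fun v => 3 ^ v)).sum = m → Loop (FF M) 0 p →
      Relation.EqvGen (Move (FF M)) p [0] := by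
    intro m
    induction m using Nat.strong_induction_on with
    | _ m ih =>
      intro p hm hp
      obtain ⟨hc, hh, hl⟩ := hp
      -- the maximal element
      by_cases h0 : ∀ v ∈ p, v = 0
      · -- p = [0]
        match p, hc, hh, hl, h0 with
        | [], _, hh, _, _ => simp at hh
        | [a], _, hh, _, _ =>
          simp only [List.head?_cons, Option.some.injEq] at hh
          subst hh
          exact Relation.EqvGen.refl _
        | a :: b :: r, hc, _, _, h0 =>
          exfalso
          rw [List.isChain_cons_cons] at hc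
          have ha := h0 a (by simp)
          have hb := h0 b (by simp)
          exact SIM0_irr hM hc.1 (by rw [ha, hb])
      · push Not at h0
        obtain ⟨v0, hv0, hv0'⟩ := h0
        obtain ⟨N, hN, hmax⟩ : ∃ N ∈ p, ∀ v ∈ p, v ≤ N := by
          have hne : p.toFinset.Nonempty := ⟨v0, by simpa using hv0⟩
          refine ⟨p.toFinset.max' hne, ?_, ?_⟩
          · have := Finset.max'_mem p.toFinset hne
            simpa using this
          · intro v hv
            exact Finset.le_max' _ _ (by simpa using hv)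
        have hNpos : N ≠ 0 := by
          have := hmax v0 hv0
          omega
        obtain ⟨l, r, rfl⟩ := List.append_of_mem hN
        -- l is nonempty
        rcases List.eq_nil_or_concat l with rfl | ⟨l, x, rfl⟩
        · exfalso
          simp only [List.nil_append, List.head?_cons, Option.some.injEq] at hh
          exact hNpos hh
        · cases r with
          | nil =>
            exfalso
            simp only [List.concat_eq_append] at hl
            rw [List.getLast?_append_of_ne_nil _ (by simp)] at hl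
            simp only [List.getLast?_singleton, Option.some.injEq] at hl
            exact hNpos hl
          | cons y r =>
            have e : l.concat x ++ N :: y :: r = l ++ x :: N :: y :: r := by
              simp
            rw [e] at hm hc hh hl hmax ⊢
            have hc' := hc
            rw [List.isChain_append_cons_cons] at hc'
            obtain ⟨_, hxN, hc2⟩ := hc'
            rw [List.isChain_cons_cons] at hc2
            have hx : x < N := by
              have h1 := hmax x (by simp)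
              have h2 := SIM0_irr hM hxN
              omega
            have hy : y < N := by
              have h1 := hmax y (by simp)
              have h2 := SIM0_irr hM hc2.1
              omega
            obtain ⟨q, hq1, hq2, hq3⟩ := SIM0_step hLOW hG hM l r x N y ⟨hc, hh, hl⟩ hx hy
            rw [hm] at hq3
            exact Relation.EqvGen.trans _ _ _ hq2 (ih _ hq3 q rfl hq1)
  intro p hp
  exact main _ p rfl hp

end H637F
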