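import Pool.Agent.H637R3.DF.Stm2

namespace H637F

open DFatou

theorem SIMP_move_ctx {K : Set (ℕ × ℕ × ℕ)} {p q : List ℕ} (l r : List ℕ) (h : Move K p q) :
    Move K (l ++ p ++ r) (l ++ q ++ r) := by
  obtain ⟨l', r', a, b, c, h⟩ := h
  refine ⟨l ++ l', r' ++ r, a, b, c, ?_⟩
  rcases h with ⟨h1, rfl, rfl⟩ | ⟨h1, rfl, rfl⟩
  · left; exact ⟨h1, by simp, by simp⟩
  · right; exact ⟨h1, by simp, by simp⟩

theorem SIMP_ctx {K : Set (ℕ × ℕ × ℕ)} {p q : List ℕ} (l r : List ℕ)
    (h : Relation.EqvGen (Move K) p q) :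
    Relation.EqvGen (Move K) (l ++ p ++ r) (l ++ q ++ r) := by
  induction h with
  | rel x y h => exact .rel _ _ (SIMP_move_ctx l r h)
  | refl x => exact .refl _
  | symm x y _ ih => exact .symm _ _ ih
  | trans x y z _ _ ih1 ih2 => exact .trans _ _ _ ih1 ih2

theorem SIMP_adj_symm {K : Set (ℕ × ℕ × ℕ)} {x y : ℕ} (h : Adj K x y) : Adj K y x := by
  obtain ⟨z, h⟩ := h
  exact ⟨z, h.symm⟩

theorem SIMP_spur {K : Set (ℕ × ℕ × ℕ)} (g : List ℕ) : ∀ (x y : ℕ),
    List.IsChain (Adj K) (x :: g) → (x :: g).getLast? = some y →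
    Relation.EqvGen (Move K) (g.reverse ++ [x] ++ g) [y] := by
  induction g with
  | nil =>
    intro x y _ h
    simp only [List.getLast?_singleton, Option.some.injEq] at h
    subst h
    exact .refl _
  | cons z g ih =>
    intro x y hc hl
    rw [List.isChain_cons_cons] at hc
    obtain ⟨h1, h2⟩ := hc
    have h3 : (z :: g).getLast? = some y := by
      rw [List.getLast?_cons_cons] at hl
      exact hl
    have h4 : Move K ((z :: g).reverse ++ [x] ++ (z :: g)) (g.reverse ++ [z] ++ g) :=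
      ⟨g.reverse, g, z, x, 0, Or.inl ⟨SIMP_adj_symm h1, by simp, by simp⟩⟩
    exact .trans _ _ _ (.rel _ _ h4) (ih z y h2 h3)

theorem SIMP_path {K : Set (ℕ × ℕ × ℕ)} {x a : ℕ} (h : Relation.ReflTransGen (Adj K) x a) :
    ∃ G : List ℕ, List.IsChain (Adj K) (G ++ [a]) ∧ (G ++ [a]).head? = some x := by
  induction h with
  | refl => exact ⟨[], by simp, by simp⟩
  | tail h1 h2 ih =>
    obtain ⟨G, hG, hh⟩ := ih
    rename_i b c
    refine ⟨G ++ [b], ?_, ?_⟩
    · exact List.IsChain.append_overlap hG (by simpa using h2) (by simp)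
    · rw [List.head?_append, hh]
      rfl

theorem SIMP_gen {K : Set (ℕ × ℕ × ℕ)} (hconn : ∀ x y, Relation.ReflTransGen (Adj K) x y)
    (h0 : ∀ p, Loop K 0 p → Relation.EqvGen (Move K) p [0]) (a : ℕ) (p : List ℕ)
    (hp : Loop K a p) : Relation.EqvGen (Move K) p [a] := by
  obtain ⟨hpc, hph, hpl⟩ := hp
  obtain ⟨G, hG, hGh⟩ := SIMP_path (hconn 0 a)
  -- `G ++ [a] = 0 :: g'`
  obtain ⟨g, hg⟩ : ∃ g, G ++ [a] = 0 :: g := by
    cases hGa : G ++ [a] with
    | nil => rw [hGa] at hGh; simp at hGh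
    | cons x g =>
      rw [hGa] at hGh
      simp only [List.head?_cons, Option.some.injEq] at hGh
      subst hGh
      exact ⟨g, rfl⟩
  obtain ⟨p', hp'⟩ : ∃ p', p = a :: p' := by
    cases p with
    | nil => simp at hph
    | cons x p' =>
      simp only [List.head?_cons, Option.some.injEq] at hph
      subst hph
      exact ⟨p', rfl⟩
  obtain ⟨P, hP⟩ : ∃ P, p = P ++ [a] := by
    rw [List.getLast?_eq_some_iff] at hpl
    exact hpl
  have hR : List.IsChain (Adj K) ([a] ++ G.reverse) := by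
    have h1 : List.IsChain (Adj K) (G ++ [a]).reverse := by
      rw [List.isChain_reverse]
      exact hG.imp fun _ _ h => SIMP_adj_symm h
    simpa using h1
  have hq1 : List.IsChain (Adj K) (G ++ p) := by
    rw [hp']
    have h1 := List.IsChain.append_overlap (l₁ := G) (l₂ := [a]) (l₃ := p') hG
      (by rw [hp'] at hpc; simpa using hpc) (by simp)
    simpa using h1
  have hq2 : List.IsChain (Adj K) (G ++ p ++ G.reverse) := by
    rw [hP] at hq1 ⊢
    have h1 := List.IsChain.append_overlap (l₁ := G ++ P) (l₂ := [a]) (l₃ := G.reverse)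
      (by simpa using hq1) hR (by simp)
    simpa using h1
  have hqh : (G ++ p ++ G.reverse).head? = some 0 := by
    have h1 : G ++ p ++ G.reverse = (G ++ [a]) ++ (p' ++ G.reverse) := by rw [hp']; simp
    rw [h1, hg]
    rfl
  have hql : (G ++ p ++ G.reverse).getLast? = some 0 := by
    have h1 : G ++ p ++ G.reverse = (G ++ P) ++ (G ++ [a]).reverse := by rw [hP]; simp
    rw [h1, hg]
    simp
  have hq := h0 _ ⟨hq2, hqh, hql⟩
  have hgl : (0 :: g).getLast? = some a := by
    rw [← hg]; simp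
  have hspur : Relation.EqvGen (Move K) (g.reverse ++ [0] ++ g) [a] :=
    SIMP_spur g 0 a (by rw [← hg]; exact hG) hgl
  -- the three homotopies
  have e1 : Relation.EqvGen (Move K) (g.reverse ++ (G ++ p ++ G.reverse) ++ g)
      (g.reverse ++ [0] ++ g) := SIMP_ctx g.reverse g hq
  have e2 : Relation.EqvGen (Move K) (g.reverse ++ (G ++ p ++ G.reverse) ++ g)
      (p ++ G.reverse ++ g) := by
    have h1 := SIMP_ctx [] (p' ++ G.reverse ++ g) hspur
    have h2 : [] ++ (g.reverse ++ [0] ++ g) ++ (p' ++ G.reverse ++ g) =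
        g.reverse ++ (G ++ p ++ G.reverse) ++ g := by
      have h3 : G ++ p ++ G.reverse = (G ++ [a]) ++ (p' ++ G.reverse) := by rw [hp']; simp
      rw [h3, hg]
      simp
    have h4 : [] ++ [a] ++ (p' ++ G.reverse ++ g) = p ++ G.reverse ++ g := by
      rw [hp']; simp
    rw [h2, h4] at h1
    exact h1
  have e3 : Relation.EqvGen (Move K) (p ++ G.reverse ++ g) p := by
    have h1 := SIMP_ctx P [] hspur
    have h2 : P ++ (g.reverse ++ [0] ++ g) ++ [] = p ++ G.reverse ++ g := by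
      have h3 : p ++ G.reverse ++ g = P ++ (G ++ [a]).reverse ++ g := by rw [hP]; simp
      rw [h3, hg]
      simp
    have h4 : P ++ [a] ++ [] = p := by rw [hP]; simp
    rw [h2, h4] at h1
    exact h1
  exact .trans _ _ _ (.symm _ _ e3) (.trans _ _ _ (.symm _ _ e2) (.trans _ _ _ e1 hspur))

theorem SIMP (hSIM0 : S_SIM0) (hCONN : S_CONN) : S_SIMP := by
  intro M hM a p hp
  exact SIMP_gen (hCONN M hM) (hSIM0 M hM) a p hp

end H637F
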