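import Pool.Agent.H637R3.DF.Stm

/-! Task TU of project DF (MP_3555ad_an). -/

namespace H637F

theorem TU (hBR : S_BR) (hEXT : S_EXT) (hMONO : S_MONO) (hSAME : S_SAME) : S_TU := by
  intro M b X hL x y z x' y' z' h1 h2 P hP hS hI
  have monoS : ∀ n m, 1 ≤ n → n ≤ m → SReg M X n P → SReg M X m P := by
    intro n m hn hnm h
    induction m, hnm using Nat.le_induction with
    | base => exact h
    | succ m hm ih => exact (hMONO M b X hL m (hn.trans hm) P hP).2 ih
  have monoR : ∀ n m, 1 ≤ n → n ≤ m → Reg M X n P → Reg M X m P := by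
    intro n m hn hnm h
    induction m, hnm using Nat.le_induction with
    | base => exact h
    | succ m hm ih => exact (hMONO M b X hL m (hn.trans hm) P hP).1 ih
  rcases lt_trichotomy x x' with h | h | h
  · exfalso
    exact (hEXT M b X hL x' y' z' h2 P hP).1 (by omega) hI
      (monoS (x + 1) x' (by omega) h ((hBR M b X hL x y z h1 P hP).2 hS))
  · subst h
    exact ⟨rfl, hSAME M b X hL x y z y' z' h1 h2 P hP hS hI⟩
  · exfalso
    exact (hEXT M b X hL x y z h1 P hP).2 (by omega) hS
      (monoR (x' + 1) x (by omega) h ((hBR M b X hL x' y' z' h2 P hP).1 hI))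

end H637F
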