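import Pool.Agent.H637R3.DF.Stm

/-!
Task TWO: two types of visible vertices occur infinitely often.
-/

namespace H637F

open Real

/-- near its base point, with a type. -/
def TWO_Near (c : ℕ → ℂ) (ty : ℕ → ℕ) (x : ℕ) : Prop := ty x < 3 ∧ ‖c x - pp (ty x)‖ ≤ 1 / 10

theorem TWO_ff (M : ℕ → ℕ) (n : ℕ) : (n, M (n + 1), n + 1) ∈ FF M :=
  ⟨n, M (n + 1), n + 1, ⟨n, Or.inr rfl⟩, Or.inl rfl⟩

theorem TWO_ff2 (M : ℕ → ℕ) (n j : ℕ) (h1 : M n ≤ j) (h2 : j < M (n + 1)) :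
    (n, j, j + 1) ∈ FF M :=
  ⟨n, j, j + 1, ⟨n, Or.inl ⟨j, h1, h2, rfl⟩⟩, Or.inl rfl⟩

theorem TWO_minkc (X Y : V3) : mink X Y = mink Y X := by unfold mink; ring

theorem TWO_chc (a b : ℝ) : Ch a b = Ch b a := by unfold Ch; ring

theorem TWO_MM (n : ℕ) : MM (n + 1) = MM n + (8 * JJ n + 50) := rfl

theorem TWO_gt {c : ℕ → ℂ} {ty : ℕ → ℕ} {x y z : ℕ} (h : GT c ty x y z) :
    TWO_Near c ty x ∧ TWO_Near c ty y ∧ TWO_Near c ty z ∧ ty x ≠ ty y ∧ ty y ≠ ty z ∧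
      ty x ≠ ty z :=
  ⟨⟨h.2.2.2.1, h.2.2.2.2.2.2.1⟩, ⟨h.2.2.2.2.1, h.2.2.2.2.2.2.2.1⟩,
    ⟨h.2.2.2.2.2.1, h.2.2.2.2.2.2.2.2⟩, h.1, h.2.1, h.2.2.1⟩

theorem TWO_a (hVIS : S_VIS) (hARC : S_ARC) (hMMG : S_MMG) (hMGR : S_MGR)
    {b : ℕ → ℝ} {X : ℕ → V3} {r : ℕ → ℝ} {c : ℕ → ℂ} {ty : ℕ → ℕ} {G : ℕ → Prop} {φ : ℝ}
    (hH : HL MM b X) (hP : PL r c ty G) {n x y : ℕ} (hn : 1 ≤ n) (h : CE X G φ n x y) :
    TWO_Near c ty x ∧ TWO_Near c ty y ∧ ty x ≠ ty y ∧ n ≤ x ∧ n ≤ y ∧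
      (Vis φ (X x) (b x) ∨ Vis φ (X y) (b y)) := by
  have hb8 : ∀ m, b m < 1 := fun m => lt_of_le_of_lt (hH.ble m) (by norm_num)
  obtain ⟨h1, h2, h3⟩ := hARC MM b X hH
  have hm := (hMGR MM hMMG).2.1
  rcases h with ⟨ha, hb, rfl, hG, hB⟩ | ⟨hn2, rfl, rfl, hG, hB⟩
  · have hg := TWO_gt (hP.right0 x (le_trans hn ha) hG)
    have ht := hH.tri _ _ _ (TWO_ff MM x)
    refine ⟨hg.1, hg.2.2.1, hg.2.2.2.2.2, ha, by omega, ?_⟩
    exact hVIS _ _ _ _ φ (hH.hyp _) (hH.hyp _) (hH.bpos _) (hb8 _) (hH.bpos _) (hb8 _)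
      ht.2.2.1 (h2 x (le_trans hn ha)) hB
  · obtain ⟨m, rfl⟩ : ∃ m, y = m + 1 := ⟨y - 1, by omega⟩
    have hG' : G m := hG
    have hg := TWO_gt (hP.right0 m (by omega) hG')
    have ht := hH.tri _ _ _ (TWO_ff MM m)
    refine ⟨hg.2.1, hg.2.2.1, hg.2.2.2.2.1, ?_, le_refl _, ?_⟩
    · have := hm (m + 1)
      omega
    · exact hVIS _ _ _ _ φ (hH.hyp _) (hH.hyp _) (hH.bpos _) (hb8 _) (hH.bpos _) (hb8 _)
        ht.2.1 (h3 (m + 1) hn) hB

theorem TWO_step (hCER : S_CER) (hCEL : S_CEL) (hMMG : S_MMG) (hMGR : S_MGR)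
    {b : ℕ → ℝ} {X : ℕ → V3} {r : ℕ → ℝ} {c : ℕ → ℂ} {ty : ℕ → ℕ} {G : ℕ → Prop} {φ : ℝ}
    (hH : HL MM b X) (hP : PL r c ty G) (hφ : φ ∈ EE X) {n x y : ℕ} (hn : 1 ≤ n)
    (h : CE X G φ n x y) : ∃ x' y', CE X G φ (n + 1) x' y' := by
  have h0 := h
  rcases h with ⟨ha, hb, rfl, hG, hB⟩ | ⟨hn2, rfl, rfl, hG, hB⟩
  · rcases Nat.eq_or_lt_of_le ha with h1 | h1
    · subst h1
      rcases hCER b X r c ty G φ hH hP hφ n hn h0 with h2 | ⟨i, _, _, h2, _⟩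
      · exact ⟨_, _, h2.1⟩
      · exact ⟨_, _, h2⟩
    · refine ⟨x, x + 1, Or.inl ⟨h1, ?_, rfl, hG, hB⟩⟩
      have := TWO_MM n
      omega
  · obtain ⟨i, _, h2, _⟩ := hCEL b X r c ty G φ hH hP hφ y hn2 h0
    exact ⟨_, _, h2⟩

theorem TWO_ex (hCER : S_CER) (hCEL : S_CEL) (hMMG : S_MMG) (hMGR : S_MGR)
    {b : ℕ → ℝ} {X : ℕ → V3} {r : ℕ → ℝ} {c : ℕ → ℂ} {ty : ℕ → ℕ} {G : ℕ → Prop} {φ : ℝ}
    (hH : HL MM b X) (hP : PL r c ty G) (hφ : φ ∈ EE X) (n : ℕ) (hn : 1 ≤ n) :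
    ∃ x y, CE X G φ n x y := by
  induction n, hn using Nat.le_induction with
  | base =>
    refine ⟨1, 2, Or.inl ⟨le_refl _, ?_, rfl, hP.g1, hφ.2.2.1⟩⟩
    have : MM 1 = MM 0 + (8 * JJ 0 + 50) := rfl
    omega
  | succ n hn ih =>
    obtain ⟨x, y, h⟩ := ih
    exact TWO_step hCER hCEL hMMG hMGR hH hP hφ hn h

theorem TWO (hCER : S_CER) (hCEL : S_CEL) (hVIS : S_VIS) (hLOSS : S_LOSS) (hARC : S_ARC)
    (hMMG : S_MMG) (hMGR : S_MGR) : S_TWO := by
  intro b X r c ty G φ hH hP hφ n0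
  by_contra hcon
  have hsame : ∀ x y, n0 ≤ x → n0 ≤ y → Vis φ (X x) (b x) → Vis φ (X y) (b y) →
      TWO_Near c ty x → TWO_Near c ty y → ty x = ty y := by
    intro x y hx hy vx vy nx ny
    by_contra hne
    exact hcon ⟨x, y, hx, hy, vx, vy, hne, nx.1, ny.1, nx.2, ny.2⟩
  have hb8 : ∀ m, b m < 1 := fun m => lt_of_le_of_lt (hH.ble m) (by norm_num)
  have hm := (hMGR MM hMMG).2.1
  have hvis : ∀ x y, mink (X x) (X y) = -Ch (b x) (b y) → 0 < det3 OO (X x) (X y) →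
      Btw φ (X x) (X y) → Vis φ (X x) (b x) ∨ Vis φ (X y) (b y) := fun x y h1 h2 h3 =>
    hVIS _ _ _ _ φ (hH.hyp _) (hH.hyp _) (hH.bpos _) (hb8 _) (hH.bpos _) (hb8 _) h1 h2 h3
  set N := n0 + 2 with hN
  -- the common type
  obtain ⟨v, hvN, hvv, hvn⟩ : ∃ v, n0 ≤ v ∧ Vis φ (X v) (b v) ∧ TWO_Near c ty v := by
    obtain ⟨x, y, h⟩ := TWO_ex hCER hCEL hMMG hMGR hH hP hφ N (by omega)
    obtain ⟨h1, h2, _, h3, h4, h5⟩ := TWO_a hVIS hARC hMMG hMGR hH hP (by omega) h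
    rcases h5 with h5 | h5
    · exact ⟨x, by omega, h5, h1⟩
    · exact ⟨y, by omega, h5, h2⟩
  have htau : ∀ x, n0 ≤ x → Vis φ (X x) (b x) → TWO_Near c ty x → ty x = ty v :=
    fun x h1 h2 h3 => hsame x v h1 hvN h2 hvv h3 hvn
  generalize ty v = tau at htau
  have hone : ∀ n x y, N ≤ n → CE X G φ n x y → ty x = tau ∨ ty y = tau := by
    intro n x y hn h
    obtain ⟨h1, h2, _, h3, h4, h5⟩ := TWO_a hVIS hARC hMMG hMGR hH hP (by omega) h
    rcases h5 with h5 | h5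
    · exact Or.inl (htau x (by omega) h5 h1)
    · exact Or.inr (htau y (by omega) h5 h2)
  -- the endpoint of type tau stays
  have hstay : ∀ n v, N ≤ n → ty v = tau → (∃ x y, CE X G φ n x y ∧ (v = x ∨ v = y)) →
      ∃ x y, CE X G φ (n + 1) x y ∧ (v = x ∨ v = y) := by
    rintro n v hn hv ⟨x, y, h, hvxy⟩
    have h0 := h
    rcases h with ⟨ha, hb, rfl, hG, hB⟩ | ⟨hn2, rfl, rfl, hG, hB⟩
    · rcases Nat.eq_or_lt_of_le ha with h1 | h1
      · subst h1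
        have hg0 := TWO_gt (hP.right0 n (by omega) hG)
        rcases hCER b X r c ty G φ hH hP hφ n (by omega) h0 with h2 | ⟨i, hi1, hi2, h2, _, h3⟩
        · have h4 := hone (n + 1) _ _ (by omega) h2.1
          have h5 : ty n ≠ tau := by
            rcases h4 with h4 | h4
            · rw [← h4]; exact hg0.2.2.2.1
            · rw [← h4]; exact hg0.2.2.2.2.2
          rcases hvxy with h6 | h6
          · exact absurd (h6 ▸ hv) h5
          · exact ⟨_, _, h2.1, Or.inr h6⟩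
        · exfalso
          have h4 := hone (n + 1) _ _ (by omega) h2
          have hg1 := TWO_gt (hP.right1 n (by omega) hG i hi1 hi2).2
          have h5 : ty n ≠ tau := by
            rcases h4 with h4 | h4
            · rw [← h4]; exact hg1.2.2.2.1
            · rw [← h4]; exact hg1.2.2.2.2.2
          have h6 : ty (n + 1) = tau := by
            rcases hvxy with h6 | h6
            · exact absurd (h6 ▸ hv) h5
            · rw [← h6]; exact hv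
          have hM1 := TWO_MM n
          have hl := hLOSS MM b X hH n 1 (by omega) le_rfl (by omega)
          have ht := hH.tri _ _ _ (TWO_ff MM n)
          have h7 := hvis n (MM (n + 1)) ht.1 (by simpa using hl.1) h3
          have hmm := hm n
          rcases h7 with h7 | h7
          · have := htau n (by omega) h7 hg0.1
            exact h5 this
          · have := htau (MM (n + 1)) (by omega) h7 hg0.2.1
            exact hg0.2.2.2.2.1 (this.trans h6.symm)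
      · refine ⟨x, x + 1, Or.inl ⟨h1, ?_, rfl, hG, hB⟩, hvxy⟩
        have := TWO_MM n
        omega
    · obtain ⟨i, hi, h2, _, h3⟩ := hCEL b X r c ty G φ hH hP hφ y hn2 h0
      have h4 := hone (y + 1) _ _ (by omega) h2
      have hg1 := TWO_gt (hP.left1 y hn2 hG i hi).2
      have h5 : ty y ≠ tau := by
        rcases h4 with h4 | h4
        · rw [← h4]; exact hg1.2.2.2.1
        · rw [← h4]; exact hg1.2.2.2.2.2
      have h6 : v = MM y := by
        rcases hvxy with h6 | h6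
        · exact h6
        · exact absurd (h6 ▸ hv) h5
      rcases Nat.eq_zero_or_pos i with hi0 | hi0
      · subst hi0
        exact ⟨_, _, h2, Or.inl h6⟩
      · exfalso
        have h3' := h3 hi0
        have hM1 := TWO_MM y
        have hl := hLOSS MM b X hH y 1 (by omega) le_rfl (by omega)
        have ht := hH.tri _ _ _ (TWO_ff2 MM y (MM y) le_rfl (by omega))
        have h7 := hvis (MM y + 1) y (by rw [TWO_minkc, TWO_chc]; exact ht.2.2.1) hl.2.1 h3'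
        have hg0 := TWO_gt (hP.left1 y hn2 hG 0 (by omega)).2
        have hmm := hm y
        simp only [Nat.add_zero] at hg0
        rw [h6] at hv
        rcases h7 with h7 | h7
        · have := htau (MM y + 1) (by omega) h7 hg0.2.2.1
          exact hg0.2.2.2.2.1 (hv.trans this.symm)
        · have := htau y (by omega) h7 hg0.1
          exact h5 this
  -- conclusion
  obtain ⟨w, hw, hwx⟩ : ∃ w, ty w = tau ∧ ∃ x y, CE X G φ N x y ∧ (w = x ∨ w = y) := by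
    obtain ⟨x, y, h⟩ := TWO_ex hCER hCEL hMMG hMGR hH hP hφ N (by omega)
    rcases hone N x y le_rfl h with h1 | h1
    · exact ⟨x, h1, x, y, h, Or.inl rfl⟩
    · exact ⟨y, h1, x, y, h, Or.inr rfl⟩
  have hall : ∀ n, N ≤ n → ∃ x y, CE X G φ n x y ∧ (w = x ∨ w = y) := by
    intro n hn
    induction n, hn using Nat.le_induction with
    | base => exact hwx
    | succ n hn ih => exact hstay n w hn hw ih
  obtain ⟨x, y, h, hxy⟩ := hall (N + w + 1) (by omega)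
  obtain ⟨_, _, _, h3, h4, _⟩ := TWO_a hVIS hARC hMMG hMGR hH hP (by omega) h
  rcases hxy with h5 | h5 <;> omega

end H637F
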