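import Pool.Agent.H637R3.DF.Stm

/-! Task TYG (helper666): types and good edges. -/

set_option autoImplicit false

namespace H637F

namespace TYGaux

/-- good edges -/
inductive GG : ℕ → Prop
  | one : GG 1
  | left (n i : ℕ) (hn : 2 ≤ n) (hi : i < JJ n) (h : GG (n - 1)) : GG (MM n + i)
  | right (n i : ℕ) (hn : 1 ≤ n) (hi1 : 1 ≤ i) (hi : i < JJ n) (h : GG n) : GG (MM (n + 1) - i)

open Classical in
/-- types -/
noncomputable def ty (k : ℕ) : ℕ :=
  if k = 0 then 0 else if k = 1 then 1 else if k = 2 then 2 else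
    if h : par MM (k - 1) + 1 < k ∧ MM (par MM (k - 1)) < k then
      if 2 ≤ par MM (k - 1) ∧ GG (par MM (k - 1) - 1) ∧
          k - MM (par MM (k - 1)) ≤ JJ (par MM (k - 1)) then
        (if Even (k - MM (par MM (k - 1))) then ty (MM (par MM (k - 1)))
          else 3 - ty (par MM (k - 1)) - ty (MM (par MM (k - 1))))
      else if 1 ≤ par MM (k - 1) ∧ GG (par MM (k - 1)) ∧
          MM (par MM (k - 1) + 1) - k < JJ (par MM (k - 1)) then
        (if Even (MM (par MM (k - 1) + 1) - k) then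
            3 - ty (par MM (k - 1)) - ty (par MM (k - 1) + 1)
          else ty (par MM (k - 1) + 1))
      else 0
    else 0
termination_by k
decreasing_by all_goals omega

theorem ty_zero : ty 0 = 0 := by rw [ty]; simp

theorem ty_one : ty 1 = 1 := by rw [ty]; simp

theorem ty_two : ty 2 = 2 := by rw [ty]; simp

theorem MM_succ (n : ℕ) : MM (n + 1) = MM n + (8 * JJ n + 50) := rfl

section

variable (hMGR : S_MGR) (hPAR : S_PAR) (hMMG : S_MMG)

include hMGR hMMG in
theorem MM_ge (n : ℕ) : n + 1 ≤ MM n := (hMGR MM hMMG).2.1 n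

include hMGR hPAR hMMG in
theorem par_eq (n k : ℕ) (hk : 3 ≤ k) (h1 : MM n < k) (h2 : k ≤ MM (n + 1)) :
    par MM (k - 1) = n :=
  ((hPAR MM hMMG (k - 1) (by omega)).2.2.2 n (by omega) (by omega)).symm

include hMGR hPAR hMMG in
theorem ty_left (n i : ℕ) (hn : 2 ≤ n) (hG : GG (n - 1)) (hi1 : 1 ≤ i) (hi : i ≤ JJ n) :
    ty (MM n + i) = if Even i then ty (MM n) else 3 - ty n - ty (MM n) := by
  have hM := MM_ge hMGR hMMG n
  have hs := MM_succ n
  have hp := par_eq hMGR hPAR hMMG n (MM n + i) (by omega) (by omega) (by omega)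
  rw [ty, if_neg (by omega), if_neg (by omega), if_neg (by omega)]
  rw [hp]
  rw [dif_pos ⟨by omega, by omega⟩, if_pos ⟨hn, hG, by omega⟩]
  rw [show MM n + i - MM n = i by omega]

include hMGR hPAR hMMG in
theorem ty_right (n i : ℕ) (hn : 1 ≤ n) (hG : GG n) (hi : i < JJ n) :
    ty (MM (n + 1) - i) = if Even i then 3 - ty n - ty (n + 1) else ty (n + 1) := by
  have hM := MM_ge hMGR hMMG n
  have hs := MM_succ n
  have hp := par_eq hMGR hPAR hMMG n (MM (n + 1) - i) (by omega) (by omega) (by omega)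
  rw [ty, if_neg (by omega), if_neg (by omega), if_neg (by omega)]
  rw [hp]
  rw [dif_pos ⟨by omega, by omega⟩, if_neg (fun h => by have := h.2.2; omega),
    if_pos ⟨hn, hG, by omega⟩]
  rw [show MM (n + 1) - (MM (n + 1) - i) = i by omega]

theorem JJ_pos (n : ℕ) (hn : 1 ≤ n) : 0 < JJ n := by
  unfold JJ
  rw [if_neg (by omega)]
  positivity

/-- good pair -/
def gp (k : ℕ) : Prop := ty k < 3 ∧ ty (k + 1) < 3 ∧ ty k ≠ ty (k + 1)

include hMGR hPAR hMMG in
theorem r0 (n : ℕ) (hn : 1 ≤ n) (hG : GG n) (hg : gp n) : D3 ty n (MM (n + 1)) (n + 1) := by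
  have h1 := ty_right hMGR hPAR hMMG n 0 hn hG (JJ_pos n hn)
  rw [Nat.sub_zero, if_pos (by decide)] at h1
  obtain ⟨a, b, c⟩ := hg
  unfold D3
  refine ⟨a, by omega, b, by omega, by omega, c⟩

include hMGR hPAR hMMG in
theorem r1 (n : ℕ) (hn : 1 ≤ n) (hG : GG n) (hg : gp n) (i : ℕ) (hi1 : 1 ≤ i) (hi : i < JJ n) :
    D3 ty n (MM (n + 1) - i) (MM (n + 1) - i + 1) := by
  have hM := MM_ge hMGR hMMG n
  have hs := MM_succ n
  have h1 := ty_right hMGR hPAR hMMG n i hn hG hi
  have h2 := ty_right hMGR hPAR hMMG n (i - 1) hn hG (by omega)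
  rw [show MM (n + 1) - (i - 1) = MM (n + 1) - i + 1 by omega] at h2
  obtain ⟨a, b, c⟩ := hg
  unfold D3
  rcases Nat.even_or_odd i with he | ho
  · have ho' : ¬ Even (i - 1) := by
      rw [Nat.not_even_iff_odd]
      obtain ⟨j, hj⟩ := he
      exact ⟨j - 1, by omega⟩
    rw [if_pos he] at h1
    rw [if_neg ho'] at h2
    refine ⟨a, by omega, by omega, by omega, by omega, by omega⟩
  · have he' : Even (i - 1) := by
      obtain ⟨j, hj⟩ := ho
      exact ⟨j, by omega⟩
    rw [if_neg (Nat.not_even_iff_odd.2 ho)] at h1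
    rw [if_pos he'] at h2
    refine ⟨a, by omega, by omega, by omega, by omega, by omega⟩

include hMGR hPAR hMMG in
theorem l1 (n : ℕ) (hn : 2 ≤ n) (hG : GG (n - 1)) (hg : gp (n - 1)) (i : ℕ) (hi : i < JJ n) :
    D3 ty n (MM n + i) (MM n + i + 1) := by
  have h0 := r0 hMGR hPAR hMMG (n - 1) (by omega) hG hg
  rw [show n - 1 + 1 = n by omega] at h0
  obtain ⟨-, b, c, -, e, -⟩ := h0
  have h1 : ty (MM n + i) = if Even i then ty (MM n) else 3 - ty n - ty (MM n) := by
    rcases Nat.eq_zero_or_pos i with rfl | hpos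
    · rw [if_pos (by decide), Nat.add_zero]
    · exact ty_left hMGR hPAR hMMG n i hn hG hpos hi.le
  have h2 := ty_left hMGR hPAR hMMG n (i + 1) hn hG (by omega) (by omega)
  rw [← Nat.add_assoc] at h2
  unfold D3
  rcases Nat.even_or_odd i with he | ho
  · have ho' : ¬ Even (i + 1) := by
      rw [Nat.not_even_iff_odd]
      exact he.add_one
    rw [if_pos he] at h1
    rw [if_neg ho'] at h2
    refine ⟨c, by omega, by omega, by omega, by omega, by omega⟩
  · have he' : Even (i + 1) := ho.add_one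
    rw [if_neg (Nat.not_even_iff_odd.2 ho)] at h1
    rw [if_pos he'] at h2
    refine ⟨c, by omega, by omega, by omega, by omega, by omega⟩

include hMGR hPAR hMMG in
theorem gp_of_GG (k : ℕ) (h : GG k) : gp k := by
  induction h with
  | one => unfold gp; rw [ty_one, ty_two]; decide
  | left n i hn hi h ih =>
    obtain ⟨-, b, c, -, e, -⟩ := l1 hMGR hPAR hMMG n hn h ih i hi
    exact ⟨b, c, e⟩
  | right n i hn hi1 hi h ih =>
    obtain ⟨-, b, c, -, e, -⟩ := r1 hMGR hPAR hMMG n hn h ih i hi1 hi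
    exact ⟨b, c, e⟩

include hMGR hMMG in
theorem GG_pos (k : ℕ) (h : GG k) : 1 ≤ k := by
  cases h with
  | one => exact le_rfl
  | left n i hn hi h => have := MM_ge hMGR hMMG n; omega
  | right n i hn hi1 hi h => have := MM_succ n; omega

end

end TYGaux

open TYGaux in
theorem TYG (hMGR : S_MGR) (hPAR : S_PAR) (hMMG : S_MMG) : S_TYG := by
  refine ⟨ty, GG, ty_zero, ty_one, ty_two, ?_, GG.one, ?_, ?_, ?_, ?_⟩
  · intro h
    have := GG_pos hMGR hMMG 0 h
    omega
  · intro n hn hG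
    exact r0 hMGR hPAR hMMG n hn hG (gp_of_GG hMGR hPAR hMMG n hG)
  · intro n hn hG i hi1 hi
    exact ⟨GG.right n i hn hi1 hi hG, r1 hMGR hPAR hMMG n hn hG (gp_of_GG hMGR hPAR hMMG n hG) i hi1 hi⟩
  · intro n hn hG i hi
    exact ⟨GG.left n i hn hi hG, l1 hMGR hPAR hMMG n hn hG (gp_of_GG hMGR hPAR hMMG _ hG) i hi⟩
  · intro k hk
    cases hk with
    | one => exact Or.inl rfl
    | left n i hn hi h => exact Or.inr (Or.inl ⟨n, i, hn, hi, h, rfl⟩)
    | right n i hn hi1 hi h => exact Or.inr (Or.inr ⟨n, i, hn, hi1, hi, h, rfl⟩)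

end H637F
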