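import Pool.Agent.H637R3.DF.Stm

/-!
One of two tangent circles is visible.
-/

namespace H637F

theorem VIS_plane {e z1 z2 : ℂ} {A B r1 r2 : ℝ} (he : ‖e‖ = 1) (hA : 0 ≤ A) (hB : 0 ≤ B)
    (hez : e = (A : ℂ) * z1 + (B : ℂ) * z2) (hr1 : 0 < r1) (hr2 : 0 < r2)
    (h1 : ‖z1‖ + r1 < 1) (h2 : ‖z2‖ + r2 < 1) (h12 : ‖z2 - z1‖ = r1 + r2) (hr : r2 ≤ r1) :
    ‖e - z1‖ ≤ 7 * (1 - ‖z1‖) := by
  have hs1 : 1 ≤ A + B := by
    calc (1 : ℝ) = ‖(A : ℂ) * z1 + (B : ℂ) * z2‖ := by rw [← hez, he]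
      _ ≤ ‖(A : ℂ) * z1‖ + ‖(B : ℂ) * z2‖ := norm_add_le _ _
      _ = A * ‖z1‖ + B * ‖z2‖ := by
        rw [norm_mul, norm_mul, Complex.norm_of_nonneg hA, Complex.norm_of_nonneg hB]
      _ ≤ A * 1 + B * 1 := by
        gcongr
        · linarith
        · linarith
      _ = A + B := by ring
  have hs : 0 < A + B := by linarith
  have hsc : ((A : ℂ) + (B : ℂ)) ≠ 0 := by
    rw [← Complex.ofReal_add]
    exact_mod_cast hs.ne'
  set Q : ℂ := ((1 / (A + B) : ℝ) : ℂ) * e with hQ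
  have q1 : ‖Q‖ = 1 / (A + B) := by
    rw [hQ, norm_mul, he, mul_one, Complex.norm_of_nonneg (by positivity)]
  have q2 : ‖e - Q‖ = 1 - 1 / (A + B) := by
    have h3 : e - Q = ((1 - 1 / (A + B) : ℝ) : ℂ) * e := by
      rw [hQ]
      push_cast
      ring
    have h4 : 1 / (A + B) ≤ 1 := by
      rw [div_le_one hs]
      exact hs1
    rw [h3, norm_mul, he, mul_one, Complex.norm_of_nonneg (by linarith)]
  have q3 : ‖Q - z1‖ ≤ r1 + r2 := by
    have h3 : Q - z1 = ((B / (A + B) : ℝ) : ℂ) * (z2 - z1) := by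
      rw [hQ, hez]
      push_cast
      field_simp
      ring
    have h4 : B / (A + B) ≤ 1 := by
      rw [div_le_one hs]
      linarith
    rw [h3, norm_mul, h12, Complex.norm_of_nonneg (by positivity)]
    have : 0 < r1 + r2 := by linarith
    nlinarith
  have q4 : ‖z1‖ ≤ ‖Q‖ + ‖Q - z1‖ := by
    have h3 : z1 = Q - (Q - z1) := by ring
    calc ‖z1‖ = ‖Q - (Q - z1)‖ := by rw [← h3]
      _ ≤ ‖Q‖ + ‖Q - z1‖ := norm_sub_le _ _
  have q5 : ‖e - z1‖ ≤ ‖e - Q‖ + ‖Q - z1‖ := by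
    have h3 : e - z1 = (e - Q) + (Q - z1) := by ring
    rw [h3]
    exact norm_add_le _ _
  linarith

theorem VIS (hEUC1 : S_EUC1) (hEUC2 : S_EUC2) : S_VIS := by
  intro X Y a b φ hX hY ha ha1 hb hb1 hm hdet hbtw
  obtain ⟨u1, u2⟩ := hEUC1 X a hX ha ha1
  obtain ⟨v1, v2⟩ := hEUC1 Y b hY hb hb1
  have h12 := hEUC2 X Y a b hX hY ha ha1 hb hb1
  rw [hm, neg_neg, sub_self, mul_zero, zero_div, add_zero] at h12
  have hn : ‖ez X a - ez Y b‖ = er X a + er Y b :=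
    (pow_left_inj₀ (norm_nonneg _) (by linarith) two_ne_zero).1 h12
  have hca : 0 < cR a := by
    unfold cR
    positivity
  have hcb : 0 < cR b := by
    unfold cR
    positivity
  have hp : 0 < X.2.2 + cR a := add_pos hX.2 hca
  have hq : 0 < Y.2.2 + cR b := add_pos hY.2 hcb
  have hD : 0 < X.1 * Y.2.1 - X.2.1 * Y.1 := by
    have : det3 OO X Y = X.1 * Y.2.1 - X.2.1 * Y.1 := by
      unfold det3 OO
      ring
    rw [← this]
    exact hdet
  obtain ⟨b1, b2⟩ := hbtw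
  have hb1' : 0 ≤ X.1 * Real.sin φ - X.2.1 * Real.cos φ := by
    have : det3 OO X (DD φ) = X.1 * Real.sin φ - X.2.1 * Real.cos φ := by
      unfold det3 OO DD
      ring
    rw [← this]
    exact b1
  have hb2' : 0 ≤ Real.cos φ * Y.2.1 - Real.sin φ * Y.1 := by
    have : det3 OO (DD φ) Y = Real.cos φ * Y.2.1 - Real.sin φ * Y.1 := by
      unfold det3 OO DD
      ring
    rw [← this]
    exact b2
  set D := X.1 * Y.2.1 - X.2.1 * Y.1 with hDdef
  set A : ℝ := (Real.cos φ * Y.2.1 - Real.sin φ * Y.1) / D * (X.2.2 + cR a) with hAdef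
  set B : ℝ := (X.1 * Real.sin φ - X.2.1 * Real.cos φ) / D * (Y.2.2 + cR b) with hBdef
  have hA : 0 ≤ A := by
    rw [hAdef]
    exact mul_nonneg (div_nonneg hb2' hD.le) hp.le
  have hB : 0 ≤ B := by
    rw [hBdef]
    exact mul_nonneg (div_nonneg hb1' hD.le) hq.le
  have he : ‖Complex.exp (φ * Complex.I)‖ = 1 := Complex.norm_exp_ofReal_mul_I φ
  have r1 : A * (X.1 / (X.2.2 + cR a)) + B * (Y.1 / (Y.2.2 + cR b)) = Real.cos φ := by
    rw [hAdef, hBdef]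
    have hD' : D ≠ 0 := hD.ne'
    field_simp
    rw [hDdef]
    ring
  have r2 : A * (X.2.1 / (X.2.2 + cR a)) + B * (Y.2.1 / (Y.2.2 + cR b)) = Real.sin φ := by
    rw [hAdef, hBdef]
    have hD' : D ≠ 0 := hD.ne'
    field_simp
    rw [hDdef]
    ring
  have hez : Complex.exp (φ * Complex.I) = (A : ℂ) * ez X a + (B : ℂ) * ez Y b := by
    rw [Complex.exp_mul_I, ← Complex.ofReal_cos, ← Complex.ofReal_sin, ← r1, ← r2]
    unfold ez
    push_cast
    ring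
  rcases le_total (er Y b) (er X a) with hr | hr
  · left
    refine VIS_plane he hA hB hez u1 v1 u2 v2 ?_ hr
    rw [norm_sub_rev]
    exact hn
  · right
    refine VIS_plane he hB hA (by rw [hez, add_comm]) v1 u1 v2 u2 ?_ hr
    rw [hn, add_comm]

end H637F
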